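import Pool.Agent.P.MP_a2ccc3_ag.ML

/-! Anticommutativity on the affine threefolds. -/

open Polynomial

noncomputable section

namespace Pool.Agent.P.MP_a2ccc3_ag

variable {N : Type} [AddCommGroup N] [Module ℚ N] {D : Dat}

theorem acx_i1i1 {K : Type} [Field K] (p : P5 K) : p.i1.i1 = p := by
  simp [P5.i1]

theorem acx_i2i2 {K : Type} [Field K] (p : P5 K) : p.i2.i2 = p := by
  simp [P5.i2]

theorem acx_i2i1 {K : Type} [Field K] (p : P5 K) : p.i2.i1 = p.i1.i2 := rfl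

theorem acx_on1 {K : Type} [Field K] [Algebra ℂ K] {p : P5 K} (hp : OnU D p) : OnU D p.i1 :=
  ⟨⟨by simpa [P5.i1] using hp.1.1, hp.1.2⟩, hp.2⟩

theorem acx_on2 {K : Type} [Field K] [Algebra ℂ K] {p : P5 K} (hp : OnU D p) : OnU D p.i2 :=
  ⟨⟨hp.1.1, by simpa [P5.i2] using hp.1.2⟩, hp.2⟩

theorem acx_G {K : Type} [Field K] [Algebra ℂ K] {p : P5 K} (hp : OnU D p) : D.G ≠ 0 := by
  intro h
  have := hp.2
  rw [GdU, h, map_zero] at this
  exact this rfl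

theorem acx_sqrt {K : Type} [Field K] [IsAlgClosed K] (a : K) : ∃ r, r ^ 2 = a :=
  IsAlgClosed.exists_pow_nat_eq a (by norm_num)

theorem acx_smul {n : N} {q : ℚ} (hq : q ≠ 0) (h : q • n = 0) : n = 0 :=
  (smul_eq_zero.1 h).resolve_left hq

omit [Module ℚ N] in
/-- The value of a square root at a place, up to the sign. -/
theorem acx_val {P : Pl Om} {ρ : Om} {r : ℂ} (h : Red P (ρ ^ 2) (r ^ 2)) :
    ∃ τ, Red P ρ τ ∧ ∀ g : ℂ → N, g τ + g (-τ) = g r + g (-r) := by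
  rcases h.of_sq with h1 | h1
  · exact ⟨r, h1, fun _ => rfl⟩
  · exact ⟨-r, h1, fun g => by rw [neg_neg, add_comm]⟩

/-- For `Φ` odd in `y₂` and `x₁` fixed, the function
`(s, x₂, y₂) ↦ Φ (s, x₁, r, x₂, y₂) + Φ (s, x₁, -r, x₂, y₂)`, `r² = Q₁(s, x₁)`, is invariant and
odd on the second surface, over `insert x₁ S`. -/
theorem mixed2 (h2 : RatZero D.Q2) {S : Set ℂ} (hD : D.Over S) (hG : D.G ≠ 0) {Φ : P5 ℂ → N}
    (hΦ : LInv1 D Φ) (ho : ∀ p, Φ p.i2 = -Φ p) {p : P5 ℂ} (hp : EqU D p) (hc : Chain S p) :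
    Φ p + Φ p.i1 = 0 := by
  choose r hr using fun s : ℂ => acx_sqrt (D.Q1.ev s p.x1)
  have hx : p.x1 ∉ cl S := Ind.notMem hc (by simp)
  have hsub : S ⊆ cl (insert p.x1 S) := fun a ha => mem_cl (Set.mem_insert_of_mem _ ha)
  have key := h2 (insert p.x1 S) (hD.2.1.mono hsub) N
    (fun q => Φ ⟨q.s, p.x1, r q.s, q.x, q.y⟩ + Φ ⟨q.s, p.x1, -r q.s, q.x, q.y⟩) ?_ ?_
    ⟨p.s, p.x2, p.y2⟩ hp.2 (Ind.perm hc (List.Perm.swap _ _ _)).2
  · rcases sq_eq_sq_iff_eq_or_eq_neg.1 ((hr p.s).trans hp.1.symm) with h | h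
    · simp only [h] at key
      exact key
    · simp only [h, neg_neg] at key
      rw [add_comm]
      exact key
  · intro J _ q θ0 θ1 n0 n1 hq h0 h1
    choose ρ hρ using fun j => acx_sqrt (D.Q1.ev (q j).s (algebraMap ℂ Om p.x1))
    have aux : ∀ (θ : ℂ) (n : N), (∀ P : Pl Om, Red P th θ → ∃ c : J → P3 ℂ,
        (∀ j, RedS P (q j) (c j) ∧ Ind (insert p.x1 S) [(c j).s, (c j).x]) ∧
        ∑ j, (Φ ⟨(c j).s, p.x1, r (c j).s, (c j).x, (c j).y⟩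
          + Φ ⟨(c j).s, p.x1, -r (c j).s, (c j).x, (c j).y⟩) = n) →
        ∀ P : Pl Om, Red P th θ → ∃ c : J × Bool → P5 ℂ,
          (∀ k : J × Bool, RedP P ⟨(q k.1).s, algebraMap ℂ Om p.x1, cond k.2 (ρ k.1) (-ρ k.1),
            (q k.1).x, (q k.1).y⟩ (c k) ∧ GdU D (c k)) ∧ ∑ k, Φ (c k) = n := by
      intro θ n h P hP
      obtain ⟨c, hc', hsum⟩ := h P hP
      have h3 : ∀ j, Red P (ρ j ^ 2) (r (c j).s ^ 2) := fun j => by
        rw [hρ, hr]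
        exact Red.ev (hc' j).1.1 (Red.const P _) _
      choose τ hτ hτ' using fun j => acx_val (N := N) (h3 j)
      refine ⟨fun k => ⟨(c k.1).s, p.x1, cond k.2 (τ k.1) (-τ k.1), (c k.1).x, (c k.1).y⟩,
        ?_, ?_⟩
      · rintro ⟨j, b⟩
        refine ⟨⟨(hc' j).1.1, Red.const P _, ?_, (hc' j).1.2.1, (hc' j).1.2.2⟩, ?_⟩
        · cases b
          · exact (hτ j).neg
          · exact hτ j
        · have h4 : Ind S [p.x1, (c j).s, (c j).x] := ⟨hx, (hc' j).2⟩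
          exact Chain.gdU (Ind.perm h4 (List.Perm.swap _ _ _)) hD hG
      · rw [← hsum, Fintype.sum_prod_type]
        refine Finset.sum_congr rfl (fun j _ => ?_)
        rw [Fintype.sum_bool]
        exact hτ' j (fun y => Φ ⟨(c j).s, p.x1, y, (c j).x, (c j).y⟩)
    refine hΦ (J × Bool) (fun k => ⟨(q k.1).s, algebraMap ℂ Om p.x1, cond k.2 (ρ k.1) (-ρ k.1),
      (q k.1).x, (q k.1).y⟩) θ0 θ1 n0 n1 ?_ (aux θ0 n0 h0) (aux θ1 n1 h1)
    rintro ⟨j, b⟩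
    refine ⟨?_, hq j⟩
    cases b
    · exact (neg_sq _).trans (hρ j)
    · exact hρ j
  · intro q
    have a := ho ⟨q.s, p.x1, r q.s, q.x, q.y⟩
    have b := ho ⟨q.s, p.x1, -r q.s, q.x, q.y⟩
    simp only [P5.i2] at a b
    simp only [P3.n, a, b, neg_add]

theorem mixed1 (h1 : RatZero D.Q1) {S : Set ℂ} (hD : D.Over S) (hG : D.G ≠ 0) {Φ : P5 ℂ → N}
    (hΦ : LInv1 D Φ) (ho : ∀ p, Φ p.i1 = -Φ p) {p : P5 ℂ} (hp : EqU D p) (hc : Chain S p) :
    Φ p + Φ p.i2 = 0 := by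
  choose r hr using fun s : ℂ => acx_sqrt (D.Q2.ev s p.x2)
  have hx : p.x2 ∉ cl S := Ind.notMem hc (by simp)
  have hsub : S ⊆ cl (insert p.x2 S) := fun a ha => mem_cl (Set.mem_insert_of_mem _ ha)
  have hperm : ∀ a b c : ℂ, [a, b, c].Perm [c, a, b] := fun a b c =>
    ((List.Perm.swap c b []).cons a).trans (List.Perm.swap c a [b])
  have key := h1 (insert p.x2 S) (hD.1.mono hsub) N
    (fun q => Φ ⟨q.s, q.x, q.y, p.x2, r q.s⟩ + Φ ⟨q.s, q.x, q.y, p.x2, -r q.s⟩) ?_ ?_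
    ⟨p.s, p.x1, p.y1⟩ hp.1 (Ind.perm hc (hperm _ _ _)).2
  · rcases sq_eq_sq_iff_eq_or_eq_neg.1 ((hr p.s).trans hp.2.symm) with h | h
    · simp only [h] at key
      exact key
    · simp only [h, neg_neg] at key
      rw [add_comm]
      exact key
  · intro J _ q θ0 θ1 n0 n1 hq h0 h1
    choose ρ hρ using fun j => acx_sqrt (D.Q2.ev (q j).s (algebraMap ℂ Om p.x2))
    have aux : ∀ (θ : ℂ) (n : N), (∀ P : Pl Om, Red P th θ → ∃ c : J → P3 ℂ,
        (∀ j, RedS P (q j) (c j) ∧ Ind (insert p.x2 S) [(c j).s, (c j).x]) ∧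
        ∑ j, (Φ ⟨(c j).s, (c j).x, (c j).y, p.x2, r (c j).s⟩
          + Φ ⟨(c j).s, (c j).x, (c j).y, p.x2, -r (c j).s⟩) = n) →
        ∀ P : Pl Om, Red P th θ → ∃ c : J × Bool → P5 ℂ,
          (∀ k : J × Bool, RedP P ⟨(q k.1).s, (q k.1).x, (q k.1).y, algebraMap ℂ Om p.x2,
            cond k.2 (ρ k.1) (-ρ k.1)⟩ (c k) ∧ GdU D (c k)) ∧ ∑ k, Φ (c k) = n := by
      intro θ n h P hP
      obtain ⟨c, hc', hsum⟩ := h P hP
      have h3 : ∀ j, Red P (ρ j ^ 2) (r (c j).s ^ 2) := fun j => by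
        rw [hρ, hr]
        exact Red.ev (hc' j).1.1 (Red.const P _) _
      choose τ hτ hτ' using fun j => acx_val (N := N) (h3 j)
      refine ⟨fun k => ⟨(c k.1).s, (c k.1).x, (c k.1).y, p.x2, cond k.2 (τ k.1) (-τ k.1)⟩,
        ?_, ?_⟩
      · rintro ⟨j, b⟩
        refine ⟨⟨(hc' j).1.1, (hc' j).1.2.1, (hc' j).1.2.2, Red.const P _, ?_⟩, ?_⟩
        · cases b
          · exact (hτ j).neg
          · exact hτ j
        · have h4 : Ind S [p.x2, (c j).s, (c j).x] := ⟨hx, (hc' j).2⟩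
          exact Chain.gdU (Ind.perm h4 (hperm _ _ _).symm) hD hG
      · rw [← hsum, Fintype.sum_prod_type]
        refine Finset.sum_congr rfl (fun j _ => ?_)
        rw [Fintype.sum_bool]
        exact hτ' j (fun y => Φ ⟨(c j).s, (c j).x, (c j).y, p.x2, y⟩)
    refine hΦ (J × Bool) (fun k => ⟨(q k.1).s, (q k.1).x, (q k.1).y, algebraMap ℂ Om p.x2,
      cond k.2 (ρ k.1) (-ρ k.1)⟩) θ0 θ1 n0 n1 ?_ (aux θ0 n0 h0) (aux θ1 n1 h1)
    rintro ⟨j, b⟩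
    refine ⟨hq j, ?_⟩
    cases b
    · exact (neg_sq _).trans (hρ j)
    · exact hρ j
  · intro q
    have a := ho ⟨q.s, q.x, q.y, p.x2, r q.s⟩
    have b := ho ⟨q.s, q.x, q.y, p.x2, -r q.s⟩
    simp only [P5.i1] at a b
    simp only [P3.n, a, b, neg_add]

/-- Add `mixed2` for `Φ - Φ ∘ i2` and `mixed1` for `Φ - Φ ∘ i1`, then `CInv1.eq_zero`. -/
theorem inv12 (h1 : RatZero D.Q1) (h2 : RatZero D.Q2) {Φ : P5 ℂ → N} (hΦ : CInv1 D Φ)
    {p : P5 ℂ} (hp : OnU D p) : Φ p.i1.i2 = Φ p := by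
  have hG := acx_G hp
  obtain ⟨S, hS, hD⟩ := D.exists_over
  have key := CInv1.eq_zero (hΦ.sub hΦ.i2.i1) hS hD hG ?_ hp
  · exact (sub_eq_zero.1 key).symm
  · intro q hq hc
    have a := mixed2 h2 hD hG (hΦ.sub hΦ.i2).linv
      (fun q => by rw [acx_i2i2, neg_sub]) hq hc
    have b := mixed1 h1 hD hG (hΦ.sub hΦ.i1).linv
      (fun q => by rw [acx_i1i1, neg_sub]) hq hc
    rw [acx_i2i1] at b
    refine acx_smul (q := 2) (by norm_num) ?_
    rw [two_smul]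
    have := congrArg₂ (· + ·) a b
    simp only [add_zero] at this
    rw [← this]
    abel

theorem acx_four {Φ : P5 ℂ → N} (hΦ : CInv1 D Φ) (h12 : ∀ q, OnU D q → Φ q.i1.i2 = Φ q)
    {p o : P5 ℂ} (hp : OnU D p) (ho : OnU D o) :
    (4 : ℚ) • (Φ p - Φ o) = dd Φ p - dd Φ o := by
  have h := hΦ.linv.sum4 hp ho
  have a := h12 p hp
  have b := h12 o ho
  rw [dd, dd]
  rw [a, b] at h ⊢
  have h4 : (4 : ℚ) = 1 + 1 + 1 + 1 := by norm_num
  rw [h4, add_smul, add_smul, add_smul, one_smul]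
  have h' := sub_eq_zero.2 h
  rw [← sub_eq_zero, ← h']
  abel

/-- `4 Φ - dd Φ` is the sum over the four signs, which is constant. So sixteen times the
expression is the same expression for `Ψ = dd dd Λ`, and `Ψ` vanishes by `PsiZero` and two
applications of `CInv1.eq_zero` (`gen6_of_chain`). -/
theorem ac_of (hΨ : PsiZero D.Q1 D.Q2) {Λ : P5 ℂ → P5 ℂ → N} (hΛ : CInv2 D Λ)
    (hs : ∀ p p', Λ p p' = Λ p' p)
    (h12 : ∀ p p', OnU D p → OnU D p' → Λ p.i1.i2 p' = Λ p p') {p p' o : P5 ℂ} (hp : OnU D p)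
    (hp' : OnU D p') (ho : OnU D o) : Λ p p' - Λ o p' - Λ p o + Λ o o = 0 := by
  have hG := acx_G hp
  obtain ⟨S, hS, hD⟩ := D.exists_over
  have hL : CInv2 D fun p p' => dd (fun r => Λ r p') p := hΛ.dd
  have hP : CInv2 D fun p p' => dd (fun r' => dd (fun r => Λ r r') p) p' := hL.swap.dd.swap
  have hgen : ∀ q q', EqU D q → EqU D q' → Gen6 S q q' →
      dd (fun r' => dd (fun r => Λ r r') q) q' = 0 := by
    refine hΨ S hD.1 hD.2.1 N (fun p p' => dd (fun r' => dd (fun r => Λ r r') p) p') ?_ ?_ ?_ ?_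
    · exact LInv.comp hP.linv id id (fun _ h => h) (fun _ _ _ h => h)
        (fun c hc => ⟨hc.left.gdU hD hG, hc.right.gdU hD hG⟩)
    · intro q q'
      simp only [dd, hs q, hs q.i1, hs q.i2, hs q.i1.i2]
      abel
    · intro q q'
      simp only [dd, acx_i1i1]
      abel
    · intro q q'
      simp only [dd, acx_i2i1, acx_i2i2]
      abel
  have hz1 : ∀ q q', EqU D q → Chain S q → OnU D q' →
      dd (fun r' => dd (fun r => Λ r r') q) q' = 0 := by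
    intro q q' hq hc hq'
    have hS' : (S ∪ {q.s, q.x1, q.x2}).Countable := hS.union (Set.toFinite _).countable
    exact CInv1.eq_zero (hP.right ⟨hq, hc.gdU hD hG⟩) hS'
      (hD.mono (fun a ha => mem_cl (Or.inl ha))) hG
      (fun r hr hc' => hgen q r hq hr (gen6_of_chain hc hc')) hq'
  have hz : ∀ q q', OnU D q → OnU D q' → dd (fun r' => dd (fun r => Λ r r') q) q' = 0 :=
    fun q q' hq hq' => CInv1.eq_zero (hP.left hq') hS hD hG
      (fun r hr hc => hz1 r q' hr hc hq') hq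
  have h21 : ∀ q q', OnU D q → OnU D q' → Λ q q'.i1.i2 = Λ q q' := fun q q' hq hq' => by
    rw [hs, h12 q' q hq' hq, hs]
  have e1 : ∀ q, OnU D q → (4 : ℚ) • (Λ p q - Λ o q)
      = dd (fun r => Λ r q) p - dd (fun r => Λ r q) o := fun q hq =>
    acx_four (hΛ.left hq) (fun r hr => h12 r q hr hq) hp ho
  have e2 : ∀ q, OnU D q → dd (fun r => Λ r p') q = dd (fun r => Λ r o) q := by
    intro q hq
    have := acx_four (hL.right hq) (fun r hr => by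
      simp only [dd]
      rw [h21 _ _ hq hr, h21 _ _ (acx_on1 hq) hr, h21 _ _ (acx_on2 hq) hr,
        h21 _ _ (acx_on2 (acx_on1 hq)) hr]) hp' ho
    rw [hz q p' hq hp', hz q o hq ho, sub_self] at this
    exact sub_eq_zero.1 (acx_smul (by norm_num) this)
  refine acx_smul (q := 4) (by norm_num) ?_
  have e3 : Λ p p' - Λ o p' - Λ p o + Λ o o = (Λ p p' - Λ o p') - (Λ p o - Λ o o) := by abel
  rw [e3, smul_sub, e1 p' hp', e1 o ho, e2 p hp, e2 o ho, sub_self]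

theorem acx_ev {R R' : Type} [CommRing R] [Algebra ℂ R] [CommRing R'] [Algebra ℂ R']
    (φ : R →ₐ[ℂ] R') (Q : Quart) (s x : R) : φ (Q.ev s x) = Q.ev (φ s) (φ x) := by
  simp only [Quart.ev, map_add, map_mul, map_pow, Polynomial.aeval_algHom_apply]

theorem acx_mv {R R' : Type} [CommRing R] [Algebra ℂ R] [CommRing R'] [Algebra ℂ R']
    (φ : R →ₐ[ℂ] R') (G : MvPolynomial (Fin 3) ℂ) (a b c : R) :
    φ (MvPolynomial.aeval ![a, b, c] G) = MvPolynomial.aeval ![φ a, φ b, φ c] G := by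
  rw [← AlgHom.comp_apply, MvPolynomial.comp_aeval]
  congr 2
  funext i
  fin_cases i <;> rfl

open MvPolynomial in
theorem acx_fib_ker {K : Type} [Field K] [Algebra ℂ K] (D : Dat) (p : P5 K) (hp : OnU D p) :
    ∀ a ∈ Ideal.span ({X 3 ^ 2 - D.Q1.ev (X 0) (X 1), X 4 ^ 2 - D.Q2.ev (X 0) (X 2),
      X 5 * MvPolynomial.aeval ![X 0, X 1, X 2] D.G - 1} : Set (MvPolynomial (Fin 6) ℂ)),
      MvPolynomial.aeval ![p.s, p.x1, p.x2, p.y1, p.y2,
        (MvPolynomial.aeval ![p.s, p.x1, p.x2] D.G)⁻¹] a = 0 := by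
  intro a ha
  refine RingHom.mem_ker.1 (Ideal.span_le.2 ?_ ha)
  rintro b (rfl | rfl | rfl)
  · refine RingHom.mem_ker.2 ?_
    rw [map_sub, map_pow, acx_ev]
    simp only [MvPolynomial.aeval_X]
    exact sub_eq_zero.2 hp.1.1
  · refine RingHom.mem_ker.2 ?_
    rw [map_sub, map_pow, acx_ev]
    simp only [MvPolynomial.aeval_X]
    exact sub_eq_zero.2 hp.1.2
  · refine RingHom.mem_ker.2 ?_
    rw [map_sub, map_mul, map_one, acx_mv]
    simp only [MvPolynomial.aeval_X]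
    exact sub_eq_zero.2 (inv_mul_cancel₀ hp.2)

open MvPolynomial in
theorem acx_kum_ker {K : Type} [Field K] [Algebra ℂ K] (D : Dat) (p : P5 K) (hp : OnU D p) :
    ∀ a ∈ Ideal.span ({X 3 ^ 2 - D.Q1.ev (X 0) (X 1) * D.Q2.ev (X 0) (X 2),
      X 4 * MvPolynomial.aeval ![X 0, X 1, X 2] D.G - 1} : Set (MvPolynomial (Fin 5) ℂ)),
      MvPolynomial.aeval ![p.s, p.x1, p.x2, p.y1 * p.y2,
        (MvPolynomial.aeval ![p.s, p.x1, p.x2] D.G)⁻¹] a = 0 := by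
  intro a ha
  refine RingHom.mem_ker.1 (Ideal.span_le.2 ?_ ha)
  rintro b (rfl | rfl)
  · refine RingHom.mem_ker.2 ?_
    rw [map_sub, map_pow, map_mul, acx_ev, acx_ev]
    simp only [MvPolynomial.aeval_X]
    refine sub_eq_zero.2 ?_
    exact (mul_pow _ _ _).trans (congrArg₂ (· * ·) hp.1.1 hp.1.2)
  · refine RingHom.mem_ker.2 ?_
    rw [map_sub, map_mul, map_one, acx_mv]
    simp only [MvPolynomial.aeval_X]
    exact sub_eq_zero.2 (inv_mul_cancel₀ hp.2)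

/-- The homomorphism given by a point. -/
def fibPt {K : Type} [Field K] [Algebra ℂ K] (D : Dat) (p : P5 K) (hp : OnU D p) :
    FibRing D.Q1 D.Q2 D.G →ₐ[ℂ] K :=
  Ideal.Quotient.liftₐ _ (MvPolynomial.aeval ![p.s, p.x1, p.x2, p.y1, p.y2,
    (MvPolynomial.aeval ![p.s, p.x1, p.x2] D.G)⁻¹]) (acx_fib_ker D p hp)

/-- The homomorphism given by a point, with `w = y₁ y₂`. -/
def kumPt {K : Type} [Field K] [Algebra ℂ K] (D : Dat) (p : P5 K) (hp : OnU D p) :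
    KumRing D.Q1 D.Q2 D.G →ₐ[ℂ] K :=
  Ideal.Quotient.liftₐ _ (MvPolynomial.aeval ![p.s, p.x1, p.x2, p.y1 * p.y2,
    (MvPolynomial.aeval ![p.s, p.x1, p.x2] D.G)⁻¹]) (acx_kum_ker D p hp)

theorem acx_redG {K : Type} [Field K] [Algebra ℂ K] {P : Pl K} {p : P5 K} {c : P5 ℂ}
    (h : RedP P p c) (G : MvPolynomial (Fin 3) ℂ) :
    Red P (MvPolynomial.aeval ![p.s, p.x1, p.x2] G) (MvPolynomial.aeval ![c.s, c.x1, c.x2] G) := by
  refine Red.mv (fun i => ?_) G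
  fin_cases i
  · exact h.1
  · exact h.2.1
  · exact h.2.2.2.1

/-- Transfer from points of the affine threefold to homomorphisms of a coordinate ring. -/
theorem acx_gen {R : Type} [CommRing R] [Algebra ℂ R] (D : Dat) (hΨ : PsiZero D.Q1 D.Q2)
    (pt : ∀ (K : Type) [Field K] [Algebra ℂ K] (p : P5 K), OnU D p → (R →ₐ[ℂ] K))
    (hred : ∀ (K : Type) [Field K] [Algebra ℂ K] (P : Pl K) (p : P5 K) (c : P5 ℂ) (hp : OnU D p)
      (hc : OnU D c), RedP P p c → ∀ r, Red P (pt K p hp r) (pt ℂ c hc r))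
    (hsurj : ∀ c : R →ₐ[ℂ] ℂ, ∃ p hp, pt ℂ p hp = c)
    (h12 : (RatZero D.Q1 ∧ RatZero D.Q2) ∨
      ∀ (p : P5 ℂ) (hp : OnU D p), pt ℂ p.i1.i2 (acx_on2 (acx_on1 hp)) = pt ℂ p hp) : ACR R := by
  classical
  intro N _ _ Λ hΛ hs c c' o
  obtain ⟨p, hp, rfl⟩ := hsurj c
  obtain ⟨p', hp', rfl⟩ := hsurj c'
  obtain ⟨o, ho, rfl⟩ := hsurj o
  let e : P5 ℂ → (R →ₐ[ℂ] ℂ) := fun q => if h : OnU D q then pt ℂ q h else pt ℂ o ho
  have he : ∀ q (h : OnU D q), e q = pt ℂ q h := fun q h => dif_pos h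
  have hC : CInv2 D fun q q' => Λ (e q) (e q') := by
    intro K _ _ _ q q' f d d' hf hq hq' hd
    rcases (dv f).support.eq_empty_or_nonempty with h0 | ⟨P0, h0⟩
    · rw [h0, Finset.sum_empty]
    obtain ⟨a1, a2, a3, a4⟩ := hd P0 (mem_support_dv.1 h0)
    have hq1 : OnU D q := ⟨hq, (acx_redG a1 D.G).ne_zero a2⟩
    have hq2 : OnU D q' := ⟨hq', (acx_redG a3 D.G).ne_zero a4⟩
    refine hΛ K (pt K q hq1) (pt K q' hq2) f (fun P => e (d P)) (fun P => e (d' P)) hf ?_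
    intro P hP
    obtain ⟨b1, b2, b3, b4⟩ := hd P hP
    have c1 : OnU D (d P) := ⟨EqF.red hq b1, b2⟩
    have c2 : OnU D (d' P) := ⟨EqF.red hq' b3, b4⟩
    simp only [he _ c1, he _ c2]
    exact ⟨hred K P q _ hq1 c1 b1, hred K P q' _ hq2 c2 b3⟩
  have key := ac_of hΨ hC (fun q q' => hs _ _) ?_ hp hp' ho
  · simpa only [he _ hp, he _ hp', he _ ho] using key
  · intro q q' hq hq'
    rcases h12 with ⟨h1, h2⟩ | h12
    · exact inv12 h1 h2 (hC.left hq') hq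
    · rw [he _ (acx_on2 (acx_on1 hq)), he _ hq, h12 q hq]

theorem acx_fib_mk {K : Type} [Field K] [Algebra ℂ K] (D : Dat) (p : P5 K) (hp : OnU D p)
    (g : MvPolynomial (Fin 6) ℂ) :
    fibPt D p hp (Ideal.Quotient.mk _ g) = MvPolynomial.aeval ![p.s, p.x1, p.x2, p.y1, p.y2,
      (MvPolynomial.aeval ![p.s, p.x1, p.x2] D.G)⁻¹] g := rfl

theorem acx_kum_mk {K : Type} [Field K] [Algebra ℂ K] (D : Dat) (p : P5 K) (hp : OnU D p)
    (g : MvPolynomial (Fin 5) ℂ) :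
    kumPt D p hp (Ideal.Quotient.mk _ g) = MvPolynomial.aeval ![p.s, p.x1, p.x2, p.y1 * p.y2,
      (MvPolynomial.aeval ![p.s, p.x1, p.x2] D.G)⁻¹] g := rfl

/-- Put `Λ' p p' = Λ (fibPt p) (fibPt p')` on `OnU` and `0` elsewhere. Every complex point is
`fibPt p`. -/
theorem acr_fib {Q1 Q2 : Quart} (G : MvPolynomial (Fin 3) ℂ) (h1 : RatZero Q1) (h2 : RatZero Q2)
    (hΨ : PsiZero Q1 Q2) : ACR (FibRing Q1 Q2 G) := by
  refine acx_gen ⟨Q1, Q2, G⟩ hΨ (fun K _ _ p hp => fibPt ⟨Q1, Q2, G⟩ p hp) ?_ ?_ (Or.inl ⟨h1, h2⟩)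
  · intro K _ _ P p c hp hc h r
    obtain ⟨g, rfl⟩ := Ideal.Quotient.mk_surjective r
    rw [acx_fib_mk, acx_fib_mk]
    refine Red.mv (fun i => ?_) g
    fin_cases i
    · exact h.1
    · exact h.2.1
    · exact h.2.2.2.1
    · exact h.2.2.1
    · exact h.2.2.2.2
    · exact (acx_redG h G).inv hc.2
  · intro c
    let φ : MvPolynomial (Fin 6) ℂ →ₐ[ℂ] ℂ := c.comp (Ideal.Quotient.mkₐ ℂ _)
    have hφ : ∀ g : MvPolynomial (Fin 6) ℂ, φ g = c (Ideal.Quotient.mk _ g) := fun _ => rfl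
    have r1 : φ (MvPolynomial.X 3 ^ 2 - Q1.ev (MvPolynomial.X 0) (MvPolynomial.X 1)) = 0 := by
      rw [hφ, Ideal.Quotient.eq_zero_iff_mem.2 (Ideal.subset_span (by simp)), map_zero]
    have r2 : φ (MvPolynomial.X 4 ^ 2 - Q2.ev (MvPolynomial.X 0) (MvPolynomial.X 2)) = 0 := by
      rw [hφ, Ideal.Quotient.eq_zero_iff_mem.2 (Ideal.subset_span (by simp)), map_zero]
    have r3 : φ (MvPolynomial.X 5 * MvPolynomial.aeval
        ![MvPolynomial.X 0, MvPolynomial.X 1, MvPolynomial.X 2] G - 1) = 0 := by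
      rw [hφ, Ideal.Quotient.eq_zero_iff_mem.2 (Ideal.subset_span (by simp)), map_zero]
    rw [map_sub, map_pow, acx_ev, sub_eq_zero] at r1 r2
    rw [map_sub, map_mul, map_one, acx_mv, sub_eq_zero] at r3
    have hon : OnU ⟨Q1, Q2, G⟩ (⟨φ (MvPolynomial.X 0), φ (MvPolynomial.X 1), φ (MvPolynomial.X 3),
        φ (MvPolynomial.X 2), φ (MvPolynomial.X 4)⟩ : P5 ℂ) :=
      ⟨⟨r1, r2⟩, right_ne_zero_of_mul_eq_one r3⟩
    refine ⟨_, hon, ?_⟩
    refine Ideal.Quotient.algHom_ext ℂ (MvPolynomial.algHom_ext fun i => ?_)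
    refine (acx_fib_mk _ _ hon (MvPolynomial.X i)).trans ?_
    show _ = φ (MvPolynomial.X i)
    rw [MvPolynomial.aeval_X]
    fin_cases i
    · rfl
    · rfl
    · rfl
    · rfl
    · rfl
    · exact (eq_inv_of_mul_eq_one_left r3).symm

theorem acr_kum {Q1 Q2 : Quart} (G : MvPolynomial (Fin 3) ℂ) (hΨ : PsiZero Q1 Q2) :
    ACR (KumRing Q1 Q2 G) := by
  refine acx_gen ⟨Q1, Q2, G⟩ hΨ (fun K _ _ p hp => kumPt ⟨Q1, Q2, G⟩ p hp) ?_ ?_ (Or.inr ?_)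
  · intro K _ _ P p c hp hc h r
    obtain ⟨g, rfl⟩ := Ideal.Quotient.mk_surjective r
    rw [acx_kum_mk, acx_kum_mk]
    refine Red.mv (fun i => ?_) g
    fin_cases i
    · exact h.1
    · exact h.2.1
    · exact h.2.2.2.1
    · exact h.2.2.1.mul h.2.2.2.2
    · exact (acx_redG h G).inv hc.2
  · intro c
    let φ : MvPolynomial (Fin 5) ℂ →ₐ[ℂ] ℂ := c.comp (Ideal.Quotient.mkₐ ℂ _)
    have hφ : ∀ g : MvPolynomial (Fin 5) ℂ, φ g = c (Ideal.Quotient.mk _ g) := fun _ => rfl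
    have r1 : φ (MvPolynomial.X 3 ^ 2 - Q1.ev (MvPolynomial.X 0) (MvPolynomial.X 1)
        * Q2.ev (MvPolynomial.X 0) (MvPolynomial.X 2)) = 0 := by
      rw [hφ, Ideal.Quotient.eq_zero_iff_mem.2 (Ideal.subset_span (by simp)), map_zero]
    have r3 : φ (MvPolynomial.X 4 * MvPolynomial.aeval
        ![MvPolynomial.X 0, MvPolynomial.X 1, MvPolynomial.X 2] G - 1) = 0 := by
      rw [hφ, Ideal.Quotient.eq_zero_iff_mem.2 (Ideal.subset_span (by simp)), map_zero]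
    rw [map_sub, map_pow, map_mul, acx_ev, acx_ev, sub_eq_zero] at r1
    rw [map_sub, map_mul, map_one, acx_mv, sub_eq_zero] at r3
    obtain ⟨y2, hy2⟩ := acx_sqrt (Q2.ev (φ (MvPolynomial.X 0)) (φ (MvPolynomial.X 2)))
    obtain ⟨y1, hy1, hw⟩ : ∃ y1 : ℂ, y1 ^ 2 = Q1.ev (φ (MvPolynomial.X 0)) (φ (MvPolynomial.X 1))
        ∧ y1 * y2 = φ (MvPolynomial.X 3) := by
      obtain ⟨y, hy⟩ := acx_sqrt (Q1.ev (φ (MvPolynomial.X 0)) (φ (MvPolynomial.X 1)))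
      have h : (y * y2) ^ 2 = φ (MvPolynomial.X 3) ^ 2 := by rw [mul_pow, hy, hy2, r1]
      rcases sq_eq_sq_iff_eq_or_eq_neg.1 h with h | h
      · exact ⟨y, hy, h⟩
      · exact ⟨-y, (neg_sq _).trans hy, by rw [neg_mul, h, neg_neg]⟩
    have hon : OnU ⟨Q1, Q2, G⟩ (⟨φ (MvPolynomial.X 0), φ (MvPolynomial.X 1), y1,
        φ (MvPolynomial.X 2), y2⟩ : P5 ℂ) := ⟨⟨hy1, hy2⟩, right_ne_zero_of_mul_eq_one r3⟩
    refine ⟨_, hon, ?_⟩
    refine Ideal.Quotient.algHom_ext ℂ (MvPolynomial.algHom_ext fun i => ?_)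
    refine (acx_kum_mk _ _ hon (MvPolynomial.X i)).trans ?_
    show _ = φ (MvPolynomial.X i)
    rw [MvPolynomial.aeval_X]
    fin_cases i
    · rfl
    · rfl
    · rfl
    · exact hw
    · exact (eq_inv_of_mul_eq_one_left r3).symm
  · intro p hp
    refine Ideal.Quotient.algHom_ext ℂ (MvPolynomial.algHom_ext fun i => ?_)
    refine (acx_kum_mk _ _ (acx_on2 (acx_on1 hp)) (MvPolynomial.X i)).trans
      (Eq.trans ?_ (acx_kum_mk _ _ hp (MvPolynomial.X i)).symm)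
    simp only [P5.i1, P5.i2, neg_mul_neg]

end Pool.Agent.P.MP_a2ccc3_ag
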