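import Pool.Agent.P.MP_a2ccc3_ag.RedF

/-! Places, specialisation and the relations in the Chow group. -/

open CategoryTheory CategoryTheory.Limits AlgebraicGeometry

noncomputable section

namespace Pool.Agent.P.MP_a2ccc3_ag

variable {K : Type} [Field K] [Algebra ℂ K]

/-- A place of the library as a place of the statement. -/
def ofPl (P : Pl K) : Place K where
  O := { P.O.toSubring with algebraMap_mem' := P.const_mem }
  ne_top := fun h => P.ne_top (eq_top_iff.2 fun x _ =>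
    (h.ge : (⊤ : Subalgebra ℂ K) ≤ _) (Algebra.mem_top (x := x)))
  mem_or_inv_mem := P.O.mem_or_inv_mem

theorem mem_ofPl {P : Pl K} {x : K} : x ∈ (ofPl P).O ↔ x ∈ P.O := Iff.rfl

theorem ofPl_bijective : Function.Bijective (ofPl (K := K)) := by
  constructor
  · intro P Q h
    refine MP_a2beea_nt.RR.Place.ext (ValuationSubring.ext _ _ fun x => ?_)
    rw [← mem_ofPl, ← mem_ofPl, h]
  · rintro ⟨O, h1, h2⟩
    refine ⟨⟨⟨O.toSubring, h2⟩, fun h => h1 (eq_top_iff.2 fun x _ => ?_), O.algebraMap_mem⟩, rfl⟩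
    exact (h.ge : (⊤ : ValuationSubring K) ≤ _) (ValuationSubring.mem_top x)

theorem hasOrd_ofPl [FF K] (P : Pl K) {f : K} (hf : f ≠ 0) : HasOrd (ofPl P) f (P.ord f) := by
  obtain ⟨z, z0, z1⟩ := P.exists_unif
  have hz := zpow_ne_zero (P.ord f) z0
  refine ⟨z, P.mem_iff.2 (by omega), fun h => ?_, fun x _ hx => ?_, P.mem_iff.2 ?_,
    P.mem_iff.2 ?_⟩
  · have h1 := P.mem_iff.1 h
    rw [P.ord_inv] at h1
    omega
  · have h1 := P.notMem_iff.1 hx
    rw [P.ord_inv] at h1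
    have h0 : x ≠ 0 := by
      rintro rfl
      exact hx (by rw [inv_zero]; exact zero_mem _)
    refine P.mem_iff.2 ?_
    rw [P.ord_div h0 z0]
    omega
  · rw [P.ord_div hf hz, P.ord_zpow, z1]; omega
  · rw [P.ord_div hz hf, P.ord_zpow, z1]; omega

theorem isCurveField [FF K] : IsCurveField K := by
  obtain ⟨K0, u, h⟩ := MP_a2beea_nt.RR.IsFF.ex (k := ℂ) (F := K)
  refine ⟨u, h.trans, ?_⟩
  rw [h.adj]
  exact h.fin

theorem exists_res [FF K] (P : Pl K) :
    ∃ r : (ofPl P).O →ₐ[ℂ] ℂ, ∀ x : (ofPl P).O, Red P (x : K) (r x) := by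
  choose r hr using fun x : (ofPl P).O => exists_red (P := P) (mem_ofPl.1 x.2)
  exact ⟨{ toFun := r
           map_one' := (hr 1).unique (Red.one P)
           map_mul' := fun x y => (hr (x * y)).unique ((hr x).mul (hr y))
           map_zero' := (hr 0).unique (Red.zero P)
           map_add' := fun x y => (hr (x + y)).unique ((hr x).add (hr y))
           commutes' := fun c => (hr (algebraMap ℂ _ c)).unique (Red.const P c) }, hr⟩

/-- The residue homomorphism. -/
def res [FF K] (P : Pl K) : (ofPl P).O →ₐ[ℂ] ℂ := (exists_res P).choose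

theorem red_res [FF K] (P : Pl K) (x : (ofPl P).O) : Red P (x : K) (res P x) :=
  (exists_res P).choose_spec x

/-- `Specializes` with the residue homomorphism. -/
def Spc [FF K] (P : Pl K) {Y : Var} (η : Pt K Y) (y : Pt ℂ Y) : Prop :=
  ∃ ξ : Pt (ofPl P).O Y, specMap (ofPl P).O.val ≫ ξ = η ∧ specMap (res P) ≫ ξ = y

theorem specMap_comp {R S T : Type} [CommRing R] [Algebra ℂ R] [CommRing S] [Algebra ℂ S]
    [CommRing T] [Algebra ℂ T] (f : R →ₐ[ℂ] S) (g : S →ₐ[ℂ] T) :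
    specMap (g.comp f) = specMap g ≫ specMap f := by
  refine Over.OverMorphism.ext ?_
  show Spec.map _ = Spec.map _ ≫ Spec.map _
  rw [← Spec.map_comp, ← CommRingCat.ofHom_comp]
  rfl

theorem specMap_id (R : Type) [CommRing R] [Algebra ℂ R] : specMap (AlgHom.id ℂ R) = 𝟙 _ := by
  refine Over.OverMorphism.ext ?_
  exact Spec.map_id _

variable [FF K] {P : Pl K} {Y Z : Var}

theorem Spc.comp {η : Pt K Y} {y : Pt ℂ Y} (h : Spc P η y) (g : Y ⟶ Z) : Spc P (η ≫ g) (y ≫ g) := by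
  obtain ⟨ξ, h1, h2⟩ := h
  exact ⟨ξ ≫ g, by rw [← Category.assoc, h1], by rw [← Category.assoc, h2]⟩

theorem Spc.affine {R : Type} [CommRing R] [Algebra ℂ R] {η : R →ₐ[ℂ] K} {c : R →ₐ[ℂ] ℂ}
    (h : ∀ r, Red P (η r) (c r)) : Spc P (specMap η) (specMap c) := by
  refine ⟨specMap (η.codRestrict (ofPl P).O fun r => (h r).mem), ?_, ?_⟩
  · rw [← specMap_comp]
    rfl
  · rw [← specMap_comp]
    refine congrArg specMap (AlgHom.ext fun r => ?_)
    exact (red_res P ⟨η r, (h r).mem⟩).unique (h r)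

theorem Spc.const (P : Pl K) (y : Pt ℂ Y) : Spc P (specMap (Algebra.ofId ℂ K) ≫ y) y := by
  have h := (Spc.affine (P := P) (η := Algebra.ofId ℂ K) (c := AlgHom.id ℂ ℂ)
    (fun r => Red.const P r)).comp y
  rwa [specMap_id, Category.id_comp] at h

theorem Spc.pi {k : ℕ} {η : Fin k → Pt K Y} {y : Fin k → Pt ℂ Y} (h : ∀ i, Spc P (η i) (y i)) :
    Spc (Y := pow Y k) P (Pi.lift η) (Pi.lift y) := by
  choose ξ h1 h2 using h
  refine ⟨Pi.lift ξ, Pi.hom_ext _ _ fun i => ?_, Pi.hom_ext _ _ fun i => ?_⟩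
  · rw [Category.assoc, Pi.lift_π, Pi.lift_π, h1]
  · rw [Category.assoc, Pi.lift_π, Pi.lift_π, h2]

theorem rel_of (η : Pt K Y) {f : K} (hf : f ≠ 0) (y : Pl K → Pt ℂ Y)
    (h : ∀ P : Pl K, P.ord f ≠ 0 → Spc P η (y P)) :
    ∑ P ∈ (dv f).support, (P.ord f : ℚ) • Finsupp.single (y P) (1 : ℚ) ∈ ratRel Y := by
  let e : Pl K ≃ Place K := Equiv.ofBijective _ ofPl_bijective
  refine Submodule.subset_span ⟨K, _, _, η, f, (dv f).equivMapDomain e, fun Q => y (e.symm Q),
    isCurveField, hf, fun Q => ?_, fun Q hQ => ?_, ?_⟩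
  · obtain ⟨P, rfl⟩ := e.surjective Q
    rw [Finsupp.equivMapDomain_apply, e.symm_apply_apply]
    exact hasOrd_ofPl P hf
  · obtain ⟨P, rfl⟩ := e.surjective Q
    rw [Finsupp.mem_support_iff, Finsupp.equivMapDomain_apply, e.symm_apply_apply] at hQ
    obtain ⟨ξ, h1, h2⟩ := h P hQ
    simp only [e.symm_apply_apply]
    exact ⟨ξ, res P, h1, h2⟩
  · rw [Finsupp.sum_equivMapDomain]
    refine Finset.sum_congr rfl fun P _ => ?_
    simp only [e.symm_apply_apply, Finsupp.smul_single, smul_eq_mul, mul_one]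
    rfl

end Pool.Agent.P.MP_a2ccc3_ag
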