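import Pool.Agent.P.MP_a2ccc3_ag.Core

/-! Algebraic closure inside the complex numbers, independence, derivations. -/

open Polynomial

noncomputable section

namespace Pool.Agent.P.MP_a2ccc3_ag

variable {S T : Set ℂ} {a b x : ℂ} {l l' : List ℂ} {p q : ℂ[X]}

theorem mem_cl_iff : x ∈ cl S ↔ IsAlgebraic (IntermediateField.adjoin ℚ S) x := by
  have h : cl S = (algebraicClosure (IntermediateField.adjoin ℚ S) ℂ).toSubfield :=
    Subfield.closure_eq (algebraicClosure (IntermediateField.adjoin ℚ S) ℂ).toSubfield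
  rw [h]
  exact mem_algebraicClosure_iff

theorem clx_coe (S : Set ℂ) :
    (cl S : Set ℂ) = (AlgebraicIndependent.matroid ℚ ℂ).closure S := by
  ext x
  rw [AlgebraicIndependent.matroid_closure_eq, SetLike.mem_coe, SetLike.mem_coe, mem_cl_iff,
    IntermediateField.isAlgebraic_adjoin_iff]
  exact Iff.rfl

theorem subset_cl (S : Set ℂ) : S ⊆ cl S := by
  rw [clx_coe]
  exact Matroid.subset_closure _ _ (Set.subset_univ _)

theorem mem_cl (h : x ∈ S) : x ∈ cl S := subset_cl S h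

theorem cl_mono (h : S ⊆ T) : cl S ≤ cl T := by
  rw [← SetLike.coe_subset_coe, clx_coe, clx_coe]
  exact Matroid.closure_subset_closure _ h

/-- Transitivity. -/
theorem cl_le (h : S ⊆ cl T) : cl S ≤ cl T := by
  rw [← SetLike.coe_subset_coe, clx_coe, clx_coe]
  rw [clx_coe] at h
  exact Matroid.closure_subset_closure_of_subset_closure h

theorem mem_cl_insert (S : Set ℂ) (a : ℂ) : a ∈ cl (insert a S) := mem_cl (Set.mem_insert _ _)

theorem cl_le_insert (S : Set ℂ) (a : ℂ) : cl S ≤ cl (insert a S) :=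
  cl_mono (Set.subset_insert _ _)

theorem mem_cl_of_root (hp : PC S p) (h0 : p ≠ 0) (hx : p.eval x = 0) : x ∈ cl S := by
  have h1 : x ∈ cl (cl S : Set ℂ) := by
    rw [mem_cl_iff]
    have hl : p ∈ lifts (algebraMap (IntermediateField.adjoin ℚ (cl S : Set ℂ)) ℂ) := by
      rw [lifts_iff_coeff_lifts]
      intro n
      exact ⟨⟨p.coeff n, IntermediateField.subset_adjoin ℚ _ (hp n)⟩, rfl⟩
    obtain ⟨q, rfl⟩ := hl
    refine ⟨q, fun e => h0 (by rw [e, map_zero]), ?_⟩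
    rwa [coe_mapRingHom, eval_map_algebraMap] at hx
  exact cl_le (fun _ h => h) h1

theorem clx_PC_iff : PC S p ↔ p ∈ lifts (cl S).subtype := by
  rw [lifts_iff_coeff_lifts]
  exact forall_congr' fun n => ⟨fun h => ⟨⟨_, h⟩, rfl⟩, fun ⟨y, h⟩ => h ▸ y.2⟩

theorem clx_C (h : a ∈ cl S) : PC S (C a) := clx_PC_iff.2 (C_mem_lifts (cl S).subtype ⟨a, h⟩)

theorem clx_X (S : Set ℂ) : PC S X := clx_PC_iff.2 (X_mem_lifts _)

theorem clx_add (hp : PC S p) (hq : PC S q) : PC S (p + q) :=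
  clx_PC_iff.2 (add_mem (clx_PC_iff.1 hp) (clx_PC_iff.1 hq))

theorem clx_mul (hp : PC S p) (hq : PC S q) : PC S (p * q) :=
  clx_PC_iff.2 (mul_mem (clx_PC_iff.1 hp) (clx_PC_iff.1 hq))

theorem clx_pow (hp : PC S p) (n : ℕ) : PC S (p ^ n) :=
  clx_PC_iff.2 (pow_mem (clx_PC_iff.1 hp) n)

theorem mem_cl_of_pow {n : ℕ} (hn : n ≠ 0) (h : x ^ n ∈ cl S) : x ∈ cl S := by
  refine mem_cl_of_root (p := X ^ n + C (-x ^ n))
    (clx_add (clx_pow (clx_X S) n) (clx_C (neg_mem h))) (monic_X_pow_add_C _ hn).ne_zero ?_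
  simp

theorem mem_cl_of_quad {u v w : ℂ} (hu : u ∈ cl S) (hv : v ∈ cl S) (hw : w ∈ cl S) (h0 : u ≠ 0)
    (h : u * x ^ 2 + v * x + w = 0) : x ∈ cl S := by
  refine mem_cl_of_root (p := C u * X ^ 2 + C v * X + C w)
    (clx_add (clx_add (clx_mul (clx_C hu) (clx_pow (clx_X S) 2)) (clx_mul (clx_C hv) (clx_X S)))
      (clx_C hw)) (fun e => h0 ?_) (by simpa using h)
  simpa [coeff_X, coeff_C] using congrArg (fun r : ℂ[X] => r.coeff 2) e

theorem mem_cl_of_cubic {u v : ℂ} (hu : u ∈ cl S) (hv : v ∈ cl S) (h : x ^ 3 + u * x + v = 0) :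
    x ∈ cl S := by
  refine mem_cl_of_root (p := X ^ 3 + C u * X + C v)
    (clx_add (clx_add (clx_pow (clx_X S) 3) (clx_mul (clx_C hu) (clx_X S))) (clx_C hv))
    (fun e => ?_) (by simpa using h)
  simpa [coeff_X, coeff_C] using congrArg (fun r : ℂ[X] => r.coeff 3) e

theorem cl_exchange (h : x ∈ cl (insert a S)) (hx : x ∉ cl S) : a ∈ cl (insert x S) := by
  rw [← SetLike.mem_coe, clx_coe] at h hx ⊢
  exact Matroid.mem_closure_insert hx h

theorem cl_countable (h : S.Countable) : (cl S : Set ℂ).Countable := by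
  have h1 : Countable (IntermediateField.adjoin ℚ S) := by
    rw [← Cardinal.mk_le_aleph0_iff]
    refine (IntermediateField.cardinalMk_adjoin_le ℚ S).trans ?_
    have := Cardinal.le_aleph0_iff_set_countable.2 h
    simp [this]
  refine (Algebraic.countable (IntermediateField.adjoin ℚ S) ℂ).mono fun x hx => ?_
  exact mem_cl_iff.1 hx

theorem exists_notMem_cl (h : S.Countable) : ∃ x, x ∉ cl S := by
  by_contra h'
  push Not at h'
  exact not_countable_complex ((cl_countable h).mono fun x _ => h' x)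

theorem PC.mono (hp : PC S p) (h : S ⊆ cl T) : PC T p := fun i => cl_le h (hp i)

theorem PC.C (h : a ∈ cl S) : PC S (C a) := clx_C h

theorem PC.X (S : Set ℂ) : PC S X := clx_X S

theorem PC.natCast (S : Set ℂ) (n : ℕ) : PC S (n : ℂ[X]) :=
  clx_PC_iff.2 (natCast_mem _ n)

theorem PC.ofNat (S : Set ℂ) (n : ℕ) [n.AtLeastTwo] : PC S (OfNat.ofNat n : ℂ[X]) :=
  PC.natCast S n

theorem PC.zero (S : Set ℂ) : PC S 0 := clx_PC_iff.2 (zero_mem _)

theorem PC.one (S : Set ℂ) : PC S 1 := clx_PC_iff.2 (one_mem _)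

theorem PC.add (hp : PC S p) (hq : PC S q) : PC S (p + q) := clx_add hp hq

theorem PC.neg (hp : PC S p) : PC S (-p) := fun i => by
  rw [coeff_neg]
  exact neg_mem (hp i)

theorem PC.sub (hp : PC S p) (hq : PC S q) : PC S (p - q) := fun i => by
  rw [coeff_sub]
  exact sub_mem (hp i) (hq i)

theorem PC.mul (hp : PC S p) (hq : PC S q) : PC S (p * q) := clx_mul hp hq

theorem PC.pow (hp : PC S p) (n : ℕ) : PC S (p ^ n) := clx_pow hp n

theorem PC.dsc (hp : PC S p) (hq : PC S q) : PC S (dsc p q) :=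
  ((PC.ofNat S 4).mul (hp.pow 3)).add ((PC.ofNat S 27).mul (hq.pow 2))

theorem PC.eval_mem (hp : PC S p) (hx : x ∈ cl S) : p.eval x ∈ cl S := by
  rw [eval_eq_sum_range]
  exact sum_mem fun i _ => mul_mem (hp i) (pow_mem hx i)

theorem PC.aeval_mem (hp : PC S p) (hx : x ∈ cl S) : aeval x p ∈ cl S := by
  rw [coe_aeval_eq_eval]
  exact hp.eval_mem hx

theorem PC.eval_ne_zero (hp : PC S p) (h0 : p ≠ 0) (hx : x ∉ cl S) : p.eval x ≠ 0 :=
  fun e => hx (mem_cl_of_root hp h0 e)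

theorem PC.aeval_ne_zero (hp : PC S p) (h0 : p ≠ 0) (hx : x ∉ cl S) : aeval x p ≠ 0 := by
  rw [coe_aeval_eq_eval]
  exact hp.eval_ne_zero h0 hx

theorem Quart.Over.mono {Q : Quart} (h : Q.Over S) (h' : S ⊆ cl T) : Q.Over T :=
  ⟨h.1.mono h', h.2.1.mono h', h.2.2.1.mono h', h.2.2.2.1.mono h', h.2.2.2.2.mono h'⟩

theorem Quart.Over.I {Q : Quart} (h : Q.Over S) : PC S Q.I := by
  obtain ⟨ha, hb, hc, hd, he⟩ := h
  exact ((((PC.ofNat S 12).mul ha).mul he).sub (((PC.ofNat S 3).mul hb).mul hd)).add (hc.pow 2)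

theorem Quart.Over.J {Q : Quart} (h : Q.Over S) : PC S Q.J := by
  obtain ⟨ha, hb, hc, hd, he⟩ := h
  exact ((((((((PC.ofNat S 72).mul ha).mul hc).mul he).add
    ((((PC.ofNat S 9).mul hb).mul hc).mul hd)).sub
    (((PC.ofNat S 27).mul ha).mul (hd.pow 2))).sub (((PC.ofNat S 27).mul he).mul (hb.pow 2))).sub
    ((PC.ofNat S 2).mul (hc.pow 3)))

theorem Quart.Over.jac {Q : Quart} (h : Q.Over S) : Q.jac.Over S :=
  ⟨PC.zero S, PC.one S, PC.zero S, (PC.ofNat S 27).neg.mul h.I, (PC.ofNat S 27).neg.mul h.J⟩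

theorem Quart.Over.ev_mem {Q : Quart} (h : Q.Over S) (ha : a ∈ cl S) (hb : b ∈ cl S) :
    Q.ev a b ∈ cl S := by
  obtain ⟨h1, h2, h3, h4, h5⟩ := h
  exact add_mem (add_mem (add_mem (add_mem (mul_mem (h1.aeval_mem ha) (pow_mem hb 4))
    (mul_mem (h2.aeval_mem ha) (pow_mem hb 3))) (mul_mem (h3.aeval_mem ha) (pow_mem hb 2)))
    (mul_mem (h4.aeval_mem ha) hb)) (h5.aeval_mem ha)

theorem Dat.Over.mono {D : Dat} (h : D.Over S) (h' : S ⊆ cl T) : D.Over T :=
  ⟨h.1.mono h', h.2.1.mono h', fun d => cl_le h' (h.2.2 d)⟩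

theorem clx_quart (Q : Quart) : ∃ S : Set ℂ, S.Countable ∧ Q.Over S := by
  refine ⟨Set.range Q.a.coeff ∪ Set.range Q.b.coeff ∪ Set.range Q.c.coeff ∪ Set.range Q.d.coeff ∪
    Set.range Q.e.coeff, ((((Set.countable_range _).union (Set.countable_range _)).union
      (Set.countable_range _)).union (Set.countable_range _)).union (Set.countable_range _),
    fun i => mem_cl ?_, fun i => mem_cl ?_, fun i => mem_cl ?_, fun i => mem_cl ?_,
    fun i => mem_cl ?_⟩ <;> simp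

theorem Dat.exists_over (D : Dat) : ∃ S : Set ℂ, S.Countable ∧ D.Over S := by
  obtain ⟨S1, c1, h1⟩ := clx_quart D.Q1
  obtain ⟨S2, c2, h2⟩ := clx_quart D.Q2
  refine ⟨S1 ∪ S2 ∪ Set.range fun d => D.G.coeff d, (c1.union c2).union (Set.countable_range _),
    h1.mono fun y hy => mem_cl (Or.inl (Or.inl hy)),
    h2.mono fun y hy => mem_cl (Or.inl (Or.inr hy)), fun d => mem_cl (Or.inr ⟨d, rfl⟩)⟩

theorem clx_prod {s : Multiset ℂ} (h : ∀ y ∈ s, y ∈ cl S) :
    PC S (s.map fun y => X - C y).prod := by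
  rw [clx_PC_iff]
  refine multiset_prod_mem _ fun r hr => ?_
  obtain ⟨y, hy, rfl⟩ := Multiset.mem_map.1 hr
  exact clx_PC_iff.1 ((PC.X S).sub (PC.C (h y hy)))

/-- A polynomial splits into two factors of bounded degree over the closure. -/
theorem PC.exists_split (hp : PC S p) (h0 : p ≠ 0) {n : ℕ} (hn : p.natDegree ≤ 2 * n) :
    ∃ δ δ' : ℂ[X], PC S δ ∧ PC S δ' ∧ δ.natDegree ≤ n ∧ δ'.natDegree ≤ n ∧ p = δ * δ' := by
  have hs : p.Splits := IsAlgClosed.splits p
  have hr : ∀ y ∈ p.roots, y ∈ cl S := fun y hy =>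
    mem_cl_of_root hp h0 ((mem_roots h0).1 hy)
  have hc : p.roots.card ≤ 2 * n := (card_roots' p).trans hn
  obtain ⟨s, t, hst, h1, h2⟩ : ∃ s t : Multiset ℂ, s + t = p.roots ∧ s.card ≤ n ∧ t.card ≤ n := by
    refine ⟨(p.roots.toList.take n : List ℂ), (p.roots.toList.drop n : List ℂ), ?_, ?_, ?_⟩
    · rw [Multiset.coe_add, List.take_append_drop, Multiset.coe_toList]
    · rw [Multiset.coe_card, List.length_take]
      exact min_le_left _ _
    · rw [Multiset.coe_card, List.length_drop, Multiset.length_toList]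
      omega
  refine ⟨Polynomial.C p.leadingCoeff * (s.map fun y => Polynomial.X - Polynomial.C y).prod,
    (t.map fun y => Polynomial.X - Polynomial.C y).prod,
    (PC.C (hp _)).mul (clx_prod fun y hy => hr y (hst ▸ Multiset.mem_add.2 (Or.inl hy))),
    clx_prod fun y hy => hr y (hst ▸ Multiset.mem_add.2 (Or.inr hy)), ?_, ?_, ?_⟩
  · refine (natDegree_C_mul_le _ _).trans ?_
    rwa [natDegree_multiset_prod_X_sub_C_eq_card]
  · rwa [natDegree_multiset_prod_X_sub_C_eq_card]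
  · rw [mul_assoc, ← Multiset.prod_add, ← Multiset.map_add, hst]
    exact hs.eq_prod_roots

end Pool.Agent.P.MP_a2ccc3_ag
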