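import Pool.Agent.P.MP_a2ccc3_ag.Defs
import Pool.Agent.P.MP_a2beea_nt.RR.Chi

/-! Working notions for the proof: reduction at a place, invariant functions, closure. -/

open Polynomial

noncomputable section

namespace Pool.Agent.P.MP_a2ccc3_ag

/-- Places in the sense of the Riemann-Roch library. -/
abbrev Pl (K : Type) [Field K] [Algebra ℂ K] := MP_a2beea_nt.RR.Place ℂ K

/-- Function fields in the sense of the Riemann-Roch library. -/
abbrev FF (K : Type) [Field K] [Algebra ℂ K] := MP_a2beea_nt.RR.IsFF ℂ K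

/-- The divisor of a function. -/
abbrev dv {K : Type} [Field K] [Algebra ℂ K] [FF K] (f : K) : Pl K →₀ ℤ :=
  MP_a2beea_nt.RR.divF ℂ f

/-- The algebraic closure of `ℂ(θ)`. -/
abbrev Om : Type := AlgebraicClosure (RatFunc ℂ)

/-- The variable `θ`. -/
def th : Om := algebraMap (RatFunc ℂ) Om RatFunc.X

/-- `x` takes the value `c` at the place `P`. -/
def Red {K : Type} [Field K] [Algebra ℂ K] (P : Pl K) (x : K) (c : ℂ) : Prop :=
  x - algebraMap ℂ K c ∈ P.O.nonunits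

/-- Points of the ambient space of the fibre product. -/
@[ext] structure P5 (K : Type) where
  s : K
  x1 : K
  y1 : K
  x2 : K
  y2 : K

/-- Pairs of points of two Weierstrass curves. -/
@[ext] structure P4 (K : Type) where
  x : K
  y : K
  x' : K
  y' : K

/-- Points of the ambient space of one fibration. -/
@[ext] structure P3 (K : Type) where
  s : K
  x : K
  y : K

/-- The data of the fibre product. -/
structure Dat where
  Q1 : Quart
  Q2 : Quart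
  G : MvPolynomial (Fin 3) ℂ

/-- The cubic `x³ + A(s) x + B(s)`. -/
def cub {R : Type} [CommRing R] [Algebra ℂ R] (A B : ℂ[X]) (s x : R) : R :=
  x ^ 3 + aeval s A * x + aeval s B

/-- A Weierstrass cubic as a quartic. -/
def wei (A B : ℂ[X]) : Quart := ⟨0, 1, 0, A, B⟩

@[simp] theorem wei_ev {R : Type} [CommRing R] [Algebra ℂ R] (A B : ℂ[X]) (s x : R) :
    (wei A B).ev s x = cub A B s x := by
  simp [wei, Quart.ev, cub]

/-- The Jacobian fibration. -/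
def Quart.jac (Q : Quart) : Quart := wei (-27 * Q.I) (-27 * Q.J)

/-- The discriminant. -/
def dsc {R : Type} [CommRing R] (A B : R) : R := 4 * A ^ 3 + 27 * B ^ 2

section

variable {K : Type} [Field K] [Algebra ℂ K]

def P5.i1 (p : P5 K) : P5 K := ⟨p.s, p.x1, -p.y1, p.x2, p.y2⟩

def P5.i2 (p : P5 K) : P5 K := ⟨p.s, p.x1, p.y1, p.x2, -p.y2⟩

def P4.n1 (p : P4 K) : P4 K := ⟨p.x, -p.y, p.x', p.y'⟩

def P4.n2 (p : P4 K) : P4 K := ⟨p.x, p.y, p.x', -p.y'⟩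

def P4.sw (p : P4 K) : P4 K := ⟨p.x', p.y', p.x, p.y⟩

def P3.n (p : P3 K) : P3 K := ⟨p.s, p.x, -p.y⟩

/-- The equations of the fibre product. -/
def EqF (Q1 Q2 : Quart) (p : P5 K) : Prop :=
  p.y1 ^ 2 = Q1.ev p.s p.x1 ∧ p.y2 ^ 2 = Q2.ev p.s p.x2

/-- The equations of the fibre product. -/
abbrev EqU (D : Dat) (p : P5 K) : Prop := EqF D.Q1 D.Q2 p

/-- The equation of one fibration. -/
def EqS (Q : Quart) (p : P3 K) : Prop := p.y ^ 2 = Q.ev p.s p.x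

def RedS (P : Pl K) (p : P3 K) (c : P3 ℂ) : Prop :=
  Red P p.s c.s ∧ Red P p.x c.x ∧ Red P p.y c.y

/-- The open condition. -/
def GdU (D : Dat) (p : P5 K) : Prop := MvPolynomial.aeval ![p.s, p.x1, p.x2] D.G ≠ 0

def OnU (D : Dat) (p : P5 K) : Prop := EqU D p ∧ GdU D p

def RedP (P : Pl K) (p : P5 K) (c : P5 ℂ) : Prop :=
  Red P p.s c.s ∧ Red P p.x1 c.x1 ∧ Red P p.y1 c.y1 ∧ Red P p.x2 c.x2 ∧ Red P p.y2 c.y2

def RedQ (P : Pl K) (p : P4 K) (c : P4 ℂ) : Prop :=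
  Red P p.x c.x ∧ Red P p.y c.y ∧ Red P p.x' c.x' ∧ Red P p.y' c.y'

/-- The equations of the product of two constant Weierstrass curves. -/
def EqQ (A B A' B' : ℂ) (p : P4 K) : Prop :=
  p.y ^ 2 = p.x ^ 3 + algebraMap ℂ K A * p.x + algebraMap ℂ K B ∧
    p.y' ^ 2 = p.x' ^ 3 + algebraMap ℂ K A' * p.x' + algebraMap ℂ K B'

end

variable {N : Type} [AddCommGroup N] [Module ℚ N]

/-- `Φ` kills the principal divisors supported in the open threefold. -/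
def CInv1 (D : Dat) (Φ : P5 ℂ → N) : Prop :=
  ∀ (K : Type) [Field K] [Algebra ℂ K] [FF K] (p : P5 K) (f : K) (c : Pl K → P5 ℂ),
    f ≠ 0 → EqU D p → (∀ P : Pl K, P.ord f ≠ 0 → RedP P p (c P) ∧ GdU D (c P)) →
    ∑ P ∈ (dv f).support, (P.ord f : ℚ) • Φ (c P) = 0

/-- `Φ` kills the principal divisors supported in the square of the open threefold. -/
def CInv2 (D : Dat) (Φ : P5 ℂ → P5 ℂ → N) : Prop :=
  ∀ (K : Type) [Field K] [Algebra ℂ K] [FF K] (p p' : P5 K) (f : K) (c c' : Pl K → P5 ℂ),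
    f ≠ 0 → EqU D p → EqU D p' →
    (∀ P : Pl K, P.ord f ≠ 0 →
      RedP P p (c P) ∧ GdU D (c P) ∧ RedP P p' (c' P) ∧ GdU D (c' P)) →
    ∑ P ∈ (dv f).support, (P.ord f : ℚ) • Φ (c P) (c' P) = 0

/-- Invariance along algebraic families over the `θ`-line. -/
def LInv {α β : Type} (E : α → Prop) (R : Pl Om → α → β → Prop) (Gd : β → Prop) (Φ : β → N) :
    Prop :=
  ∀ (J : Type) [Fintype J] (p : J → α) (θ0 θ1 : ℂ) (n0 n1 : N), (∀ j, E (p j)) →
    (∀ P : Pl Om, Red P th θ0 →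
      ∃ c : J → β, (∀ j, R P (p j) (c j) ∧ Gd (c j)) ∧ ∑ j, Φ (c j) = n0) →
    (∀ P : Pl Om, Red P th θ1 →
      ∃ c : J → β, (∀ j, R P (p j) (c j) ∧ Gd (c j)) ∧ ∑ j, Φ (c j) = n1) → n0 = n1

def LInv1 (D : Dat) (Φ : P5 ℂ → N) : Prop := LInv (EqU (K := Om) D) RedP (GdU D) Φ

def LInv2 (D : Dat) (Φ : P5 ℂ → P5 ℂ → N) : Prop :=
  LInv (fun p : P5 Om × P5 Om => EqU D p.1 ∧ EqU D p.2)
    (fun P p (c : P5 ℂ × P5 ℂ) => RedP P p.1 c.1 ∧ RedP P p.2 c.2)
    (fun c => GdU D c.1 ∧ GdU D c.2) (fun c => Φ c.1 c.2)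

theorem LInv.comp {α β α' β' : Type} {E : α → Prop} {R : Pl Om → α → β → Prop} {Gd : β → Prop}
    {Φ : β → N} (h : LInv E R Gd Φ) {E' : α' → Prop} {R' : Pl Om → α' → β' → Prop}
    {Gd' : β' → Prop} (a : α' → α) (b : β' → β) (hE : ∀ x, E' x → E (a x))
    (hR : ∀ P x c, R' P x c → R P (a x) (b c)) (hG : ∀ c, Gd' c → Gd (b c)) :
    LInv E' R' Gd' fun c => Φ (b c) := by
  intro J _ p θ0 θ1 n0 n1 hp h0 h1
  refine h J (fun j => a (p j)) θ0 θ1 n0 n1 (fun j => hE _ (hp j)) ?_ ?_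
  · intro P hP
    obtain ⟨c, hc, hs⟩ := h0 P hP
    exact ⟨fun j => b (c j), fun j => ⟨hR _ _ _ (hc j).1, hG _ (hc j).2⟩, hs⟩
  · intro P hP
    obtain ⟨c, hc, hs⟩ := h1 P hP
    exact ⟨fun j => b (c j), fun j => ⟨hR _ _ _ (hc j).1, hG _ (hc j).2⟩, hs⟩

theorem LInv.one {α β : Type} {E : α → Prop} {R : Pl Om → α → β → Prop} {Gd : β → Prop}
    {Φ : β → N} (h : LInv E R Gd Φ) (p : α) (θ0 θ1 : ℂ) (n0 n1 : N) (hp : E p)
    (h0 : ∀ P : Pl Om, Red P th θ0 → ∃ c, R P p c ∧ Gd c ∧ Φ c = n0)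
    (h1 : ∀ P : Pl Om, Red P th θ1 → ∃ c, R P p c ∧ Gd c ∧ Φ c = n1) : n0 = n1 := by
  refine h Unit (fun _ => p) θ0 θ1 n0 n1 (fun _ => hp) ?_ ?_
  · intro P hP
    obtain ⟨c, h2, h3, h4⟩ := h0 P hP
    exact ⟨fun _ => c, fun _ => ⟨h2, h3⟩, by simpa using h4⟩
  · intro P hP
    obtain ⟨c, h2, h3, h4⟩ := h1 P hP
    exact ⟨fun _ => c, fun _ => ⟨h2, h3⟩, by simpa using h4⟩

theorem LInv.two {α β : Type} {E : α → Prop} {R : Pl Om → α → β → Prop} {Gd : β → Prop}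
    {Φ : β → N} (h : LInv E R Gd Φ) (p q : α) (θ0 θ1 : ℂ) (n0 n1 : N) (hp : E p) (hq : E q)
    (h0 : ∀ P : Pl Om, Red P th θ0 →
      ∃ c d, R P p c ∧ Gd c ∧ R P q d ∧ Gd d ∧ Φ c + Φ d = n0)
    (h1 : ∀ P : Pl Om, Red P th θ1 →
      ∃ c d, R P p c ∧ Gd c ∧ R P q d ∧ Gd d ∧ Φ c + Φ d = n1) : n0 = n1 := by
  refine h Bool (fun b => cond b p q) θ0 θ1 n0 n1 (fun b => by cases b <;> assumption) ?_ ?_
  · intro P hP
    obtain ⟨c, d, h2, h3, h4, h5, h6⟩ := h0 P hP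
    exact ⟨fun b => cond b c d, fun b => by cases b <;> exact ⟨‹_›, ‹_›⟩, by simpa using h6⟩
  · intro P hP
    obtain ⟨c, d, h2, h3, h4, h5, h6⟩ := h1 P hP
    exact ⟨fun b => cond b c d, fun b => by cases b <;> exact ⟨‹_›, ‹_›⟩, by simpa using h6⟩

/-- The part which is odd in both `y₁` and `y₂`, times four. -/
def dd (Φ : P5 ℂ → N) (p : P5 ℂ) : N := Φ p - Φ p.i1 - Φ p.i2 + Φ p.i1.i2

/-- The numbers which are algebraic over the field generated by `S`. -/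
def cl (S : Set ℂ) : Subfield ℂ :=
  Subfield.closure (algebraicClosure (IntermediateField.adjoin ℚ S) ℂ : Set ℂ)

def PC (S : Set ℂ) (p : ℂ[X]) : Prop := ∀ i, p.coeff i ∈ cl S

def MC {σ : Type} (S : Set ℂ) (p : MvPolynomial σ ℂ) : Prop := ∀ d, p.coeff d ∈ cl S

def Quart.Over (Q : Quart) (S : Set ℂ) : Prop :=
  PC S Q.a ∧ PC S Q.b ∧ PC S Q.c ∧ PC S Q.d ∧ PC S Q.e

def Dat.Over (D : Dat) (S : Set ℂ) : Prop := D.Q1.Over S ∧ D.Q2.Over S ∧ MC S D.G

/-- The entries of the list are algebraically independent over `S`. -/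
def Ind (S : Set ℂ) : List ℂ → Prop
  | [] => True
  | a :: l => a ∉ cl S ∧ Ind (insert a S) l

/-- `s, x₁, x₂` are algebraically independent over `S`. -/
def Chain (S : Set ℂ) (p : P5 ℂ) : Prop := Ind S [p.s, p.x1, p.x2]

/-- The six base coordinates of `p, p'` are algebraically independent over `S`. -/
def Gen6 (S : Set ℂ) (p p' : P5 ℂ) : Prop := Ind S [p.s, p'.s, p.x1, p'.x1, p.x2, p'.x2]

/-- The condition on a single Weierstrass fibration which excludes polynomial sections through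
general points. -/
def Min1 (A B : ℂ[X]) : Prop :=
  (∀ (s : ℂ) (m : ℕ), (X - C s) ^ m ∣ A ^ 3 → (X - C s) ^ m ∣ B ^ 2 → m < 12) ∧
    0 < max (3 * A.natDegree) (2 * B.natDegree)

/-- The right hand side of the equation of the Shioda-Inose partner of the fibres over `s, t`. -/
def jc {K : Type} [Field K] [Algebra ℂ K] (A B δ δ' : ℂ[X]) (c s t Z : K) : K :=
  Z ^ 3 - 48 * (aeval s A * aeval t A) * Z + 864 * (aeval s B * aeval t B) -
    16 * (c * (aeval s δ * aeval t δ) + aeval s δ' * aeval t δ' / c)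

/-- The Jacobian determinant of the elements `w` with respect to the derivations `E`. -/
def jac {K : Type} [Field K] {n : ℕ} (E : Fin n → Derivation ℤ K K) (w : Fin n → K) : K :=
  (Matrix.of fun i j => E i (w j)).det

/-- `E` kills the constants which are algebraic over `S`. -/
def Kills {K : Type} [Field K] [Algebra ℂ K] (S : Set ℂ) (E : Derivation ℤ K K) : Prop :=
  ∀ c ∈ cl S, E (algebraMap ℂ K c) = 0

/-- `E` kills the constants which are algebraic over `S` and preserves the local ring of `P`. -/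
def Adm {K : Type} [Field K] [Algebra ℂ K] (S : Set ℂ) (P : Pl K) (E : Derivation ℤ K K) : Prop :=
  Kills S E ∧ ∀ x ∈ P.O, E x ∈ P.O

section

variable {K : Type} [Field K]

/-- A quartic with constant coefficients. -/
def qv (a b c d e x : K) : K := a * x ^ 4 + b * x ^ 3 + c * x ^ 2 + d * x + e

def qI (a b c d e : K) : K := 12 * a * e - 3 * b * d + c ^ 2

def qJ (a b c d e : K) : K :=
  72 * a * c * e + 9 * b * c * d - 27 * a * d ^ 2 - 27 * e * b ^ 2 - 2 * c ^ 3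

/-- The first Taylor coefficient. -/
def q1 (a b c d x : K) : K := 4 * a * x ^ 3 + 3 * b * x ^ 2 + 2 * c * x + d

/-- The covariant of degree four. -/
def g4 (a b c d e x : K) : K :=
  3 * q1 a b c d x ^ 2 - 8 * (6 * a * x ^ 2 + 3 * b * x + c) * qv a b c d e x

/-- The covariant of degree six. -/
def g6 (a b c d e x : K) : K :=
  q1 a b c d x ^ 3 + 8 * (4 * a * x + b) * qv a b c d e x ^ 2 -
    4 * (6 * a * x ^ 2 + 3 * b * x + c) * q1 a b c d x * qv a b c d e x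

/-- The point `(x, y)` of `y² = quartic` maps to the point `(Z, W)` of the Jacobian. -/
structure Cov (a b c d e x y Z W : K) : Prop where
  eq : y ^ 2 = qv a b c d e x
  ne : y ≠ 0
  hZ : 4 * Z * y ^ 2 = 3 * g4 a b c d e x
  hW : 8 * W * y ^ 3 = 27 * g6 a b c d e x

end

/-- `Cov` in the fibre over `s`. -/
def Quart.Cov (Q : Quart) {K : Type} [Field K] [Algebra ℂ K] (s x y Z W : K) : Prop :=
  MP_a2ccc3_ag.Cov (aeval s Q.a) (aeval s Q.b) (aeval s Q.c) (aeval s Q.d) (aeval s Q.e) x y Z W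

section

variable {K : Type} [Field K]

/-- The equation of the Shioda-Inose partner. -/
def JEq (a b X Y t t' : K) : Prop := Y ^ 2 = X ^ 3 - 48 * a * X + 864 * b - 16 * (t + t')

/-- The determinant of the linear system for the inverse map. -/
def Mx (A A' σ X : K) : K := (σ ^ 2 * X + 2 * (σ ^ 4 * A + A')) ^ 2 + 12 * (σ ^ 4 * A - A') ^ 2

def lD (A B A' B' σ X Y : K) : K :=
  12 * (σ ^ 2 * X + 2 * (σ ^ 4 * A + A')) * (σ ^ 6 * B - B') + 2 * (σ ^ 4 * A - A') * σ ^ 3 * Y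

def lE (A B A' B' σ X Y : K) : K :=
  (σ ^ 2 * X + 2 * (σ ^ 4 * A + A')) * σ ^ 3 * Y - 72 * (σ ^ 4 * A - A') * (σ ^ 6 * B - B')

/-- `p` is a point of `E × E'` which lies over the point `(X, Y, t, t')` of the Shioda-Inose
partner. -/
structure IsLift (A B A' B' σ X Y t t' : K) (p : P4 K) : Prop where
  ne : σ ≠ 0
  ht : σ ^ 6 * dsc A B = t
  ht' : σ ^ 6 * t' = dsc A' B'
  hy : p.y ^ 2 = p.x ^ 3 + A * p.x + B
  hy' : p.y' ^ 2 = p.x' ^ 3 + A' * p.x' + B'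
  hs : p.y' = σ ^ 3 * p.y
  hX : σ ^ 2 * X = 12 * ((σ ^ 2 * p.x) ^ 2 + σ ^ 2 * p.x * p.x' + p.x' ^ 2) + 4 * (σ ^ 4 * A + A')
  hY : σ ^ 3 * Y = 18 * (2 * ((σ ^ 2 * p.x) ^ 2 + σ ^ 2 * p.x * p.x' + p.x' ^ 2) +
    σ ^ 4 * A + A') * (p.x' + σ ^ 2 * p.x) + 6 * (σ ^ 4 * A - A') * (p.x' - σ ^ 2 * p.x)

end

/-- `IsLift` for the fibres over `s` and `t` of a Weierstrass fibration. -/
def FLift {K : Type} [Field K] [Algebra ℂ K] (A B δ δ' : ℂ[X]) (s t c σ Z W : K) (p : P4 K) :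
    Prop :=
  IsLift (aeval s A) (aeval s B) (aeval t A) (aeval t B) σ Z W (c * (aeval s δ * aeval t δ))
    (aeval s δ' * aeval t δ' / c) p

def P5.f1 {K : Type} (p p' : P5 K) : P4 K := ⟨p.x1, p.y1, p'.x1, p'.y1⟩

def P5.f2 {K : Type} (p p' : P5 K) : P4 K := ⟨p.x2, p.y2, p'.x2, p'.y2⟩

/-- `Λ` kills the principal divisors supported in the square of `spec R`. -/
def CInvR (R : Type) [CommRing R] [Algebra ℂ R] (Λ : (R →ₐ[ℂ] ℂ) → (R →ₐ[ℂ] ℂ) → N) : Prop :=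
  ∀ (K : Type) [Field K] [Algebra ℂ K] [FF K] (η η' : R →ₐ[ℂ] K) (f : K)
    (c c' : Pl K → (R →ₐ[ℂ] ℂ)), f ≠ 0 →
    (∀ P : Pl K, P.ord f ≠ 0 → (∀ r, Red P (η r) (c P r)) ∧ ∀ r, Red P (η' r) (c' P r)) →
    ∑ P ∈ (dv f).support, (P.ord f : ℚ) • Λ (c P) (c' P) = 0

/-- Anticommutativity of the exterior product of cycles of degree zero on `spec R`. -/
def ACR (R : Type) [CommRing R] [Algebra ℂ R] : Prop :=
  ∀ (N : Type) [AddCommGroup N] [Module ℚ N] (Λ : (R →ₐ[ℂ] ℂ) → (R →ₐ[ℂ] ℂ) → N),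
    CInvR R Λ → (∀ c c', Λ c c' = Λ c' c) → ∀ c c' o, Λ c c' - Λ o c' - Λ c o + Λ o o = 0

/-- Invariance on pairs of points of the fibre product, for families with general ends. -/
def LInvG (Q1 Q2 : Quart) (S : Set ℂ) (Ψ : P5 ℂ → P5 ℂ → N) : Prop :=
  LInv (fun p : P5 Om × P5 Om => EqF Q1 Q2 p.1 ∧ EqF Q1 Q2 p.2)
    (fun P p (c : P5 ℂ × P5 ℂ) => RedP P p.1 c.1 ∧ RedP P p.2 c.2)
    (fun c => Gen6 S c.1 c.2) (fun c => Ψ c.1 c.2)

/-- Invariance on the product of two constant curves, for families with general ends. -/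
def LInvQ (A B A' B' : ℂ) (S : Set ℂ) (ψ : P4 ℂ → N) : Prop :=
  LInv (EqQ (K := Om) A B A' B') RedQ (fun c => Ind S [c.x, c.x']) ψ

/-- Invariance on one fibration, for families with general ends. -/
def LInvS (Q : Quart) (S : Set ℂ) (Θ : P3 ℂ → N) : Prop :=
  LInv (EqS (K := Om) Q) RedS (fun c => Ind S [c.s, c.x]) Θ

/-- Invariance on one curve `y² = quartic`, for families with general ends. -/
def LInvC (a b c d e : ℂ) (S : Set ℂ) (Φ : ℂ × ℂ → N) : Prop :=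
  LInv (fun p : Om × Om => p.2 ^ 2 = qv (algebraMap ℂ Om a) (algebraMap ℂ Om b)
      (algebraMap ℂ Om c) (algebraMap ℂ Om d) (algebraMap ℂ Om e) p.1)
    (fun P p (z : ℂ × ℂ) => Red P p.1 z.1 ∧ Red P p.2 z.2) (fun z => z.1 ∉ cl S) Φ

/-- Symmetric invariant functions which are odd in all four `y` vanish at general pairs. -/
def PsiZero (Q1 Q2 : Quart) : Prop :=
  ∀ (S : Set ℂ), Q1.Over S → Q2.Over S →
    ∀ (N : Type) [AddCommGroup N] [Module ℚ N] (Ψ : P5 ℂ → P5 ℂ → N), LInvG Q1 Q2 S Ψ →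
    (∀ p p', Ψ p p' = Ψ p' p) → (∀ p p', Ψ p.i1 p' = -Ψ p p') → (∀ p p', Ψ p.i2 p' = -Ψ p p') →
    ∀ p p', EqF Q1 Q2 p → EqF Q1 Q2 p' → Gen6 S p p' → Ψ p p' = 0

/-- Odd invariant functions on the surface vanish at general points. -/
def RatZero (Q : Quart) : Prop :=
  ∀ (S : Set ℂ), Q.Over S →
    ∀ (N : Type) [AddCommGroup N] [Module ℚ N] (Θ : P3 ℂ → N), LInvS Q S Θ →
    (∀ p, Θ p.n = -Θ p) → ∀ p, EqS Q p → Ind S [p.s, p.x] → Θ p = 0

end Pool.Agent.P.MP_a2ccc3_ag
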