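import Pool.Agent.P.MP_a2ccc3_ag.Core

/-! Existence of polynomial curves by counting equations. -/

open Polynomial

noncomputable section

namespace Pool.Agent.P.MP_a2ccc3_ag

/-- The translation automorphism of the polynomial ring. -/
def krullTrans {k : Type} [Field k] {σ : Type} (x : σ → k) :
    MvPolynomial σ k ≃ₐ[k] MvPolynomial σ k :=
  AlgEquiv.ofAlgHom (MvPolynomial.aeval fun i => MvPolynomial.X i + MvPolynomial.C (x i))
    (MvPolynomial.aeval fun i => MvPolynomial.X i - MvPolynomial.C (x i))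
    (MvPolynomial.algHom_ext fun i => by simp) (MvPolynomial.algHom_ext fun i => by simp)

theorem krullTrans_comap {k : Type} [Field k] {σ : Type} (x : σ → k) :
    (MvPolynomial.vanishingIdeal k {(0 : σ → k)}).comap (krullTrans x).toRingEquiv =
      MvPolynomial.vanishingIdeal k {x} := by
  ext p
  rw [Ideal.mem_comap, MvPolynomial.mem_vanishingIdeal_singleton_iff,
    MvPolynomial.mem_vanishingIdeal_singleton_iff]
  have e : (MvPolynomial.aeval (0 : σ → k)).comp (krullTrans x).toAlgHom = MvPolynomial.aeval x :=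
    MvPolynomial.algHom_ext fun i => by simp [krullTrans]
  rw [← e]
  rfl

/-- Fewer equations than unknowns. Use Krull's height theorem at the maximal ideal of `0`. -/
theorem krull {k : Type} [Field k] [IsAlgClosed k] {σ ι : Type} [Fintype σ] [Fintype ι]
    (hc : Fintype.card ι < Fintype.card σ) (f : ι → MvPolynomial σ k)
    (h0 : ∀ i, MvPolynomial.eval 0 (f i) = 0) :
    ∃ x : σ → k, x ≠ 0 ∧ ∀ i, MvPolynomial.eval x (f i) = 0 := by
  by_contra hn
  push Not at hn
  have hz : MvPolynomial.zeroLocus k (Ideal.span (Set.range f)) = {(0 : σ → k)} := by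
    rw [MvPolynomial.zeroLocus_span]
    ext x
    simp only [Set.mem_ofPred_eq, Set.forall_mem_range, Set.mem_singleton_iff]
    refine ⟨fun hx => ?_, fun hx => hx ▸ h0⟩
    by_contra hx0
    obtain ⟨i, hi⟩ := hn x hx0
    exact hi (hx i)
  have hr := MvPolynomial.vanishingIdeal_zeroLocus_eq_radical (K := k) (Ideal.span (Set.range f))
  rw [hz] at hr
  have hm : MvPolynomial.vanishingIdeal k {(0 : σ → k)} ∈
      (Ideal.span (Set.range f)).minimalPrimes := by
    refine ⟨⟨inferInstance, hr ▸ Ideal.le_radical⟩, fun q hq _ => ?_⟩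
    rw [hr]
    exact (hq.1.radical_le_iff).2 hq.2
  have hh := Ideal.height_le_card_of_mem_minimalPrimes_span (Set.finite_range f) hm
  have hc' : (Set.range f).ncard ≤ Fintype.card ι := by
    rw [← Set.image_univ]
    refine (Set.ncard_image_le Set.finite_univ).trans ?_
    rw [Set.ncard_univ, Nat.card_eq_fintype_card]
  have hd : ringKrullDim (MvPolynomial σ k) ≤ (Fintype.card ι : ℕ∞) := by
    refine (ringKrullDim_le_iff_isMaximal_height_le _).2 fun M hM => ?_
    obtain ⟨x, rfl⟩ := MvPolynomial.isMaximal_iff_eq_vanishingIdeal_singleton.1 hM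
    rw [← krullTrans_comap, RingEquiv.height_comap]
    exact_mod_cast hh.trans (by exact_mod_cast hc')
  rw [MvPolynomial.ringKrullDim_of_isNoetherianRing, ringKrullDim_eq_zero_of_field, zero_add,
    Nat.card_eq_fintype_card] at hd
  have : Fintype.card σ ≤ Fintype.card ι := by exact_mod_cast hd
  omega

/-- The polynomial with constant term `a` and higher coefficients `c`. -/
def krullPath {A : Type} [CommRing A] (a : A) {N : ℕ} (c : Fin N → A) : A[X] :=
  C a + ∑ j : Fin N, C (c j) * X ^ ((j : ℕ) + 1)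

theorem krullPath_deg {A : Type} [CommRing A] (a : A) {N : ℕ} (c : Fin N → A) :
    (krullPath a c).natDegree ≤ N := by
  refine natDegree_add_le_of_degree_le (by simp) (natDegree_sum_le_of_forall_le _ _ fun j _ => ?_)
  exact (natDegree_C_mul_X_pow_le _ _).trans j.2

theorem krullPath_eval {A : Type} [CommRing A] (a : A) {N : ℕ} (c : Fin N → A) :
    (krullPath a c).eval 0 = a := by
  simp [krullPath, eval_finsetSum]

theorem krullPath_coeff {A : Type} [CommRing A] (a : A) {N : ℕ} (c : Fin N → A) (j : Fin N) :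
    (krullPath a c).coeff ((j : ℕ) + 1) = c j := by
  simp only [krullPath, coeff_add, coeff_C_succ, finsetSum_coeff, coeff_C_mul_X_pow, zero_add,
    add_left_inj, Fin.val_inj]
  rw [Finset.sum_ite_eq, if_pos (Finset.mem_univ _)]

theorem krullPath_zero {A : Type} [CommRing A] (a : A) {N : ℕ} {c : Fin N → A}
    (hc : ∀ j, c j = 0) : krullPath a c = C a := by
  simp [krullPath, hc]

theorem krullPath_const {A : Type} [CommRing A] {a : A} {N : ℕ} {c : Fin N → A}
    (h : (krullPath a c).natDegree = 0) (j : Fin N) : c j = 0 := by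
  rw [← krullPath_coeff a c j]
  exact coeff_eq_zero_of_natDegree_lt (by omega)

theorem krullPath_map {A B : Type} [CommRing A] [CommRing B] [Algebra ℂ A] [Algebra ℂ B]
    (φ : A →ₐ[ℂ] B) (a : A) {N : ℕ} (c : Fin N → A) :
    mapAlgHom φ (krullPath a c) = krullPath (φ a) fun j => φ (c j) := by
  simp [krullPath, Polynomial.map_sum]

/-- The unknowns. -/
abbrev KrullIdx {n : ℕ} (d : Fin n → ℕ) (e : ℕ) : Type := (Σ i : Fin n, Fin (d i)) ⊕ Fin e ⊕ Fin 2

/-- The difference of the two sides of the equation. -/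
def krullG {n : ℕ} (F : MvPolynomial (Fin n) ℂ) (d : Fin n → ℕ) (e : ℕ) (w0 : Fin n → ℂ) (W : ℂ)
    {A : Type} [CommRing A] [Algebra ℂ A] (x : KrullIdx d e → A) : A[X] :=
  krullPath 1 (fun j => x (.inr (.inl j))) ^ 2 *
      krullPath (algebraMap ℂ A (W ^ 2)) (fun j => x (.inr (.inr j))) -
    MvPolynomial.aeval (fun i => krullPath (algebraMap ℂ A (w0 i)) fun j => x (.inl ⟨i, j⟩)) F

theorem krullG_map {n : ℕ} (F : MvPolynomial (Fin n) ℂ) (d : Fin n → ℕ) (e : ℕ)
    (w0 : Fin n → ℂ) (W : ℂ) {A B : Type} [CommRing A] [CommRing B] [Algebra ℂ A] [Algebra ℂ B]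
    (φ : A →ₐ[ℂ] B) (x : KrullIdx d e → A) :
    mapAlgHom φ (krullG F d e w0 W x) = krullG F d e w0 W fun i => φ (x i) := by
  rw [krullG, krullG, map_sub, map_mul, map_pow, MvPolynomial.comp_aeval_apply]
  simp only [krullPath_map, map_one, AlgHom.commutes]

theorem krull_aeval_C {n : ℕ} (F : MvPolynomial (Fin n) ℂ) (w0 : Fin n → ℂ) :
    MvPolynomial.aeval (fun i => (C (w0 i) : ℂ[X])) F = C (MvPolynomial.aeval w0 F) :=
  (MvPolynomial.comp_aeval_apply w0 (Polynomial.CAlgHom (R := ℂ) (A := ℂ)) F).symm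

theorem krull_eval_aeval {n : ℕ} (F : MvPolynomial (Fin n) ℂ) (w : Fin n → ℂ[X]) (a : ℂ) :
    (MvPolynomial.aeval w F).eval a = MvPolynomial.aeval (fun i => (w i).eval a) F := by
  have := MvPolynomial.comp_aeval_apply w (Polynomial.aeval (R := ℂ) a) F
  simpa only [coe_aeval_eq_eval] using this

/-- A nonconstant polynomial path along which `F` is a square times a quadratic polynomial.
The unknowns are the higher coefficients of the `w i`, of `m` (degree `≤ e`) and `r₁, r₂`. The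
equations are the coefficients `1, …, 2 e + 2`. If the path were constant, then `m` and the
quadratic polynomial would be constant and all unknowns zero. -/
theorem conic_exists {n : ℕ} (F : MvPolynomial (Fin n) ℂ) (d : Fin n → ℕ) (e : ℕ)
    (hd : e < ∑ i, d i)
    (hF : ∀ w : Fin n → ℂ[X], (∀ i, (w i).natDegree ≤ d i) →
      (MvPolynomial.aeval w F).natDegree ≤ 2 * e + 2)
    (w0 : Fin n → ℂ) {W : ℂ} (hW : W ≠ 0) (h0 : W ^ 2 = MvPolynomial.aeval w0 F) :
    ∃ (w : Fin n → ℂ[X]) (m : ℂ[X]) (r1 r2 : ℂ), (∀ i, (w i).natDegree ≤ d i) ∧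
      (∀ i, (w i).eval 0 = w0 i) ∧ (∃ i, derivative (w i) ≠ 0) ∧ m.eval 0 = 1 ∧
      m ^ 2 * (C (W ^ 2) + C r1 * X + C r2 * X ^ 2) = MvPolynomial.aeval w F := by
  have key : ∀ (x : KrullIdx d e → ℂ) (j : ℕ),
      MvPolynomial.eval x ((krullG F d e w0 W MvPolynomial.X).coeff j) =
        (krullG F d e w0 W x).coeff j := by
    intro x j
    have := congrArg (fun p => p.coeff j)
      (krullG_map F d e w0 W (MvPolynomial.aeval (R := ℂ) x) MvPolynomial.X)
    simpa only [coe_mapAlgHom, coeff_map, MvPolynomial.aeval_X, RingHom.coe_coe,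
      MvPolynomial.coe_aeval_eq_eval] using this
  obtain ⟨x, hx0, hx⟩ := krull (k := ℂ) (σ := KrullIdx d e) (ι := Fin (2 * e + 2))
    (by simp only [Fintype.card_sum, Fintype.card_sigma, Fintype.card_fin]; omega)
    (fun j => (krullG F d e w0 W MvPolynomial.X).coeff ((j : ℕ) + 1)) fun j => by
      rw [key, krullG]
      have hz : ∀ (a : ℂ) (N : ℕ), krullPath a (fun _ : Fin N => 0) = C a :=
        fun a N => krullPath_zero a fun _ => rfl
      simp only [Pi.zero_apply, hz, Algebra.algebraMap_self, RingHom.id_apply,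
        krull_aeval_C, ← h0, map_one, one_pow, one_mul, sub_self, coeff_zero]
  simp only [key] at hx
  have hG : krullG F d e w0 W x = 0 := by
    have hdeg : (krullG F d e w0 W x).natDegree ≤ 2 * e + 2 := by
      refine (natDegree_sub_le _ _).trans (max_le ?_ (hF _ fun i => krullPath_deg _ _))
      exact natDegree_mul_le.trans (add_le_add (natDegree_pow_le.trans
        (Nat.mul_le_mul_left 2 (krullPath_deg _ _))) (krullPath_deg _ _))
    ext j
    rcases j with _ | j
    · rw [coeff_zero_eq_eval_zero, krullG, eval_sub, eval_mul, eval_pow, krull_eval_aeval]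
      simp only [krullPath_eval, Algebra.algebraMap_self, RingHom.id_apply, ← h0, one_pow, one_mul,
        sub_self, coeff_zero]
    · rcases lt_or_ge j (2 * e + 2) with hj | hj
      · exact hx ⟨j, hj⟩
      · exact coeff_eq_zero_of_natDegree_lt (by omega)
  rw [krullG, sub_eq_zero] at hG
  simp only [Algebra.algebraMap_self, RingHom.id_apply] at hG
  refine ⟨fun i => krullPath (w0 i) fun j => x (.inl ⟨i, j⟩),
    krullPath 1 fun j => x (.inr (.inl j)), x (.inr (.inr 0)), x (.inr (.inr 1)),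
    fun i => krullPath_deg _ _, fun i => krullPath_eval _ _, ?_, krullPath_eval _ _, ?_⟩
  · by_contra hn
    push Not at hn
    have h1 : ∀ i j, x (.inl ⟨i, j⟩) = 0 := fun i =>
      krullPath_const (derivative_eq_zero.1 (hn i))
    simp only [fun i => krullPath_zero (w0 i) (h1 i), krull_aeval_C, ← h0] at hG
    have h2 : (C (W ^ 2) : ℂ[X]) ≠ 0 := C_ne_zero.2 (pow_ne_zero 2 hW)
    rw [← hG] at h2
    have h3 := congrArg natDegree hG
    rw [natDegree_mul (left_ne_zero_of_mul h2) (right_ne_zero_of_mul h2), natDegree_C,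
      natDegree_pow] at h3
    refine hx0 (funext ?_)
    rintro (⟨i, j⟩ | j | j)
    · exact h1 i j
    · exact krullPath_const (a := 1) (c := fun j => x (.inr (.inl j))) (by omega) j
    · exact krullPath_const (a := W ^ 2) (c := fun j => x (.inr (.inr j))) (by omega) j
  · rw [← hG]
    simp [krullPath, add_assoc]

theorem krull_nrm_prod (S : Multiset ℂ) : ∃ N : MvPolynomial (Fin 2) ℂ,
    (∀ u v : ℂ[X], u.natDegree ≤ 1 → v.natDegree ≤ 1 →
      (MvPolynomial.aeval ![u, v] N).natDegree ≤ S.card) ∧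
    ∀ (K : Type) [CommRing K] [Algebra ℂ K] (s t : K),
      MvPolynomial.aeval ![s + t, s * t] N =
        aeval s (S.map fun a => X - C a).prod * aeval t (S.map fun a => X - C a).prod := by
  induction S using Multiset.induction_on with
  | empty => exact ⟨1, fun u v _ _ => by simp, fun K _ _ s t => by simp⟩
  | cons a S ih =>
    obtain ⟨N, h1, h2⟩ := ih
    refine ⟨(MvPolynomial.X 1 - MvPolynomial.C a * MvPolynomial.X 0 + MvPolynomial.C (a ^ 2)) * N,
      fun u v hu hv => ?_, fun K _ _ s t => ?_⟩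
    · rw [map_mul, Multiset.card_cons, add_comm S.card]
      refine natDegree_mul_le.trans (add_le_add ?_ (h1 u v hu hv))
      simp only [map_add, map_sub, map_mul, MvPolynomial.aeval_X, MvPolynomial.aeval_C,
        Matrix.cons_val_one, Matrix.cons_val_zero, algebraMap_eq]
      refine natDegree_add_le_of_degree_le ((natDegree_sub_le _ _).trans (max_le hv ?_)) (by simp)
      exact (natDegree_C_mul_le _ _).trans hu
    · rw [map_mul, h2]
      simp only [map_add, map_sub, map_mul, map_pow, MvPolynomial.aeval_X, MvPolynomial.aeval_C,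
        Matrix.cons_val_one, Matrix.cons_val_zero, Multiset.map_cons, Multiset.prod_cons, aeval_X,
        aeval_C]
      ring

/-- The polynomial `F(s) F(t)` in terms of `s + t` and `s t`: take
`C (lc ^ 2) * ∏ (X 1 - C a * X 0 + C (a ^ 2))` over the roots `a` of `F`. -/
theorem exists_nrm (F : ℂ[X]) : ∃ N : MvPolynomial (Fin 2) ℂ,
    (∀ u v : ℂ[X], u.natDegree ≤ 1 → v.natDegree ≤ 1 →
      (MvPolynomial.aeval ![u, v] N).natDegree ≤ F.natDegree) ∧
    ∀ (K : Type) [CommRing K] [Algebra ℂ K] (s t : K),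
      MvPolynomial.aeval ![s + t, s * t] N = aeval s F * aeval t F := by
  obtain ⟨N, h1, h2⟩ := krull_nrm_prod F.roots
  have hc : F.roots.card = F.natDegree := IsAlgClosed.card_roots_eq_natDegree
  refine ⟨MvPolynomial.C (F.leadingCoeff ^ 2) * N, fun u v hu hv => ?_, fun K _ _ s t => ?_⟩
  · rw [map_mul, MvPolynomial.aeval_C, algebraMap_eq, ← hc]
    exact (natDegree_C_mul_le _ _).trans (h1 u v hu hv)
  · conv_rhs => rw [← C_leadingCoeff_mul_prod_multiset_X_sub_C hc]
    rw [map_mul, h2, MvPolynomial.aeval_C, map_mul, map_mul, aeval_C, aeval_C, map_pow]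
    ring

theorem krull_ren {K : Type} [CommRing K] [Algebra ℂ K] (N : MvPolynomial (Fin 2) ℂ) (a b c : K) :
    MvPolynomial.aeval ![a, b, c] (MvPolynomial.rename ![0, 1] N) = MvPolynomial.aeval ![a, b] N := by
  rw [MvPolynomial.aeval_rename]
  congr 2
  funext i
  fin_cases i <;> rfl

/-- `jc` as a polynomial in `s + t`, `s t` and `Z`. -/
theorem exists_jc {n : ℕ} {A B δ δ' : ℂ[X]} (hA : A.natDegree ≤ 2 * n) (hB : B.natDegree ≤ 3 * n)
    (hδ : δ.natDegree ≤ 3 * n) (hδ' : δ'.natDegree ≤ 3 * n) (c : ℂ) :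
    ∃ N : MvPolynomial (Fin 3) ℂ,
    (∀ u v z : ℂ[X], u.natDegree ≤ 1 → v.natDegree ≤ 1 → z.natDegree ≤ n →
      (MvPolynomial.aeval ![u, v, z] N).natDegree ≤ 3 * n) ∧
    ∀ (K : Type) [Field K] [Algebra ℂ K] (s t Z : K),
      MvPolynomial.aeval ![s + t, s * t, Z] N = jc A B δ δ' (algebraMap ℂ K c) s t Z := by
  obtain ⟨NA, a1, a2⟩ := exists_nrm A
  obtain ⟨NB, b1, b2⟩ := exists_nrm B
  obtain ⟨ND, d1, d2⟩ := exists_nrm δ
  obtain ⟨NE, e1, e2⟩ := exists_nrm δ'
  refine ⟨MvPolynomial.X 2 ^ 3 -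
      MvPolynomial.C 48 * (MvPolynomial.rename ![0, 1] NA * MvPolynomial.X 2) +
      MvPolynomial.C 864 * MvPolynomial.rename ![0, 1] NB -
      MvPolynomial.C 16 * (MvPolynomial.C c * MvPolynomial.rename ![0, 1] ND +
        MvPolynomial.C c⁻¹ * MvPolynomial.rename ![0, 1] NE),
    fun u v z hu hv hz => ?_, fun K _ _ s t Z => ?_⟩
  · simp only [map_add, map_sub, map_mul, map_pow, krull_ren, MvPolynomial.aeval_X,
      MvPolynomial.aeval_C, algebraMap_eq, Matrix.cons_val]
    refine (natDegree_sub_le _ _).trans (max_le (natDegree_add_le_of_degree_le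
      ((natDegree_sub_le _ _).trans (max_le ?_ ?_)) ?_) ?_)
    · exact natDegree_pow_le.trans (Nat.mul_le_mul_left 3 hz)
    · refine (natDegree_C_mul_le _ _).trans (natDegree_mul_le.trans ?_)
      have := a1 u v hu hv
      omega
    · exact (natDegree_C_mul_le _ _).trans ((b1 u v hu hv).trans hB)
    · exact (natDegree_C_mul_le _ _).trans (natDegree_add_le_of_degree_le
        ((natDegree_C_mul_le _ _).trans ((d1 u v hu hv).trans hδ))
        ((natDegree_C_mul_le _ _).trans ((e1 u v hu hv).trans hδ')))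
  · simp only [map_add, map_sub, map_mul, map_pow, krull_ren, MvPolynomial.aeval_X,
      MvPolynomial.aeval_C, Matrix.cons_val, a2, b2, d2, e2, jc, map_inv₀, map_ofNat]
    ring

/-- The curve in the descended family. Apply `conic_exists` with the variables `u, v, Z₁, Z₂`,
weights `1, 1, n₁, n₂` and `e = 5`. -/
theorem main_conic_aux {n1 n2 : ℕ} (hn : n1 + n2 = 4) {A1 B1 δ1 δ1' A2 B2 δ2 δ2' : ℂ[X]}
    (hA1 : A1.natDegree ≤ 2 * n1) (hB1 : B1.natDegree ≤ 3 * n1) (hδ1 : δ1.natDegree ≤ 3 * n1)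
    (hδ1' : δ1'.natDegree ≤ 3 * n1) (hA2 : A2.natDegree ≤ 2 * n2) (hB2 : B2.natDegree ≤ 3 * n2)
    (hδ2 : δ2.natDegree ≤ 3 * n2) (hδ2' : δ2'.natDegree ≤ 3 * n2) {s t c1 Z1 c2 Z2 W : ℂ}
    (hW : W ≠ 0) (h0 : W ^ 2 = jc A1 B1 δ1 δ1' c1 s t Z1 * jc A2 B2 δ2 δ2' c2 s t Z2) :
    ∃ (u v z1 z2 m : ℂ[X]) (r1 r2 : ℂ), u.natDegree ≤ 1 ∧ v.natDegree ≤ 1 ∧ u.eval 0 = s + t ∧
      v.eval 0 = s * t ∧ z1.eval 0 = Z1 ∧ z2.eval 0 = Z2 ∧ m.eval 0 = 1 ∧
      (derivative u ≠ 0 ∨ derivative v ≠ 0 ∨ derivative z1 ≠ 0 ∨ derivative z2 ≠ 0) ∧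
      ∀ l s' t' : Om, s' + t' = aeval l u → s' * t' = aeval l v →
        aeval l (m ^ 2 * (C (W ^ 2) + C r1 * X + C r2 * X ^ 2)) =
          jc A1 B1 δ1 δ1' (algebraMap ℂ Om c1) s' t' (aeval l z1) *
            jc A2 B2 δ2 δ2' (algebraMap ℂ Om c2) s' t' (aeval l z2) := by
  obtain ⟨N1, a1, a2⟩ := exists_jc hA1 hB1 hδ1 hδ1' c1
  obtain ⟨N2, b1, b2⟩ := exists_jc hA2 hB2 hδ2 hδ2' c2
  have ev : ∀ (K : Type) [CommRing K] [Algebra ℂ K] (w : Fin 4 → K),
      MvPolynomial.aeval w
        (MvPolynomial.rename ![0, 1, 2] N1 * MvPolynomial.rename ![0, 1, 3] N2) =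
      MvPolynomial.aeval ![w 0, w 1, w 2] N1 * MvPolynomial.aeval ![w 0, w 1, w 3] N2 := by
    intro K _ _ w
    rw [map_mul, MvPolynomial.aeval_rename, MvPolynomial.aeval_rename]
    congr 3 <;> funext i <;> fin_cases i <;> rfl
  obtain ⟨w, m, r1, r2, h1, h2, ⟨i, h3⟩, h4, h5⟩ := conic_exists
    (MvPolynomial.rename ![0, 1, 2] N1 * MvPolynomial.rename ![0, 1, 3] N2) ![1, 1, n1, n2] 5
    (by simp only [Fin.sum_univ_four, Matrix.cons_val]; omega)
    (fun w hw => by
      rw [ev]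
      have c1 := a1 _ _ _ (hw 0) (hw 1) (hw 2)
      have c2 := b1 _ _ _ (hw 0) (hw 1) (hw 3)
      refine natDegree_mul_le.trans ?_
      omega)
    ![s + t, s * t, Z1, Z2] hW (by
      rw [ev, h0]
      exact (congrArg₂ (· * ·) (a2 ℂ s t Z1) (b2 ℂ s t Z2)).symm)
  refine ⟨w 0, w 1, w 2, w 3, m, r1, r2, h1 0, h1 1, h2 0, h2 1, h2 2, h2 3, h4, ?_,
    fun l s' t' hs ht => ?_⟩
  · fin_cases i
    · exact Or.inl h3
    · exact Or.inr (Or.inl h3)
    · exact Or.inr (Or.inr (Or.inl h3))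
    · exact Or.inr (Or.inr (Or.inr h3))
  · rw [h5, MvPolynomial.comp_aeval_apply, ev, ← hs, ← ht, a2, b2]

end Pool.Agent.P.MP_a2ccc3_ag
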