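import Pool.Agent.P.MP_a2ccc3_ag.Lift

/-! Lifts for two fibres of a fibration. -/

open Polynomial

noncomputable section

namespace Pool.Agent.P.MP_a2ccc3_ag

/-- The hypotheses on two Weierstrass fibrations with factorised discriminants. -/
structure WD (S : Set ℂ) (A1 B1 δ1 δ1' A2 B2 δ2 δ2' : ℂ[X]) : Prop where
  hA1 : PC S A1
  hB1 : PC S B1
  hδ1 : PC S δ1
  hδ1' : PC S δ1'
  hA2 : PC S A2
  hB2 : PC S B2
  hδ2 : PC S δ2
  hδ2' : PC S δ2'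
  e1 : dsc A1 B1 = δ1 * δ1'
  e2 : dsc A2 B2 = δ2 * δ2'
  ne1 : dsc A1 B1 ≠ 0
  ne2 : dsc A2 B2 ≠ 0

/-- The open conditions which make lifts exist and reduce well. -/
structure GoodZ (A B δ : ℂ[X]) (s t c Z : ℂ) : Prop where
  hs : dsc (aeval s A) (aeval s B) ≠ 0
  ht : dsc (aeval t A) (aeval t B) ≠ 0
  hc : c * (aeval s δ * aeval t δ) ≠ 0
  hM : ∀ σ : ℂ, σ ^ 6 * dsc (aeval s A) (aeval s B) = c * (aeval s δ * aeval t δ) →
    Mx (aeval s A) (aeval t A) σ Z ≠ 0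

theorem aeval_dsc {K : Type} [CommRing K] [Algebra ℂ K] (A B : ℂ[X]) (s : K) :
    aeval s (dsc A B) = dsc (aeval s A) (aeval s B) := by
  simp only [dsc, map_add, map_mul, map_pow, map_ofNat]

theorem jc_comm {K : Type} [Field K] [Algebra ℂ K] (A B δ δ' : ℂ[X]) (c s t Z : K) :
    jc A B δ δ' c s t Z = jc A B δ δ' c t s Z := by
  unfold jc
  ring

theorem IsLift.jeq_flift {K : Type} [Field K] [Algebra ℂ K] {A B A' B' σ X Y t t' : K} {p : P4 K}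
    (h : IsLift A B A' B' σ X Y t t' p) :
    Y ^ 2 = X ^ 3 - 48 * (A * A') * X + 864 * (B * B') - 16 * (t + t') := by
  have : CharZero K := charZero_of_injective_algebraMap (algebraMap ℂ K).injective
  exact h.jeq

theorem FLift.jc {K : Type} [Field K] [Algebra ℂ K] {A B δ δ' : ℂ[X]} {s t c σ Z W : K}
    {p : P4 K} (h : FLift A B δ δ' s t c σ Z W p) : W ^ 2 = jc A B δ δ' c s t Z := IsLift.jeq_flift h

theorem Red.jc {K : Type} [Field K] [Algebra ℂ K] {P : Pl K} (A B δ δ' : ℂ[X]) {s t Z : K}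
    {c s0 t0 Z0 : ℂ} (hc : c ≠ 0) (hs : Red P s s0) (ht : Red P t t0) (hZ : Red P Z Z0) :
    Red P (jc A B δ δ' (algebraMap ℂ K c) s t Z) (jc A B δ δ' c s0 t0 Z0) :=
  (((hZ.pow 3).sub (((Red.ofNat P 48).mul ((hs.aeval A).mul (ht.aeval A))).mul hZ)).add
    ((Red.ofNat P 864).mul ((hs.aeval B).mul (ht.aeval B)))).sub
    ((Red.ofNat P 16).mul (((Red.const P c).mul ((hs.aeval δ).mul (ht.aeval δ))).add
      (((hs.aeval δ').mul (ht.aeval δ')).div (Red.const P c) hc)))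

theorem flift_dsc {K : Type} [CommRing K] [Algebra ℂ K] {A B δ δ' : ℂ[X]} (he : dsc A B = δ * δ')
    (s : K) : dsc (aeval s A) (aeval s B) = aeval s δ * aeval s δ' := by
  rw [← aeval_dsc, he, map_mul]

theorem exists_flift {A B δ δ' : ℂ[X]} (he : dsc A B = δ * δ') {s t : ℂ} {p : P4 ℂ}
    (hs : dsc (aeval s A) (aeval s B) ≠ 0) (ht : dsc (aeval t A) (aeval t B) ≠ 0)
    (h : p.y ^ 2 = cub A B s p.x) (h' : p.y' ^ 2 = cub A B t p.x') (hy : p.y ≠ 0)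
    (hy' : p.y' ≠ 0) : ∃ c σ Z W, FLift A B δ δ' s t c σ Z W p := by
  obtain ⟨σ, Z, W, τ, τ', hl⟩ := exists_z (A := aeval s A) (B := aeval s B) (A' := aeval t A)
    (B' := aeval t B) h h' hy hy'
  have e1 := flift_dsc he s
  have e2 := flift_dsc he t
  have d1 : aeval s δ ≠ 0 := left_ne_zero_of_mul (e1 ▸ hs)
  have d2 : aeval t δ ≠ 0 := left_ne_zero_of_mul (e2 ▸ ht)
  have hτ : τ ≠ 0 := hl.ht ▸ mul_ne_zero (pow_ne_zero 6 hl.ne) hs
  have hm := hl.mul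
  rw [e1, e2] at hm
  refine ⟨τ / (aeval s δ * aeval t δ), σ, Z, W, ?_⟩
  unfold FLift
  have f1 : τ / (aeval s δ * aeval t δ) * (aeval s δ * aeval t δ) = τ :=
    div_mul_cancel₀ _ (mul_ne_zero d1 d2)
  have f2 : aeval s δ' * aeval t δ' / (τ / (aeval s δ * aeval t δ)) = τ' := by
    rw [div_div_eq_mul_div, div_eq_iff hτ]
    linear_combination -hm
  rw [f1, f2]
  exact hl

theorem exists_flift_om {A B δ δ' : ℂ[X]} (he : dsc A B = δ * δ') {P : Pl Om} {s t Z W : Om}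
    {c s0 t0 Z0 : ℂ} (hg : GoodZ A B δ s0 t0 c Z0) (hs : Red P s s0) (ht : Red P t t0)
    (hZ : Red P Z Z0) (hW : W ^ 2 = jc A B δ δ' (algebraMap ℂ Om c) s t Z) :
    ∃ σ p, FLift A B δ δ' s t (algebraMap ℂ Om c) σ Z W p := by
  have hc : c ≠ 0 := left_ne_zero_of_mul hg.hc
  have hc' : algebraMap ℂ Om c ≠ 0 := (Red.const P c).ne_zero hc
  refine exists_lift_om (P := P) hW ?_ (hs.aeval A) (hs.aeval B) (ht.aeval A) hZ
    ((Red.const P c).mul ((hs.aeval δ).mul (ht.aeval δ))) hg.hs hg.hc hg.hM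
  rw [flift_dsc he s, flift_dsc he t, mul_div_assoc', div_eq_iff hc']
  ring

theorem FLift.red {K : Type} [Field K] [Algebra ℂ K] {A B δ δ' : ℂ[X]} {P : Pl K}
    {s t σ Z W : K} {p : P4 K} {c s0 t0 Z0 W0 : ℂ}
    (h : FLift A B δ δ' s t (algebraMap ℂ K c) σ Z W p) (hg : GoodZ A B δ s0 t0 c Z0)
    (hs : Red P s s0) (ht : Red P t t0) (hZ : Red P Z Z0) (hW : Red P W W0) :
    ∃ σ0 p0, RedQ P p p0 ∧ FLift A B δ δ' s0 t0 c σ0 Z0 W0 p0 := by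
  have hc : c ≠ 0 := left_ne_zero_of_mul hg.hc
  obtain ⟨σ0, p0, -, h1, h2⟩ := IsLift.red h (hs.aeval A) (hs.aeval B) (ht.aeval A) (ht.aeval B)
    hZ hW ((Red.const P c).mul ((hs.aeval δ).mul (ht.aeval δ)))
    (((hs.aeval δ').mul (ht.aeval δ')).div (Red.const P c) hc) hg.hs hg.hc hg.hM
  exact ⟨σ0, p0, h1, h2⟩

theorem flift_dsc_ne {S : Set ℂ} {A B : ℂ[X]} (hA : PC S A) (hB : PC S B) (hd : dsc A B ≠ 0)
    {s : ℂ} (hs : s ∉ cl S) : dsc (aeval s A) (aeval s B) ≠ 0 := by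
  rw [← aeval_dsc]
  exact (hA.dsc hB).aeval_ne_zero hd hs

theorem flift_aeval_mem {S T : Set ℂ} {A : ℂ[X]} (hA : PC S A) (h : cl S ≤ cl T) {s : ℂ}
    (hs : s ∈ cl T) : aeval s A ∈ cl T :=
  (hA.mono fun _ hy => h (mem_cl hy)).aeval_mem hs

theorem flift_scale {T : Set ℂ} {c d Z : ℂ} (hd : d ∈ cl T) (h0 : d ≠ 0) (h : Ind T [c, Z]) :
    Ind T [c * d, Z] :=
  lift_exchange h fun _ hT h1 h2 => ⟨lift_mem_of_mul (hT hd) h0 (by rwa [mul_comm]), h2⟩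

theorem flift_unscale {T : Set ℂ} {c d Z : ℂ} (hd : d ∈ cl T) (h : Ind T [c * d, Z]) :
    Ind T [c, Z] :=
  lift_exchange h fun _ hT h1 h2 => ⟨mul_mem h1 (hT hd), h2⟩

theorem flift_le2 (S : Set ℂ) (s t : ℂ) : cl S ≤ cl (insert t (insert s S)) :=
  (cl_le_insert S s).trans (cl_le_insert _ t)

theorem flift_mem2 (S : Set ℂ) (s t : ℂ) : s ∈ cl (insert t (insert s S)) :=
  cl_le_insert _ t (mem_cl_insert S s)

theorem goodZ_of_ind {S : Set ℂ} {A B δ δ' : ℂ[X]} (hA : PC S A) (hB : PC S B) (hδ : PC S δ)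
    (he : dsc A B = δ * δ') (hd : dsc A B ≠ 0) {s t c Z : ℂ} (h : Ind S [s, t, c, Z]) :
    GoodZ A B δ s t c Z := by
  have hs : s ∉ cl S := h.1
  have ht : t ∉ cl S := fun h1 => h.2.1 (cl_le_insert S s h1)
  have d1 := flift_dsc_ne hA hB hd hs
  have d2 := flift_dsc_ne hA hB hd ht
  have d3 : aeval s δ ≠ 0 := left_ne_zero_of_mul (flift_dsc he s ▸ d1)
  have d4 : aeval t δ ≠ 0 := left_ne_zero_of_mul (flift_dsc he t ▸ d2)
  have hl := flift_le2 S s t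
  have m1 := flift_mem2 S s t
  have m2 := mem_cl_insert (insert s S) t
  have hi : Ind (insert t (insert s S)) [c, Z] := h.2.2
  have hc : c ≠ 0 := fun h0 => hi.1 (h0 ▸ zero_mem _)
  refine ⟨d1, d2, mul_ne_zero hc (mul_ne_zero d3 d4), fun σ hσ => ?_⟩
  exact mx_ne_zero (flift_aeval_mem hA hl m1) (flift_aeval_mem hB hl m1)
    (flift_aeval_mem hA hl m2) d1
    (flift_scale (mul_mem (flift_aeval_mem hδ hl m1) (flift_aeval_mem hδ hl m2))
      (mul_ne_zero d3 d4) hi) hσ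

theorem jc_ne_zero {S : Set ℂ} {A B δ δ' : ℂ[X]} (hA : PC S A) (hB : PC S B) (hδ : PC S δ)
    (hδ' : PC S δ') {s t c Z : ℂ} (h : Ind S [s, t, c, Z]) : jc A B δ δ' c s t Z ≠ 0 := by
  intro h0
  have hl : cl S ≤ cl (insert c (insert t (insert s S))) :=
    (flift_le2 S s t).trans (cl_le_insert _ c)
  have m1 : s ∈ cl (insert c (insert t (insert s S))) := cl_le_insert _ c (flift_mem2 S s t)
  have m2 : t ∈ cl (insert c (insert t (insert s S))) := flift_mem2 _ t c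
  have m3 : c ∈ cl (insert c (insert t (insert s S))) := mem_cl_insert _ c
  refine h.2.2.2.1 (mem_cl_of_cubic (u := -(48 * (aeval s A * aeval t A)))
    (v := 864 * (aeval s B * aeval t B) -
      16 * (c * (aeval s δ * aeval t δ) + aeval s δ' * aeval t δ' / c)) ?_ ?_ ?_)
  · exact neg_mem (mul_mem (ofNat_mem _ _)
      (mul_mem (flift_aeval_mem hA hl m1) (flift_aeval_mem hA hl m2)))
  · exact sub_mem (mul_mem (ofNat_mem _ _)
      (mul_mem (flift_aeval_mem hB hl m1) (flift_aeval_mem hB hl m2)))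
      (mul_mem (ofNat_mem _ _) (add_mem
        (mul_mem m3 (mul_mem (flift_aeval_mem hδ hl m1) (flift_aeval_mem hδ hl m2)))
        (div_mem (mul_mem (flift_aeval_mem hδ' hl m1) (flift_aeval_mem hδ' hl m2)) m3)))
  · unfold jc at h0
    linear_combination h0

theorem cub_ne_zero {S : Set ℂ} {A B : ℂ[X]} (hA : PC S A) (hB : PC S B) {s x : ℂ}
    (h : Ind S [s, x]) : cub A B s x ≠ 0 := fun h0 =>
  h.2.1 (mem_cl_of_cubic (flift_aeval_mem hA (cl_le_insert S s) (mem_cl_insert S s))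
    (flift_aeval_mem hB (cl_le_insert S s) (mem_cl_insert S s)) h0)

variable {S : Set ℂ} {A1 B1 δ1 δ1' A2 B2 δ2 δ2' : ℂ[X]} {p p' : P5 ℂ}
  {c1 σ1 Z1 W1 c2 σ2 Z2 W2 : ℂ}

theorem flift_cZ_of_xx {T : Set ℂ} {A B δ δ' : ℂ[X]} (hA : PC S A) (hB : PC S B) (hδ : PC S δ)
    (hd : dsc A B ≠ 0) {s t c σ Z W : ℂ} {q : P4 ℂ} (h : FLift A B δ δ' s t c σ Z W q)
    (hs : s ∉ cl S) (ht : t ∉ cl S) (hl : cl (insert t (insert s S)) ≤ cl T)
    (hi : Ind T [q.x, q.x']) : Ind T [c, Z] := by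
  have h0 := (flift_le2 S s t).trans hl
  have m1 := hl (flift_mem2 S s t)
  have m2 := hl (mem_cl_insert (insert s S) t)
  exact flift_unscale (mul_mem (flift_aeval_mem hδ h0 m1) (flift_aeval_mem hδ h0 m2))
    (IsLift.ind_tX (flift_aeval_mem hA h0 m1) (flift_aeval_mem hB h0 m1)
      (flift_aeval_mem hA h0 m2) (flift_aeval_mem hB h0 m2) (flift_dsc_ne hA hB hd hs)
      (flift_dsc_ne hA hB hd ht) h hi)

theorem flift_xx_of_cZ {T : Set ℂ} {A B δ δ' : ℂ[X]} (hA : PC S A) (hB : PC S B) (hδ : PC S δ)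
    (he : dsc A B = δ * δ') (hd : dsc A B ≠ 0) {s t c σ Z W : ℂ} {q : P4 ℂ}
    (h : FLift A B δ δ' s t c σ Z W q)
    (hs : s ∉ cl S) (ht : t ∉ cl S) (hl : cl (insert t (insert s S)) ≤ cl T)
    (hi : Ind T [c, Z]) : Ind T [q.x, q.x'] := by
  have h0 := (flift_le2 S s t).trans hl
  have m1 := hl (flift_mem2 S s t)
  have m2 := hl (mem_cl_insert (insert s S) t)
  have d3 : aeval s δ ≠ 0 := left_ne_zero_of_mul (flift_dsc he s ▸ flift_dsc_ne hA hB hd hs)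
  have d4 : aeval t δ ≠ 0 := left_ne_zero_of_mul (flift_dsc he t ▸ flift_dsc_ne hA hB hd ht)
  exact IsLift.ind_xx (flift_aeval_mem hA h0 m1) (flift_aeval_mem hB h0 m1)
    (flift_aeval_mem hA h0 m2) (flift_aeval_mem hB h0 m2) h
    (flift_scale (mul_mem (flift_aeval_mem hδ h0 m1) (flift_aeval_mem hδ h0 m2))
      (mul_ne_zero d3 d4) hi)

theorem flift_step {T : Set ℂ} {u v a b c d : ℂ}
    (hm : ∀ T' : Set ℂ, cl T ≤ cl T' → Ind T' [a, b] → Ind T' [c, d]) (h : Ind T [u, v, a, b]) :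
    Ind T [c, d, u, v] := by
  have h1 : Ind T ([u, v] ++ [c, d]) := ⟨h.1, h.2.1, hm _ (flift_le2 T u v) h.2.2⟩
  exact h1.perm List.perm_append_comm

theorem genZ_of_gen6 (h : WD S A1 B1 δ1 δ1' A2 B2 δ2 δ2')
    (h1 : FLift A1 B1 δ1 δ1' p.s p'.s c1 σ1 Z1 W1 (p.f1 p'))
    (h2 : FLift A2 B2 δ2 δ2' p.s p'.s c2 σ2 Z2 W2 (p.f2 p')) (hg : Gen6 S p p') :
    Ind S [p.s, p'.s, c1, Z1, c2, Z2] := by
  have hs : p.s ∉ cl S := hg.1
  have ht : p'.s ∉ cl S := fun e => hg.2.1 (cl_le_insert S p.s e)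
  refine ⟨hg.1, hg.2.1, ?_⟩
  exact flift_step (fun _ hl hi => flift_cZ_of_xx h.hA1 h.hB1 h.hδ1 h.ne1 h1 hs ht hl hi)
    (flift_step (fun _ hl hi => flift_cZ_of_xx h.hA2 h.hB2 h.hδ2 h.ne2 h2 hs ht hl hi) hg.2.2)

theorem gen6_of_genZ (h : WD S A1 B1 δ1 δ1' A2 B2 δ2 δ2')
    (h1 : FLift A1 B1 δ1 δ1' p.s p'.s c1 σ1 Z1 W1 (p.f1 p'))
    (h2 : FLift A2 B2 δ2 δ2' p.s p'.s c2 σ2 Z2 W2 (p.f2 p'))
    (hg : Ind S [p.s, p'.s, c1, Z1, c2, Z2]) : Gen6 S p p' := by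
  have hs : p.s ∉ cl S := hg.1
  have ht : p'.s ∉ cl S := fun e => hg.2.1 (cl_le_insert S p.s e)
  refine ⟨hg.1, hg.2.1, ?_⟩
  exact flift_step (fun _ hl hi => flift_xx_of_cZ h.hA1 h.hB1 h.hδ1 h.e1 h.ne1 h1 hs ht hl hi)
    (flift_step (fun _ hl hi => flift_xx_of_cZ h.hA2 h.hB2 h.hδ2 h.e2 h.ne2 h2 hs ht hl hi)
      hg.2.2)

end Pool.Agent.P.MP_a2ccc3_ag
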