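import Pool.Agent.P.MP_a2ccc3_ag.Pair
import Pool.Agent.P.MP_a2ccc3_ag.FLift

/-! The value descends to the symmetric square of the base. -/

open Polynomial

set_option linter.unusedSectionVars false

noncomputable section

namespace Pool.Agent.P.MP_a2ccc3_ag

variable {N : Type} [AddCommGroup N] [Module ℚ N]

/-- The hypotheses on the function on pairs. -/
structure PsiH (Q1 Q2 : Quart) (S : Set ℂ) (Ψ : P5 ℂ → P5 ℂ → N) : Prop where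
  inv : LInvG Q1 Q2 S Ψ
  sym : ∀ p p', Ψ p p' = Ψ p' p
  i1 : ∀ p p', Ψ p.i1 p' = -Ψ p p'
  i2 : ∀ p p', Ψ p.i2 p' = -Ψ p p'

theorem valx_cub (A B : ℂ[X]) (s x : ℂ) :
    cub A B (algebraMap ℂ Om s) (algebraMap ℂ Om x) = algebraMap ℂ Om (cub A B s x) := by
  simp only [cub, aeval_algebraMap_apply, map_add, map_mul, map_pow]

theorem valx_const {A B : ℂ[X]} {s x y : ℂ} (h : y ^ 2 = cub A B s x) :
    algebraMap ℂ Om y ^ 2 = (wei A B).ev (algebraMap ℂ Om s) (algebraMap ℂ Om x) := by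
  rw [wei_ev, valx_cub, ← h, map_pow]

theorem valx_var {A B : ℂ[X]} {s : ℂ} {x y : Om}
    (h : y ^ 2 = x ^ 3 + algebraMap ℂ Om (aeval s A) * x + algebraMap ℂ Om (aeval s B)) :
    y ^ 2 = (wei A B).ev (algebraMap ℂ Om s) x := by
  rw [wei_ev, h]
  simp only [cub, aeval_algebraMap_apply]

theorem valx_set (S : Set ℂ) (a b c d : ℂ) :
    S ∪ {x | x ∈ [a, b, c, d]} = S ∪ {a, b, c, d} := by
  congr 1
  ext y
  simp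

theorem valx_join {S : Set ℂ} {a b c d e f : ℂ} (h : Ind S [a, b, c, d])
    (h' : Ind (S ∪ {a, b, c, d}) [e, f]) : Ind S [a, b, c, d, e, f] :=
  (ind_append (l := [a, b, c, d]) (l' := [e, f])).2 ⟨h, by rw [valx_set]; exact h'⟩

theorem valx_split {S : Set ℂ} {a b c d e f : ℂ} (h : Ind S [a, b, c, d, e, f]) :
    Ind S [a, b, c, d] ∧ Ind (S ∪ {a, b, c, d}) [e, f] := by
  have h1 := (ind_append (l := [a, b, c, d]) (l' := [e, f])).1 h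
  rwa [valx_set] at h1

theorem valx_perm {S : Set ℂ} {a b c d e f : ℂ} (h : Ind S [a, b, c, d, e, f]) :
    Ind S [a, b, e, f, c, d] :=
  h.perm (.cons _ (.cons _ (List.perm_append_comm (l₁ := [c, d]) (l₂ := [e, f]))))

theorem valx_mem {S : Set ℂ} {A : ℂ[X]} (hA : PC S A) (T : Set ℂ) {s : ℂ} (hs : s ∈ T) :
    aeval s A ∈ cl (S ∪ T) :=
  (hA.mono fun _ hy => mem_cl (Or.inl hy)).aeval_mem (mem_cl (Or.inr hs))

theorem valx_dsc {S : Set ℂ} {A B : ℂ[X]} (hA : PC S A) (hB : PC S B) (h0 : dsc A B ≠ 0) {s : ℂ}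
    (hs : s ∉ cl S) : dsc (aeval s A) (aeval s B) ≠ 0 := by
  rw [← aeval_dsc]
  exact (hA.dsc hB).aeval_ne_zero h0 hs

section

variable {S : Set ℂ} {A B A' B' σ σ' X Y Y' t t' : ℂ} {ψ : P4 ℂ → N} {p q : P4 ℂ}

theorem valx_mul (h : PH S A B A' B' ψ) (hp : IsLift A B A' B' σ X Y t t' p) :
    t * t' ∈ cl S ∧ t * t' ≠ 0 := by
  rw [hp.mul]
  exact ⟨mul_mem (lift_dsc_mem h.hA h.hB) (lift_dsc_mem h.hA' h.hB'), mul_ne_zero h.hd h.hd'⟩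

theorem valx_ne (h : PH S A B A' B' ψ) (hp : IsLift A B A' B' σ X Y t t' p)
    (hi : Ind S [t, X]) : Y ≠ 0 :=
  hp.jeq.ne_zero (mul_mem h.hA h.hA') (mul_mem h.hB h.hB') (valx_mul h hp).1 hi

theorem valx_one (h : PH S A B A' B' ψ) (hp : IsLift A B A' B' σ X Y t t' p)
    (hq : IsLift A B A' B' σ' X Y' t t' q) (hi : Ind S [p.x, p.x']) :
    Ind S [q.x, q.x'] ∧ Y ≠ 0 ∧ ((Y' = Y ∧ ψ q = ψ p) ∨ (Y' = -Y ∧ ψ q = -ψ p)) := by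
  have h1 := hp.ind_tX h.hA h.hB h.hA' h.hB' h.hd h.hd' hi
  refine ⟨hq.ind_xx h.hA h.hB h.hA' h.hB' h1, valx_ne h hp h1, ?_⟩
  have e : Y' ^ 2 = Y ^ 2 := (hq.jeq).trans (hp.jeq).symm
  rcases sq_eq_sq_iff_eq_or_eq_neg.1 e with rfl | rfl
  · exact Or.inl ⟨rfl, h.same hp hq h1⟩
  · exact Or.inr ⟨rfl, h.opp hp hq h1⟩

theorem valx_two (h : PH S A B A' B' ψ) (hp : IsLift A B A' B' σ X Y t t' p)
    (hq : IsLift A B A' B' σ' X Y' t' t q) (hi : Ind S [p.x, p.x']) :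
    Ind S [q.x, q.x'] ∧ Y ≠ 0 ∧ ((Y' = Y ∧ ψ q = -ψ p) ∨ (Y' = -Y ∧ ψ q = ψ p)) := by
  have h1 := hp.ind_tX h.hA h.hB h.hA' h.hB' h.hd h.hd' hi
  have h2 := ind_swap_t (valx_mul h hp).1 (valx_mul h hp).2 h1
  refine ⟨hq.ind_xx h.hA h.hB h.hA' h.hB' h2, valx_ne h hp h1, ?_⟩
  have e : Y' ^ 2 = Y ^ 2 := by
    have e1 : Y' ^ 2 = _ := hq.jeq
    have e2 : Y ^ 2 = _ := hp.jeq
    rw [e1, e2, add_comm t' t]
  rcases sq_eq_sq_iff_eq_or_eq_neg.1 e with rfl | rfl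
  · exact Or.inl ⟨rfl, h.jodd hp hq h1⟩
  · refine Or.inr ⟨rfl, ?_⟩
    have h3 := hq.neg
    rw [neg_neg] at h3
    have h4 := h.jodd hp h3 h1
    rw [h.n2] at h4
    exact neg_injective h4

end

theorem valx_sign {V1 V2 W1 W2 : ℂ} {a b c : N} (h1 : W1 ≠ 0) (h2 : W2 ≠ 0)
    (e1 : (V1 = W1 ∧ b = a) ∨ (V1 = -W1 ∧ b = -a))
    (e2 : (V2 = W2 ∧ c = b) ∨ (V2 = -W2 ∧ c = -b)) :
    (V1 * V2 = W1 * W2 → c = a) ∧ (V1 * V2 = -(W1 * W2) → c = -a) := by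
  have h0 : W1 * W2 ≠ 0 := mul_ne_zero h1 h2
  rcases e1 with ⟨rfl, rfl⟩ | ⟨rfl, rfl⟩ <;> rcases e2 with ⟨rfl, rfl⟩ | ⟨rfl, rfl⟩
  · exact ⟨fun _ => rfl, fun e => (h0 (by linear_combination e / 2)).elim⟩
  · exact ⟨fun e => (h0 (by linear_combination -e / 2)).elim, fun _ => rfl⟩
  · exact ⟨fun e => (h0 (by linear_combination -e / 2)).elim, fun _ => rfl⟩
  · exact ⟨fun _ => neg_neg _, fun e => (h0 (by linear_combination e / 2)).elim⟩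

theorem valx_sign' {V1 V2 W1 W2 : ℂ} {a b c : N} (h1 : W1 ≠ 0) (h2 : W2 ≠ 0)
    (e1 : (V1 = W1 ∧ b = -a) ∨ (V1 = -W1 ∧ b = a))
    (e2 : (V2 = W2 ∧ c = -b) ∨ (V2 = -W2 ∧ c = b)) :
    (V1 * V2 = W1 * W2 → c = a) ∧ (V1 * V2 = -(W1 * W2) → c = -a) := by
  have h0 : W1 * W2 ≠ 0 := mul_ne_zero h1 h2
  rcases e1 with ⟨rfl, rfl⟩ | ⟨rfl, rfl⟩ <;> rcases e2 with ⟨rfl, rfl⟩ | ⟨rfl, rfl⟩
  · exact ⟨fun _ => neg_neg _, fun e => (h0 (by linear_combination e / 2)).elim⟩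
  · exact ⟨fun e => (h0 (by linear_combination -e / 2)).elim, fun _ => rfl⟩
  · exact ⟨fun e => (h0 (by linear_combination -e / 2)).elim, fun _ => rfl⟩
  · exact ⟨fun _ => rfl, fun e => (h0 (by linear_combination e / 2)).elim⟩

variable {S : Set ℂ} {A1 B1 δ1 δ1' A2 B2 δ2 δ2' : ℂ[X]} {Ψ : P5 ℂ → P5 ℂ → N}

/-- Fix `s, t` and the points of the second fibration. Use `LInv.comp` with constant
coordinates. -/
theorem PsiH.slot1 (h : WD S A1 B1 δ1 δ1' A2 B2 δ2 δ2') (hΨ : PsiH (wei A1 B1) (wei A2 B2) S Ψ)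
    {s t : ℂ} {r : P4 ℂ} (hr : r.y ^ 2 = cub A2 B2 s r.x) (hr' : r.y' ^ 2 = cub A2 B2 t r.x')
    (hi : Ind S [s, t, r.x, r.x']) :
    PH (S ∪ {s, t, r.x, r.x'}) (aeval s A1) (aeval s B1) (aeval t A1) (aeval t B1)
      fun q => Ψ ⟨s, q.x, q.y, r.x, r.y⟩ ⟨t, q.x', q.y', r.x', r.y'⟩ where
  hA := valx_mem h.hA1 _ (by simp)
  hB := valx_mem h.hB1 _ (by simp)
  hA' := valx_mem h.hA1 _ (by simp)
  hB' := valx_mem h.hB1 _ (by simp)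
  hd := valx_dsc h.hA1 h.hB1 h.ne1 (hi.notMem (by simp))
  hd' := valx_dsc h.hA1 h.hB1 h.ne1 (hi.notMem (by simp))
  inv := LInv.comp hΨ.inv
    (fun q : P4 Om =>
      ((⟨algebraMap ℂ Om s, q.x, q.y, algebraMap ℂ Om r.x, algebraMap ℂ Om r.y⟩ : P5 Om),
        (⟨algebraMap ℂ Om t, q.x', q.y', algebraMap ℂ Om r.x', algebraMap ℂ Om r.y'⟩ : P5 Om)))
    (fun q : P4 ℂ => ((⟨s, q.x, q.y, r.x, r.y⟩ : P5 ℂ), (⟨t, q.x', q.y', r.x', r.y'⟩ : P5 ℂ)))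
    (fun _ hq => ⟨⟨valx_var hq.1, valx_const hr⟩, ⟨valx_var hq.2, valx_const hr'⟩⟩)
    (fun P _ _ hq => ⟨⟨Red.const P _, hq.1, hq.2.1, Red.const P _, Red.const P _⟩,
      ⟨Red.const P _, hq.2.2.1, hq.2.2.2, Red.const P _, Red.const P _⟩⟩)
    (fun _ hq => valx_perm (valx_join hi hq))
  n1 := fun q => hΨ.i1 ⟨s, q.x, q.y, r.x, r.y⟩ ⟨t, q.x', q.y', r.x', r.y'⟩
  n2 := fun q => by
    rw [hΨ.sym, hΨ.sym ⟨s, q.x, q.y, r.x, r.y⟩]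
    exact hΨ.i1 ⟨t, q.x', q.y', r.x', r.y'⟩ ⟨s, q.x, q.y, r.x, r.y⟩

theorem PsiH.slot2 (h : WD S A1 B1 δ1 δ1' A2 B2 δ2 δ2') (hΨ : PsiH (wei A1 B1) (wei A2 B2) S Ψ)
    {s t : ℂ} {r : P4 ℂ} (hr : r.y ^ 2 = cub A1 B1 s r.x) (hr' : r.y' ^ 2 = cub A1 B1 t r.x')
    (hi : Ind S [s, t, r.x, r.x']) :
    PH (S ∪ {s, t, r.x, r.x'}) (aeval s A2) (aeval s B2) (aeval t A2) (aeval t B2)
      fun q => Ψ ⟨s, r.x, r.y, q.x, q.y⟩ ⟨t, r.x', r.y', q.x', q.y'⟩ where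
  hA := valx_mem h.hA2 _ (by simp)
  hB := valx_mem h.hB2 _ (by simp)
  hA' := valx_mem h.hA2 _ (by simp)
  hB' := valx_mem h.hB2 _ (by simp)
  hd := valx_dsc h.hA2 h.hB2 h.ne2 (hi.notMem (by simp))
  hd' := valx_dsc h.hA2 h.hB2 h.ne2 (hi.notMem (by simp))
  inv := LInv.comp hΨ.inv
    (fun q : P4 Om =>
      ((⟨algebraMap ℂ Om s, algebraMap ℂ Om r.x, algebraMap ℂ Om r.y, q.x, q.y⟩ : P5 Om),
        (⟨algebraMap ℂ Om t, algebraMap ℂ Om r.x', algebraMap ℂ Om r.y', q.x', q.y'⟩ : P5 Om)))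
    (fun q : P4 ℂ => ((⟨s, r.x, r.y, q.x, q.y⟩ : P5 ℂ), (⟨t, r.x', r.y', q.x', q.y'⟩ : P5 ℂ)))
    (fun _ hq => ⟨⟨valx_const hr, valx_var hq.1⟩, ⟨valx_const hr', valx_var hq.2⟩⟩)
    (fun P _ _ hq => ⟨⟨Red.const P _, Red.const P _, Red.const P _, hq.1, hq.2.1⟩,
      ⟨Red.const P _, Red.const P _, Red.const P _, hq.2.2.1, hq.2.2.2⟩⟩)
    (fun _ hq => valx_join hi hq)
  n1 := fun q => hΨ.i2 ⟨s, r.x, r.y, q.x, q.y⟩ ⟨t, r.x', r.y', q.x', q.y'⟩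
  n2 := fun q => by
    rw [hΨ.sym, hΨ.sym ⟨s, r.x, r.y, q.x, q.y⟩]
    exact hΨ.i2 ⟨t, r.x', r.y', q.x', q.y'⟩ ⟨s, r.x, r.y, q.x, q.y⟩

/-- Change one factor at a time with `PH.same`, `PH.opp`. For the swapped order use
`IsLift.swap`, the symmetry of `Ψ` and `PH.jodd` in both factors. Note `V₁² = W₁² ≠ 0`. -/
theorem val_eq (h : WD S A1 B1 δ1 δ1' A2 B2 δ2 δ2') (hΨ : PsiH (wei A1 B1) (wei A2 B2) S Ψ)
    {p p' q q' : P5 ℂ} {c1 Z1 c2 Z2 σ1 W1 σ2 W2 τ1 V1 τ2 V2 : ℂ}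
    (hg : Ind S [p.s, p'.s, c1, Z1, c2, Z2])
    (h1 : FLift A1 B1 δ1 δ1' p.s p'.s c1 σ1 Z1 W1 (p.f1 p'))
    (h2 : FLift A2 B2 δ2 δ2' p.s p'.s c2 σ2 Z2 W2 (p.f2 p'))
    (k1 : FLift A1 B1 δ1 δ1' q.s q'.s c1 τ1 Z1 V1 (q.f1 q'))
    (k2 : FLift A2 B2 δ2 δ2' q.s q'.s c2 τ2 Z2 V2 (q.f2 q'))
    (hs : (q.s = p.s ∧ q'.s = p'.s) ∨ (q.s = p'.s ∧ q'.s = p.s)) :
    (V1 * V2 = W1 * W2 → Ψ q q' = Ψ p p') ∧ (V1 * V2 = -(W1 * W2) → Ψ q q' = -Ψ p p') := by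
  have g0 := valx_split (valx_perm (gen6_of_genZ h h1 h2 hg))
  have a1 := hΨ.slot1 h (r := p.f2 p') h2.hy h2.hy' g0.1
  obtain ⟨s, x1, y1, x2, y2⟩ := q
  obtain ⟨t, x1', y1', x2', y2'⟩ := q'
  rcases hs with ⟨e, e'⟩ | ⟨e, e'⟩
  · obtain rfl : s = p.s := e
    obtain rfl : t = p'.s := e'
    obtain ⟨b1, b2, b3⟩ := valx_one a1 h1 k1 g0.2
    have g1 := valx_split (valx_perm (valx_join g0.1 b1))
    have a2 := hΨ.slot2 h (r := ⟨x1, y1, x1', y1'⟩) k1.hy k1.hy' g1.1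
    obtain ⟨-, d2, d3⟩ := valx_one a2 h2 k2 g1.2
    exact valx_sign b2 d2 b3 d3
  · obtain rfl : s = p'.s := e
    obtain rfl : t = p.s := e'
    have l1 := IsLift.swap k1
    have l2 := IsLift.swap k2
    rw [mul_comm (aeval _ δ1), mul_comm (aeval _ δ1')] at l1
    rw [mul_comm (aeval _ δ2), mul_comm (aeval _ δ2')] at l2
    obtain ⟨b1, b2, b3⟩ := valx_two a1 h1 l1 g0.2
    have g1 := valx_split (valx_perm (valx_join g0.1 b1))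
    have a2 := hΨ.slot2 h (r := ⟨x1', y1', x1, y1⟩) l1.hy l1.hy' g1.1
    obtain ⟨-, d2, d3⟩ := valx_two a2 h2 l2 g1.2
    rw [hΨ.sym ⟨p'.s, x1, y1, x2, y2⟩]
    exact valx_sign' b2 d2 b3 d3

end Pool.Agent.P.MP_a2ccc3_ag
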