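import Pool.Agent.P.MP_a2ccc3_ag.NoLine
import Pool.Agent.P.MP_a2ccc3_ag.Val
import Pool.Agent.P.MP_a2ccc3_ag.Krull

/-! The rational curves which join a point to its conjugate. -/

open Polynomial

noncomputable section

namespace Pool.Agent.P.MP_a2ccc3_ag

theorem curve_map_cub {R R' : Type} [CommRing R] [Algebra ℂ R] [CommRing R'] [Algebra ℂ R']
    (φ : R →ₐ[ℂ] R') (A B : ℂ[X]) (s x : R) : φ (cub A B s x) = cub A B (φ s) (φ x) := by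
  simp only [cub, map_add, map_mul, map_pow, Polynomial.aeval_algHom_apply]

theorem curve_deg_aeval {A u : ℂ[X]} {n : ℕ} (hA : A.natDegree ≤ n) (hu : u.natDegree ≤ 1) :
    (aeval u A).natDegree ≤ n := by
  rw [← Polynomial.comp_eq_aeval]
  refine natDegree_comp_le.trans ?_
  calc A.natDegree * u.natDegree ≤ n * 1 := Nat.mul_le_mul hA hu
    _ = n := mul_one n

theorem curve_deg_cub {A B u z : ℂ[X]} (hA : A.natDegree ≤ 4) (hB : B.natDegree ≤ 6)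
    (hu : u.natDegree ≤ 1) (hz : z.natDegree ≤ 2) : (cub A B u z).natDegree ≤ 6 := by
  have h1 := curve_deg_aeval hA hu
  have h2 := curve_deg_aeval hB hu
  have h3 : (z ^ 3).natDegree ≤ 6 := natDegree_pow_le.trans (by omega)
  have h4 : (aeval u A * z).natDegree ≤ 6 := natDegree_mul_le.trans (by omega)
  exact natDegree_add_le_of_degree_le (natDegree_add_le_of_degree_le h3 h4) h2

theorem curve_deg_dsc {A B : ℂ[X]} {n : ℕ} (hA : A.natDegree ≤ 2 * n) (hB : B.natDegree ≤ 3 * n) :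
    (dsc A B).natDegree ≤ 2 * (3 * n) := by
  have h1 : (A ^ 3).natDegree ≤ 2 * (3 * n) := natDegree_pow_le.trans (by omega)
  have h2 : (B ^ 2).natDegree ≤ 2 * (3 * n) := natDegree_pow_le.trans (by omega)
  exact natDegree_add_le_of_degree_le ((natDegree_C_mul_le (4 : ℂ) _).trans h1)
    ((natDegree_C_mul_le (27 : ℂ) _).trans h2)

/-- The degenerate conic. -/
theorem curve_sq {W r1 r2 : ℂ} (hW : W ≠ 0) (hr : r1 ^ 2 = 4 * W ^ 2 * r2) (m : ℂ[X]) :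
    (m * (C W + C (r1 / (2 * W)) * X)) ^ 2 = m ^ 2 * (C (W ^ 2) + C r1 * X + C r2 * X ^ 2) := by
  obtain ⟨a, ha⟩ : ∃ a, a = r1 / (2 * W) := ⟨_, rfl⟩
  have e1 : r1 = 2 * W * a := by rw [ha]; field_simp
  have e2 : r2 = a ^ 2 := by
    have : (4 * W ^ 2) * r2 = (4 * W ^ 2) * a ^ 2 := by rw [← hr, e1]; ring
    exact mul_left_cancel₀ (mul_ne_zero (by norm_num) (pow_ne_zero 2 hW)) this
  rw [← ha, e1, e2]
  simp only [map_mul, map_pow, map_ofNat]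
  ring

theorem curve_conic {W r1 r2 : ℂ} {l η : Om} (h : η ^ 2 = algebraMap ℂ Om (W ^ 2) +
    algebraMap ℂ Om r1 * l + algebraMap ℂ Om r2 * l ^ 2) (m : ℂ[X]) :
    (aeval l m * η) ^ 2 = aeval l (m ^ 2 * (C (W ^ 2) + C r1 * X + C r2 * X ^ 2)) := by
  rw [mul_pow, h]
  simp only [map_mul, map_add, map_pow, aeval_C, aeval_X]

theorem curve_half {N : Type} [AddCommGroup N] [Module ℚ N] {a : N} (h : -a = a) : a = 0 := by
  have h2 : (2 : ℚ) • a = 0 := by rw [two_smul, ← neg_eq_iff_add_eq_zero, h]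
  exact (smul_eq_zero.1 h2).resolve_left two_ne_zero

/-- Rational elliptic surfaces. `conic_exists` with the variables `s, x`, weights `1, 2` and
`e = 2`. If the quadratic polynomial is a square use `no_sec`. Otherwise `exists_conic_param`
and `LInv.one`. -/
theorem ratZero_wei {A B : ℂ[X]} (hA : A.natDegree ≤ 4) (hB : B.natDegree ≤ 6)
    (hd : dsc A B ≠ 0) (hm : Min1 A B) : RatZero (wei A B) := by
  intro S hQ N _ _ Θ hΘ ho p hp hi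
  have pA : PC S A := hQ.2.2.2.1
  have pB : PC S B := hQ.2.2.2.2
  have hp' : p.y ^ 2 = cub A B p.s p.x := hp.trans (wei_ev A B p.s p.x)
  have hW : p.y ≠ 0 := fun h => cub_ne_zero pA pB hi (by rw [← hp', h]; ring)
  have ev : ∀ (K : Type) [CommRing K] [Algebra ℂ K] (w : Fin 2 → K),
      MvPolynomial.aeval w (cub A B (MvPolynomial.X 0 : MvPolynomial (Fin 2) ℂ)
        (MvPolynomial.X 1)) = cub A B (w 0) (w 1) := by
    intro K _ _ w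
    rw [curve_map_cub, MvPolynomial.aeval_X, MvPolynomial.aeval_X]
  obtain ⟨w, m, r1, r2, h1, h2, ⟨i, h3⟩, h4, h5⟩ := conic_exists
    (cub A B (MvPolynomial.X 0 : MvPolynomial (Fin 2) ℂ) (MvPolynomial.X 1)) ![1, 2] 2
    (by simp) (fun w hw => by rw [ev]; exact curve_deg_cub hA hB (hw 0) (hw 1))
    ![p.s, p.x] hW (by rw [ev]; exact hp')
  rw [ev] at h5
  have e0 : (w 0).eval 0 = p.s := h2 0
  have e1 : (w 1).eval 0 = p.x := h2 1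
  by_cases hr : r1 ^ 2 = 4 * p.y ^ 2 * r2
  · refine (no_sec pA pB hd hm (h1 0) (z := w 1) (by rwa [e0, e1]) ?_
      ((curve_sq hW hr m).trans h5)).elim
    fin_cases i
    · exact Or.inl h3
    · exact Or.inr h3
  obtain ⟨l, η, hη, k0, k1⟩ := exists_conic_param hW hr
  have red : ∀ (P : Pl Om) (e : ℂ), Red P l 0 → Red P η e →
      RedS P ⟨aeval l (w 0), aeval l (w 1), aeval l m * η⟩ ⟨p.s, p.x, e⟩ := fun P e a b =>
    ⟨(a.eval (w 0)).of_eq rfl e0, (a.eval (w 1)).of_eq rfl e1,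
      ((a.eval m).mul b).of_eq rfl (by rw [h4, one_mul])⟩
  refine curve_half (LInv.one hΘ ⟨aeval l (w 0), aeval l (w 1), aeval l m * η⟩ 0 1 _ _ ?_
    (fun P hP => ⟨p.n, red P _ (k0 P hP).1 (k0 P hP).2, hi, ho p⟩)
    (fun P hP => ⟨p, red P _ (k1 P hP).1 (k1 P hP).2, hi, rfl⟩))
  change (aeval l m * η) ^ 2 = (wei A B).ev (aeval l (w 0)) (aeval l (w 1))
  rw [wei_ev, curve_conic hη, h5, curve_map_cub]

section

variable {N : Type} [AddCommGroup N] [Module ℚ N] {S : Set ℂ} {A1 B1 δ1 δ1' A2 B2 δ2 δ2' : ℂ[X]}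
  {Ψ : P5 ℂ → P5 ℂ → N} {p p' : P5 ℂ} {c1 σ1 Z1 W1 c2 σ2 Z2 W2 : ℂ}

theorem curve_ind1 {s t : ℂ} (h : Ind S [s, t, c1, Z1, c2, Z2]) : Ind S [s, t, c1, Z1] :=
  h.sublist (by simp)

theorem curve_ind2 {s t : ℂ} (h : Ind S [s, t, c1, Z1, c2, Z2]) : Ind S [s, t, c2, Z2] :=
  h.sublist (by simp)

/-- The values of `s'` and `t'` at a place. -/
theorem curve_st (hZ : Ind S [p.s, p'.s, c1, Z1, c2, Z2]) {P : Pl Om} {s t : Om}
    (h1 : Red P (s + t) (p.s + p'.s)) (h2 : Red P (s * t) (p.s * p'.s)) :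
    ∃ s0 t0, Red P s s0 ∧ Red P t t0 ∧ Ind S [s0, t0, c1, Z1, c2, Z2] ∧
      ((s0 = p.s ∧ t0 = p'.s) ∨ (s0 = p'.s ∧ t0 = p.s)) := by
  rcases red_pair h1 h2 with ⟨a, b⟩ | ⟨a, b⟩
  · exact ⟨_, _, a, b, hZ, Or.inl ⟨rfl, rfl⟩⟩
  · exact ⟨_, _, a, b, hZ.perm (List.Perm.swap _ _ _), Or.inr ⟨rfl, rfl⟩⟩

/-- The end of the family at a place. -/
theorem curve_end (h : WD S A1 B1 δ1 δ1' A2 B2 δ2 δ2') (hΨ : PsiH (wei A1 B1) (wei A2 B2) S Ψ)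
    (hZ : Ind S [p.s, p'.s, c1, Z1, c2, Z2])
    (h1 : FLift A1 B1 δ1 δ1' p.s p'.s c1 σ1 Z1 W1 (p.f1 p'))
    (h2 : FLift A2 B2 δ2 δ2' p.s p'.s c2 σ2 Z2 W2 (p.f2 p')) {s t τ1 z1 Y1 τ2 z2 Y : Om}
    {q r : P4 Om} (k1 : FLift A1 B1 δ1 δ1' s t (algebraMap ℂ Om c1) τ1 z1 Y1 q)
    (k2 : FLift A2 B2 δ2 δ2' s t (algebraMap ℂ Om c2) τ2 z2 (Y / Y1) r) {P : Pl Om} {e : ℂ}
    (a1 : Red P (s + t) (p.s + p'.s)) (a2 : Red P (s * t) (p.s * p'.s)) (a3 : Red P z1 Z1)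
    (a4 : Red P z2 Z2) (a5 : Red P Y e) :
    ∃ c : P5 ℂ × P5 ℂ, (RedP P ⟨s, q.x, q.y, r.x, r.y⟩ c.1 ∧
      RedP P ⟨t, q.x', q.y', r.x', r.y'⟩ c.2) ∧ Gen6 S c.1 c.2 ∧
      (e = W1 * W2 → Ψ c.1 c.2 = Ψ p p') ∧ (e = -(W1 * W2) → Ψ c.1 c.2 = -Ψ p p') := by
  obtain ⟨s0, t0, hs, ht, hi, hst⟩ := curve_st hZ a1 a2
  have g1 := goodZ_of_ind h.hA1 h.hB1 h.hδ1 h.e1 h.ne1 (curve_ind1 hi)
  have g2 := goodZ_of_ind h.hA2 h.hB2 h.hδ2 h.e2 h.ne2 (curve_ind2 hi)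
  have n1 := jc_ne_zero h.hA1 h.hB1 h.hδ1 h.hδ1' (curve_ind1 hi)
  have b1 : Red P (Y1 ^ 2) (jc A1 B1 δ1 δ1' c1 s0 t0 Z1) :=
    (Red.jc A1 B1 δ1 δ1' (left_ne_zero_of_mul g1.hc) hs ht a3).of_eq k1.jc.symm rfl
  obtain ⟨V, hV, hV2⟩ := Red.of_pow two_ne_zero b1
  have hV0 : V ≠ 0 := fun h0 => n1 (by rw [← hV2, h0]; ring)
  obtain ⟨ρ1, q0, rq, l1⟩ := k1.red g1 hs ht a3 hV
  obtain ⟨ρ2, r0, rr, l2⟩ := k2.red g2 hs ht a4 (a5.div hV hV0)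
  have key := val_eq h hΨ (q := ⟨s0, q0.x, q0.y, r0.x, r0.y⟩)
    (q' := ⟨t0, q0.x', q0.y', r0.x', r0.y'⟩) hZ h1 h2 l1 l2 hst
  rw [mul_div_cancel₀ _ hV0] at key
  exact ⟨(⟨s0, q0.x, q0.y, r0.x, r0.y⟩, ⟨t0, q0.x', q0.y', r0.x', r0.y'⟩),
    ⟨⟨hs, rq.1, rq.2.1, rr.1, rr.2.1⟩, ⟨ht, rq.2.2.1, rq.2.2.2, rr.2.2.1, rr.2.2.2⟩⟩,
    gen6_of_genZ h l1 l2 hi, key.1, key.2⟩

theorem curve_flift {A B δ δ' : ℂ[X]} (hA : PC S A) (hB : PC S B) (hd : dsc A B ≠ 0)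
    (he : dsc A B = δ * δ') {s t : ℂ} {q : P4 ℂ} (hi : Ind S [s, q.x]) (hi' : Ind S [t, q.x'])
    (h : q.y ^ 2 = (wei A B).ev s q.x) (h' : q.y' ^ 2 = (wei A B).ev t q.x') :
    ∃ c σ Z W, FLift A B δ δ' s t c σ Z W q := by
  rw [wei_ev] at h h'
  refine exists_flift he ?_ ?_ h h'
    (fun h0 => cub_ne_zero hA hB hi (by rw [← h, h0]; ring))
    (fun h0 => cub_ne_zero hA hB hi' (by rw [← h', h0]; ring))
  · rw [← aeval_dsc]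
    exact (hA.dsc hB).aeval_ne_zero hd hi.1
  · rw [← aeval_dsc]
    exact (hA.dsc hB).aeval_ne_zero hd hi'.1

end

/-- The main curve. Split the discriminants (`PC.exists_split`), take `exists_flift`,
`main_conic_aux` with `W = W₁ W₂`. If `r₁² = 4 W² r₂` use `no_line` with
`w = m (W + r₁ X / (2 W))`. Otherwise take `l, η` from `exists_conic_param`, `s, t` with the given
sum and product, `Y₁` a square root, `Y₂ = m(l) η / Y₁`, lifts from `exists_flift_om`. At the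
places over `0` and `1` use `red_pair`, `FLift.red`, `gen6_of_genZ`, `val_eq`. -/
theorem psiZero_wei {n1 n2 : ℕ} {A1 B1 A2 B2 : ℂ[X]} (hc : CY n1 n2 A1 B1 A2 B2)
    (hd1 : dsc A1 B1 ≠ 0) (hd2 : dsc A2 B2 ≠ 0) : PsiZero (wei A1 B1) (wei A2 B2) := by
  intro S hQ1 hQ2 N _ _ Ψ hinv hsym hi1 hi2 p p' hp hp' hg
  have hΨ : PsiH (wei A1 B1) (wei A2 B2) S Ψ := ⟨hinv, hsym, hi1, hi2⟩
  have pA1 : PC S A1 := hQ1.2.2.2.1
  have pB1 : PC S B1 := hQ1.2.2.2.2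
  have pA2 : PC S A2 := hQ2.2.2.2.1
  have pB2 : PC S B2 := hQ2.2.2.2.2
  obtain ⟨δ1, δ1', a1, a2, a3, a4, a5⟩ :=
    (pA1.dsc pB1).exists_split hd1 (curve_deg_dsc hc.degI₁ hc.degJ₁)
  obtain ⟨δ2, δ2', b1, b2, b3, b4, b5⟩ :=
    (pA2.dsc pB2).exists_split hd2 (curve_deg_dsc hc.degI₂ hc.degJ₂)
  have h : WD S A1 B1 δ1 δ1' A2 B2 δ2 δ2' :=
    ⟨pA1, pB1, a1, a2, pA2, pB2, b1, b2, a5, b5, hd1, hd2⟩
  obtain ⟨c1, σ1, Z1, W1, h1⟩ := curve_flift pA1 pB1 hd1 a5 (s := p.s) (t := p'.s) (q := p.f1 p')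
    (Ind.sublist hg (by simp [P5.f1])) (Ind.sublist hg (by simp [P5.f1])) hp.1 hp'.1
  obtain ⟨c2, σ2, Z2, W2, h2⟩ := curve_flift pA2 pB2 hd2 b5 (s := p.s) (t := p'.s) (q := p.f2 p')
    (Ind.sublist hg (by simp [P5.f2])) (Ind.sublist hg (by simp [P5.f2])) hp.2 hp'.2
  have hZ := genZ_of_gen6 h h1 h2 hg
  have n1' := jc_ne_zero pA1 pB1 a1 a2 (curve_ind1 hZ)
  have n2' := jc_ne_zero pA2 pB2 b1 b2 (curve_ind2 hZ)
  have hW2 : (W1 * W2) ^ 2 = jc A1 B1 δ1 δ1' c1 p.s p'.s Z1 * jc A2 B2 δ2 δ2' c2 p.s p'.s Z2 := by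
    rw [mul_pow, h1.jc, h2.jc]
  have hW : W1 * W2 ≠ 0 := fun h0 => mul_ne_zero n1' n2' (by rw [← hW2, h0]; ring)
  obtain ⟨u, v, z1, z2, m, r1, r2, hu, hv, hu0, hv0, hz1, hz2, hm0, hnc, hw⟩ :=
    main_conic_aux hc.add hc.degI₁ hc.degJ₁ a3 a4 hc.degI₂ hc.degJ₂ b3 b4 hW hW2
  by_cases hr : r1 ^ 2 = 4 * (W1 * W2) ^ 2 * r2
  · refine (no_line hc h h1 h2 hg hu hv hu0 hv0 hz1 hz2 hnc
      (w := m * (C (W1 * W2) + C (r1 / (2 * (W1 * W2))) * X)) fun l s t hs ht => ?_).elim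
    rw [← map_pow, curve_sq hW hr m, hw l s t hs ht]
  obtain ⟨l, η, hη, k0, k1⟩ := exists_conic_param hW hr
  obtain ⟨s, t, hs, ht⟩ := exists_sum_prod (aeval l u) (aeval l v)
  obtain ⟨Y1, hY1⟩ := IsAlgClosed.exists_pow_nat_eq
    (jc A1 B1 δ1 δ1' (algebraMap ℂ Om c1) s t (aeval l z1)) two_pos
  have r1' : ∀ {P : Pl Om}, Red P l 0 → Red P (s + t) (p.s + p'.s) := fun a =>
    (a.eval u).of_eq hs.symm hu0
  have r2' : ∀ {P : Pl Om}, Red P l 0 → Red P (s * t) (p.s * p'.s) := fun a =>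
    (a.eval v).of_eq ht.symm hv0
  have r3 : ∀ {P : Pl Om}, Red P l 0 → Red P (aeval l z1) Z1 := fun a =>
    (a.eval z1).of_eq rfl hz1
  have r4 : ∀ {P : Pl Om}, Red P l 0 → Red P (aeval l z2) Z2 := fun a =>
    (a.eval z2).of_eq rfl hz2
  have r5 : ∀ {P : Pl Om} {e : ℂ}, Red P l 0 → Red P η e → Red P (aeval l m * η) e :=
    fun a b => ((a.eval m).mul b).of_eq rfl (by rw [hm0, one_mul])
  obtain ⟨P0, hP0⟩ := exists_place_red th_trans 0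
  have l0 := (k0 P0 hP0).1
  obtain ⟨s0, t0, hs0, ht0, hi0, -⟩ := curve_st hZ (r1' l0) (r2' l0)
  have g1 := goodZ_of_ind pA1 pB1 a1 a5 hd1 (curve_ind1 hi0)
  have g2 := goodZ_of_ind pA2 pB2 b1 b5 hd2 (curve_ind2 hi0)
  have j1 : jc A1 B1 δ1 δ1' (algebraMap ℂ Om c1) s t (aeval l z1) ≠ 0 :=
    (Red.jc A1 B1 δ1 δ1' (left_ne_zero_of_mul g1.hc) hs0 ht0 (r3 l0)).ne_zero
      (jc_ne_zero pA1 pB1 a1 a2 (curve_ind1 hi0))
  have hY2 : (aeval l m * η / Y1) ^ 2 =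
      jc A2 B2 δ2 δ2' (algebraMap ℂ Om c2) s t (aeval l z2) := by
    rw [div_pow, curve_conic hη, hw l s t hs ht, hY1, mul_div_cancel_left₀ _ j1]
  obtain ⟨τ1, q, f1⟩ := exists_flift_om a5 g1 hs0 ht0 (r3 l0) hY1
  obtain ⟨τ2, r, f2⟩ := exists_flift_om b5 g2 hs0 ht0 (r4 l0) hY2
  refine curve_half (LInv.one hinv
    (⟨s, q.x, q.y, r.x, r.y⟩, ⟨t, q.x', q.y', r.x', r.y'⟩) 0 1 _ _
    ⟨⟨f1.hy.trans (wei_ev A1 B1 s q.x).symm, f2.hy.trans (wei_ev A2 B2 s r.x).symm⟩,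
      ⟨f1.hy'.trans (wei_ev A1 B1 t q.x').symm, f2.hy'.trans (wei_ev A2 B2 t r.x').symm⟩⟩
    (fun P hP => ?_) fun P hP => ?_)
  · obtain ⟨a, b⟩ := k0 P hP
    obtain ⟨c, d1, d2, -, d4⟩ :=
      curve_end h hΨ hZ h1 h2 f1 f2 (r1' a) (r2' a) (r3 a) (r4 a) (r5 a b)
    exact ⟨c, d1, d2, d4 rfl⟩
  · obtain ⟨a, b⟩ := k1 P hP
    obtain ⟨c, d1, d2, d3, -⟩ :=
      curve_end h hΨ hZ h1 h2 f1 f2 (r1' a) (r2' a) (r3 a) (r4 a) (r5 a b)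
    exact ⟨c, d1, d2, d3 rfl⟩

end Pool.Agent.P.MP_a2ccc3_ag
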