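import Pool.Agent.P.MP_a2ccc3_ag.RedF

/-! Curve selection. -/

open Polynomial

noncomputable section

namespace Pool.Agent.P.MP_a2ccc3_ag

/-- A homomorphism to an algebraically closed field extends along an integral extension, with a
prescribed prime above its kernel as the kernel of the extension. -/
theorem csel_lift {R S F : Type} [CommRing R] [CommRing S] [Algebra R S] [Algebra.IsIntegral R S]
    [Field F] [IsAlgClosed F] (g : R →+* F) (q : Ideal S) [q.IsPrime]
    (hq : q.comap (algebraMap R S) = RingHom.ker g) :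
    ∃ β : S →+* F, β.comp (algebraMap R S) = g ∧ RingHom.ker β ≤ q := by
  have hp : (q.comap (algebraMap R S)).IsPrime := Ideal.comap_isPrime _ _
  have hz : ∀ a ∈ q.comap (algebraMap R S), g a = 0 := fun a ha => by
    rw [hq] at ha
    exact ha
  let _ : Algebra (R ⧸ q.comap (algebraMap R S)) F := (Ideal.Quotient.lift _ g hz).toAlgebra
  have h1 : Function.Injective (algebraMap (R ⧸ q.comap (algebraMap R S)) F) :=
    RingHom.lift_injective_of_ker_le_ideal _ hz hq.ge
  have h2 : Function.Injective (algebraMap (R ⧸ q.comap (algebraMap R S)) (S ⧸ q)) :=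
    Ideal.algebraMap_quotient_injective
  have h3 : Module.IsTorsionFree (R ⧸ q.comap (algebraMap R S)) F :=
    Module.isTorsionFree_iff_algebraMap_injective.2 h1
  have h4 : Module.IsTorsionFree (R ⧸ q.comap (algebraMap R S)) (S ⧸ q) :=
    Module.isTorsionFree_iff_algebraMap_injective.2 h2
  let φ : (S ⧸ q) →ₐ[R ⧸ q.comap (algebraMap R S)] F := IsAlgClosed.lift
  refine ⟨φ.toRingHom.comp (Ideal.Quotient.mk q), RingHom.ext fun r => ?_, fun s hs => ?_⟩
  · exact φ.commutes (Ideal.Quotient.mk _ r)
  · have h5 : RingHom.ker φ.toRingHom = ⊥ := by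
      refine Ideal.eq_bot_of_comap_eq_bot (R := R ⧸ q.comap (algebraMap R S)) ?_
      rw [eq_bot_iff]
      intro r hr
      have h6 : φ (algebraMap _ _ r) = 0 := hr
      rw [φ.commutes] at h6
      exact (injective_iff_map_eq_zero _).1 h1 r h6
    have h7 : Ideal.Quotient.mk q s ∈ RingHom.ker φ.toRingHom := hs
    rw [h5, Ideal.mem_bot, Ideal.Quotient.eq_zero_iff_mem] at h7
    exact h7

theorem csel_int {R S F : Type} [CommRing R] [CommRing S] [Algebra R S] [Algebra.IsIntegral R S]
    [Field F] [IsAlgClosed F] (hi : Function.Injective (algebraMap R S)) (g : R →+* F) :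
    ∃ β : S →+* F, β.comp (algebraMap R S) = g := by
  have hp : (RingHom.ker g).IsPrime := RingHom.ker_isPrime g
  obtain ⟨q, -, hq, hq'⟩ := Ideal.exists_ideal_over_prime_of_isIntegral (RingHom.ker g)
    (⊥ : Ideal S) (by
      rw [← RingHom.ker_eq_comap_bot, (RingHom.injective_iff_ker_eq_bot _).1 hi]
      exact bot_le)
  obtain ⟨β, hβ, -⟩ := csel_lift g q hq'
  exact ⟨β, hβ⟩

/-- Extension of homomorphisms when the generators become integral after multiplication by `a`. -/
theorem csel_loc {R S F : Type} [CommRing R] [IsDomain R] [CommRing S] [IsDomain S] [Algebra R S]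
    [Field F] [IsAlgClosed F] (hi : Function.Injective (algebraMap R S)) (s : Set S)
    (hs : Algebra.adjoin R s = ⊤) {a : R} (ha : ∀ z ∈ s, IsIntegral R (a • z)) (g : R →+* F)
    (hg : g a ≠ 0) : ∃ β : S →+* F, β.comp (algebraMap R S) = g := by
  have ha0 : a ≠ 0 := fun h => hg (h ▸ g.map_zero)
  have hL : Function.Injective (algebraMap R (FractionRing S)) := by
    rw [IsScalarTower.algebraMap_eq R S (FractionRing S)]
    exact (IsFractionRing.injective S (FractionRing S)).comp hi
  have hu : IsUnit (algebraMap R (FractionRing S) a) :=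
    isUnit_iff_ne_zero.2 fun h => ha0 ((injective_iff_map_eq_zero _).1 hL a h)
  let _ : Algebra (Localization.Away a) (FractionRing S) :=
    (IsLocalization.Away.lift a hu).toAlgebra
  have hT : IsScalarTower R (Localization.Away a) (FractionRing S) :=
    IsScalarTower.of_algebraMap_eq fun r => (IsLocalization.Away.lift_eq a hu r).symm
  have hj : Function.Injective (algebraMap (Localization.Away a) (FractionRing S)) := by
    refine (IsLocalization.lift_injective_iff _).2 fun x y => ⟨fun h => ?_, fun h => ?_⟩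
    · have h1 := congrArg (algebraMap (Localization.Away a) (FractionRing S)) h
      rwa [← IsScalarTower.algebraMap_apply, ← IsScalarTower.algebraMap_apply] at h1
    · rw [hL h]
  have hj' : Function.Injective (algebraMap (Localization.Away a)
      (integralClosure (Localization.Away a) (FractionRing S))) := fun x y h =>
    hj (congrArg Subtype.val h)
  obtain ⟨β, hβ⟩ := csel_int hj'
    (IsLocalization.Away.lift (S := Localization.Away a) a (isUnit_iff_ne_zero.2 hg))
  have hm : ∀ z : S, algebraMap S (FractionRing S) z ∈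
      integralClosure (Localization.Away a) (FractionRing S) := by
    intro z
    have hz : z ∈ Algebra.adjoin R s := hs ▸ Algebra.mem_top
    induction hz using Algebra.adjoin_induction with
    | mem z hz =>
      have h1 : IsIntegral (Localization.Away a) (algebraMap S (FractionRing S) (a • z)) :=
        ((ha z hz).map (IsScalarTower.toAlgHom R S (FractionRing S))).tower_top
      have h2 := h1.smul (IsLocalization.Away.invSelf (S := Localization.Away a) a)
      rw [Algebra.smul_def, Algebra.smul_def, map_mul, ← IsScalarTower.algebraMap_apply,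
        IsScalarTower.algebraMap_apply R (Localization.Away a) (FractionRing S), ← mul_assoc,
        ← map_mul, mul_comm (IsLocalization.Away.invSelf a), IsLocalization.Away.mul_invSelf,
        map_one, one_mul] at h2
      exact h2
    | algebraMap r =>
      rw [← IsScalarTower.algebraMap_apply,
        IsScalarTower.algebraMap_apply R (Localization.Away a) (FractionRing S)]
      exact Subalgebra.algebraMap_mem _ _
    | add x y _ _ hx hy => rw [map_add]; exact add_mem hx hy
    | mul x y _ _ hx hy => rw [map_mul]; exact mul_mem hx hy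
  refine ⟨β.comp ((algebraMap S (FractionRing S)).codRestrict _ hm), RingHom.ext fun r => ?_⟩
  have h1 := RingHom.congr_fun hβ (algebraMap R (Localization.Away a) r)
  rw [IsLocalization.Away.lift_eq] at h1
  rw [← h1]
  refine congrArg β (Subtype.ext ?_)
  show algebraMap S (FractionRing S) (algebraMap R S r) =
    algebraMap (Localization.Away a) (FractionRing S) (algebraMap R (Localization.Away a) r)
  rw [← IsScalarTower.algebraMap_apply, ← IsScalarTower.algebraMap_apply]

theorem csel_ext {A B F : Type} [CommRing A] [IsDomain A] [CommRing B] [IsDomain B]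
    [Algebra A B] [Algebra.FiniteType A B] [Field F] [IsAlgClosed F]
    (hi : Function.Injective (algebraMap A B)) :
    ∃ h : A, h ≠ 0 ∧ ∀ g : A →+* F, g h ≠ 0 → ∃ β : B →+* F, β.comp (algebraMap A B) = g := by
  classical
  have : FaithfulSMul A B := (faithfulSMul_iff_algebraMap_injective _ _).2 hi
  obtain ⟨ι, x, hx⟩ := exists_isTranscendenceBasis' A B
  let _ : Algebra (MvPolynomial ι A) B := (MvPolynomial.aeval x).toRingHom.toAlgebra
  have hT : IsScalarTower A (MvPolynomial ι A) B :=
    IsScalarTower.of_algebraMap_eq fun r => ((MvPolynomial.aeval x).commutes r).symm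
  have hj : Function.Injective (algebraMap (MvPolynomial ι A) B) := hx.1
  have hF : FaithfulSMul (MvPolynomial ι A) B := (faithfulSMul_iff_algebraMap_injective _ _).2 hj
  have halg : Algebra.IsAlgebraic (MvPolynomial ι A) B := by
    refine hx.isAlgebraic_iff.2 fun i => ?_
    have h1 : x i = algebraMap (MvPolynomial ι A) B (MvPolynomial.X i) :=
      (MvPolynomial.aeval_X x i).symm
    rw [h1]
    exact isAlgebraic_algebraMap _
  obtain ⟨s, hs⟩ := (Algebra.FiniteType.of_restrictScalars_finiteType A (MvPolynomial ι A) B).out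
  obtain ⟨a, ha0, ha⟩ := Algebra.IsAlgebraic.exists_integral_multiples (MvPolynomial ι A) s
  obtain ⟨m, hm⟩ := MvPolynomial.ne_zero_iff.1 ha0
  refine ⟨_, hm, fun g hg => ?_⟩
  have h1 : MvPolynomial.map g a ≠ 0 := fun h => hg (by
    rw [← MvPolynomial.coeff_map, h, MvPolynomial.coeff_zero])
  obtain ⟨ξ, hξ⟩ : ∃ ξ : ι → F, MvPolynomial.eval ξ (MvPolynomial.map g a) ≠ 0 := by
    by_contra hc
    push Not at hc
    exact h1 (MvPolynomial.funext fun ξ => by rw [hc, map_zero])
  rw [MvPolynomial.eval_map] at hξ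
  obtain ⟨β, hβ⟩ := csel_loc hj (s : Set B) hs ha (MvPolynomial.eval₂Hom g ξ) hξ
  refine ⟨β, RingHom.ext fun r => ?_⟩
  have h2 := RingHom.congr_fun hβ (MvPolynomial.C r)
  rw [MvPolynomial.eval₂Hom_C] at h2
  rw [← h2, RingHom.comp_apply, RingHom.comp_apply,
    IsScalarTower.algebraMap_apply A (MvPolynomial ι A) B, MvPolynomial.algebraMap_eq]

/-- There is `h ≠ 0` in `A` such that homomorphisms to algebraically closed fields which do not
kill `h` extend to `B`. Induction on the generators, or Noether normalisation over the fraction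
field, or Chevalley's theorem in Mathlib. -/
theorem exists_ext_elem {A B : Type} [CommRing A] [IsDomain A] [CommRing B] [IsDomain B]
    [Algebra ℂ A] [Algebra ℂ B] [Algebra.FiniteType ℂ B] (α : A →ₐ[ℂ] B)
    (hα : Function.Injective α) :
    ∃ h : A, h ≠ 0 ∧ ∀ g : A →ₐ[ℂ] Om, g h ≠ 0 → ∃ β : B →ₐ[ℂ] Om, β.comp α = g := by
  let _ : Algebra A B := α.toRingHom.toAlgebra
  have hT : IsScalarTower ℂ A B := IsScalarTower.of_algebraMap_eq fun r => (α.commutes r).symm
  have hF : Algebra.FiniteType A B := Algebra.FiniteType.of_restrictScalars_finiteType ℂ A B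
  obtain ⟨h, h0, hh⟩ := csel_ext (A := A) (B := B) (F := Om) hα
  refine ⟨h, h0, fun g hg => ?_⟩
  obtain ⟨β, hβ⟩ := hh g.toRingHom hg
  have h1 : ∀ a, β (α a) = g a := fun a => RingHom.congr_fun hβ a
  exact ⟨⟨β, fun r => by rw [← α.commutes, ← g.commutes]; exact h1 _⟩, AlgHom.ext h1⟩

/-- A place of `Om` centred at a point of the image of `g`. -/
theorem csel_place {A : Type} [CommRing A] [Algebra ℂ A] (c : A →ₐ[ℂ] ℂ) (g : A →ₐ[ℂ] Om)
    (hg : ∀ a, g a = 0 → c a = 0) : ∃ P : Pl Om, ∀ a, Red P (g a) (c a) := by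
  by_cases hc : ∀ a, g a = algebraMap ℂ Om (c a)
  · obtain ⟨P, -⟩ := exists_place_red th_trans 0
    exact ⟨P, fun a => hc a ▸ Red.const P (c a)⟩
  push Not at hc
  obtain ⟨a0, ha0⟩ := hc
  have hI : (RingHom.ker c.toRingHom).map g.toRingHom.rangeRestrict ≠ ⊤ := by
    intro h
    have h1 : (1 : g.toRingHom.range) ∈ (RingHom.ker c.toRingHom).map g.toRingHom.rangeRestrict :=
      h ▸ Submodule.mem_top
    obtain ⟨a, ha, h2⟩ :=
      (Ideal.mem_map_iff_of_surjective _ g.toRingHom.rangeRestrict_surjective).1 h1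
    have h3 : g a = 1 := congrArg Subtype.val h2
    have h4 : c a = 0 := ha
    have h5 := hg (a - 1) (by rw [map_sub, h3, map_one, sub_self])
    rw [map_sub, h4, map_one, zero_sub, neg_eq_zero] at h5
    exact one_ne_zero h5
  obtain ⟨O, hO, hO'⟩ := Ideal.image_subset_nonunits_valuationSubring _ hI
  have key : ∀ a, g a - algebraMap ℂ Om (c a) ∈ O.nonunits := by
    intro a
    refine hO' ⟨g.toRingHom.rangeRestrict (a - algebraMap ℂ A (c a)),
      Ideal.mem_map_of_mem _ ?_, ?_⟩
    · show c (a - algebraMap ℂ A (c a)) = 0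
      rw [map_sub, c.commutes]
      exact sub_self _
    · show g (a - algebraMap ℂ A (c a)) = _
      rw [map_sub, g.commutes]
  refine ⟨⟨O, fun h => ?_, fun r => hO ⟨algebraMap ℂ A r, g.commutes r⟩⟩, key⟩
  rcases O.mem_nonunits_iff_or.1 (key a0) with h1 | h1
  · exact ha0 (sub_eq_zero.1 h1)
  · exact h1 (h ▸ trivial)

/-- A curve through a given point which is not contained in `h = 0`. Noether normalisation
`ℂ[z] → A`, a line through the image of the point on which the constant term of an integral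
equation of `h` does not vanish, going down, and a valuation ring which dominates. -/
theorem exists_curve {A : Type} [CommRing A] [IsDomain A] [Algebra ℂ A] [Algebra.FiniteType ℂ A]
    (c : A →ₐ[ℂ] ℂ) {h : A} (h0 : h ≠ 0) :
    ∃ (g : A →ₐ[ℂ] Om) (P : Pl Om), g h ≠ 0 ∧ ∀ a, Red P (g a) (c a) := by
  obtain ⟨d, φ, hφ, hint⟩ := exists_integral_inj_algHom_of_fg ℂ A
  let _ : Algebra (MvPolynomial (Fin d) ℂ) A := φ.toRingHom.toAlgebra
  have hI : Algebra.IsIntegral (MvPolynomial (Fin d) ℂ) A := ⟨hint⟩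
  have hF : FaithfulSMul (MvPolynomial (Fin d) ℂ) A :=
    (faithfulSMul_iff_algebraMap_injective _ _).2 hφ
  obtain ⟨r, hr0, h', hr⟩ := (Algebra.IsAlgebraic.isAlgebraic (R := MvPolynomial (Fin d) ℂ)
    h).exists_nonzero_dvd (mem_nonZeroDivisors_of_ne_zero h0)
  obtain ⟨z, hz⟩ : ∃ z : Fin d → ℂ, MvPolynomial.eval z r ≠ 0 := by
    by_contra hc
    push Not at hc
    exact hr0 (MvPolynomial.funext fun z => by rw [hc, map_zero])
  let ψ : MvPolynomial (Fin d) ℂ →ₐ[ℂ] ℂ[X] := MvPolynomial.aeval fun i =>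
    C (c (φ (MvPolynomial.X i))) + C (z i - c (φ (MvPolynomial.X i))) * X
  have hψ0 : ∀ p, aeval (0 : ℂ) (ψ p) = c (φ p) := by
    have h1 : (aeval (0 : ℂ) : ℂ[X] →ₐ[ℂ] ℂ).comp ψ = c.comp φ :=
      MvPolynomial.algHom_ext fun i => by simp [ψ]
    exact fun p => AlgHom.congr_fun h1 p
  have hψ1 : ∀ p, aeval (1 : ℂ) (ψ p) = MvPolynomial.aeval z p := by
    have h1 : (aeval (1 : ℂ) : ℂ[X] →ₐ[ℂ] ℂ).comp ψ = MvPolynomial.aeval z :=
      MvPolynomial.algHom_ext fun i => by simp [ψ]
    exact fun p => AlgHom.congr_fun h1 p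
  let g0 : MvPolynomial (Fin d) ℂ →ₐ[ℂ] Om := (aeval th).comp ψ
  have hg0 : ∀ p, g0 p = 0 → ψ p = 0 := fun p hp =>
    (injective_iff_map_eq_zero _).1 (transcendental_iff_injective.1 th_trans) _ hp
  have hp : (RingHom.ker g0.toRingHom).IsPrime := RingHom.ker_isPrime _
  have hm : (RingHom.ker c.toRingHom).IsPrime := RingHom.ker_isPrime _
  obtain ⟨q, hq, hq1, hq2⟩ := Ideal.exists_ideal_le_liesOver_of_le
    (p := RingHom.ker g0.toRingHom)
    (q := (RingHom.ker c.toRingHom).under (MvPolynomial (Fin d) ℂ)) (RingHom.ker c.toRingHom)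
    (fun p hp => by
      show c (φ p) = 0
      rw [← hψ0, hg0 p hp, map_zero])
  obtain ⟨β, hβ, hβ'⟩ := csel_lift g0.toRingHom q hq2.over.symm
  have h1 : ∀ p, β (φ p) = g0 p := fun p => RingHom.congr_fun hβ p
  let g : A →ₐ[ℂ] Om := ⟨β, fun s => by rw [← φ.commutes, ← g0.commutes]; exact h1 _⟩
  obtain ⟨P, hP⟩ := csel_place c g fun a ha => hq (hβ' ha)
  refine ⟨g, P, fun h2 => hz ?_, hP⟩
  have h3 : β h = 0 := h2
  have h4 : φ r = h * h' := hr
  have h5 : g0 r = 0 := by rw [← h1, h4, map_mul, h3, zero_mul]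
  rw [← MvPolynomial.aeval_eq_eval, ← hψ1, hg0 r h5, map_zero]

theorem curve_sel {A B : Type} [CommRing A] [IsDomain A] [CommRing B] [IsDomain B]
    [Algebra ℂ A] [Algebra ℂ B] [Algebra.FiniteType ℂ A] [Algebra.FiniteType ℂ B]
    (α : A →ₐ[ℂ] B) (hα : Function.Injective α) (c : A →ₐ[ℂ] ℂ) :
    ∃ (K : Type) (_ : Field K) (_ : Algebra ℂ K) (_ : FF K) (β : B →ₐ[ℂ] K) (P : Pl K),
      ∀ a, Red P (β (α a)) (c a) := by
  obtain ⟨h, h0, hh⟩ := exists_ext_elem α hα
  obtain ⟨g, P', hg, hP'⟩ := exists_curve c h0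
  obtain ⟨β, hβ⟩ := hh g hg
  obtain ⟨s, hs⟩ := (inferInstance : Algebra.FiniteType ℂ B).out
  obtain ⟨K, hK, hth, hx⟩ := exists_ff fun i : s => β i
  have hm : ∀ b, β b ∈ K.toSubalgebra := by
    intro b
    have h1 : Algebra.adjoin ℂ (s : Set B) ≤ K.toSubalgebra.comap β :=
      Algebra.adjoin_le fun y hy => hx ⟨y, hy⟩
    exact h1 (hs ▸ Algebra.mem_top)
  obtain ⟨P, hP⟩ := exists_place_below K hth P'
  refine ⟨K, inferInstance, inferInstance, hK, β.codRestrict K.toSubalgebra hm, P, fun a => ?_⟩
  refine (hP _ _).1 ?_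
  have h1 := hP' a
  rw [← hβ] at h1
  exact h1

end Pool.Agent.P.MP_a2ccc3_ag
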