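import Mathlib

/-!
Zero-cycles modulo rational equivalence on schemes over `ℂ`, powers of a scheme, and the affine
threefolds `y₁² = Q₁(x₁, s), y₂² = Q₂(x₂, s)` and `w² = Q₁(x₁, s) Q₂(x₂, s)`.
-/

open CategoryTheory CategoryTheory.Limits AlgebraicGeometry
open scoped IntermediateField

noncomputable section

namespace Pool.Agent.P.MP_a2ccc3_ag

/-- Schemes over `ℂ`. -/
abbrev Var : Type 1 := Over (Spec (CommRingCat.of ℂ))

/-- The spectrum of a `ℂ`-algebra, as a scheme over `ℂ`. -/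
def spec (R : Type) [CommRing R] [Algebra ℂ R] : Var :=
  Over.mk (Spec.map (CommRingCat.ofHom (algebraMap ℂ R)))

/-- The morphism of spectra given by a homomorphism of `ℂ`-algebras. -/
def specMap {R S : Type} [CommRing R] [Algebra ℂ R] [CommRing S] [Algebra ℂ S]
    (f : R →ₐ[ℂ] S) : spec S ⟶ spec R :=
  Over.homMk (Spec.map (CommRingCat.ofHom f.toRingHom)) (by
    show Spec.map _ ≫ Spec.map _ = Spec.map _
    rw [← Spec.map_comp, ← CommRingCat.ofHom_comp]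
    exact congrArg (fun g => Spec.map (CommRingCat.ofHom g)) f.comp_algebraMap)

/-- The `R`-valued points of `Y`. The `ℂ`-valued points are the closed points. -/
abbrev Pt (R : Type) [CommRing R] [Algebra ℂ R] (Y : Var) : Type := spec R ⟶ Y

/-- `K` is the function field of a complex curve. -/
def IsCurveField (K : Type) [Field K] [Algebra ℂ K] : Prop :=
  ∃ t : K, Transcendental ℂ t ∧ FiniteDimensional ℂ⟮t⟯ K

/-- A point of the smooth complete curve with function field `K`, given by its local ring: a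
valuation ring of `K` which contains `ℂ` and is not `K`. -/
structure Place (K : Type) [Field K] [Algebra ℂ K] where
  O : Subalgebra ℂ K
  ne_top : O ≠ ⊤
  mem_or_inv_mem : ∀ x : K, x ∈ O ∨ x⁻¹ ∈ O

/-- `f` has order `n` at `P`: it is a unit times `π ^ n` for a generator `π` of the maximal
ideal. -/
def HasOrd {K : Type} [Field K] [Algebra ℂ K] (P : Place K) (f : K) (n : ℤ) : Prop :=
  ∃ π ∈ P.O, π⁻¹ ∉ P.O ∧ (∀ x ∈ P.O, x⁻¹ ∉ P.O → x / π ∈ P.O) ∧
    f / π ^ n ∈ P.O ∧ π ^ n / f ∈ P.O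

/-- The map from the curve to `Y` given by the `K`-valued point `η` sends `P` to `y`: `η` extends
to the local ring of `P`, and the closed point goes to `y`. -/
def Specializes {K : Type} [Field K] [Algebra ℂ K] {Y : Var} (P : Place K) (η : Pt K Y)
    (y : Pt ℂ Y) : Prop :=
  ∃ (ξ : Pt P.O Y) (r : P.O →ₐ[ℂ] ℂ), specMap P.O.val ≫ ξ = η ∧ specMap r ≫ ξ = y

/-- The span of the zero-cycles `g_*(div f)`, for `g : C → Y` a map from a smooth complete curve
and `f` a nonzero rational function on `C`. -/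
def ratRel (Y : Var) : Submodule ℚ (Pt ℂ Y →₀ ℚ) :=
  Submodule.span ℚ {z | ∃ (K : Type) (_ : Field K) (_ : Algebra ℂ K) (η : Pt K Y) (f : K)
    (n : Place K →₀ ℤ) (y : Place K → Pt ℂ Y), IsCurveField K ∧ f ≠ 0 ∧
    (∀ P, HasOrd P f (n P)) ∧ (∀ P ∈ n.support, Specializes P η (y P)) ∧
    z = n.sum fun P m => Finsupp.single (y P) (m : ℚ)}

/-- The Chow group of zero-cycles with rational coefficients of a proper scheme `Y`. -/
abbrev A0 (Y : Var) : Type := (Pt ℂ Y →₀ ℚ) ⧸ ratRel Y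

theorem ratRel_le {Y Z : Var} (g : Y ⟶ Z) :
    ratRel Y ≤ (ratRel Z).comap (Finsupp.lmapDomain ℚ ℚ fun y => y ≫ g) := by
  refine Submodule.span_le.2 ?_
  rintro z ⟨K, _, _, η, f, n, y, hK, hf, hn, hy, rfl⟩
  refine Submodule.subset_span ⟨K, _, _, η ≫ g, f, n, fun P => y P ≫ g, hK, hf, hn, ?_, ?_⟩
  · intro P hP
    obtain ⟨ξ, r, h1, h2⟩ := hy P hP
    exact ⟨ξ ≫ g, r, by rw [← Category.assoc, h1], by rw [← Category.assoc, h2]⟩
  · simp [Finsupp.sum, Finsupp.mapDomain_finsetSum]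

/-- Push-forward of zero-cycles. -/
def push {Y Z : Var} (g : Y ⟶ Z) : A0 Y →ₗ[ℚ] A0 Z :=
  Submodule.mapQ _ _ (Finsupp.lmapDomain ℚ ℚ fun y => y ≫ g) (ratRel_le g)

/-- The product over `ℂ` of `k` copies of `X`. -/
abbrev pow (X : Var) (k : ℕ) : Var := ∏ᶜ fun _ : Fin k => X

/-- The permutation of the factors of `X ^ k`. -/
def perm (X : Var) {k : ℕ} (σ : Equiv.Perm (Fin k)) : pow X k ⟶ pow X k :=
  Pi.lift fun i => Pi.π (fun _ : Fin k => X) (σ i)

/-- The projection `X ^ (k + 1) → X ^ k` which forgets the last factor. -/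
def forget (X : Var) (k : ℕ) : pow X (k + 1) ⟶ pow X k :=
  Pi.lift fun i => Pi.π (fun _ : Fin (k + 1) => X) i.castSucc

/-- The case `j = 0` of Voisin's conjecture for `X`: for all `k ≥ 2` the push-forward
`A₀(X ^ k) → A₀(X ^ (k - 1))` is injective on the invariants of the symmetric group. -/
def VoisinZero (X : Var) : Prop :=
  ∀ (m : ℕ) (z : A0 (pow X (m + 2))), (∀ σ, push (perm X σ) z = z) →
    push (forget X (m + 1)) z = 0 → z = 0

/-- A polynomial `a(s) x⁴ + b(s) x³ + c(s) x² + d(s) x + e(s)`. -/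
structure Quart where
  a : Polynomial ℂ
  b : Polynomial ℂ
  c : Polynomial ℂ
  d : Polynomial ℂ
  e : Polynomial ℂ

open Polynomial in
/-- The value of the quartic at `(s, x)`. -/
def Quart.ev (Q : Quart) {R : Type} [CommRing R] [Algebra ℂ R] (s x : R) : R :=
  aeval s Q.a * x ^ 4 + aeval s Q.b * x ^ 3 + aeval s Q.c * x ^ 2 + aeval s Q.d * x + aeval s Q.e

/-- The invariant of degree two of a binary quartic. -/
def Quart.I (Q : Quart) : Polynomial ℂ := 12 * Q.a * Q.e - 3 * Q.b * Q.d + Q.c ^ 2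

/-- The invariant of degree three of a binary quartic. The Jacobian of `y² = Q` is
`y² = x³ - 27 I x - 27 J`, and the discriminant of `Q` is `(4 I³ - J²) / 27`. -/
def Quart.J (Q : Quart) : Polynomial ℂ :=
  72 * Q.a * Q.c * Q.e + 9 * Q.b * Q.c * Q.d - 27 * Q.a * Q.d ^ 2 - 27 * Q.e * Q.b ^ 2 -
    2 * Q.c ^ 3

open Polynomial in
/-- The Calabi-Yau condition. `I₁, J₁, I₂, J₂` are sections of `O(2 n₁), O(3 n₁), O(2 n₂), O(3 n₂)`
on the projective line with `n₁ + n₂ = 4`, and at every point of the line, finite or infinite,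
`min (3 ord I₁) (2 ord J₁) + min (3 ord I₂) (2 ord J₂) < 12`. -/
structure CY (n₁ n₂ : ℕ) (I₁ J₁ I₂ J₂ : Polynomial ℂ) : Prop where
  add : n₁ + n₂ = 4
  degI₁ : I₁.natDegree ≤ 2 * n₁
  degJ₁ : J₁.natDegree ≤ 3 * n₁
  degI₂ : I₂.natDegree ≤ 2 * n₂
  degJ₂ : J₂.natDegree ≤ 3 * n₂
  fin : ∀ (s : ℂ) (m₁ m₂ : ℕ), (X - C s) ^ m₁ ∣ I₁ ^ 3 → (X - C s) ^ m₁ ∣ J₁ ^ 2 →
    (X - C s) ^ m₂ ∣ I₂ ^ 3 → (X - C s) ^ m₂ ∣ J₂ ^ 2 → m₁ + m₂ < 12
  inf : 12 < max (3 * I₁.natDegree) (2 * J₁.natDegree) + max (3 * I₂.natDegree) (2 * J₂.natDegree)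

open MvPolynomial in
/-- The coordinate ring of the open subset `G(s, x₁, x₂) ≠ 0` of the fibre product
`y₁² = Q₁(x₁, s)`, `y₂² = Q₂(x₂, s)` of two genus one fibrations over the `s`-line. The
variables are `s, x₁, x₂, y₁, y₂` and the inverse of `G`. -/
abbrev FibRing (Q₁ Q₂ : Quart) (G : MvPolynomial (Fin 3) ℂ) : Type :=
  MvPolynomial (Fin 6) ℂ ⧸ Ideal.span
    ({X 3 ^ 2 - Q₁.ev (X 0) (X 1), X 4 ^ 2 - Q₂.ev (X 0) (X 2),
      X 5 * aeval ![X 0, X 1, X 2] G - 1} : Set (MvPolynomial (Fin 6) ℂ))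

open MvPolynomial in
/-- The coordinate ring of the open subset `G(s, x₁, x₂) ≠ 0` of the quotient
`w² = Q₁(x₁, s) Q₂(x₂, s)` of the fibre product by `(y₁, y₂) ↦ (-y₁, -y₂)`. The variables are
`s, x₁, x₂, w` and the inverse of `G`. -/
abbrev KumRing (Q₁ Q₂ : Quart) (G : MvPolynomial (Fin 3) ℂ) : Type :=
  MvPolynomial (Fin 5) ℂ ⧸ Ideal.span
    ({X 3 ^ 2 - Q₁.ev (X 0) (X 1) * Q₂.ev (X 0) (X 2),
      X 4 * aeval ![X 0, X 1, X 2] G - 1} : Set (MvPolynomial (Fin 5) ℂ))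

end Pool.Agent.P.MP_a2ccc3_ag
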