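import Pool.Agent.P.MP_a2ccc3_ag.RedF
import Pool.Agent.P.MP_a2ccc3_ag.Cl

/-! Derivations of the complex numbers and of function fields. -/

open Polynomial

noncomputable section

namespace Pool.Agent.P.MP_a2ccc3_ag

/-- A field of characteristic zero is formally smooth over every subring. -/
theorem der_smooth {A L : Type} [CommRing A] [Field L] [CharZero L] [Algebra A L]
    (hi : Function.Injective (algebraMap A L)) : Algebra.FormallySmooth A L := by
  have h1 : FaithfulSMul A L := (faithfulSMul_iff_algebraMap_injective A L).2 hi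
  have h2 : IsDomain A := IsDomain.of_faithfulSMul A L
  let h3 : Algebra (FractionRing A) L := FractionRing.liftAlgebra A L
  have h4 : IsScalarTower A (FractionRing A) L := FractionRing.isScalarTower_liftAlgebra A L
  have h5 : Algebra.FormallySmooth A (FractionRing A) :=
    Algebra.FormallySmooth.of_isLocalization (nonZeroDivisors A)
  obtain ⟨s, hs⟩ := exists_isTranscendenceBasis (FractionRing A) L
  have h6 := hs.isAlgebraic_field
  have h7 : Algebra.FormallySmooth (FractionRing A) L :=
    Algebra.FormallySmooth.of_algebraicIndependent_of_isSeparable hs.1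
  exact Algebra.FormallySmooth.comp A (FractionRing A) L

/-- Sections of a nilpotent extension extend from a subring. -/
theorem der_lift {A L T : Type} [CommRing A] [Field L] [CharZero L] [CommRing T] (i : A →+* L)
    (hi : Function.Injective i) (φ : A →+* T) (p : T →+* L) (hp : Function.Surjective p)
    (hk : ∀ r s, p r = 0 → p s = 0 → r * s = 0) (h : ∀ a, p (φ a) = i a) :
    ∃ ψ : L →+* T, (∀ y, p (ψ y) = y) ∧ ∀ a, ψ (i a) = φ a := by
  have hn : IsNilpotent (RingHom.ker p) := by
    refine ⟨2, ?_⟩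
    rw [pow_two, Ideal.zero_eq_bot, eq_bot_iff, Ideal.mul_le]
    exact fun r hr s hs => hk r s hr hs
  let h1 : Algebra A L := i.toAlgebra
  let h2 : Algebra A T := φ.toAlgebra
  have h3 : Algebra.FormallySmooth A L := der_smooth hi
  let g : T →ₐ[A] L := { p with commutes' := h }
  refine ⟨(Algebra.FormallySmooth.liftOfSurjective (AlgHom.id A L) g hp hn).toRingHom,
    fun y => ?_, fun a => ?_⟩
  · exact Algebra.FormallySmooth.liftOfSurjective_apply (AlgHom.id A L) g hp hn y
  · exact (Algebra.FormallySmooth.liftOfSurjective (AlgHom.id A L) g hp hn).commutes a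

/-- A derivation of a subfield extends, with a given value at a transcendental element. -/
theorem der_exists {F L : Type} [Field F] [Field L] [CharZero L] [Algebra F L] (d : F → L)
    (hadd : ∀ a b, d (a + b) = d a + d b)
    (hmul : ∀ a b, d (a * b) = algebraMap F L a * d b + algebraMap F L b * d a) {x : L}
    (hx : Transcendental F x) (a : L) :
    ∃ D : Derivation ℤ L L, (∀ c, D (algebraMap F L c) = d c) ∧ D x = a := by
  have h0 : d 0 = 0 := by simpa using hadd 0 0
  have h1 : d 1 = 0 := by simpa using hmul 1 1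
  let φ : F →+* TrivSqZeroExt L L :=
    { toFun := fun c => TrivSqZeroExt.inl (algebraMap F L c) + TrivSqZeroExt.inr (d c)
      map_one' := by ext <;> simp [h1]
      map_mul' := fun b c => by ext <;> simp [hmul, mul_comm]
      map_zero' := by ext <;> simp [h0]
      map_add' := fun b c => by ext <;> simp [hadd] }
  have hn : ∀ r s : TrivSqZeroExt L L, r.fst = 0 → s.fst = 0 → r * s = 0 := by
    intro r s hr hs
    ext <;> simp [hr, hs]
  obtain ⟨ψ, hψ, hψ'⟩ := der_lift (aeval (R := F) x).toRingHom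
    (transcendental_iff_injective.1 hx)
    (eval₂RingHom φ (TrivSqZeroExt.inl x + TrivSqZeroExt.inr a))
    (TrivSqZeroExt.fstHom L L L).toRingHom
    (fun y => ⟨TrivSqZeroExt.inl y, rfl⟩) hn (fun q => by
      induction q using Polynomial.induction_on' with
      | add p q hp hq => rw [map_add, map_add, map_add, hp, hq]
      | monomial n c => simp [φ, aeval_monomial])
  have hf : ∀ y, (ψ y).fst = y := hψ
  let l : L →+ L :=
    { toFun := fun y => (ψ y).snd
      map_zero' := by simp
      map_add' := fun b c => by simp }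
  refine ⟨Derivation.mk' l.toIntLinearMap fun b c => ?_, fun c => ?_, ?_⟩
  · show (ψ (b * c)).snd = b * (ψ c).snd + c * (ψ b).snd
    rw [map_mul, TrivSqZeroExt.snd_mul, hf, hf]
    simp [mul_comm]
  · show (ψ (algebraMap F L c)).snd = d c
    have := hψ' (C c)
    simp only [AlgHom.toRingHom_eq_coe, RingHom.coe_coe, aeval_C, coe_eval₂RingHom,
      eval₂_C] at this
    rw [this]
    simp [φ]
  · show (ψ x).snd = a
    have := hψ' X
    simp only [AlgHom.toRingHom_eq_coe, RingHom.coe_coe, aeval_X, coe_eval₂RingHom,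
      eval₂_X] at this
    rw [this]
    simp

/-- A derivation of `ℂ` which kills `cl S` and sends `x` to `1`. Choose a transcendence basis of
`ℂ` over `cl S` which contains `x` and extend along the algebraic extension. -/
theorem exists_der {S : Set ℂ} {x : ℂ} (hx : x ∉ cl S) :
    ∃ D : Derivation ℤ ℂ ℂ, (∀ a ∈ cl S, D a = 0) ∧ D x = 1 := by
  have ht : Transcendental (cl S) x := by
    rintro ⟨p, hp, h0⟩
    refine hx (mem_cl_of_root (p := p.map (algebraMap (cl S) ℂ)) (fun i => ?_) ?_ ?_)
    · rw [coeff_map]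
      exact (p.coeff i).2
    · exact (Polynomial.map_ne_zero_iff (algebraMap (cl S) ℂ).injective).2 hp
    · rwa [eval_map_algebraMap]
  obtain ⟨D, h1, h2⟩ := der_exists (F := cl S) (L := ℂ) (fun _ => 0) (by simp) (by simp) ht 1
  exact ⟨D, fun a ha => h1 ⟨a, ha⟩, h2⟩

/-- Derivations which are triangular with respect to an independent list. -/
theorem Ind.exists_jac {S : Set ℂ} {n : ℕ} {w : Fin n → ℂ} (h : Ind S (List.ofFn w)) :
    ∃ D : Fin n → Derivation ℤ ℂ ℂ, (∀ i, ∀ a ∈ cl S, D i a = 0) ∧ jac D w = 1 := by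
  induction n generalizing S with
  | zero => exact ⟨fun i => i.elim0, fun i => i.elim0, Matrix.det_isEmpty⟩
  | succ n ih =>
    rw [List.ofFn_succ] at h
    obtain ⟨D0, h1, h2⟩ := exists_der h.1
    obtain ⟨D, h3, h4⟩ := ih h.2
    refine ⟨Fin.cons D0 D, fun i => ?_, ?_⟩
    · refine Fin.cases ?_ (fun j => ?_) i
      · simpa using h1
      · intro a ha
        simpa using h3 j a (cl_le_insert S _ ha)
    · have h5 : ∀ j, D j (w 0) = 0 := fun j => h3 j _ (mem_cl_insert S _)
      unfold jac at h4 ⊢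
      rw [Matrix.det_succ_column_zero, Fin.sum_univ_succ]
      simp only [Matrix.of_apply, Fin.cons_zero, Fin.cons_succ, h2, h5, mul_zero, zero_mul,
        Finset.sum_const_zero, add_zero, Fin.val_zero, pow_zero, one_mul, Fin.succAbove_zero]
      rw [← h4]
      rfl

section

variable {K : Type} [Field K] [Algebra ℂ K]

/-- The derivative of a polynomial expression. -/
theorem der_eval {L : Type} [Field L] (D : Derivation ℤ L L) (G : L[X]) :
    ∃ H : L[X], (∀ i, H.coeff i = D (G.coeff i)) ∧
      ∀ y, D (G.eval y) = H.eval y + (derivative G).eval y * D y := by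
  induction G using Polynomial.induction_on' with
  | add p q hp hq =>
    obtain ⟨H, h1, h2⟩ := hp
    obtain ⟨H', h3, h4⟩ := hq
    refine ⟨H + H', fun i => by simp [h1, h3], fun y => ?_⟩
    rw [eval_add, map_add, h2, h4, eval_add, derivative_add, eval_add]
    ring
  | monomial n c =>
    refine ⟨monomial n (D c), fun i => ?_, fun y => ?_⟩
    · rw [coeff_monomial, coeff_monomial]
      split_ifs <;> simp
    · rw [eval_monomial, eval_monomial, derivative_monomial, eval_monomial, D.leibniz,
        D.leibniz_pow]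
      simp only [smul_eq_mul, nsmul_eq_mul]
      ring

theorem Kills.aeval {S : Set ℂ} {E : Derivation ℤ K K} (hE : Kills S E) {p : ℂ[X]}
    (hp : PC S p) (s : K) : E (aeval s p) = aeval s (derivative p) * E s := by
  obtain ⟨H, h1, h2⟩ := der_eval E (p.map (algebraMap ℂ K))
  have h3 : H = 0 := by
    ext i
    rw [h1, coeff_map, hE _ (hp i), coeff_zero]
  have h4 := h2 s
  rwa [h3, eval_zero, zero_add, derivative_map, eval_map_algebraMap, eval_map_algebraMap] at h4

/-- Extension of a derivation of `ℂ` to a function field with a given value at a nonconstant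
function. -/
theorem exists_der_ext [FF K] {l : K} (hl : Transcendental ℂ l) (D0 : Derivation ℤ ℂ ℂ) (a : K) :
    ∃ D : Derivation ℤ K K, (∀ c, D (algebraMap ℂ K c) = algebraMap ℂ K (D0 c)) ∧ D l = a := by
  have : CharZero K := charZero_of_injective_algebraMap (algebraMap ℂ K).injective
  exact der_exists (fun c => algebraMap ℂ K (D0 c)) (fun b c => by simp)
    (fun b c => by simp [D0.leibniz]) hl a

/-- A function field is algebraic over the ring generated by a nonconstant function. -/
theorem der_alg [FF K] {u : K} (hu : Transcendental ℂ u) (x : K) :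
    IsAlgebraic (Algebra.adjoin ℂ {u}) x := by
  obtain ⟨K0, v, h⟩ := MP_a2beea_nt.RR.IsFF.ex (k := ℂ) (F := K)
  have h1 := h.fin
  rw [← h.adj] at h1
  have h2 : Algebra.IsAlgebraic (Algebra.adjoin ℂ {v}) K :=
    IntermediateField.isAlgebraic_adjoin_iff_top.1 inferInstance
  have h3 : Algebra.trdeg ℂ K ≤ 1 := by
    simpa using Algebra.IsAlgebraic.trdeg_le_cardinalMk ℂ ({v} : Set K)
  have h4 : AlgebraicIndependent ℂ (fun _ : Unit => u) :=
    algebraicIndependent_unique_type_iff.2 hu
  have h5 := (h4.isTranscendenceBasis_of_trdeg_le_of_finite (by simpa using h3)).isAlgebraic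
  rw [Set.range_const] at h5
  exact h5.isAlgebraic x

/-- An equation over `ℂ[u]` with `x` as a simple root. -/
theorem der_min [FF K] {u : K} (hu : Transcendental ℂ u) (x : K) :
    ∃ G : K[X], (∀ i, G.coeff i ∈ Algebra.adjoin ℂ {u}) ∧ G.eval x = 0 ∧
      (derivative G).eval x ≠ 0 := by
  have : CharZero K := charZero_of_injective_algebraMap (algebraMap ℂ K).injective
  have key : ∀ (n : ℕ) (G : K[X]), G.natDegree = n → G ≠ 0 →
      (∀ i, G.coeff i ∈ Algebra.adjoin ℂ {u}) → G.eval x = 0 →
      ∃ G : K[X], (∀ i, G.coeff i ∈ Algebra.adjoin ℂ {u}) ∧ G.eval x = 0 ∧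
        (derivative G).eval x ≠ 0 := by
    intro n
    induction n using Nat.strong_induction_on with
    | _ n ih =>
      intro G hn h0 h1 h2
      by_cases h3 : (derivative G).eval x = 0
      · have h4 : G.natDegree ≠ 0 := by
          intro h4
          rw [eq_C_of_natDegree_eq_zero h4, eval_C] at h2
          exact h0 (by rw [eq_C_of_natDegree_eq_zero h4, h2, map_zero])
        refine ih _ (hn ▸ natDegree_derivative_lt h4) (derivative G) rfl
          (fun h5 => h4 (derivative_eq_zero.1 h5)) (fun i => ?_) h3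
        rw [coeff_derivative]
        exact mul_mem (h1 _) (add_mem (natCast_mem _ _) (one_mem _))
      · exact ⟨G, h1, h2, h3⟩
  obtain ⟨p, hp, h0⟩ := der_alg hu x
  refine key _ (p.map (algebraMap (Algebra.adjoin ℂ {u}) K)) rfl ?_ (fun i => ?_) ?_
  · exact (Polynomial.map_ne_zero_iff Subtype.val_injective).2 hp
  · rw [coeff_map]
    exact (p.coeff i).2
  · rwa [eval_map_algebraMap]

/-- A derivation which kills `ℂ` and a nonconstant function is zero. -/
theorem der_eq_zero [FF K] {D : Derivation ℤ K K} (h : ∀ c, D (algebraMap ℂ K c) = 0) {u : K}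
    (hu : Transcendental ℂ u) (h0 : D u = 0) (x : K) : D x = 0 := by
  obtain ⟨G, h1, h2, h3⟩ := der_min hu x
  obtain ⟨H, h4, h5⟩ := der_eval D G
  have h6 : H = 0 := by
    ext i
    obtain ⟨p, hp⟩ := MP_a2beea_nt.RR.mem_adjoin_iff.1 (h1 i)
    have hk : Kills Set.univ D := fun c _ => h c
    rw [h4, ← hp, hk.aeval (fun j => mem_cl (Set.mem_univ _)), h0, mul_zero, coeff_zero]
  have h7 := h5 x
  rw [h2, h6, map_zero, eval_zero, zero_add] at h7
  exact (mul_eq_zero.1 h7.symm).resolve_left h3

theorem der_eval_mem (P : Pl K) {G : K[X]} (hG : ∀ i, G.coeff i ∈ P.O) {y : K} (hy : y ∈ P.O) :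
    G.eval y ∈ P.O := by
  rw [eval_eq_sum_range]
  exact sum_mem fun i _ => mul_mem (hG i) (pow_mem hy i)

theorem der_eval_sub [FF K] (P : Pl K) {G : K[X]} (hG : ∀ i, G.coeff i ∈ P.O) {y z : K}
    (hy : y ∈ P.O) (hz : z ∈ P.O) {m : ℤ} (h : y - z ∈ P.pw m) :
    G.eval y - G.eval z ∈ P.pw m := by
  have h1 : ∀ i : ℕ, y ^ i - z ^ i ∈ P.pw m := by
    intro i
    induction i with
    | zero => simp
    | succ i ih =>
      have : y ^ (i + 1) - z ^ (i + 1) = y * (y ^ i - z ^ i) + z ^ i * (y - z) := by ring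
      rw [this]
      exact add_mem (P.mul_mem_pw_of_mem hy ih) (P.mul_mem_pw_of_mem (pow_mem hz i) h)
  rw [eval_eq_sum_range, eval_eq_sum_range, ← Finset.sum_sub_distrib]
  refine sum_mem fun i _ => ?_
  rw [← mul_sub]
  exact P.mul_mem_pw_of_mem (hG i) (h1 i)

/-- Taylor polynomials. -/
theorem der_approx [FF K] (P : Pl K) {π : K} (hπ : P.ord π = 1) {x : K} (hx : x ∈ P.O) (M : ℕ) :
    ∃ p : ℂ[X], x - aeval π p ∈ P.pw M := by
  have h0 : π ≠ 0 := by
    rintro rfl
    simp at hπ
  induction M with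
  | zero => exact ⟨0, by simpa [P.mem_pw_zero] using hx⟩
  | succ M ih =>
    obtain ⟨p, hp⟩ := ih
    have h1 : (π ^ M)⁻¹ * (x - aeval π p) ∈ P.O := by
      rw [← P.mem_pw_zero, P.mul_mem_pw_iff (inv_ne_zero (pow_ne_zero M h0))]
      simpa [hπ] using hp
    obtain ⟨c, hc⟩ := exists_red h1
    have h2 : π ^ M * ((π ^ M)⁻¹ * (x - aeval π p) - algebraMap ℂ K c) ∈ P.pw (M + 1) :=
      P.mul_mem_pw (P.mem_pw_of_le (by simp [hπ])) (P.mem_pw_one.2 hc)
    refine ⟨p + monomial M c, ?_⟩
    have h3 : x - aeval π (p + monomial M c) =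
        π ^ M * ((π ^ M)⁻¹ * (x - aeval π p) - algebraMap ℂ K c) := by
      rw [map_add, aeval_monomial, mul_sub, mul_inv_cancel_left₀ (pow_ne_zero M h0)]
      ring
    rw [h3]
    exact_mod_cast h2

/-- A polynomial in the uniformiser of order at least `M` is divisible by its `M`-th power. -/
theorem der_dvd [FF K] (P : Pl K) {π : K} (hπ : P.ord π = 1) (M : ℕ) {p : ℂ[X]}
    (hp : aeval π p ∈ P.pw M) : X ^ M ∣ p := by
  have h0 : π ≠ 0 := by
    rintro rfl
    simp at hπ
  induction M with
  | zero => simp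
  | succ M ih =>
    obtain ⟨q, rfl⟩ := ih (P.pw_mono (by push_cast; omega) hp)
    rw [map_mul, map_pow, aeval_X, P.mul_mem_pw_iff (pow_ne_zero M h0)] at hp
    have h1 : aeval π q ∈ P.pw 1 := by simpa [hπ] using hp
    have h2 : π * aeval π q.divX ∈ P.pw 1 := by
      rw [mul_comm]
      exact P.mul_mem_pw_of_mem (P.aeval_mem (P.mem_iff.2 (by omega)) _)
        (P.mem_pw_of_le hπ.ge)
    have h3 : algebraMap ℂ K (q.coeff 0) = aeval π q - π * aeval π q.divX := by
      have e := congrArg (aeval π) (X_mul_divX_add q)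
      rw [map_add, map_mul, aeval_X, aeval_C] at e
      linear_combination e
    have h4 : algebraMap ℂ K (q.coeff 0) ∈ P.pw 1 := h3 ▸ sub_mem h1 h2
    have h5 : q.coeff 0 = 0 := by simpa [P.mem_pw] using h4
    rw [pow_succ]
    exact mul_dvd_mul_left _ (X_dvd_iff.2 h5)

/-- A derivation which is regular on the constants and on a uniformiser preserves the local
ring. For `x` in the ring take `G(π, x) = 0` over `ℂ[π]` with `G_x(π, x) ≠ 0` of order `N`, and
a polynomial `x_M` in `π` with `x - x_M` of order at least `M`. Then `G(π, x_M) = π ^ M w(π)`,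
and subtracting the derivatives of the two equations gives that `G_x(π, x) (D x - D x_M)` has
order at least `M - 1`. -/
theorem der_mem [FF K] (P : Pl K) {π : K} (hπ : P.ord π = 1) {D : Derivation ℤ K K}
    (hc : ∀ c, D (algebraMap ℂ K c) ∈ P.O) (hD : D π ∈ P.O) {x : K} (hx : x ∈ P.O) :
    D x ∈ P.O := by
  have hπO : π ∈ P.O := P.mem_iff.2 (by omega)
  have ht : Transcendental ℂ π := fun h => by
    have := P.mem_iff.1 (P.mem_of_isAlgebraic h.inv)
    rw [P.ord_inv] at this
    omega
  have hA : ∀ p : ℂ[X], D (aeval π p) ∈ P.O := by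
    intro p
    obtain ⟨H, h1, h2⟩ := der_eval D (p.map (algebraMap ℂ K))
    have h3 := h2 π
    rw [derivative_map, eval_map_algebraMap, eval_map_algebraMap] at h3
    rw [h3]
    refine add_mem (der_eval_mem P (fun i => ?_) hπO) (mul_mem (P.aeval_mem hπO _) hD)
    rw [h1, coeff_map]
    exact hc _
  obtain ⟨G, h1, h2, h3⟩ := der_min ht x
  obtain ⟨H, h4, h5⟩ := der_eval D G
  have hG : ∀ i, G.coeff i ∈ P.O := fun i => by
    obtain ⟨p, hp⟩ := MP_a2beea_nt.RR.mem_adjoin_iff.1 (h1 i)
    exact hp ▸ P.aeval_mem hπO p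
  have hH : ∀ i, H.coeff i ∈ P.O := fun i => by
    obtain ⟨p, hp⟩ := MP_a2beea_nt.RR.mem_adjoin_iff.1 (h1 i)
    rw [h4, ← hp]
    exact hA p
  have hG' : ∀ i, (derivative G).coeff i ∈ P.O := fun i => by
    rw [coeff_derivative]
    exact mul_mem (hG _) (add_mem (natCast_mem _ _) (one_mem _))
  obtain ⟨N, hN⟩ := Int.eq_ofNat_of_zero_le (P.mem_iff.1 (der_eval_mem P hG' hx))
  obtain ⟨p, hp⟩ := der_approx P hπ hx (N + 1)
  have hz : aeval π p ∈ P.O := P.aeval_mem hπO p
  have h6 : G.eval (aeval π p) ∈ Algebra.adjoin ℂ {π} := by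
    rw [eval_eq_sum_range]
    exact sum_mem fun i _ => mul_mem (h1 i) (pow_mem (aeval_mem_adjoin_singleton ℂ π) i)
  obtain ⟨q, hq⟩ := MP_a2beea_nt.RR.mem_adjoin_iff.1 h6
  have h7 : aeval π q ∈ P.pw (N + 1 : ℕ) := by
    have := neg_mem (der_eval_sub P hG hx hz hp)
    rwa [h2, zero_sub, neg_neg, ← hq] at this
  obtain ⟨w, rfl⟩ := der_dvd P hπ (N + 1) h7
  have hle : (N : ℤ) ≤ (N + 1 : ℕ) := by push_cast; omega
  have hpow : π ^ N ∈ P.pw N := P.mem_pw_of_le (by simp [hπ])
  have h8 : D (G.eval (aeval π p)) ∈ P.pw N := by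
    have e : D (G.eval (aeval π p)) =
        (π * D (aeval π w) + aeval π w * ((N + 1 : ℕ) * D π)) * π ^ N := by
      rw [← hq, map_mul, map_pow, aeval_X, D.leibniz, D.leibniz_pow]
      simp only [smul_eq_mul, nsmul_eq_mul, Nat.add_sub_cancel]
      ring
    rw [e]
    exact P.mul_mem_pw_of_mem (add_mem (mul_mem hπO (hA w))
      (mul_mem (P.aeval_mem hπO w) (mul_mem (natCast_mem _ _) hD))) hpow
  have h9 : (derivative G).eval x * (D x - D (aeval π p)) ∈ P.pw N := by
    have e1 := h5 x
    rw [h2, map_zero] at e1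
    have e : (derivative G).eval x * (D x - D (aeval π p)) =
        -(H.eval x - H.eval (aeval π p)) - D (G.eval (aeval π p)) -
          D (aeval π p) * ((derivative G).eval x - (derivative G).eval (aeval π p)) := by
      rw [h5 (aeval π p)]
      linear_combination -e1
    rw [e]
    exact sub_mem (sub_mem (neg_mem (P.pw_mono hle (der_eval_sub P hH hx hz hp))) h8)
      (P.mul_mem_pw_of_mem (hA p) (P.pw_mono hle (der_eval_sub P hG' hx hz hp)))
  rw [P.mul_mem_pw_iff h3, hN, sub_self, P.mem_pw_zero] at h9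
  simpa using add_mem h9 (hA p)

/-- Logarithmic derivatives have at most a simple pole. -/
theorem dlog_mem [FF K] (P : Pl K) {π : K} (hπ : P.ord π = 1) {D : Derivation ℤ K K}
    (hD : ∀ x ∈ P.O, D x ∈ P.O) (φ : K) :
    D φ / φ ∈ P.pw (-1) ∧ (D π = 0 → D φ / φ ∈ P.O) := by
  have h0 : π ≠ 0 := by
    rintro rfl
    simp at hπ
  by_cases hφ : φ = 0
  · subst hφ
    simp
  obtain ⟨n, hn⟩ : ∃ n, P.ord φ = n := ⟨_, rfl⟩
  obtain ⟨u, hu⟩ : ∃ u, u = φ / π ^ n := ⟨_, rfl⟩
  have hz : π ^ n ≠ 0 := zpow_ne_zero n h0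
  have hu0 : u ≠ 0 := hu ▸ div_ne_zero hφ hz
  have h1 : P.ord u = 0 := by
    rw [hu, P.ord_div hφ hz, hn]
    simp [hπ]
  have h2 : u⁻¹ * D u ∈ P.O :=
    mul_mem (P.mem_iff.2 (by simp [h1])) (hD u (P.mem_iff.2 h1.ge))
  have e : D φ / φ = u⁻¹ * D u + (n * D π) * π⁻¹ := by
    have e1 : φ = u * π ^ n := by rw [hu, div_mul_cancel₀ _ hz]
    rw [e1, D.leibniz, D.leibniz_zpow, zpow_sub_one₀ h0]
    simp only [smul_eq_mul, zsmul_eq_mul]
    field_simp
    ring
  rw [e]
  refine ⟨add_mem (P.pw_mono (by omega) (P.mem_pw_zero.2 h2)) ?_, fun h => by simpa [h] using h2⟩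
  exact P.mul_mem_pw_of_mem (mul_mem (intCast_mem _ _) (hD π (P.mem_iff.2 (by omega))))
    (P.mem_pw_of_le (by simp [hπ]))

end

end Pool.Agent.P.MP_a2ccc3_ag
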