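import Pool.Agent.P.MP_a2ccc3_ag.Cl

/-! Algebraically independent lists. -/

open Polynomial

noncomputable section

namespace Pool.Agent.P.MP_a2ccc3_ag

variable {S T : Set ℂ} {a b x : ℂ} {l l' : List ℂ}

theorem Ind.anti (h : Ind T l) (hS : S ⊆ cl T) : Ind S l := by
  induction l generalizing S T with
  | nil => trivial
  | cons a l ih =>
    refine ⟨fun ha => h.1 (cl_le hS ha), ih h.2 ?_⟩
    exact Set.insert_subset (mem_cl_insert T a) fun y hy => cl_le_insert T a (hS hy)

theorem union_list_cons (S : Set ℂ) (a : ℂ) (l : List ℂ) :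
    S ∪ {x | x ∈ a :: l} = insert a S ∪ {x | x ∈ l} := by
  ext y
  simp only [List.mem_cons, Set.mem_union, Set.mem_ofPred_eq, Set.mem_insert_iff]
  tauto

theorem ind_append : Ind S (l ++ l') ↔ Ind S l ∧ Ind (S ∪ {x | x ∈ l}) l' := by
  induction l generalizing S with
  | nil => simp [Ind]
  | cons a l ih =>
    rw [union_list_cons]
    exact (and_congr_right fun _ => ih).trans and_assoc.symm

theorem Ind.exists_drop (h : Ind S l) (a : ℂ) :
    ∃ m : List ℂ, l.length ≤ m.length + 1 ∧ (∀ x ∈ m, x ∈ l) ∧ Ind (insert a S) m := by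
  induction l generalizing S with
  | nil => exact ⟨[], by simp, by simp, trivial⟩
  | cons b l ih =>
    by_cases hb : b ∈ cl (insert a S)
    · refine ⟨l, le_rfl, fun x hx => List.mem_cons_of_mem _ hx, h.2.anti ?_⟩
      exact Set.insert_subset (cl_exchange hb h.1) fun y hy => mem_cl (Set.mem_insert_of_mem _ hy)
    · obtain ⟨m, h1, h2, h3⟩ := ih h.2
      refine ⟨b :: m, by simpa using h1, fun x hx => ?_, hb, by rwa [Set.insert_comm]⟩
      rcases List.mem_cons.1 hx with rfl | hx
      · exact List.mem_cons_self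
      · exact List.mem_cons_of_mem _ (h2 x hx)

theorem Ind.length_le (h : Ind S l) (hm : ∀ x ∈ l, x ∈ cl (S ∪ {y | y ∈ l'})) :
    l.length ≤ l'.length := by
  induction l' generalizing S l with
  | nil =>
    cases l with
    | nil => exact le_rfl
    | cons b l => exact (h.1 (by simpa using hm b List.mem_cons_self)).elim
  | cons a l' ih =>
    obtain ⟨m, h1, h2, h3⟩ := h.exists_drop a
    rw [union_list_cons] at hm
    exact h1.trans (Nat.succ_le_succ (ih h3 fun x hx => hm x (h2 x hx)))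

/-- Steinitz exchange. Use the matroid `AlgebraicIndependent.matroid (cl S) ℂ`. -/
theorem Ind.exchange (h : Ind S l) (hl : l'.length ≤ l.length)
    (hm : ∀ x ∈ l, x ∈ cl (S ∪ {y | y ∈ l'})) : Ind S l' := by
  induction l' generalizing S l with
  | nil => trivial
  | cons a l' ih =>
    rw [union_list_cons] at hm
    rw [List.length_cons] at hl
    refine ⟨fun ha => ?_, ?_⟩
    · have h1 : insert a S ∪ {y | y ∈ l'} ⊆ cl (S ∪ {y | y ∈ l'}) := by
        rw [Set.insert_union]
        exact Set.insert_subset (cl_mono Set.subset_union_left ha) (subset_cl _)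
      have := h.length_le fun x hx => cl_le h1 (hm x hx)
      omega
    · obtain ⟨m, h1, h2, h3⟩ := h.exists_drop a
      exact ih h3 (by omega) fun x hx => hm x (h2 x hx)

theorem Ind.perm (h : Ind S l) (hp : l.Perm l') : Ind S l' := by
  induction hp generalizing S with
  | nil => trivial
  | cons a _ ih => exact ⟨h.1, ih h.2⟩
  | swap a b l =>
    obtain ⟨h1, h2, h3⟩ := h
    exact ⟨fun ha => h2 (cl_le_insert S b ha), fun hb => h2 (cl_exchange hb h1),
      by rwa [Set.insert_comm]⟩
  | trans _ _ ih1 ih2 => exact ih2 (ih1 h)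

theorem Ind.sublist (h : Ind S l) (hp : l'.Sublist l) : Ind S l' := by
  induction hp generalizing S with
  | slnil => trivial
  | cons a _ ih => exact ih (h.2.anti fun y hy => mem_cl (Set.mem_insert_of_mem _ hy))
  | cons_cons a _ ih => exact ⟨h.1, ih h.2⟩

theorem Ind.notMem (h : Ind S l) (hx : x ∈ l) : x ∉ cl S := by
  induction l generalizing S with
  | nil => exact absurd hx List.not_mem_nil
  | cons a l ih =>
    rcases List.mem_cons.1 hx with rfl | hx
    · exact h.1
    · exact fun h1 => ih h.2 hx (cl_le_insert S a h1)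

theorem Ind.nodup (h : Ind S l) : l.Nodup := by
  induction l generalizing S with
  | nil => exact List.nodup_nil
  | cons a l ih => exact List.nodup_cons.2 ⟨fun ha => h.2.notMem ha (mem_cl_insert S a), ih h.2⟩

theorem exists_ind (h : S.Countable) (n : ℕ) : ∃ l : List ℂ, l.length = n ∧ Ind S l := by
  induction n generalizing S with
  | zero => exact ⟨[], rfl, trivial⟩
  | succ n ih =>
    obtain ⟨a, ha⟩ := exists_notMem_cl h
    obtain ⟨l, h1, h2⟩ := ih (h.insert a)
    exact ⟨a :: l, by rw [List.length_cons, h1], ha, h2⟩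

theorem MC.eval_mem_cl {σ : Type} {G : MvPolynomial σ ℂ} (hG : MC S G) (hS : S ⊆ cl T)
    {v : σ → ℂ} (hv : ∀ i, v i ∈ cl T) : MvPolynomial.eval v G ∈ cl T := by
  rw [MvPolynomial.eval_eq]
  exact sum_mem fun d _ => mul_mem (cl_le hS (hG d)) (prod_mem fun i _ => pow_mem (hv i) _)

theorem Ind.eval_ofFn_ne_zero {n : ℕ} {v : Fin n → ℂ} {G : MvPolynomial (Fin n) ℂ}
    (h : Ind S (List.ofFn v)) (hG : MC S G) (h0 : G ≠ 0) : MvPolynomial.eval v G ≠ 0 := by
  induction n with
  | zero =>
    rw [MvPolynomial.eq_C_of_isEmpty G] at h0 ⊢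
    simpa using h0
  | succ n ih =>
    rw [List.ofFn_succ] at h
    obtain ⟨h1, h2⟩ := ind_append.1 (h.perm (List.perm_append_singleton _ _).symm)
    have hc : ∀ i, MC S ((MvPolynomial.finSuccEquiv ℂ n G).coeff i) := fun i d => by
      rw [MvPolynomial.finSuccEquiv_coeff_coeff]
      exact hG _
    have hne : MvPolynomial.finSuccEquiv ℂ n G ≠ 0 := by simpa using h0
    rw [← Fin.cons_self_tail v, MvPolynomial.eval_eq_eval_mv_eval']
    refine PC.eval_ne_zero (fun i => ?_) (fun h3 => ?_) h2.1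
    · rw [coeff_map]
      refine (hc i).eval_mem_cl (fun y hy => mem_cl (Or.inl hy)) fun j => mem_cl (Or.inr ?_)
      exact List.mem_ofFn.2 ⟨j, rfl⟩
    · have h4 := congrArg (fun p => p.coeff (MvPolynomial.finSuccEquiv ℂ n G).natDegree) h3
      simp only [coeff_map, coeff_zero] at h4
      exact ih h1 (hc _) (leadingCoeff_ne_zero.2 hne) h4

theorem Ind.aeval_ne_zero {G : MvPolynomial (Fin 3) ℂ} {c : ℂ} (h : Ind S [a, b, c])
    (hG : MC S G) (h0 : G ≠ 0) : MvPolynomial.aeval ![a, b, c] G ≠ 0 := by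
  rw [MvPolynomial.aeval_eq_eval]
  exact Ind.eval_ofFn_ne_zero (v := ![a, b, c]) (by simpa using h) hG h0

theorem Chain.gdU {D : Dat} {p : P5 ℂ} (h : Chain S p) (hD : D.Over S) (h0 : D.G ≠ 0) : GdU D p :=
  Ind.aeval_ne_zero h hD.2.2 h0

theorem Gen6.symm {p p' : P5 ℂ} (h : Gen6 S p p') : Gen6 S p' p :=
  Ind.perm h (List.Perm.swap' _ _ (List.Perm.swap' _ _ (List.Perm.swap _ _ _)))

theorem Gen6.left {p p' : P5 ℂ} (h : Gen6 S p p') : Chain S p :=
  Ind.sublist h (.cons_cons _ (.cons _ (.cons_cons _ (.cons _ (.cons_cons _ (.cons _ .slnil))))))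

theorem Gen6.right {p p' : P5 ℂ} (h : Gen6 S p p') : Chain S p' :=
  h.symm.left

theorem gen6_of_chain {p p' : P5 ℂ} (h : Chain S p) (h' : Chain (S ∪ {p.s, p.x1, p.x2}) p') :
    Gen6 S p p' := by
  have e : ({x | x ∈ [p.s, p.x1, p.x2]} : Set ℂ) = {p.s, p.x1, p.x2} := by
    ext y
    simp
  have h1 : Ind S ([p.s, p.x1, p.x2] ++ [p'.s, p'.x1, p'.x2]) :=
    ind_append.2 ⟨h, by rw [e]; exact h'⟩
  refine h1.perm (List.Perm.cons _ ?_)
  refine (List.Perm.cons _ (List.Perm.swap _ _ _)).trans ?_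
  exact List.Perm.swap' _ _ (List.Perm.swap _ _ _)

end Pool.Agent.P.MP_a2ccc3_ag
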