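import Pool.Agent.P.MP_a2ccc3_ag.RedF
import Pool.Agent.P.MP_a2ccc3_ag.Ind

/-! The map from a genus one curve to its Jacobian. -/

open Polynomial

noncomputable section

namespace Pool.Agent.P.MP_a2ccc3_ag

section

variable {K : Type} [Field K]

/-- The invariants do not change under translation. -/
theorem fib_qI (a b c d e x : K) : qI a b c d e =
    qI a (4 * a * x + b) (6 * a * x ^ 2 + 3 * b * x + c) (q1 a b c d x) (qv a b c d e x) := by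
  unfold qI q1 qv
  ring

theorem fib_qJ (a b c d e x : K) : qJ a b c d e =
    qJ a (4 * a * x + b) (6 * a * x ^ 2 + 3 * b * x + c) (q1 a b c d x) (qv a b c d e x) := by
  unfold qJ q1 qv
  ring

/-- The polynomial `3 g4 - 4 Z Q`. -/
theorem fib_g4 (a b c d e x Z : K) : 3 * g4 a b c d e x - 4 * Z * qv a b c d e x =
    qv (3 * (3 * b ^ 2 - 8 * a * c) - 4 * Z * a) (3 * (4 * b * c - 24 * a * d) - 4 * Z * b)
      (3 * (4 * c ^ 2 - 6 * b * d - 48 * a * e) - 4 * Z * c)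
      (3 * (4 * c * d - 24 * b * e) - 4 * Z * d) (3 * (3 * d ^ 2 - 8 * c * e) - 4 * Z * e) x := by
  unfold g4 q1 qv
  ring

/-- The quartic as a polynomial. -/
def fibP (a b c d e : K) : K[X] := C a * X ^ 4 + C b * X ^ 3 + C c * X ^ 2 + C d * X + C e

theorem fibP_eval (a b c d e x : K) : (fibP a b c d e).eval x = qv a b c d e x := by
  simp [fibP, qv]

theorem fibP_deg (a b c d e : K) : (fibP a b c d e).natDegree ≤ 4 := by
  unfold fibP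
  compute_degree

theorem fibP_coeff (a b c d e : K) (i : ℕ) : (fibP a b c d e).coeff i =
    if i = 4 then a else if i = 3 then b else if i = 2 then c else if i = 1 then d
      else if i = 0 then e else 0 := by
  simp only [fibP, coeff_add, coeff_C_mul, coeff_X_pow, coeff_X, coeff_C]
  rcases i with _ | _ | _ | _ | _ | i <;> simp

theorem fibP_four (a b c d e : K) : (fibP a b c d e).coeff 4 = a := by
  rw [fibP_coeff, if_pos rfl]

theorem fib_root [IsAlgClosed K] {a : K} (b c d e : K) (h : a ≠ 0) :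
    ∃ x, qv a b c d e x = 0 := by
  obtain ⟨r, hr⟩ := exists_split (fibP a b c d e) (fibP_deg a b c d e) (by rwa [fibP_four])
  refine ⟨r 0, ?_⟩
  rw [← fibP_eval, hr, eval_mul, eval_prod, Finset.prod_eq_zero (Finset.mem_univ 0) (by simp),
    mul_zero]

end

section

variable {K : Type} [Field K] [CharZero K] {a b c d e x y Z W : K}

theorem syzygy (a b c d e x : K) : 27 * g6 a b c d e x ^ 2 = g4 a b c d e x ^ 3 -
    48 * qI a b c d e * qv a b c d e x ^ 2 * g4 a b c d e x -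
    64 * qJ a b c d e * qv a b c d e x ^ 3 := by
  rw [fib_qI a b c d e x, fib_qJ a b c d e x]
  unfold g6 g4 qI qJ
  generalize qv a b c d e x = u0
  generalize q1 a b c d x = u1
  generalize 6 * a * x ^ 2 + 3 * b * x + c = u2
  generalize 4 * a * x + b = u3
  ring

theorem Cov.jeq (h : Cov a b c d e x y Z W) :
    W ^ 2 = Z ^ 3 + -27 * qI a b c d e * Z + -27 * qJ a b c d e := by
  have s := syzygy a b c d e x
  rw [← h.eq] at s
  have h1 : (64 * y ^ 6 : K) ≠ 0 := mul_ne_zero (by norm_num) (pow_ne_zero _ h.ne)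
  refine mul_left_cancel₀ h1 ?_
  linear_combination 27 * s + (8 * W * y ^ 3 + 27 * g6 a b c d e x) * h.hW -
    ((4 * Z * y ^ 2) ^ 2 + 4 * Z * y ^ 2 * (3 * g4 a b c d e x) + (3 * g4 a b c d e x) ^ 2 -
      432 * qI a b c d e * y ^ 4) * h.hZ

theorem Cov.neg (h : Cov a b c d e x y Z W) : Cov a b c d e x (-y) Z (-W) :=
  ⟨by rw [neg_sq, h.eq], neg_ne_zero.2 h.ne, by rw [neg_sq, h.hZ], by linear_combination h.hW⟩

theorem exists_cov (h : y ^ 2 = qv a b c d e x) (hy : y ≠ 0) : ∃ Z W, Cov a b c d e x y Z W :=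
  ⟨3 * g4 a b c d e x / (4 * y ^ 2), 27 * g6 a b c d e x / (8 * y ^ 3), h, hy, by field_simp,
    by field_simp⟩

/-- A double root makes the discriminant vanish: solve for `d` and `e`. -/
theorem disc_of_double (h0 : qv a b c d e x = 0) (h1 : q1 a b c d x = 0) :
    4 * qI a b c d e ^ 3 = qJ a b c d e ^ 2 := by
  rw [fib_qI a b c d e x, fib_qJ a b c d e x, h0, h1]
  unfold qI qJ
  ring

/-- The quartic and its covariant have no common root. -/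
theorem fib_disc (h0 : qv a b c d e x = 0) (h1 : 3 * g4 a b c d e x = 0) :
    4 * qI a b c d e ^ 3 = qJ a b c d e ^ 2 := by
  refine disc_of_double h0 (pow_eq_zero_iff two_ne_zero |>.1 ?_)
  unfold g4 at h1
  rw [h0] at h1
  linear_combination h1 / 9

theorem cov_of_root (hd : 4 * qI a b c d e ^ 3 ≠ qJ a b c d e ^ 2)
    (hW : W ^ 2 = Z ^ 3 + -27 * qI a b c d e * Z + -27 * qJ a b c d e) (h0 : W ≠ 0)
    (hx : 4 * Z * qv a b c d e x = 3 * g4 a b c d e x) :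
    Cov a b c d e x (27 * g6 a b c d e x / (8 * W * qv a b c d e x)) Z W := by
  have hQ : qv a b c d e x ≠ 0 := fun h => hd (fib_disc h (by rw [← hx, h, mul_zero]))
  have s := syzygy a b c d e x
  have h1 : (27 * g6 a b c d e x / (8 * W * qv a b c d e x)) ^ 2 = qv a b c d e x := by
    rw [div_pow, div_eq_iff (pow_ne_zero _ (mul_ne_zero (mul_ne_zero (by norm_num) h0) hQ))]
    linear_combination 27 * s - 64 * qv a b c d e x ^ 3 * hW -
      ((4 * Z * qv a b c d e x) ^ 2 + 4 * Z * qv a b c d e x * (3 * g4 a b c d e x) +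
        (3 * g4 a b c d e x) ^ 2 - 432 * qI a b c d e * qv a b c d e x ^ 2) * hx
  refine ⟨h1, fun h => hQ ?_, by rw [h1, hx], ?_⟩
  · rw [← h1, h, zero_pow two_ne_zero]
  · rw [pow_succ, h1]
    field_simp

/-- `3 g4 - 4 Z Q` is a polynomial of degree four in `x` with this leading coefficient. -/
theorem exists_root_cov [IsAlgClosed K] (hl : 3 * (3 * b ^ 2 - 8 * a * c) - 4 * Z * a ≠ 0) :
    ∃ x, 4 * Z * qv a b c d e x = 3 * g4 a b c d e x := by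
  obtain ⟨x, hx⟩ := fib_root _ _ _ _ hl
  rw [← fib_g4] at hx
  exact ⟨x, (sub_eq_zero.1 hx).symm⟩

end

section

variable {K : Type} [Field K] [Algebra ℂ K] {P : Pl K} {a b c d e x : K} {a0 b0 c0 d0 e0 x0 : ℂ}

theorem fib_red_coeff (ha : Red P a a0) (hb : Red P b b0) (hc : Red P c c0) (hd : Red P d d0)
    (he : Red P e e0) (i : ℕ) :
    Red P ((fibP a b c d e).coeff i) ((fibP a0 b0 c0 d0 e0).coeff i) := by
  rw [fibP_coeff, fibP_coeff]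
  split_ifs
  exacts [ha, hb, hc, hd, he, Red.zero P]

theorem fib_red_qv (ha : Red P a a0) (hb : Red P b b0) (hc : Red P c c0) (hd : Red P d d0)
    (he : Red P e e0) (hx : Red P x x0) : Red P (qv a b c d e x) (qv a0 b0 c0 d0 e0 x0) :=
  ((((ha.mul (hx.pow 4)).add (hb.mul (hx.pow 3))).add (hc.mul (hx.pow 2))).add (hd.mul hx)).add he

theorem fib_red_q1 (ha : Red P a a0) (hb : Red P b b0) (hc : Red P c c0) (hd : Red P d d0)
    (hx : Red P x x0) : Red P (q1 a b c d x) (q1 a0 b0 c0 d0 x0) :=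
  (((((Red.ofNat P 4).mul ha).mul (hx.pow 3)).add (((Red.ofNat P 3).mul hb).mul (hx.pow 2))).add
    (((Red.ofNat P 2).mul hc).mul hx)).add hd

end

theorem Cov.red {K : Type} [Field K] [Algebra ℂ K] {P : Pl K} {a b c d e x y Z W : K}
    (h : Cov a b c d e x y Z W) {a0 b0 c0 d0 e0 Z0 W0 : ℂ} (ha : Red P a a0) (hb : Red P b b0)
    (hc : Red P c c0) (hd : Red P d d0) (he : Red P e e0) (hZ : Red P Z Z0) (hW : Red P W W0)
    (hD : 4 * qI a0 b0 c0 d0 e0 ^ 3 ≠ qJ a0 b0 c0 d0 e0 ^ 2) (h0 : W0 ≠ 0)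
    (hl : 3 * (3 * b0 ^ 2 - 8 * a0 * c0) - 4 * Z0 * a0 ≠ 0) :
    ∃ x0 y0, Red P x x0 ∧ Red P y y0 ∧ Cov a0 b0 c0 d0 e0 x0 y0 Z0 W0 := by
  have r3 := Red.ofNat P 3
  have r4 := Red.ofNat P 4
  have r6 := Red.ofNat P 6
  have r8 := Red.ofNat P 8
  have r24 := Red.ofNat P 24
  have rZ := r4.mul hZ
  obtain ⟨x0, hx⟩ := redAux_root2 (P := P) (x := x) (fibP_deg _ _ _ _ _) (fibP_deg _ _ _ _ _)
    (by rw [fibP_four]; exact hl)
    (fib_red_coeff ((r3.mul ((r3.mul (hb.pow 2)).sub ((r8.mul ha).mul hc))).sub (rZ.mul ha))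
      ((r3.mul (((r4.mul hb).mul hc).sub ((r24.mul ha).mul hd))).sub (rZ.mul hb))
      ((r3.mul (((r4.mul (hc.pow 2)).sub ((r6.mul hb).mul hd)).sub
        (((Red.ofNat P 48).mul ha).mul he))).sub (rZ.mul hc))
      ((r3.mul (((r4.mul hc).mul hd).sub ((r24.mul hb).mul he))).sub (rZ.mul hd))
      ((r3.mul ((r3.mul (hd.pow 2)).sub ((r8.mul hc).mul he))).sub (rZ.mul he)))
    (by rw [fibP_eval, ← fib_g4, ← h.hZ, h.eq, sub_self])
  have hQ := fib_red_qv ha hb hc hd he hx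
  have h1 := fib_red_q1 ha hb hc hd hx
  have h2 := (((r6.mul ha).mul (hx.pow 2)).add ((r3.mul hb).mul hx)).add hc
  obtain ⟨y0, hy, hy2⟩ := Red.of_pow two_ne_zero (hQ.of_eq h.eq.symm rfl)
  have h4 : Red P (g4 a b c d e x) (g4 a0 b0 c0 d0 e0 x0) :=
    (r3.mul (h1.pow 2)).sub ((r8.mul h2).mul hQ)
  have h6 : Red P (g6 a b c d e x) (g6 a0 b0 c0 d0 e0 x0) :=
    ((h1.pow 3).add ((r8.mul (((r4.mul ha).mul hx).add hb)).mul (hQ.pow 2))).sub
      (((r4.mul h2).mul h1).mul hQ)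
  have e4 := (rZ.mul (hy.pow 2)).eq_of_eq (r3.mul h4) h.hZ
  have e6 := ((r8.mul hW).mul (hy.pow 3)).eq_of_eq ((Red.ofNat P 27).mul h6) h.hW
  refine ⟨x0, y0, hx, hy, hy2, fun h5 => hD (fib_disc (x := x0) ?_ ?_), e4, e6⟩
  · rw [← hy2, h5, zero_pow two_ne_zero]
  · rw [← e4, h5, zero_pow two_ne_zero, mul_zero]

variable {S : Set ℂ} {a b c d e x y Z W : ℂ}

theorem fib_disc0 (c d e : ℂ) : 4 * qI 0 0 c d e ^ 3 = qJ 0 0 c d e ^ 2 := by
  unfold qI qJ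
  ring

theorem lead_ne_zero (ha : a ∈ cl S) (hb : b ∈ cl S) (hc : c ∈ cl S)
    (hD : 4 * qI a b c d e ^ 3 ≠ qJ a b c d e ^ 2) (hZ : Z ∉ cl S) :
    3 * (3 * b ^ 2 - 8 * a * c) - 4 * Z * a ≠ 0 := by
  intro h
  by_cases h0 : a = 0
  · subst h0
    obtain rfl : b = 0 := (pow_eq_zero_iff two_ne_zero).1 (by linear_combination h / 9)
    exact hD (fib_disc0 c d e)
  · have h1 : Z = 3 * (3 * b ^ 2 - 8 * a * c) / (4 * a) := by
      field_simp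
      linear_combination -h
    refine hZ (h1 ▸ div_mem (mul_mem (ofNat_mem _ _) (sub_mem (mul_mem (ofNat_mem _ _)
      (pow_mem hb _)) (mul_mem (mul_mem (ofNat_mem _ _) ha) hc))) (mul_mem (ofNat_mem _ _) ha))

/-- A root of a quartic which is not zero is algebraic over the coefficients. -/
theorem fib_mem (ha : a ∈ cl S) (hb : b ∈ cl S) (hc : c ∈ cl S) (hd : d ∈ cl S)
    (he : e ∈ cl S) (h : qv a b c d e x = 0) :
    x ∈ cl S ∨ a = 0 ∧ b = 0 ∧ c = 0 ∧ d = 0 ∧ e = 0 := by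
  by_cases h0 : fibP a b c d e = 0
  · have h1 : ∀ i, (fibP a b c d e).coeff i = 0 := fun i => by rw [h0, coeff_zero]
    simp only [fibP_coeff] at h1
    exact Or.inr ⟨h1 4, h1 3, h1 2, h1 1, h1 0⟩
  · refine Or.inl (mem_cl_of_root (fun i => ?_) h0 (by rwa [fibP_eval]))
    rw [fibP_coeff]
    split_ifs
    exacts [ha, hb, hc, hd, he, zero_mem _]

theorem qv_ne_zero (ha : a ∈ cl S) (hb : b ∈ cl S) (hc : c ∈ cl S) (hd : d ∈ cl S)
    (he : e ∈ cl S) (hD : 4 * qI a b c d e ^ 3 ≠ qJ a b c d e ^ 2) (hx : x ∉ cl S) :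
    qv a b c d e x ≠ 0 := by
  intro h
  obtain ⟨rfl, rfl, -⟩ := (fib_mem ha hb hc hd he h).resolve_left hx
  exact hD (fib_disc0 c d e)

theorem Cov.mem_Z (h : Cov a b c d e x y Z W) (ha : a ∈ cl S) (hb : b ∈ cl S) (hc : c ∈ cl S)
    (hd : d ∈ cl S) (he : e ∈ cl S) (hx : x ∈ cl S) : Z ∈ cl S := by
  have h1 : Z = 3 * g4 a b c d e x / (4 * qv a b c d e x) := by
    have := h.ne
    rw [← h.hZ, ← h.eq]
    field_simp
  have n : ∀ (k : ℕ) [k.AtLeastTwo] {z : ℂ}, z ∈ cl S → (OfNat.ofNat k : ℂ) * z ∈ cl S :=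
    fun k _ _ hz => mul_mem (ofNat_mem _ k) hz
  have hQ : qv a b c d e x ∈ cl S :=
    add_mem (add_mem (add_mem (add_mem (mul_mem ha (pow_mem hx 4)) (mul_mem hb (pow_mem hx 3)))
      (mul_mem hc (pow_mem hx 2))) (mul_mem hd hx)) he
  have h2 : q1 a b c d x ∈ cl S :=
    add_mem (add_mem (add_mem (mul_mem (n 4 ha) (pow_mem hx 3)) (mul_mem (n 3 hb) (pow_mem hx 2)))
      (mul_mem (n 2 hc) hx)) hd
  have h3 : g4 a b c d e x ∈ cl S :=
    sub_mem (n 3 (pow_mem h2 2)) (mul_mem (n 8 (add_mem (add_mem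
      (mul_mem (n 6 ha) (pow_mem hx 2)) (mul_mem (n 3 hb) hx)) hc)) hQ)
  exact h1 ▸ div_mem (n 3 h3) (n 4 hQ)

/-- The polynomial `3 g4 - 4 Z Q` is not zero: `g4 = 3 Q'² - 4 Q Q''`, so otherwise every root of
`Q` is a double root. -/
theorem Cov.mem_x (h : Cov a b c d e x y Z W) (ha : a ∈ cl S) (hb : b ∈ cl S) (hc : c ∈ cl S)
    (hd : d ∈ cl S) (he : e ∈ cl S) (hD : 4 * qI a b c d e ^ 3 ≠ qJ a b c d e ^ 2)
    (hZ : Z ∈ cl S) : x ∈ cl S := by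
  have n : ∀ (k : ℕ) [k.AtLeastTwo] {z : ℂ}, z ∈ cl S → (OfNat.ofNat k : ℂ) * z ∈ cl S :=
    fun k _ _ hz => mul_mem (ofNat_mem _ k) hz
  have h1 := fib_g4 a b c d e x Z
  rw [← h.hZ, h.eq, sub_self] at h1
  have z4 := n 4 hZ
  refine (fib_mem
    (sub_mem (n 3 (sub_mem (n 3 (pow_mem hb 2)) (mul_mem (n 8 ha) hc))) (mul_mem z4 ha))
    (sub_mem (n 3 (sub_mem (mul_mem (n 4 hb) hc) (mul_mem (n 24 ha) hd))) (mul_mem z4 hb))
    (sub_mem (n 3 (sub_mem (sub_mem (n 4 (pow_mem hc 2)) (mul_mem (n 6 hb) hd))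
      (mul_mem (n 48 ha) he))) (mul_mem z4 hc))
    (sub_mem (n 3 (sub_mem (mul_mem (n 4 hc) hd) (mul_mem (n 24 hb) he))) (mul_mem z4 hd))
    (sub_mem (n 3 (sub_mem (n 3 (pow_mem hd 2)) (mul_mem (n 8 hc) he))) (mul_mem z4 he))
    h1.symm).resolve_right fun ⟨e4, e3, e2, e1, e0⟩ => hD ?_
  by_cases h0 : a = 0
  · subst h0
    obtain rfl : b = 0 := (pow_eq_zero_iff two_ne_zero).1 (by linear_combination e4 / 9)
    exact fib_disc0 c d e
  · obtain ⟨t, ht⟩ := fib_root b c d e h0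
    have h2 := fib_g4 a b c d e t Z
    rw [e4, e3, e2, e1, e0, ht] at h2
    exact fib_disc ht (by simpa [qv] using h2)

/-- The tangent parabola `-y₀ + n (x - x₀) + μ (x - x₀)²`. -/
theorem fib_par {x0 y0 y1 h : ℂ} (h0 : y0 ^ 2 = qv a b c d e x0)
    (h1 : y1 ^ 2 = qv a b c d e (x0 + h)) (hy0 : y0 ≠ 0) (hh : h ≠ 0)
    (hT : y0 * (q1 a b c d (x0 + h) * h - 4 * y1 ^ 2) = y1 * (q1 a b c d x0 * h + 4 * y0 ^ 2)) :
    ∃ n μ : ℂ, q1 a b c d x0 = -2 * y0 * n ∧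
      6 * a * x0 ^ 2 + 3 * b * x0 + c = n ^ 2 - 2 * y0 * μ - (μ ^ 2 - a) * h ^ 2 ∧
      4 * a * x0 + b = 2 * n * μ + 2 * (μ ^ 2 - a) * h ∧ y1 = -y0 + n * h + μ * h ^ 2 := by
  have t0 : qv a b c d e (x0 + h) = qv a b c d e x0 + q1 a b c d x0 * h +
      (6 * a * x0 ^ 2 + 3 * b * x0 + c) * h ^ 2 + (4 * a * x0 + b) * h ^ 3 + a * h ^ 4 := by
    unfold qv q1
    ring
  have t1 : q1 a b c d (x0 + h) = q1 a b c d x0 + 2 * (6 * a * x0 ^ 2 + 3 * b * x0 + c) * h +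
      3 * (4 * a * x0 + b) * h ^ 2 + 4 * a * h ^ 3 := by
    unfold q1
    ring
  rw [t0, ← h0] at h1
  rw [t1] at hT
  generalize q1 a b c d x0 = u1 at h1 hT ⊢
  generalize 6 * a * x0 ^ 2 + 3 * b * x0 + c = u2 at h1 hT ⊢
  generalize 4 * a * x0 + b = u3 at h1 hT ⊢
  obtain ⟨n, rfl⟩ : ∃ n, u1 = -2 * y0 * n := ⟨-u1 / (2 * y0), by field_simp⟩
  obtain ⟨μ, rfl⟩ : ∃ μ, y1 = -y0 + n * h + μ * h ^ 2 :=
    ⟨(y1 + y0 - n * h) / h ^ 2, by field_simp; ring⟩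
  have h2 : (-2 * y0 * n + 2 * u2 * h + 3 * u3 * h ^ 2 + 4 * a * h ^ 3) * h -
      4 * (-y0 + n * h + μ * h ^ 2) ^ 2 = (-y0 + n * h + μ * h ^ 2) * (-2 * n * h + 4 * y0) :=
    mul_left_cancel₀ hy0 (by linear_combination hT)
  refine ⟨n, μ, rfl, mul_left_cancel₀ (pow_ne_zero 2 hh) ?_,
    mul_left_cancel₀ (pow_ne_zero 3 hh) ?_, rfl⟩
  · linear_combination -3 * h1 - h2
  · linear_combination 2 * h1 + h2

variable {N : Type} [AddCommGroup N] [Module ℚ N] {Φ : ℂ × ℂ → N}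

theorem fib_sum {n : ℕ} {ρ ρ' : Fin n → ℂ} (h : ∏ j, (X - C (ρ j)) = ∏ j, (X - C (ρ' j)))
    (F : ℂ → N) : (∀ j, ∃ i, ρ j = ρ' i) ∧ ∑ j, F (ρ j) = ∑ j, F (ρ' j) := by
  have h1 : Finset.univ.val.map ρ = Finset.univ.val.map ρ' := by
    rw [← roots_multiset_prod_X_sub_C (Finset.univ.val.map ρ),
      ← roots_multiset_prod_X_sub_C (Finset.univ.val.map ρ'), Multiset.map_map, Multiset.map_map]
    exact congrArg roots h
  refine ⟨fun j => ?_, ?_⟩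
  · have h2 : ρ j ∈ Finset.univ.val.map ρ' :=
      h1 ▸ Multiset.mem_map_of_mem ρ (Finset.mem_univ j)
    obtain ⟨i, -, hi⟩ := Multiset.mem_map.1 h2
    exact ⟨i, hi.symm⟩
  · have h2 := congrArg (fun s => (Multiset.map F s).sum) h1
    simp only [Multiset.map_map] at h2
    exact h2

/-- The family `θ y = m₂ x² + m₁ x + m₀`. -/
theorem fib_family (h : LInvC a b c d e S Φ) (ho : ∀ x y, Φ (x, -y) = -Φ (x, y))
    {m2 m1 m0 : ℂ} {ρ : Fin 4 → ℂ} (hk : m2 ^ 2 - a ≠ 0) (hρ : ∀ j, ρ j ∉ cl S)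
    (hm : ∀ t, (m2 * t ^ 2 + m1 * t + m0) ^ 2 - qv a b c d e t = (m2 ^ 2 - a) * ∏ j, (t - ρ j)) :
    ∑ j, Φ (ρ j, m2 * ρ j ^ 2 + m1 * ρ j + m0) = 0 := by
  obtain ⟨f, hf⟩ : ∃ f : ℂ → Om, f = algebraMap ℂ Om := ⟨_, rfl⟩
  have hc : ∀ (P : Pl Om) (z : ℂ), Red P (f z) z := fun P z => hf ▸ Red.const P z
  have hco : ∀ (P : Pl Om) (ε : ℂ), Red P th ε → ε ^ 2 = 1 → ∀ i,
      Red P ((fibP (f m2 ^ 2 - th ^ 2 * f a) (2 * f m2 * f m1 - th ^ 2 * f b)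
        (f m1 ^ 2 + 2 * f m2 * f m0 - th ^ 2 * f c) (2 * f m1 * f m0 - th ^ 2 * f d)
        (f m0 ^ 2 - th ^ 2 * f e)).coeff i)
        ((fibP (m2 ^ 2 - a) (2 * m2 * m1 - b) (m1 ^ 2 + 2 * m2 * m0 - c) (2 * m1 * m0 - d)
          (m0 ^ 2 - e)).coeff i) := by
    intro P ε hP hε
    have h1 : ∀ z : ℂ, Red P (th ^ 2 * f z) z := fun z =>
      ((hP.pow 2).mul (hc P z)).of_eq rfl (by rw [hε, one_mul])
    have r2 := Red.ofNat P 2
    exact fib_red_coeff (((hc P m2).pow 2).sub (h1 a))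
      (((r2.mul (hc P m2)).mul (hc P m1)).sub (h1 b))
      ((((hc P m1).pow 2).add ((r2.mul (hc P m2)).mul (hc P m0))).sub (h1 c))
      (((r2.mul (hc P m1)).mul (hc P m0)).sub (h1 d)) (((hc P m0).pow 2).sub (h1 e))
  obtain ⟨P1, hP1⟩ := exists_place_red th_trans 1
  have hth : th ≠ 0 := hP1.ne_zero one_ne_zero
  obtain ⟨r, hr⟩ := exists_split _ (fibP_deg _ _ _ _ _)
    ((hco P1 1 hP1 (one_pow 2) 4).ne_zero (by rwa [fibP_four]))
  have hpol : fibP (m2 ^ 2 - a) (2 * m2 * m1 - b) (m1 ^ 2 + 2 * m2 * m0 - c) (2 * m1 * m0 - d)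
      (m0 ^ 2 - e) = C (m2 ^ 2 - a) * ∏ j, (X - C (ρ j)) := by
    refine Polynomial.funext fun t => ?_
    rw [fibP_eval, eval_mul, eval_C, eval_prod]
    simp only [eval_sub, eval_X, eval_C]
    rw [← hm]
    unfold qv
    ring
  have key : ∀ ε : ℂ, ε ^ 2 = 1 → ∀ P : Pl Om, Red P th ε → ∃ z : Fin 4 → ℂ × ℂ,
      (∀ j, (Red P (r j) (z j).1 ∧
        Red P ((f m2 * r j ^ 2 + f m1 * r j + f m0) / th) (z j).2) ∧ (z j).1 ∉ cl S) ∧
      ∑ j, Φ (z j) = ∑ j, Φ (ρ j, (m2 * ρ j ^ 2 + m1 * ρ j + m0) / ε) := by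
    intro ε hε P hP
    have hε0 : ε ≠ 0 := fun h0 => by simp [h0] at hε
    have h1 := hco P ε hP hε
    rw [hr] at h1
    obtain ⟨σ, hσ, h2⟩ := red_roots _ r _ (fibP_deg _ _ _ _ _) (by rwa [fibP_four]) h1
    rw [fibP_four, hpol] at h2
    obtain ⟨h3, h4⟩ := fib_sum (mul_left_cancel₀ (C_ne_zero.2 hk) h2).symm
      fun t => Φ (t, (m2 * t ^ 2 + m1 * t + m0) / ε)
    refine ⟨fun j => (σ j, (m2 * σ j ^ 2 + m1 * σ j + m0) / ε), fun j => ⟨⟨hσ j, ?_⟩, ?_⟩, h4⟩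
    · exact ((((hc P m2).mul ((hσ j).pow 2)).add ((hc P m1).mul (hσ j))).add (hc P m0)).div hP hε0
    · obtain ⟨i, hi⟩ := h3 j
      show σ j ∉ cl S
      rw [hi]
      exact hρ i
  have h1 := h (Fin 4) (fun j => (r j, (f m2 * r j ^ 2 + f m1 * r j + f m0) / th)) 1 (-1) _ _
    (fun j => ?_) (key 1 (one_pow 2)) (key (-1) neg_one_sq)
  · simp only [div_neg, div_one, ho, Finset.sum_neg_distrib] at h1
    have h2 : (2 : ℚ) • ∑ j, Φ (ρ j, m2 * ρ j ^ 2 + m1 * ρ j + m0) = 0 := by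
      rw [two_smul]
      exact add_eq_zero_iff_eq_neg.2 h1
    exact (smul_eq_zero.1 h2).resolve_left two_ne_zero
  · have h2 := congrArg (eval (r j)) hr
    rw [fibP_eval, eval_mul, eval_prod, Finset.prod_eq_zero (Finset.mem_univ j) (by simp),
      mul_zero] at h2
    show ((f m2 * r j ^ 2 + f m1 * r j + f m0) / th) ^ 2 = _
    rw [← hf, div_pow, div_eq_iff (pow_ne_zero 2 hth)]
    unfold qv at h2 ⊢
    linear_combination h2

/-- A parabola `y = m(x)` which is tangent at `(x₀, -y₀)` and `(x₁, y₁)`. With `h = x₁ - x₀`,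
`m = -y₀ - Q'(x₀) / (2 y₀) (x - x₀) + μ (x - x₀)²` and `μ` given by `m(x₁) = y₁` one gets
`m² - Q = κ (x - x₀)² (x - x₁)²` with `κ = μ² - a ≠ 0` (a square has discriminant zero). The
family is `θ y = m(x)`, with `x` the four roots of `m² - θ² Q` (`exists_split`, `red_roots`). At
`θ = 1` and `θ = -1` the sums are opposite. -/
theorem fib_tangent (h : LInvC a b c d e S Φ) (ho : ∀ x y, Φ (x, -y) = -Φ (x, y))
    (hD : 4 * qI a b c d e ^ 3 ≠ qJ a b c d e ^ 2) {x0 y0 x1 y1 : ℂ}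
    (h0 : y0 ^ 2 = qv a b c d e x0) (h1 : y1 ^ 2 = qv a b c d e x1) (hy0 : y0 ≠ 0)
    (hy1 : y1 ≠ 0) (hne : x0 ≠ x1) (hx0 : x0 ∉ cl S) (hx1 : x1 ∉ cl S)
    (hT : y0 * (q1 a b c d x1 * (x1 - x0) - 4 * y1 ^ 2) =
      y1 * (q1 a b c d x0 * (x1 - x0) + 4 * y0 ^ 2)) : Φ (x0, y0) = Φ (x1, y1) := by
  obtain ⟨k, rfl⟩ : ∃ k, x1 = x0 + k := ⟨x1 - x0, by ring⟩
  have hk : k ≠ 0 := fun h2 => hne (by rw [h2, add_zero])
  rw [add_sub_cancel_left] at hT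
  obtain ⟨n, μ, e1, e2, e3, e4⟩ := fib_par h0 h1 hy0 hk hT
  have hκ : μ ^ 2 - a ≠ 0 := fun h2 => hD (by
    rw [fib_qI a b c d e x0, fib_qJ a b c d e x0, e1, e2, e3, ← h0, h2, ← sub_eq_zero.1 h2]
    unfold qI qJ
    ring)
  have h2 := fib_family h ho (m2 := μ) (m1 := n - 2 * μ * x0) (m0 := -y0 - n * x0 + μ * x0 ^ 2)
    (ρ := ![x0, x0, x0 + k, x0 + k]) hκ (fun j => by fin_cases j <;> assumption) (fun t => by
      rw [Fin.prod_univ_four]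
      simp only [Matrix.cons_val]
      unfold qv at h0 ⊢
      unfold q1 at e1
      linear_combination h0 - (t - x0) * e1 - (t - x0) ^ 2 * e2 - (t - x0) ^ 3 * e3)
  rw [Fin.sum_univ_four] at h2
  simp only [Matrix.cons_val] at h2
  rw [show μ * x0 ^ 2 + (n - 2 * μ * x0) * x0 + (-y0 - n * x0 + μ * x0 ^ 2) = -y0 by ring,
    show μ * (x0 + k) ^ 2 + (n - 2 * μ * x0) * (x0 + k) + (-y0 - n * x0 + μ * x0 ^ 2) = y1 by
      rw [e4]; ring, ho] at h2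
  have h3 : (2 : ℚ) • (Φ (x0 + k, y1) - Φ (x0, y0)) = 0 := by
    rw [two_smul, ← h2]
    abel
  exact (sub_eq_zero.1 ((smul_eq_zero.1 h3).resolve_left two_ne_zero)).symm

/-- Odd invariant functions are constant on the fibres. With `U₁ = Q'(x₁) h - 4 Q(x₁)`,
`U₀ = Q'(x₀) h + 4 Q(x₀)` one has `3 (Q₀ U₁² - Q₁ U₀²) = -h² (g4(x₀) Q₁ - g4(x₁) Q₀) = 0`, so
`y₀ U₁ = y₁ U₀` or `y₀ U₁ = -y₁ U₀`. In the second case the parabola exists for `(x₁, -y₁)`, and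
then `g6(x₀) / y₀³ = g6(x₁) / (-y₁)³` (both are `-8 κ h (2 m₀ + h m₁)` for `m = m₀ + m₁ (x - x₀) +
…`), so `W = -W`, which is excluded. If `x₀ = x₁` then `y₀ = y₁`. -/
theorem fib (h : LInvC a b c d e S Φ) (ho : ∀ x y, Φ (x, -y) = -Φ (x, y))
    (hD : 4 * qI a b c d e ^ 3 ≠ qJ a b c d e ^ 2) {x0 y0 x1 y1 : ℂ}
    (h0 : Cov a b c d e x0 y0 Z W) (h1 : Cov a b c d e x1 y1 Z W) (hW : W ≠ 0)
    (hx0 : x0 ∉ cl S) (hx1 : x1 ∉ cl S) : Φ (x0, y0) = Φ (x1, y1) := by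
  by_cases hne : x0 = x1
  · subst hne
    have e2 : y0 ^ 2 = y1 ^ 2 := h0.eq.trans h1.eq.symm
    have e3 : y0 ^ 3 = y1 ^ 3 :=
      mul_left_cancel₀ (mul_ne_zero (by norm_num : (8 : ℂ) ≠ 0) hW) (h0.hW.trans h1.hW.symm)
    rw [pow_succ, pow_succ y1, e2] at e3
    rw [mul_left_cancel₀ (pow_ne_zero 2 h1.ne) e3]
  have hid : 3 * (qv a b c d e x0 * (q1 a b c d x1 * (x1 - x0) - 4 * qv a b c d e x1) ^ 2 -
      qv a b c d e x1 * (q1 a b c d x0 * (x1 - x0) + 4 * qv a b c d e x0) ^ 2) =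
      -(x1 - x0) ^ 2 * (g4 a b c d e x0 * qv a b c d e x1 - g4 a b c d e x1 * qv a b c d e x0) := by
    unfold g4 q1 qv
    ring
  rw [← h0.eq, ← h1.eq] at hid
  have hsq : (y0 * (q1 a b c d x1 * (x1 - x0) - 4 * y1 ^ 2)) ^ 2 =
      (y1 * (q1 a b c d x0 * (x1 - x0) + 4 * y0 ^ 2)) ^ 2 := by
    linear_combination hid / 3 + (x1 - x0) ^ 2 * y1 ^ 2 / 9 * h0.hZ -
      (x1 - x0) ^ 2 * y0 ^ 2 / 9 * h1.hZ
  rcases sq_eq_sq_iff_eq_or_eq_neg.1 hsq with hT | hT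
  · exact fib_tangent h ho hD h0.eq h1.eq h0.ne h1.ne hne hx0 hx1 hT
  obtain ⟨k, rfl⟩ : ∃ k, x1 = x0 + k := ⟨x1 - x0, by ring⟩
  have hk : k ≠ 0 := fun h2 => hne (by rw [h2, add_zero])
  rw [add_sub_cancel_left] at hT
  obtain ⟨n, μ, e1, e2, e3, e4⟩ := fib_par (y1 := -y1) h0.eq (by rw [neg_sq, h1.eq]) h0.ne hk
    (by linear_combination hT)
  have f1 : q1 a b c d (x0 + k) = -2 * y1 * (n + 2 * μ * k) := by
    unfold q1 at e1 ⊢
    linear_combination e1 + 2 * k * e2 + 3 * k ^ 2 * e3 - 2 * (n + 2 * μ * k) * e4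
  have f2 : 6 * a * (x0 + k) ^ 2 + 3 * b * (x0 + k) + c =
      (n + 2 * μ * k) ^ 2 - 2 * y1 * μ - (μ ^ 2 - a) * k ^ 2 := by
    linear_combination e2 + 3 * k * e3 - 2 * μ * e4
  have f3 : 4 * a * (x0 + k) + b = 2 * (n + 2 * μ * k) * μ - 2 * (μ ^ 2 - a) * k := by
    linear_combination e3
  have g0 := h0.hW
  have g1 := h1.hW
  unfold g6 at g0 g1
  rw [e1, e2, e3, ← h0.eq] at g0
  rw [f1, f2, f3, ← h1.eq] at g1
  have w0 : W = 27 * (μ ^ 2 - a) * k * (2 * y0 - k * n) :=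
    mul_left_cancel₀ (pow_ne_zero 3 h0.ne) (by linear_combination g0 / 8)
  have w1 : W = -27 * (μ ^ 2 - a) * k * (k * (n + 2 * μ * k) + 2 * y1) :=
    mul_left_cancel₀ (pow_ne_zero 3 h1.ne) (by linear_combination g1 / 8)
  exact absurd (by linear_combination w0 / 2 + w1 / 2 + 27 * (μ ^ 2 - a) * k * e4) hW

end Pool.Agent.P.MP_a2ccc3_ag
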