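import Pool.Agent.P.MP_a2ccc3_ag.Bridge

/-! From anticommutativity to the symmetric invariants. -/

open CategoryTheory CategoryTheory.Limits AlgebraicGeometry

noncomputable section

namespace Pool.Agent.P.MP_a2ccc3_ag

/-- The class of a point. -/
def cls {Y : Var} (y : Pt ℂ Y) : A0 Y := Submodule.Quotient.mk (Finsupp.single y 1)

/-- The sum of the classes of all permutations of a tuple of points. -/
def sym {X : Var} {k : ℕ} (x : Fin k → Pt ℂ X) : A0 (pow X k) :=
  ∑ σ : Equiv.Perm (Fin k), cls (Y := pow X k) (Pi.lift fun i => x (σ i))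

/-- The moving property. -/
def Mov {X : Var} {R : Type} [CommRing R] [Algebra ℂ R] (φ : spec R ⟶ X) : Prop :=
  ∀ x : Pt ℂ X, ∃ a : (R →ₐ[ℂ] ℂ) →₀ ℚ, (a.sum fun _ q => q) = 1 ∧
    Finsupp.single x 1 - a.mapDomain (fun c => specMap c ≫ φ) ∈ ratRel X

theorem push_cls {Y Z : Var} (g : Y ⟶ Z) (y : Pt ℂ Y) : push g (cls y) = cls (y ≫ g) := by
  rw [push, cls, Submodule.mapQ_apply, Finsupp.lmapDomain_apply, Finsupp.mapDomain_single, cls]

theorem glue_ext {Y : Var} {N : Type} [AddCommGroup N] [Module ℚ N] {f g : A0 Y →ₗ[ℚ] N}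
    (h : ∀ y, f (cls y) = g (cls y)) : f = g :=
  Submodule.linearMap_qext _ (Finsupp.lhom_ext' fun y => LinearMap.ext_ring (h y))

theorem glue_push_comp {Y Z W : Var} (f : Y ⟶ Z) (g : Z ⟶ W) (z : A0 Y) :
    push (f ≫ g) z = push g (push f z) := by
  have h : push (f ≫ g) = push g ∘ₗ push f := glue_ext fun y => by
    rw [LinearMap.comp_apply, push_cls, push_cls, push_cls, Category.assoc]
  rw [h, LinearMap.comp_apply]

theorem glue_hom : (spec ℂ).hom = 𝟙 _ := by
  change Spec.map (CommRingCat.ofHom (RingHom.id ℂ)) = 𝟙 _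
  rw [CommRingCat.ofHom_id, Spec.map_id]

/-- The structure morphism. -/
def glueBase (Y : Var) : Y ⟶ spec ℂ := Over.homMk Y.hom (by rw [glue_hom]; exact Category.comp_id _)

theorem glue_uniq {Y : Var} (f g : Y ⟶ spec ℂ) : f = g := by
  have hf := Over.w f
  have hg := Over.w g
  rw [glue_hom] at hf hg
  exact Over.OverMorphism.ext
    ((Category.comp_id _).symm.trans (hf.trans (hg.symm.trans (Category.comp_id _))))

theorem glue_const {Y Z : Var} (y : Pt ℂ Y) (z : Pt ℂ Z) : y ≫ glueBase Y ≫ z = z := by
  rw [← Category.assoc, glue_uniq (y ≫ glueBase Y) (𝟙 _), Category.id_comp]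

theorem glue_perm {X Y : Var} {k : ℕ} (w : Fin k → (Y ⟶ X)) (σ : Equiv.Perm (Fin k)) :
    Pi.lift w ≫ perm X σ = Pi.lift fun i => w (σ i) := by
  refine Pi.hom_ext _ _ fun i => ?_
  rw [perm, Category.assoc, Pi.lift_π, Pi.lift_π, Pi.lift_π]

/-- The morphism `X → X ^ k` which puts the point in slot `i` and constants elsewhere. -/
theorem exists_ins {X : Var} {k : ℕ} (x : Fin k → Pt ℂ X) (i : Fin k) :
    ∃ g : X ⟶ pow X k, ∀ y : Pt ℂ X, y ≫ g = Pi.lift (Function.update x i y) := by
  refine ⟨Pi.lift (Function.update (fun l => glueBase X ≫ x l) i (𝟙 X)), fun y => ?_⟩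
  refine Pi.hom_ext _ _ fun l => ?_
  rw [Category.assoc, Pi.lift_π, Pi.lift_π]
  rcases eq_or_ne l i with rfl | h
  · rw [Function.update_self, Function.update_self, Category.comp_id]
  · rw [Function.update_of_ne h, Function.update_of_ne h, glue_const]

theorem sym_perm {X : Var} {k : ℕ} (x : Fin k → Pt ℂ X) (τ : Equiv.Perm (Fin k)) :
    sym (fun i => x (τ i)) = sym x :=
  Fintype.sum_equiv (Equiv.mulLeft τ) _ _ fun _ => rfl

/-- The symmetrisation operator. -/
def glueS (X : Var) (k : ℕ) : A0 (pow X k) →ₗ[ℚ] A0 (pow X k) :=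
  ∑ σ : Equiv.Perm (Fin k), push (perm X σ)

theorem glueS_cls {X : Var} {k : ℕ} (x : Fin k → Pt ℂ X) :
    glueS X k (cls (Y := pow X k) (Pi.lift x)) = sym x := by
  rw [glueS, LinearMap.sum_apply, sym]
  exact Finset.sum_congr rfl fun σ _ => by rw [push_cls, glue_perm]

theorem glue_slot {X : Var} {k : ℕ} (x : Fin k → Pt ℂ X) (i : Fin k) :
    ∃ T : A0 X →ₗ[ℚ] A0 (pow X k), ∀ y, T (cls y) = sym (Function.update x i y) := by
  obtain ⟨g, hg⟩ := exists_ins x i
  exact ⟨glueS X k ∘ₗ push g, fun y => by rw [LinearMap.comp_apply, push_cls, hg, glueS_cls]⟩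

theorem glue_move {X : Var} {R : Type} [CommRing R] [Algebra ℂ R] {φ : spec R ⟶ X} (hm : Mov φ)
    {N : Type} [AddCommGroup N] [Module ℚ N] (T : A0 X →ₗ[ℚ] N) {n : N}
    (h : ∀ c : R →ₐ[ℂ] ℂ, T (cls (specMap c ≫ φ)) = n) (y : Pt ℂ X) : T (cls y) = n := by
  obtain ⟨a, ha, hy⟩ := hm y
  have h1 : cls y = (ratRel X).mkQ (a.mapDomain fun c => specMap c ≫ φ) :=
    (Submodule.Quotient.eq _).2 hy
  have h2 : ∀ (c : R →ₐ[ℂ] ℂ) (q : ℚ),
      T ((ratRel X).mkQ (Finsupp.single (specMap c ≫ φ) q)) = q • n := by
    intro c q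
    rw [← h c, ← map_smul, ← Finsupp.smul_single_one, map_smul]
    rfl
  rw [h1, Finsupp.mapDomain, Finsupp.sum, map_sum, map_sum]
  simp only [h2]
  rw [← Finset.sum_smul]
  exact (congrArg (· • n) ha).trans (one_smul _ _)

theorem glue_cinv {X : Var} {R : Type} [CommRing R] [Algebra ℂ R] (φ : spec R ⟶ X) {k : ℕ}
    (x : Fin k → Pt ℂ X) (i j : Fin k) :
    CInvR R fun c c' =>
      sym (Function.update (Function.update x i (specMap c ≫ φ)) j (specMap c' ≫ φ)) := by
  intro K _ _ _ η η' f c c' hf h
  simp only [sym, Finset.smul_sum]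
  rw [Finset.sum_comm]
  refine Finset.sum_eq_zero fun σ _ => ?_
  have h1 := rel_of (Y := pow X k)
    (Pi.lift fun l => Function.update (Function.update
      (fun l => specMap (Algebra.ofId ℂ K) ≫ x l) i (specMap η ≫ φ)) j (specMap η' ≫ φ) (σ l)) hf
    (fun P => Pi.lift fun l => Function.update (Function.update x i (specMap (c P) ≫ φ)) j
      (specMap (c' P) ≫ φ) (σ l)) fun P hP => Spc.pi fun l => by
        rcases eq_or_ne (σ l) j with h1 | h1
        · rw [h1, Function.update_self, Function.update_self]
          exact (Spc.affine (h P hP).2).comp φ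
        · rw [Function.update_of_ne h1, Function.update_of_ne h1]
          rcases eq_or_ne (σ l) i with h2 | h2
          · rw [h2, Function.update_self, Function.update_self]
            exact (Spc.affine (h P hP).1).comp φ
          · rw [Function.update_of_ne h2, Function.update_of_ne h2]
            exact Spc.const P _
  have h2 := (Submodule.Quotient.mk_eq_zero _).2 h1
  rw [← Submodule.mkQ_apply, map_sum] at h2
  simp only [map_smul] at h2
  exact h2

theorem glue_swap {X : Var} {k : ℕ} (x : Fin k → Pt ℂ X) {i j : Fin k} (hij : i ≠ j)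
    (y y' : Pt ℂ X) : sym (Function.update (Function.update x i y) j y') =
      sym (Function.update (Function.update x i y') j y) := by
  rw [← sym_perm _ (Equiv.swap i j)]
  refine congrArg sym (funext fun l => ?_)
  rcases eq_or_ne l j with rfl | h1
  · rw [Equiv.swap_apply_right, Function.update_of_ne hij, Function.update_self,
      Function.update_self]
  · rcases eq_or_ne l i with rfl | h2
    · rw [Equiv.swap_apply_left, Function.update_self, Function.update_of_ne h1,
        Function.update_self]
    · rw [Equiv.swap_apply_of_ne_of_ne h2 h1, Function.update_of_ne h1, Function.update_of_ne h2,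
        Function.update_of_ne h1, Function.update_of_ne h2]

/-- The relation for two slots. The function `(c, c') ↦ sym (x with φ c, φ c' in slots i, j)` is
symmetric and satisfies `CInvR` by `rel_of`, `Spc.pi`. Then move `x i` and `x j`. -/
theorem pair_rel {X : Var} {R : Type} [CommRing R] [Algebra ℂ R] (hR : ACR R) (φ : spec R ⟶ X)
    (hm : Mov φ) {k : ℕ} (x : Fin k → Pt ℂ X) {i j : Fin k} (hij : i ≠ j) (c0 : R →ₐ[ℂ] ℂ) :
    sym x - sym (Function.update x i (specMap c0 ≫ φ)) -
      sym (Function.update x j (specMap c0 ≫ φ)) +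
      sym (Function.update (Function.update x i (specMap c0 ≫ φ)) j (specMap c0 ≫ φ)) = 0 := by
  have h0 := hR _ _ (glue_cinv φ x i j) fun c c' => glue_swap x hij _ _
  set o : Pt ℂ X := specMap c0 ≫ φ with ho
  have h1 : ∀ (c' : R →ₐ[ℂ] ℂ) (y : Pt ℂ X),
      sym (Function.update (Function.update x i y) j (specMap c' ≫ φ)) -
        sym (Function.update (Function.update x i y) j o) =
      sym (Function.update (Function.update x i o) j (specMap c' ≫ φ)) -
        sym (Function.update (Function.update x i o) j o) := by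
    intro c' y
    obtain ⟨T, hT⟩ := glue_slot (Function.update x j (specMap c' ≫ φ)) i
    obtain ⟨T', hT'⟩ := glue_slot (Function.update x j o) i
    simp only [Function.update_comm hij.symm] at hT hT'
    rw [← hT, ← hT', ← LinearMap.sub_apply]
    refine glue_move hm _ (fun c => ?_) y
    rw [LinearMap.sub_apply, hT, hT', ← sub_eq_zero, ← h0 c c' c0]
    abel
  obtain ⟨T, hT⟩ := glue_slot x j
  obtain ⟨T', hT'⟩ := glue_slot (Function.update x i o) j
  have h2 : (T - T') (cls (x j)) = sym (Function.update x j o) -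
      sym (Function.update (Function.update x i o) j o) := by
    refine glue_move hm _ (fun c => ?_) _
    have h3 := h1 c (x i)
    rw [Function.update_eq_self] at h3
    rw [LinearMap.sub_apply, hT, hT', sub_eq_sub_iff_sub_eq_sub, h3]
  rw [LinearMap.sub_apply, hT, hT', Function.update_eq_self, Function.update_comm hij,
    Function.update_eq_self] at h2
  rw [h2]
  abel

/-- A function on tuples with vanishing mixed differences is a sum of functions of one slot. -/
theorem expand_of_pair {α N : Type} [AddCommGroup N] {k : ℕ} (F : (Fin k → α) → N) (o : α)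
    (h : ∀ (x : Fin k → α) (i j : Fin k), i ≠ j → F x - F (Function.update x i o) -
      F (Function.update x j o) + F (Function.update (Function.update x i o) j o) = 0)
    (x : Fin k → α) :
    F x - F (fun _ => o) = ∑ i, (F (Function.update (fun _ => o) i (x i)) - F fun _ => o) := by
  have hA : ∀ (i : Fin k) (s : Finset (Fin k)), i ∉ s →
      F (Function.update (s.piecewise x fun _ => o) i (x i)) - F (s.piecewise x fun _ => o) =
        F (Function.update (fun _ => o) i (x i)) - F fun _ => o := by
    intro i s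
    induction s using Finset.induction_on with
    | empty => intro _; rw [Finset.piecewise_empty]
    | insert j s hj ih =>
      intro hi
      have hij : i ≠ j := fun e => hi (e ▸ Finset.mem_insert_self j s)
      have his : i ∉ s := fun e => hi (Finset.mem_insert_of_mem e)
      have e1 : Function.update ((insert j s).piecewise x fun _ => o) i o =
          (insert j s).piecewise x fun _ => o :=
        Function.update_eq_self_iff.2 (Finset.piecewise_eq_of_notMem _ x (fun _ => o) hi).symm
      have e2 : Function.update ((insert j s).piecewise x fun _ => o) j o =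
          s.piecewise x fun _ => o := by
        rw [Finset.piecewise_insert, Function.update_idem]
        exact Function.update_eq_self_iff.2 (Finset.piecewise_eq_of_notMem _ x (fun _ => o) hj).symm
      have h1 := h (Function.update ((insert j s).piecewise x fun _ => o) i (x i)) i j hij
      rw [Function.update_idem, e1, Function.update_comm hij, e2] at h1
      rw [← ih his, ← sub_eq_zero, ← h1]
      abel
  have hB : ∀ s : Finset (Fin k), F (s.piecewise x fun _ => o) - F (fun _ => o) =
      ∑ i ∈ s, (F (Function.update (fun _ => o) i (x i)) - F fun _ => o) := by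
    intro s
    induction s using Finset.induction_on with
    | empty => rw [Finset.piecewise_empty, sub_self, Finset.sum_empty]
    | insert i s hi ih =>
      rw [Finset.sum_insert hi, ← ih, ← hA i s hi, Finset.piecewise_insert]
      abel
  rw [← hB, Finset.piecewise_univ]

/-- For invariant `z = [∑ q_v v]` one has `k! z = ∑ q_v sym v = T a + d sym (o, …, o)`, where
`T = ∑_σ push (perm σ) ∘ push (ins 0)`, `a = ∑ q_v ∑_i ([v_i] - [o])`, `d = ∑ q_v`. Push forward
to the first factor through `forget`: `0 = n a + d k! [o]`, where `n > 0` is the number of `σ`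
with `σ 0 = 0`. Push forward along the constant map to `o`: `d [o] = 0`. So `a = 0`, `z = 0`. -/
theorem voisin_of_acr {X : Var} {R : Type} [CommRing R] [Algebra ℂ R] (hR : ACR R)
    (φ : spec R ⟶ X) (hm : Mov φ) : VoisinZero X := by
  intro m z hz hf
  have hc : z = 0 ∨ Nonempty (R →ₐ[ℂ] ℂ) := by
    obtain ⟨v, rfl⟩ := Submodule.Quotient.mk_surjective _ z
    rcases eq_or_ne v 0 with rfl | hv
    · exact Or.inl rfl
    · obtain ⟨p, -⟩ := Finsupp.ne_iff.1 hv
      obtain ⟨a, ha, -⟩ := hm (p ≫ Pi.π (fun _ : Fin (m + 2) => X) 0)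
      obtain ⟨c, -⟩ := Finset.nonempty_of_sum_ne_zero (ha.trans_ne one_ne_zero)
      exact Or.inr ⟨c⟩
  rcases hc with hc | ⟨⟨c0⟩⟩
  · exact hc
  set o : Pt ℂ X := specMap c0 ≫ φ with ho
  obtain ⟨T, hT⟩ := glue_slot (fun _ : Fin (m + 2) => o) 0
  have hslot : ∀ (i : Fin (m + 2)) (y : Pt ℂ X),
      sym (Function.update (fun _ : Fin (m + 2) => o) i y) = T (cls y) := by
    intro i y
    rw [hT, ← sym_perm _ (Equiv.swap 0 i)]
    refine congrArg sym (funext fun l => ?_)
    rcases eq_or_ne l 0 with rfl | h1
    · rw [Equiv.swap_apply_left, Function.update_self, Function.update_self]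
    · rw [Function.update_of_ne h1, Function.update_of_ne]
      intro h2
      exact h1 ((Equiv.swap 0 i).injective (h2.trans (Equiv.swap_apply_left 0 i).symm))
  have ho' : sym (fun _ : Fin (m + 2) => o) = T (cls o) := by
    rw [hT, Function.update_eq_self (f := fun _ : Fin (m + 2) => o)]
  have hS : glueS X (m + 2) = T ∘ₗ (push (glueBase _ ≫ o) +
      ∑ i, (push (Pi.π (fun _ : Fin (m + 2) => X) i) - push (glueBase _ ≫ o))) := by
    refine glue_ext fun p => ?_
    have hp : p = Pi.lift fun i => p ≫ Pi.π (fun _ : Fin (m + 2) => X) i :=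
      Pi.hom_ext _ _ fun i => by rw [Pi.lift_π]
    have h1 := expand_of_pair (sym (X := X) (k := m + 2)) o
      (fun x i j hij => pair_rel hR φ hm x hij c0) fun i => p ≫ Pi.π (fun _ : Fin (m + 2) => X) i
    rw [← glueS_cls, ← hp, sub_eq_iff_eq_add'] at h1
    simp only [hslot, ho'] at h1
    simp only [h1, LinearMap.comp_apply, LinearMap.add_apply, LinearMap.sum_apply,
      LinearMap.sub_apply, map_add, map_sum, map_sub, push_cls, glue_const]
  have h1 : push (glueBase _ ≫ o) z = 0 := by
    rw [glue_uniq (glueBase _) (forget X (m + 1) ≫ glueBase _), Category.assoc, glue_push_comp, hf,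
      map_zero]
  have h2 : ∀ i, push (Pi.π (fun _ : Fin (m + 2) => X) i) z = 0 := by
    intro i
    have e : Pi.π (fun _ : Fin (m + 2) => X) i = perm X (Equiv.swap 0 i) ≫ forget X (m + 1) ≫
        Pi.π (fun _ : Fin (m + 1) => X) 0 := by
      rw [forget, Pi.lift_π, perm, Pi.lift_π, Fin.castSucc_zero, Equiv.swap_apply_left]
    rw [e, glue_push_comp, hz, glue_push_comp, hf, map_zero]
  have h3 : glueS X (m + 2) z = 0 := by
    rw [hS]
    simp only [LinearMap.comp_apply, LinearMap.add_apply, LinearMap.sum_apply,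
      LinearMap.sub_apply, h1, h2, sub_self, Finset.sum_const_zero, add_zero, map_zero]
  rw [glueS, LinearMap.sum_apply] at h3
  simp only [hz, Finset.sum_const] at h3
  rw [← Nat.cast_smul_eq_nsmul ℚ, smul_eq_zero] at h3
  exact h3.resolve_left (Nat.cast_ne_zero.2 (Finset.card_pos.2 Finset.univ_nonempty).ne')

end Pool.Agent.P.MP_a2ccc3_ag
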