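import Pool.Agent.P.MP_a2ccc3_ag.Bridge
import Pool.Agent.P.MP_a2ccc3_ag.CurveSel

/-! Every point is equivalent to a cycle which comes from the affine variety. -/

open CategoryTheory CategoryTheory.Limits AlgebraicGeometry

noncomputable section

namespace Pool.Agent.P.MP_a2ccc3_ag

theorem move_spec {S T : Type} [TopologicalSpace S] [TopologicalSpace T] [T0Space S]
    [TopologicalSpace.NoetherianSpace S] [QuasiSober S] {f : S → T} (hf : Continuous f)
    (hd : DenseRange f) (t : T) : ∃ s, f s ⤳ t := by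
  have hF : (genericPoints S).Finite :=
    genericPoints.finite TopologicalSpace.NoetherianSpace.finite_irreducibleComponents
  have h1 : Set.range f ⊆ closure (f '' genericPoints S) := by
    rw [← Set.image_univ, ← genericPoints.closure (α := S)]
    exact image_closure_subset_closure_image hf
  have h2 : t ∈ closure (f '' genericPoints S) :=
    closure_minimal h1 isClosed_closure (hd t)
  rw [Set.image_eq_iUnion, hF.closure_biUnion] at h2
  obtain ⟨s, hs⟩ := Set.mem_iUnion.1 h2
  obtain ⟨-, hs⟩ := Set.mem_iUnion.1 hs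
  exact ⟨s, specializes_iff_mem_closure.2 hs⟩

theorem move_full {R S : Type} [CommRing R] [Algebra ℂ R] [CommRing S] [Algebra ℂ S]
    (h : spec S ⟶ spec R) : ∃ g : R →ₐ[ℂ] S, specMap g = h := by
  obtain ⟨g, hg⟩ := Spec.map_surjective (R := CommRingCat.of R) (S := CommRingCat.of S) h.left
  have hw : Spec.map (CommRingCat.ofHom (algebraMap ℂ R) ≫ g) =
      Spec.map (CommRingCat.ofHom (algebraMap ℂ S)) := by
    rw [Spec.map_comp, hg]
    exact Over.w h
  have hw' := Spec.map_injective hw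
  refine ⟨{ g.hom with commutes' := fun c => ?_ }, Over.OverMorphism.ext hg⟩
  exact congrArg (fun k => CommRingCat.Hom.hom k c) hw'

theorem move_lift {X : Var} {A S : Type} [CommRing A] [Algebra ℂ A] [CommRing S] [Algebra ℂ S]
    (ι : spec A ⟶ X) [IsOpenImmersion ι.left] (ψ : spec S ⟶ X)
    (h : Set.range ψ.left ⊆ Set.range ι.left) : ∃ g : A →ₐ[ℂ] S, specMap g ≫ ι = ψ := by
  have hl := IsOpenImmersion.lift_fac ι.left ψ.left h
  obtain ⟨g, hg⟩ := move_full (R := A) (S := S)
    (Over.homMk (IsOpenImmersion.lift ι.left ψ.left h) (by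
      rw [← Over.w ι, ← Category.assoc, hl, Over.w ψ]))
  refine ⟨g, Over.OverMorphism.ext ?_⟩
  rw [hg]
  exact hl

theorem move_chart (X : Var) [LocallyOfFiniteType X.hom] {x : X.left} {U : X.left.Opens}
    (hx : x ∈ U) : ∃ (A : Type) (_ : CommRing A) (_ : Algebra ℂ A) (_ : Algebra.FiniteType ℂ A)
      (ι : spec A ⟶ X), IsOpenImmersion ι.left ∧ x ∈ Set.range ι.left ∧ Set.range ι.left ⊆ U := by
  obtain ⟨A, f, hf, h1, h2⟩ := Scheme.exists_affine_mem_range_and_range_subset hx
  obtain ⟨a, ha⟩ := Spec.map_surjective (R := CommRingCat.of ℂ) (S := A) (f ≫ X.hom)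
  have hft : LocallyOfFiniteType (Spec.map a) := by rw [ha]; infer_instance
  have hft' : a.hom.FiniteType := (HasRingHomProperty.Spec_iff (P := @LocallyOfFiniteType)).1 hft
  let _ : Algebra ℂ A := a.hom.toAlgebra
  exact ⟨A, inferInstance, inferInstance, hft', Over.homMk f ha.symm, hf, h1, h2⟩

theorem move_lft (R : Type) [CommRing R] [Algebra ℂ R] [h : Algebra.FiniteType ℂ R] :
    LocallyOfFiniteType (spec R).hom :=
  (HasRingHomProperty.Spec_iff (P := @LocallyOfFiniteType)).2
    (RingHom.finiteType_algebraMap.2 h)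

/-- Take an affine open `V = Spec A` around the image of `x`, a point of `spec R` over the generic
point of `X` (or any argument which gives a basic open `D(g)` in the preimage of `V` and a prime
`q` of `R_g` with `A → R_g / q` injective), and apply `curve_sel` with `B = R_g / q`. -/
theorem exists_germ (X : Var) [IsIntegral X.left] [LocallyOfFiniteType X.hom] {R : Type}
    [CommRing R] [Algebra ℂ R] [Algebra.FiniteType ℂ R] (φ : spec R ⟶ X) [IsDominant φ.left]
    (x : Pt ℂ X) :
    ∃ (K : Type) (_ : Field K) (_ : Algebra ℂ K) (_ : FF K) (η : R →ₐ[ℂ] K) (P : Pl K),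
      Spc P (specMap η ≫ φ) x := by
  obtain ⟨A, _, _, _, ι, hι, hx, -⟩ := move_chart X
    (x := x.left (IsLocalRing.closedPoint ℂ)) (U := ⊤) trivial
  have hne : Nonempty (spec A).left := let ⟨y, _⟩ := hx; ⟨y⟩
  have hint : IsIntegral (spec A).left := isIntegral_of_isOpenImmersion ι.left
  have hA : IsDomain A := (affine_isIntegral_iff (CommRingCat.of A)).1 hint
  obtain ⟨c, hc⟩ := move_lift ι x (by
    rintro _ ⟨y, rfl⟩
    rw [Subsingleton.elim (α := PrimeSpectrum ℂ) y (IsLocalRing.closedPoint ℂ)]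
    exact hx)
  have hN : IsNoetherianRing R := Algebra.FiniteType.isNoetherianRing ℂ R
  have hNS : TopologicalSpace.NoetherianSpace (spec R).left :=
    inferInstanceAs (TopologicalSpace.NoetherianSpace (PrimeSpectrum R))
  obtain ⟨p, hp⟩ := move_spec φ.left.continuous φ.left.denseRange (genericPoint X.left)
  have hp' : φ.left p = genericPoint X.left := (hp.antisymm (genericPoint_specializes _)).eq
  have hgen : ι.left (genericPoint (spec A).left) = genericPoint X.left :=
    genericPoint_eq_of_isOpenImmersion ι.left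
  have := move_lft R
  obtain ⟨C, _, _, _, j, -, ⟨q, hq⟩, hj⟩ := move_chart (spec R) (x := p)
    (U := φ.left ⁻¹ᵁ ι.left.opensRange) ⟨_, hgen.trans hp'.symm⟩
  obtain ⟨ρ, hρ⟩ := move_full j
  obtain ⟨α, hα⟩ := move_lift ι (j ≫ φ) (by
    rintro _ ⟨y, rfl⟩
    exact hj ⟨y, rfl⟩)
  have h1 : (specMap α).left q = genericPoint (spec A).left := by
    apply ι.left.isOpenEmbedding.injective
    rw [hgen, ← hp', ← hq]
    exact congrArg (fun k : spec C ⟶ X => k.left q) hα
  have h2 : PrimeSpectrum.comap α.toRingHom q = ⊥ :=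
    h1.trans (genericPoint_eq_bot_of_affine (CommRingCat.of A))
  have hq' : (PrimeSpectrum.asIdeal (R := C) q).IsPrime := q.2
  obtain ⟨K, _, _, _, β, P, hP⟩ := curve_sel
    ((Ideal.Quotient.mkₐ ℂ (PrimeSpectrum.asIdeal (R := C) q)).comp α) (by
      rw [injective_iff_map_eq_zero]
      intro a ha
      have h3 : a ∈ (PrimeSpectrum.comap α.toRingHom q).asIdeal :=
        (Ideal.Quotient.eq_zero_iff_mem (I := PrimeSpectrum.asIdeal (R := C) q) (a := α a)).1 ha
      rw [h2] at h3
      exact h3) c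
  refine ⟨K, _, _, ‹_›,
    (β.comp (Ideal.Quotient.mkₐ ℂ (PrimeSpectrum.asIdeal (R := C) q))).comp ρ, P, ?_⟩
  rw [specMap_comp _ (β.comp _), hρ, Category.assoc, ← hα, ← Category.assoc, ← specMap_comp, ← hc]
  exact (Spc.affine hP).comp ι

/-- Outside a finite set of places a point of `spec R` has values. -/
theorem finite_bad {R K : Type} [CommRing R] [Algebra ℂ R] [Algebra.FiniteType ℂ R] [Field K]
    [Algebra ℂ K] [FF K] (η : R →ₐ[ℂ] K) :
    {P : Pl K | ¬∃ c : R →ₐ[ℂ] ℂ, ∀ r, Red P (η r) (c r)}.Finite := by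
  obtain ⟨s, hs⟩ : (⊤ : Subalgebra ℂ R).FG := Algebra.FiniteType.out
  refine (s.finite_toSet.biUnion fun r _ =>
    MP_a2beea_nt.RR.finite_poles (k := ℂ) (η r)).subset fun P hP => ?_
  by_contra hn
  apply hP
  have h1 : ∀ r, η r ∈ (ofPl P).O := fun r => by
    have : Algebra.adjoin ℂ (s : Set R) ≤ (ofPl P).O.comap η := by
      refine Algebra.adjoin_le fun r hr => ?_
      by_contra h
      exact hn (Set.mem_biUnion hr h)
    exact this (hs ▸ Algebra.mem_top)
  exact ⟨(res P).comp (η.codRestrict _ h1), fun r => red_res P ⟨η r, h1 r⟩⟩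

/-- Use `exists_moving` for the finite bad set, `rel_of` and `sum_ord`. -/
theorem move (X : Var) [IsIntegral X.left] [LocallyOfFiniteType X.hom] {R : Type}
    [CommRing R] [Algebra ℂ R] [Algebra.FiniteType ℂ R] (φ : spec R ⟶ X) [IsDominant φ.left]
    (x : Pt ℂ X) :
    ∃ a : (R →ₐ[ℂ] ℂ) →₀ ℚ, (a.sum fun _ q => q) = 1 ∧
      Finsupp.single x 1 - a.mapDomain (fun c => specMap c ≫ φ) ∈ ratRel X := by
  classical
  obtain ⟨K, _, _, _, η, P0, h0⟩ := exists_germ X φ x
  obtain ⟨f, hf, hpos, hT⟩ := exists_moving P0 _ (finite_bad η).countable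
  have hgood : ∀ P : Pl K, P ≠ P0 → P.ord f ≠ 0 → ∃ c : R →ₐ[ℂ] ℂ, ∀ r, Red P (η r) (c r) :=
    fun P h1 h2 => by_contra fun h => h2 (hT P h h1)
  have hmem : P0 ∈ (dv f).support := mem_support_dv.2 hpos.ne'
  have hsum := sum_ord hf
  rw [← Finset.add_sum_erase _ _ hmem] at hsum
  have hne : Nonempty (R →ₐ[ℂ] ℂ) := by
    obtain ⟨P, hP, hP'⟩ := Finset.exists_ne_zero_of_sum_ne_zero
      (s := (dv f).support.erase P0) (f := fun P => P.ord f) (by omega)
    obtain ⟨c, -⟩ := hgood P (Finset.ne_of_mem_erase hP) hP'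
    exact ⟨c⟩
  choose! c hc using hgood
  have hrel := rel_of (specMap η ≫ φ) hf (fun P => if P = P0 then x else specMap (c P) ≫ φ)
    (fun P hP => by
      by_cases e : P = P0
      · rw [if_pos e, e]; exact h0
      · rw [if_neg e]; exact (Spc.affine (hc P e hP)).comp φ)
  rw [← Finset.add_sum_erase _ _ hmem, if_pos rfl] at hrel
  have hn : ((P0.ord f : ℤ) : ℚ) ≠ 0 := by exact_mod_cast hpos.ne'
  have hsum' : ∑ P ∈ (dv f).support.erase P0, ((P.ord f : ℤ) : ℚ) = -(P0.ord f : ℚ) := by
    have : ∑ P ∈ (dv f).support.erase P0, P.ord f = -P0.ord f := by omega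
    exact_mod_cast congrArg (Int.cast : ℤ → ℚ) this
  refine ⟨∑ P ∈ (dv f).support.erase P0,
    Finsupp.single (c P) (-((P0.ord f : ℚ)⁻¹ * (P.ord f : ℚ))), ?_, ?_⟩
  · rw [← Finsupp.sum_finsetSum_index (fun _ => rfl) (fun _ _ _ => rfl)]
    simp only [Finsupp.sum_single_index]
    rw [Finset.sum_neg_distrib, ← Finset.mul_sum, hsum', mul_neg, neg_neg, inv_mul_cancel₀ hn]
  · convert (ratRel X).smul_mem (P0.ord f : ℚ)⁻¹ hrel using 1
    rw [smul_add, smul_smul, inv_mul_cancel₀ hn, one_smul, Finsupp.mapDomain_finsetSum,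
      sub_eq_add_neg, ← Finset.sum_neg_distrib, Finset.smul_sum]
    congr 1
    refine Finset.sum_congr rfl fun P hP => ?_
    rw [if_neg (Finset.ne_of_mem_erase hP), Finsupp.mapDomain_single, smul_smul,
      Finsupp.smul_single, smul_eq_mul, mul_one, Finsupp.single_neg, neg_neg]

end Pool.Agent.P.MP_a2ccc3_ag
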