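import Pool.Agent.P.MP_a2ccc3_ag.Fib

/-! From the Jacobian fibration to the genus one fibration. -/

open Polynomial

noncomputable section

namespace Pool.Agent.P.MP_a2ccc3_ag

/-- A chosen preimage: `x` depends only on `(s, Z)`, and `y` is odd in `W`. -/
def Quart.preX (Q : Quart) (s Z : ℂ) : ℂ :=
  Classical.epsilon fun x => 4 * Z * Q.ev s x =
    3 * g4 (aeval s Q.a) (aeval s Q.b) (aeval s Q.c) (aeval s Q.d) (aeval s Q.e) x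

def Quart.preY (Q : Quart) (s Z W : ℂ) : ℂ :=
  27 * g6 (aeval s Q.a) (aeval s Q.b) (aeval s Q.c) (aeval s Q.d) (aeval s Q.e) (Q.preX s Z) /
    (8 * W * Q.ev s (Q.preX s Z))

variable {S T : Set ℂ} {Q Q1 Q2 : Quart}

theorem tr_I {K : Type} [Field K] [Algebra ℂ K] (Q : Quart) (s : K) : aeval s Q.I =
    qI (aeval s Q.a) (aeval s Q.b) (aeval s Q.c) (aeval s Q.d) (aeval s Q.e) := by
  simp only [Quart.I, qI, map_add, map_sub, map_mul, map_pow, map_ofNat]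

theorem tr_J {K : Type} [Field K] [Algebra ℂ K] (Q : Quart) (s : K) : aeval s Q.J =
    qJ (aeval s Q.a) (aeval s Q.b) (aeval s Q.c) (aeval s Q.d) (aeval s Q.e) := by
  simp only [Quart.J, qJ, map_add, map_sub, map_mul, map_pow, map_ofNat]

theorem tr_jac {K : Type} [Field K] [Algebra ℂ K] (Q : Quart) (s Z : K) : Q.jac.ev s Z =
    Z ^ 3 + -27 * qI (aeval s Q.a) (aeval s Q.b) (aeval s Q.c) (aeval s Q.d) (aeval s Q.e) * Z +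
      -27 * qJ (aeval s Q.a) (aeval s Q.b) (aeval s Q.c) (aeval s Q.d) (aeval s Q.e) := by
  rw [Quart.jac, wei_ev, cub, map_mul, map_mul, map_neg, map_ofNat, tr_I, tr_J]

theorem tr_dsc {K : Type} [Field K] [Algebra ℂ K] (Q : Quart) {s : K}
    (h : aeval s (4 * Q.I ^ 3 - Q.J ^ 2) ≠ 0) :
    4 * qI (aeval s Q.a) (aeval s Q.b) (aeval s Q.c) (aeval s Q.d) (aeval s Q.e) ^ 3 ≠
      qJ (aeval s Q.a) (aeval s Q.b) (aeval s Q.c) (aeval s Q.d) (aeval s Q.e) ^ 2 := by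
  rw [map_sub, map_mul, map_pow, map_pow, map_ofNat, tr_I, tr_J] at h
  exact sub_ne_zero.1 h

theorem tr_dsc_ne (hQ : Q.Over S) (hD : 4 * Q.I ^ 3 ≠ Q.J ^ 2) {s : ℂ} (hs : s ∉ cl S) :
    aeval s (4 * Q.I ^ 3 - Q.J ^ 2) ≠ 0 :=
  (((PC.ofNat S 4).mul (hQ.I.pow 3)).sub (hQ.J.pow 2)).aeval_ne_zero (sub_ne_zero.2 hD) hs

theorem tr_jac_ne (hQ : Q.Over T) {s Z : ℂ} (hs : s ∈ cl T) (hZ : Z ∉ cl T) :
    Q.jac.ev s Z ≠ 0 := by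
  intro h
  rw [Quart.jac, wei_ev, cub] at h
  exact hZ (mem_cl_of_cubic (hQ.jac.2.2.2.1.aeval_mem hs) (hQ.jac.2.2.2.2.aeval_mem hs) h)

theorem tr_W_ne (hQ : Q.Over T) {s Z W : ℂ} (hs : s ∈ cl T) (hZ : Z ∉ cl T)
    (h : W ^ 2 = Q.jac.ev s Z) : W ≠ 0 := by
  rintro rfl
  exact tr_jac_ne hQ hs hZ (by rw [← h]; ring)

theorem tr_ins (hQ : Q.Over S) (s : ℂ) : Q.Over (insert s S) :=
  hQ.mono fun _ hy => mem_cl (Set.mem_insert_of_mem _ hy)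

theorem tr_un (hQ : Q.Over S) (U : Set ℂ) : Q.Over (S ∪ U) :=
  hQ.mono fun _ hy => mem_cl (Or.inl hy)

theorem tr_lead (hQ : Q.Over S) (hD : 4 * Q.I ^ 3 ≠ Q.J ^ 2) {s Z : ℂ} (hi : Ind S [s, Z]) :
    3 * (3 * aeval s Q.b ^ 2 - 8 * aeval s Q.a * aeval s Q.c) - 4 * Z * aeval s Q.a ≠ 0 :=
  lead_ne_zero ((tr_ins hQ s).1.aeval_mem (mem_cl_insert S s))
    ((tr_ins hQ s).2.1.aeval_mem (mem_cl_insert S s))
    ((tr_ins hQ s).2.2.1.aeval_mem (mem_cl_insert S s)) (tr_dsc Q (tr_dsc_ne hQ hD hi.1)) hi.2.1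

theorem tr_mem_Z (hQ : Q.Over T) {s x y Z W : ℂ} (h : Q.Cov s x y Z W) (hs : s ∈ cl T)
    (hx : x ∈ cl T) : Z ∈ cl T :=
  Cov.mem_Z h (hQ.1.aeval_mem hs) (hQ.2.1.aeval_mem hs) (hQ.2.2.1.aeval_mem hs)
    (hQ.2.2.2.1.aeval_mem hs) (hQ.2.2.2.2.aeval_mem hs) hx

theorem tr_mem_x (hQ : Q.Over T) {s x y Z W : ℂ} (h : Q.Cov s x y Z W) (hs : s ∈ cl T)
    (hD : aeval s (4 * Q.I ^ 3 - Q.J ^ 2) ≠ 0) (hZ : Z ∈ cl T) : x ∈ cl T :=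
  Cov.mem_x h (hQ.1.aeval_mem hs) (hQ.2.1.aeval_mem hs) (hQ.2.2.1.aeval_mem hs)
    (hQ.2.2.2.1.aeval_mem hs) (hQ.2.2.2.2.aeval_mem hs) (tr_dsc Q hD) hZ

theorem tr_jeq {s x y Z W : ℂ} (h : Q.Cov s x y Z W) : W ^ 2 = Q.jac.ev s Z :=
  (Cov.jeq h).trans (tr_jac Q s Z).symm

theorem tr_exists_cov (hQ : Q.Over S) (hD : 4 * Q.I ^ 3 ≠ Q.J ^ 2) {s x y : ℂ}
    (hi : Ind S [s, x]) (h : y ^ 2 = Q.ev s x) : ∃ Z W, Q.Cov s x y Z W := by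
  have hT := tr_ins hQ s
  have hs := mem_cl_insert S s
  refine exists_cov h ?_
  rintro rfl
  exact qv_ne_zero (hT.1.aeval_mem hs) (hT.2.1.aeval_mem hs) (hT.2.2.1.aeval_mem hs)
    (hT.2.2.2.1.aeval_mem hs) (hT.2.2.2.2.aeval_mem hs) (tr_dsc Q (tr_dsc_ne hQ hD hi.1)) hi.2.1
    (h.symm.trans (by ring))

theorem Quart.pre_cov (hQ : Q.Over S) (hD : 4 * Q.I ^ 3 ≠ Q.J ^ 2) {s Z W : ℂ}
    (hi : Ind S [s, Z]) (h : W ^ 2 = Q.jac.ev s Z) :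
    Q.Cov s (Q.preX s Z) (Q.preY s Z W) Z W :=
  cov_of_root (tr_dsc Q (tr_dsc_ne hQ hD hi.1)) (h.trans (tr_jac Q s Z))
    (tr_W_ne (tr_ins hQ s) (mem_cl_insert S s) hi.2.1 h)
    (Classical.epsilon_spec (p := fun x => 4 * Z * Q.ev s x =
      3 * g4 (aeval s Q.a) (aeval s Q.b) (aeval s Q.c) (aeval s Q.d) (aeval s Q.e) x)
      (exists_root_cov (tr_lead hQ hD hi)))

theorem tr_preY_neg (Q : Quart) (s Z W : ℂ) : Q.preY s Z (-W) = -Q.preY s Z W := by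
  rw [Quart.preY, Quart.preY, mul_neg, neg_mul, div_neg]

/-- A preimage along a family, which reduces to a preimage at all good places. -/
theorem Quart.exists_pre_om (hQ : Q.Over S) (hD : 4 * Q.I ^ 3 ≠ Q.J ^ 2) {s Z W : Om}
    (h : W ^ 2 = Q.jac.ev s Z) {P0 : Pl Om} {s0 Z0 : ℂ} (hs : Red P0 s s0) (hZ : Red P0 Z Z0)
    (hi : Ind S [s0, Z0]) :
    ∃ x y : Om, y ^ 2 = Q.ev s x ∧ ∀ (P : Pl Om) (s1 Z1 W1 : ℂ), Red P s s1 → Red P Z Z1 →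
      Red P W W1 → Ind S [s1, Z1] → ∃ x1 y1, Red P x x1 ∧ Red P y y1 ∧ Q.Cov s1 x1 y1 Z1 W1 := by
  have hd : aeval s (4 * Q.I ^ 3 - Q.J ^ 2) ≠ 0 :=
    (hs.aeval _).ne_zero (tr_dsc_ne hQ hD hi.1)
  have hW : W ≠ 0 := by
    rintro rfl
    exact (hs.ev hZ Q.jac).ne_zero (tr_jac_ne (tr_ins hQ s0) (mem_cl_insert S s0) hi.2.1)
      (by rw [← h]; ring)
  have hl : 3 * (3 * aeval s Q.b ^ 2 - 8 * aeval s Q.a * aeval s Q.c) - 4 * Z * aeval s Q.a ≠ 0 :=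
    (((Red.ofNat P0 3).mul (((Red.ofNat P0 3).mul ((hs.aeval _).pow 2)).sub
      (((Red.ofNat P0 8).mul (hs.aeval _)).mul (hs.aeval _)))).sub
      (((Red.ofNat P0 4).mul hZ).mul (hs.aeval _))).ne_zero (tr_lead hQ hD hi)
  obtain ⟨x, hx⟩ := exists_root_cov (d := aeval s Q.d) (e := aeval s Q.e) hl
  have hc := cov_of_root (tr_dsc Q hd) (h.trans (tr_jac Q s Z)) hW hx
  refine ⟨x, _, hc.eq, fun P s1 Z1 W1 hs1 hZ1 hW1 hi1 => ?_⟩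
  exact hc.red (hs1.aeval _) (hs1.aeval _) (hs1.aeval _) (hs1.aeval _) (hs1.aeval _) hZ1 hW1
    (tr_dsc Q (tr_dsc_ne hQ hD hi1.1))
    (tr_W_ne (tr_ins hQ s1) (mem_cl_insert S s1) hi1.2.1
      ((hW1.pow 2).eq_of_eq (hs1.ev hZ1 Q.jac) h)) (tr_lead hQ hD hi1)

theorem tr_snoc {l : List ℂ} {x : ℂ} (h : Ind S l) (hx : x ∉ cl (S ∪ {y | y ∈ l})) :
    Ind S (l ++ [x]) :=
  ind_append.2 ⟨h, hx, trivial⟩

theorem tr_ev_const (Q : Quart) (s : ℂ) (x : Om) : Q.ev (algebraMap ℂ Om s) x =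
    qv (algebraMap ℂ Om (aeval s Q.a)) (algebraMap ℂ Om (aeval s Q.b))
      (algebraMap ℂ Om (aeval s Q.c)) (algebraMap ℂ Om (aeval s Q.d))
      (algebraMap ℂ Om (aeval s Q.e)) x := by
  simp only [Quart.ev, qv, aeval_algebraMap_apply]

theorem tr_eq_const {s x y : ℂ} (h : y ^ 2 = Q.ev s x) :
    algebraMap ℂ Om y ^ 2 = Q.ev (algebraMap ℂ Om s) (algebraMap ℂ Om x) := by
  rw [← map_pow, h]
  simp only [Quart.ev, aeval_algebraMap_apply, map_add, map_mul, map_pow]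

variable {N : Type} [AddCommGroup N] [Module ℚ N]

theorem tr_step (hQ : Q.Over S) (hD : 4 * Q.I ^ 3 ≠ Q.J ^ 2) {s : ℂ} {l : List ℂ} (hs : s ∈ l)
    {Φ : ℂ × ℂ → N} (hinv : LInvC (aeval s Q.a) (aeval s Q.b) (aeval s Q.c) (aeval s Q.d)
      (aeval s Q.e) (S ∪ {y | y ∈ l}) Φ) (ho : ∀ x y, Φ (x, -y) = -Φ (x, y))
    {x0 y0 x1 y1 Z W : ℂ} (h0 : Q.Cov s x0 y0 Z W) (h1 : Q.Cov s x1 y1 Z W)
    (hi : Ind S (l ++ [x0])) : Φ (x0, y0) = Φ (x1, y1) := by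
  have hT := tr_un hQ {y | y ∈ l}
  have hsT : s ∈ cl (S ∪ {y | y ∈ l}) := mem_cl (Or.inr hs)
  have hd := tr_dsc_ne hQ hD ((ind_append.1 hi).1.notMem hs)
  have hx0 : x0 ∉ cl (S ∪ {y | y ∈ l}) := (ind_append.1 hi).2.1
  have hZ : Z ∉ cl (S ∪ {y | y ∈ l}) := fun h => hx0 (tr_mem_x hT h0 hsT hd h)
  exact fib hinv ho (tr_dsc Q hd) h0 h1 (tr_W_ne hT hsT hZ (tr_jeq h0)) hx0
    fun h => hZ (tr_mem_Z hT h1 hsT h)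

theorem tr_ind_x (hQ : Q.Over S) {s x y Z W : ℂ} (h : Q.Cov s x y Z W) (hi : Ind S [s, Z]) :
    Ind S [s, x] :=
  ⟨hi.1, fun hx => hi.2.1 (tr_mem_Z (tr_ins hQ s) h (mem_cl_insert S s) hx), trivial⟩

theorem tr_same3 (hQ : Q.Over S) (hD : 4 * Q.I ^ 3 ≠ Q.J ^ 2) {Θ : P3 ℂ → N}
    (hinv : LInvS Q S Θ) (ho : ∀ p, Θ p.n = -Θ p) {s x0 y0 x1 y1 Z W : ℂ}
    (h0 : Q.Cov s x0 y0 Z W) (h1 : Q.Cov s x1 y1 Z W) (hi : Ind S [s, x0]) :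
    Θ ⟨s, x0, y0⟩ = Θ ⟨s, x1, y1⟩ :=
  tr_step hQ hD (l := [s]) List.mem_cons_self (Φ := fun z => Θ ⟨s, z.1, z.2⟩)
    (LInv.comp hinv (fun z : Om × Om => ⟨algebraMap ℂ Om s, z.1, z.2⟩)
      (fun z : ℂ × ℂ => ⟨s, z.1, z.2⟩) (fun z hz => hz.trans (tr_ev_const Q s z.1).symm)
      (fun P _ _ hz => ⟨Red.const P s, hz.1, hz.2⟩)
      fun _ hz => tr_snoc (l := [s]) ⟨hi.1, trivial⟩ hz)
    (fun x y => ho ⟨s, x, y⟩) h0 h1 hi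

/-- Put `Θ' (s, Z, W) = Θ (s, preX, preY)`. It is odd, and invariant by `exists_pre_om` and
`fib`. -/
theorem ratZero_of_jac (hD : 4 * Q.I ^ 3 ≠ Q.J ^ 2) (h : RatZero Q.jac) : RatZero Q := by
  intro S hQ N _ _ Θ hinv ho p hp hi
  obtain ⟨Z, W, hc⟩ := tr_exists_cov hQ hD hi hp
  have hZ : Ind S [p.s, Z] := ⟨hi.1, fun hz => hi.2.1
    (tr_mem_x (tr_ins hQ _) hc (mem_cl_insert S _) (tr_dsc_ne hQ hD hi.1) hz), trivial⟩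
  refine (tr_same3 hQ hD hinv ho hc (Q.pre_cov hQ hD hZ (tr_jeq hc)) hi).trans ?_
  refine h S hQ.jac N (fun c => Θ ⟨c.s, Q.preX c.s c.x, Q.preY c.s c.x c.y⟩) ?_ (fun c => ?_)
    ⟨p.s, Z, W⟩ (tr_jeq hc) hZ
  · intro J _ u θ0 θ1 n0 n1 hu h0 h1
    obtain ⟨P0, hP0⟩ := exists_place_red th_trans θ0
    obtain ⟨c0, hc0, -⟩ := h0 P0 hP0
    choose x y hxy hr using fun j =>
      Q.exists_pre_om hQ hD (hu j) (hc0 j).1.1 (hc0 j).1.2.1 (hc0 j).2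
    have key : ∀ (P : Pl Om) (n : N), (∃ c : J → P3 ℂ,
        (∀ j, RedS P (u j) (c j) ∧ Ind S [(c j).s, (c j).x]) ∧
          ∑ j, Θ ⟨(c j).s, Q.preX (c j).s (c j).x, Q.preY (c j).s (c j).x (c j).y⟩ = n) →
        ∃ c : J → P3 ℂ, (∀ j, RedS P ⟨(u j).s, x j, y j⟩ (c j) ∧ Ind S [(c j).s, (c j).x]) ∧
          ∑ j, Θ (c j) = n := by
      rintro P n ⟨c, hc1, rfl⟩
      choose x1 y1 hx1 hy1 hcv using fun j =>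
        hr j P _ _ _ (hc1 j).1.1 (hc1 j).1.2.1 (hc1 j).1.2.2 (hc1 j).2
      refine ⟨fun j => ⟨(c j).s, x1 j, y1 j⟩, fun j => ⟨⟨(hc1 j).1.1, hx1 j, hy1 j⟩,
        tr_ind_x hQ (hcv j) (hc1 j).2⟩, Finset.sum_congr rfl fun j _ => ?_⟩
      exact tr_same3 hQ hD hinv ho (hcv j) (Q.pre_cov hQ hD (hc1 j).2 (tr_jeq (hcv j)))
        (tr_ind_x hQ (hcv j) (hc1 j).2)
    exact hinv J (fun j => ⟨(u j).s, x j, y j⟩) θ0 θ1 n0 n1 hxy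
      (fun P hP => key P n0 (h0 P hP)) fun P hP => key P n1 (h1 P hP)
  · change Θ ⟨c.s, Q.preX c.s c.x, Q.preY c.s c.x (-c.y)⟩ = _
    rw [tr_preY_neg]
    exact ho ⟨c.s, Q.preX c.s c.x, Q.preY c.s c.x c.y⟩

/-- `p` lies over the point `c` of the fibre product of the Jacobian fibrations. -/
def TrCv (Q1 Q2 : Quart) (p c : P5 ℂ) : Prop :=
  p.s = c.s ∧ Q1.Cov c.s p.x1 p.y1 c.x1 c.y1 ∧ Q2.Cov c.s p.x2 p.y2 c.x2 c.y2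

/-- The chosen point over `c`. -/
def trPre (Q1 Q2 : Quart) (c : P5 ℂ) : P5 ℂ :=
  ⟨c.s, Q1.preX c.s c.x1, Q1.preY c.s c.x1 c.y1, Q2.preX c.s c.x2, Q2.preY c.s c.x2 c.y2⟩

theorem tr_ch1 {p : P5 ℂ} (h : Chain S p) : Ind S [p.s, p.x1] :=
  Ind.sublist h (.cons_cons _ (.cons_cons _ (.cons _ .slnil)))

theorem tr_ch2 {p : P5 ℂ} (h : Chain S p) : Ind S [p.s, p.x2] :=
  Ind.sublist h (.cons_cons _ (.cons _ (.cons_cons _ .slnil)))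

theorem TrCv.eqF {p c : P5 ℂ} (h : TrCv Q1 Q2 p c) : EqF Q1 Q2 p := by
  obtain ⟨h0, h1, h2⟩ := h
  rw [← h0] at h1 h2
  exact ⟨h1.eq, h2.eq⟩

theorem TrCv.jeq {p c : P5 ℂ} (h : TrCv Q1 Q2 p c) : EqF Q1.jac Q2.jac c :=
  ⟨tr_jeq h.2.1, tr_jeq h.2.2⟩

theorem tr_pre_cv (hQ1 : Q1.Over S) (hQ2 : Q2.Over S) (hD1 : 4 * Q1.I ^ 3 ≠ Q1.J ^ 2)
    (hD2 : 4 * Q2.I ^ 3 ≠ Q2.J ^ 2) {c : P5 ℂ} (hi : Chain S c) (h : EqF Q1.jac Q2.jac c) :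
    TrCv Q1 Q2 (trPre Q1 Q2 c) c :=
  ⟨rfl, Q1.pre_cov hQ1 hD1 (tr_ch1 hi) h.1, Q2.pre_cov hQ2 hD2 (tr_ch2 hi) h.2⟩

theorem tr_gen_up (hQ1 : Q1.Over S) (hQ2 : Q2.Over S) {p c p' c' : P5 ℂ} (h : TrCv Q1 Q2 p c)
    (h' : TrCv Q1 Q2 p' c') (hg : Gen6 S c c') : Gen6 S p p' := by
  refine Ind.exchange hg le_rfl fun x hx => ?_
  have m : ∀ y ∈ [p.s, p'.s, p.x1, p'.x1, p.x2, p'.x2],
      y ∈ cl (S ∪ {y | y ∈ [p.s, p'.s, p.x1, p'.x1, p.x2, p'.x2]}) :=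
    fun y hy => mem_cl (Or.inr hy)
  have s1 := m c.s (by simp [h.1])
  have s2 := m c'.s (by simp [h'.1])
  simp only [List.mem_cons, List.not_mem_nil, or_false] at hx
  rcases hx with rfl | rfl | rfl | rfl | rfl | rfl
  · exact s1
  · exact s2
  · exact tr_mem_Z (tr_un hQ1 _) h.2.1 s1 (m _ (by simp))
  · exact tr_mem_Z (tr_un hQ1 _) h'.2.1 s2 (m _ (by simp))
  · exact tr_mem_Z (tr_un hQ2 _) h.2.2 s1 (m _ (by simp))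
  · exact tr_mem_Z (tr_un hQ2 _) h'.2.2 s2 (m _ (by simp))

theorem tr_gen_down (hQ1 : Q1.Over S) (hQ2 : Q2.Over S) (hD1 : 4 * Q1.I ^ 3 ≠ Q1.J ^ 2)
    (hD2 : 4 * Q2.I ^ 3 ≠ Q2.J ^ 2) {p c p' c' : P5 ℂ} (h : TrCv Q1 Q2 p c)
    (h' : TrCv Q1 Q2 p' c') (hg : Gen6 S p p') : Gen6 S c c' := by
  refine Ind.exchange hg le_rfl fun x hx => ?_
  have m : ∀ y ∈ [c.s, c'.s, c.x1, c'.x1, c.x2, c'.x2],
      y ∈ cl (S ∪ {y | y ∈ [c.s, c'.s, c.x1, c'.x1, c.x2, c'.x2]}) :=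
    fun y hy => mem_cl (Or.inr hy)
  have s1 := m c.s (by simp)
  have s2 := m c'.s (by simp)
  have n1 : c.s ∉ cl S := h.1 ▸ hg.left.1
  have n2 : c'.s ∉ cl S := h'.1 ▸ hg.right.1
  simp only [List.mem_cons, List.not_mem_nil, or_false] at hx
  rcases hx with rfl | rfl | rfl | rfl | rfl | rfl
  · exact h.1 ▸ s1
  · exact h'.1 ▸ s2
  · exact tr_mem_x (tr_un hQ1 _) h.2.1 s1 (tr_dsc_ne hQ1 hD1 n1) (m _ (by simp))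
  · exact tr_mem_x (tr_un hQ1 _) h'.2.1 s2 (tr_dsc_ne hQ1 hD1 n2) (m _ (by simp))
  · exact tr_mem_x (tr_un hQ2 _) h.2.2 s1 (tr_dsc_ne hQ2 hD2 n1) (m _ (by simp))
  · exact tr_mem_x (tr_un hQ2 _) h'.2.2 s2 (tr_dsc_ne hQ2 hD2 n2) (m _ (by simp))

/-- A constant family. -/
def trConst (p : P5 ℂ) : P5 Om :=
  ⟨algebraMap ℂ Om p.s, algebraMap ℂ Om p.x1, algebraMap ℂ Om p.y1, algebraMap ℂ Om p.x2,
    algebraMap ℂ Om p.y2⟩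

theorem tr_const_eq {p : P5 ℂ} (h : EqF Q1 Q2 p) : EqF Q1 Q2 (trConst p) :=
  ⟨tr_eq_const h.1, tr_eq_const h.2⟩

theorem tr_const_red (P : Pl Om) (p : P5 ℂ) : RedP P (trConst p) p :=
  ⟨Red.const P _, Red.const P _, Red.const P _, Red.const P _, Red.const P _⟩

theorem tr_same_left (hQ1 : Q1.Over S) (hQ2 : Q2.Over S) (hD1 : 4 * Q1.I ^ 3 ≠ Q1.J ^ 2)
    (hD2 : 4 * Q2.I ^ 3 ≠ Q2.J ^ 2) {Ψ : P5 ℂ → P5 ℂ → N} (hinv : LInvG Q1 Q2 S Ψ)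
    (ho1 : ∀ p p', Ψ p.i1 p' = -Ψ p p') (ho2 : ∀ p p', Ψ p.i2 p' = -Ψ p p')
    {p q c p' c' : P5 ℂ} (hp : TrCv Q1 Q2 p c) (hq : TrCv Q1 Q2 q c) (h' : TrCv Q1 Q2 p' c')
    (hg : Gen6 S c c') : Ψ p p' = Ψ q p' := by
  obtain ⟨s, x1, y1, x2, y2⟩ := p
  obtain ⟨t, u1, v1, u2, v2⟩ := q
  obtain rfl : s = c.s := hp.1
  obtain rfl : t = c.s := hq.1
  have hr : TrCv Q1 Q2 ⟨c.s, u1, v1, x2, y2⟩ c := ⟨rfl, hq.2.1, hp.2.2⟩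
  have pm1 : ∀ z : ℂ, ([c.s, p'.s, p'.x1, x2, p'.x2] ++ [z]).Perm
      [c.s, p'.s, z, p'.x1, x2, p'.x2] := fun z => (List.perm_append_singleton _ _).trans
    (List.perm_middle (l₁ := [c.s, p'.s]) (l₂ := [p'.x1, x2, p'.x2])).symm
  have pm2 : ∀ z : ℂ, ([c.s, p'.s, u1, p'.x1, p'.x2] ++ [z]).Perm
      [c.s, p'.s, u1, p'.x1, z, p'.x2] := fun z => (List.perm_append_singleton _ _).trans
    (List.perm_middle (l₁ := [c.s, p'.s, u1, p'.x1]) (l₂ := [p'.x2])).symm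
  have g1 := Ind.perm (tr_gen_up hQ1 hQ2 hp h' hg) (pm1 x1).symm
  have g2 := Ind.perm (tr_gen_up hQ1 hQ2 hr h' hg) (pm2 x2).symm
  have e1 : Ψ ⟨c.s, x1, y1, x2, y2⟩ p' = Ψ ⟨c.s, u1, v1, x2, y2⟩ p' :=
    tr_step hQ1 hD1 List.mem_cons_self (Φ := fun z => Ψ ⟨c.s, z.1, z.2, x2, y2⟩ p')
      (LInv.comp hinv
        (fun z : Om × Om => (⟨algebraMap ℂ Om c.s, z.1, z.2, algebraMap ℂ Om x2,
          algebraMap ℂ Om y2⟩, trConst p'))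
        (fun z : ℂ × ℂ => (⟨c.s, z.1, z.2, x2, y2⟩, p'))
        (fun z hz => ⟨⟨hz.trans (tr_ev_const Q1 c.s z.1).symm, tr_eq_const hp.eqF.2⟩,
          tr_const_eq h'.eqF⟩)
        (fun P _ _ hz => ⟨⟨Red.const P _, hz.1, hz.2, Red.const P _, Red.const P _⟩,
          tr_const_red P p'⟩)
        fun z hz => Ind.perm (tr_snoc (ind_append.1 g1).1 hz) (pm1 z.1))
      (fun x y => ho1 ⟨c.s, x, y, x2, y2⟩ p') hp.2.1 hq.2.1 g1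
  have e2 : Ψ ⟨c.s, u1, v1, x2, y2⟩ p' = Ψ ⟨c.s, u1, v1, u2, v2⟩ p' :=
    tr_step hQ2 hD2 List.mem_cons_self (Φ := fun z => Ψ ⟨c.s, u1, v1, z.1, z.2⟩ p')
      (LInv.comp hinv
        (fun z : Om × Om => (⟨algebraMap ℂ Om c.s, algebraMap ℂ Om u1, algebraMap ℂ Om v1,
          z.1, z.2⟩, trConst p'))
        (fun z : ℂ × ℂ => (⟨c.s, u1, v1, z.1, z.2⟩, p'))
        (fun z hz => ⟨⟨tr_eq_const hr.eqF.1, hz.trans (tr_ev_const Q2 c.s z.1).symm⟩,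
          tr_const_eq h'.eqF⟩)
        (fun P _ _ hz => ⟨⟨Red.const P _, Red.const P _, Red.const P _, hz.1, hz.2⟩,
          tr_const_red P p'⟩)
        fun z hz => Ind.perm (tr_snoc (ind_append.1 g2).1 hz) (pm2 z.1))
      (fun x y => ho2 ⟨c.s, u1, v1, x, y⟩ p') hp.2.2 hq.2.2 g2
  exact e1.trans e2

theorem tr_pre5_om (hQ1 : Q1.Over S) (hQ2 : Q2.Over S) (hD1 : 4 * Q1.I ^ 3 ≠ Q1.J ^ 2)
    (hD2 : 4 * Q2.I ^ 3 ≠ Q2.J ^ 2) {u : P5 Om} (hu : EqF Q1.jac Q2.jac u) {P0 : Pl Om}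
    {c0 : P5 ℂ} (h0 : RedP P0 u c0) (hi : Chain S c0) : ∃ v : P5 Om, EqF Q1 Q2 v ∧
      ∀ (P : Pl Om) (c : P5 ℂ), RedP P u c → Chain S c → ∃ d, RedP P v d ∧ TrCv Q1 Q2 d c := by
  obtain ⟨x1, y1, e1, r1⟩ := Q1.exists_pre_om hQ1 hD1 hu.1 h0.1 h0.2.1 (tr_ch1 hi)
  obtain ⟨x2, y2, e2, r2⟩ := Q2.exists_pre_om hQ2 hD2 hu.2 h0.1 h0.2.2.2.1 (tr_ch2 hi)
  refine ⟨⟨u.s, x1, y1, x2, y2⟩, ⟨e1, e2⟩, fun P c hc hi' => ?_⟩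
  obtain ⟨a1, b1, ha1, hb1, hc1⟩ := r1 P _ _ _ hc.1 hc.2.1 hc.2.2.1 (tr_ch1 hi')
  obtain ⟨a2, b2, ha2, hb2, hc2⟩ := r2 P _ _ _ hc.1 hc.2.2.2.1 hc.2.2.2.2 (tr_ch2 hi')
  exact ⟨⟨c.s, a1, b1, a2, b2⟩, ⟨hc.1, ha1, hb1, ha2, hb2⟩, rfl, hc1, hc2⟩

/-- The same in all four slots. First show that `Ψ` has the same value at two pairs which cover
the same general pair of points of the Jacobians, by changing one slot at a time with `fib`. -/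
theorem psiZero_of_jac (hD1 : 4 * Q1.I ^ 3 ≠ Q1.J ^ 2) (hD2 : 4 * Q2.I ^ 3 ≠ Q2.J ^ 2)
    (h : PsiZero Q1.jac Q2.jac) : PsiZero Q1 Q2 := by
  intro S hQ1 hQ2 N _ _ Ψ hinv hsym ho1 ho2 p p' hp hp' hg
  have same : ∀ {q c q' c' : P5 ℂ}, TrCv Q1 Q2 q c → TrCv Q1 Q2 q' c' → Gen6 S c c' →
      Ψ q q' = Ψ (trPre Q1 Q2 c) (trPre Q1 Q2 c') := by
    intro q c q' c' hq hq' hc
    have k := tr_pre_cv hQ1 hQ2 hD1 hD2 hc.left hq.jeq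
    have k' := tr_pre_cv hQ1 hQ2 hD1 hD2 hc.right hq'.jeq
    rw [tr_same_left hQ1 hQ2 hD1 hD2 hinv ho1 ho2 hq k hq' hc, hsym,
      tr_same_left hQ1 hQ2 hD1 hD2 hinv ho1 ho2 hq' k' k hc.symm, hsym]
  have down : ∀ q : P5 ℂ, EqF Q1 Q2 q → Chain S q → ∃ c, TrCv Q1 Q2 q c := by
    intro q hq hi
    obtain ⟨Z1, W1, h1⟩ := tr_exists_cov hQ1 hD1 (tr_ch1 hi) hq.1
    obtain ⟨Z2, W2, h2⟩ := tr_exists_cov hQ2 hD2 (tr_ch2 hi) hq.2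
    exact ⟨⟨q.s, Z1, W1, Z2, W2⟩, rfl, h1, h2⟩
  obtain ⟨c, hc⟩ := down p hp hg.left
  obtain ⟨c', hc'⟩ := down p' hp' hg.right
  have hgc := tr_gen_down hQ1 hQ2 hD1 hD2 hc hc' hg
  rw [same hc hc' hgc]
  refine h S hQ1.jac hQ2.jac N (fun c c' => Ψ (trPre Q1 Q2 c) (trPre Q1 Q2 c')) ?_
    (fun _ _ => hsym _ _) (fun d d' => ?_) (fun d d' => ?_) c c' hc.jeq hc'.jeq hgc
  · intro J _ u θ0 θ1 n0 n1 hu h0 h1
    obtain ⟨P0, hP0⟩ := exists_place_red th_trans θ0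
    obtain ⟨c0, hc0, -⟩ := h0 P0 hP0
    choose v hv hr using fun j =>
      tr_pre5_om hQ1 hQ2 hD1 hD2 (hu j).1 (hc0 j).1.1 (Gen6.left (hc0 j).2)
    choose v' hv' hr' using fun j =>
      tr_pre5_om hQ1 hQ2 hD1 hD2 (hu j).2 (hc0 j).1.2 (Gen6.right (hc0 j).2)
    have key : ∀ (P : Pl Om) (n : N), (∃ d : J → P5 ℂ × P5 ℂ,
        (∀ j, (RedP P (u j).1 (d j).1 ∧ RedP P (u j).2 (d j).2) ∧ Gen6 S (d j).1 (d j).2) ∧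
          ∑ j, Ψ (trPre Q1 Q2 (d j).1) (trPre Q1 Q2 (d j).2) = n) →
        ∃ d : J → P5 ℂ × P5 ℂ,
          (∀ j, (RedP P (v j) (d j).1 ∧ RedP P (v' j) (d j).2) ∧ Gen6 S (d j).1 (d j).2) ∧
            ∑ j, Ψ (d j).1 (d j).2 = n := by
      rintro P n ⟨d, hd, rfl⟩
      choose e he hcv using fun j => hr j P _ (hd j).1.1 (hd j).2.left
      choose e' he' hcv' using fun j => hr' j P _ (hd j).1.2 (hd j).2.right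
      exact ⟨fun j => (e j, e' j), fun j => ⟨⟨he j, he' j⟩,
        tr_gen_up hQ1 hQ2 (hcv j) (hcv' j) (hd j).2⟩,
        Finset.sum_congr rfl fun j _ => same (hcv j) (hcv' j) (hd j).2⟩
    exact hinv J (fun j => (v j, v' j)) θ0 θ1 n0 n1 (fun j => ⟨hv j, hv' j⟩)
      (fun P hP => key P n0 (h0 P hP)) fun P hP => key P n1 (h1 P hP)
  · have e : trPre Q1 Q2 d.i1 = (trPre Q1 Q2 d).i1 :=
      P5.ext rfl rfl (tr_preY_neg Q1 _ _ _) rfl rfl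
    rw [e]
    exact ho1 _ _
  · have e : trPre Q1 Q2 d.i2 = (trPre Q1 Q2 d).i2 :=
      P5.ext rfl rfl rfl rfl (tr_preY_neg Q2 _ _ _)
    rw [e]
    exact ho2 _ _

end Pool.Agent.P.MP_a2ccc3_ag
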