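import Pool.Agent.P.MP_a2ccc3_ag.Curve
import Pool.Agent.P.MP_a2ccc3_ag.Transfer
import Pool.Agent.P.MP_a2ccc3_ag.AC
import Pool.Agent.P.MP_a2ccc3_ag.Move
import Pool.Agent.P.MP_a2ccc3_ag.Glue

/-! Assembly. -/

open Polynomial CategoryTheory AlgebraicGeometry

noncomputable section

namespace Pool.Agent.P.MP_a2ccc3_ag

theorem natDegree_neg27 (p : ℂ[X]) : (-27 * p).natDegree = p.natDegree := by
  have h : (-27 * p : ℂ[X]) = C (-27 : ℂ) * p := by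
    rw [map_neg]
    rfl
  rw [h, natDegree_C_mul (by norm_num)]

theorem dvd_neg27 {q p : ℂ[X]} {n : ℕ} (h : q ∣ (-27 * p) ^ n) : q ∣ p ^ n := by
  have h1 : (-27 * p : ℂ[X]) = C (-27 : ℂ) * p := by
    rw [map_neg]
    rfl
  have hu : IsUnit ((C (-27 : ℂ) : ℂ[X]) ^ n) :=
    (isUnit_C.2 (isUnit_iff_ne_zero.2 (by norm_num))).pow n
  rw [h1, mul_pow] at h
  exact (hu.dvd_mul_left).1 h

theorem CY.jac {n1 n2 : ℕ} {I1 J1 I2 J2 : ℂ[X]} (h : CY n1 n2 I1 J1 I2 J2) :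
    CY n1 n2 (-27 * I1) (-27 * J1) (-27 * I2) (-27 * J2) where
  add := h.add
  degI₁ := by rw [natDegree_neg27]; exact h.degI₁
  degJ₁ := by rw [natDegree_neg27]; exact h.degJ₁
  degI₂ := by rw [natDegree_neg27]; exact h.degI₂
  degJ₂ := by rw [natDegree_neg27]; exact h.degJ₂
  fin s m1 m2 h1 h2 h3 h4 :=
    h.fin s m1 m2 (dvd_neg27 h1) (dvd_neg27 h2) (dvd_neg27 h3) (dvd_neg27 h4)
  inf := by simp only [natDegree_neg27]; exact h.inf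

theorem dsc_jac {I J : ℂ[X]} (h : 4 * I ^ 3 ≠ J ^ 2) : dsc (-27 * I) (-27 * J) ≠ 0 := by
  intro h0
  apply h
  have h1 : (19683 : ℂ[X]) * (4 * I ^ 3 - J ^ 2) = 0 := by
    unfold dsc at h0
    linear_combination -h0
  have h2 : (19683 : ℂ[X]) ≠ 0 := by norm_num
  exact sub_eq_zero.1 ((mul_eq_zero.1 h1).resolve_left h2)

theorem CY.min1 {A1 B1 A2 B2 : ℂ[X]} (h : CY 2 2 A1 B1 A2 B2) : Min1 A1 B1 ∧ Min1 A2 B2 := by
  have h1 := h.degI₁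
  have h2 := h.degJ₁
  have h3 := h.degI₂
  have h4 := h.degJ₂
  have h5 := h.inf
  refine ⟨⟨fun s m a b => ?_, by omega⟩, ⟨fun s m a b => ?_, by omega⟩⟩
  · simpa using h.fin s m 0 a b (by simp) (by simp)
  · simpa using h.fin s 0 m (by simp) (by simp) a b

theorem psiZero {n1 n2 : ℕ} {Q1 Q2 : Quart} (h1 : 4 * Q1.I ^ 3 ≠ Q1.J ^ 2)
    (h2 : 4 * Q2.I ^ 3 ≠ Q2.J ^ 2) (hc : CY n1 n2 Q1.I Q1.J Q2.I Q2.J) : PsiZero Q1 Q2 :=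
  psiZero_of_jac h1 h2 (psiZero_wei hc.jac (dsc_jac h1) (dsc_jac h2))

theorem voisin_fib {Q1 Q2 : Quart} (h1 : 4 * Q1.I ^ 3 ≠ Q1.J ^ 2) (h2 : 4 * Q2.I ^ 3 ≠ Q2.J ^ 2)
    (hc : CY 2 2 Q1.I Q1.J Q2.I Q2.J) (G : MvPolynomial (Fin 3) ℂ) (X : Var) [IsIntegral X.left]
    [IsProper X.hom] (φ : spec (FibRing Q1 Q2 G) ⟶ X) [IsDominant φ.left] : VoisinZero X := by
  have hj := hc.jac
  have r1 : RatZero Q1 :=
    ratZero_of_jac h1 (ratZero_wei hj.degI₁ hj.degJ₁ (dsc_jac h1) hj.min1.1)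
  have r2 : RatZero Q2 :=
    ratZero_of_jac h2 (ratZero_wei hj.degI₂ hj.degJ₂ (dsc_jac h2) hj.min1.2)
  exact voisin_of_acr (acr_fib G r1 r2 (psiZero h1 h2 hc)) φ (move X φ)

theorem voisin_kum {n1 n2 : ℕ} {Q1 Q2 : Quart} (h1 : 4 * Q1.I ^ 3 ≠ Q1.J ^ 2)
    (h2 : 4 * Q2.I ^ 3 ≠ Q2.J ^ 2) (hc : CY n1 n2 Q1.I Q1.J Q2.I Q2.J)
    (G : MvPolynomial (Fin 3) ℂ) (X : Var) [IsIntegral X.left] [IsProper X.hom]
    (φ : spec (KumRing Q1 Q2 G) ⟶ X) [IsDominant φ.left] : VoisinZero X :=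
  voisin_of_acr (acr_kum G (psiZero h1 h2 hc)) φ (move X φ)

end Pool.Agent.P.MP_a2ccc3_ag
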