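import Pool.Agent.P.MP_a2ccc3_ag.Der

/-! A nonzero one-form on the projective line has a pole of order two. -/

open Polynomial

noncomputable section

namespace Pool.Agent.P.MP_a2ccc3_ag

/-- The coefficientwise derivative of a polynomial. -/
def dco (D : Derivation ℤ ℂ ℂ) (w : ℂ[X]) : ℂ[X] := w.sum fun n a => monomial n (D a)

theorem form_dco_coeff (D : Derivation ℤ ℂ ℂ) (w : ℂ[X]) (i : ℕ) :
    (dco D w).coeff i = D (w.coeff i) := by
  rw [dco, Polynomial.sum, finsetSum_coeff, Finset.sum_eq_single i]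
  · rw [coeff_monomial, if_pos rfl]
  · intro j _ hj
    rw [coeff_monomial, if_neg hj]
  · intro hi
    rw [notMem_support_iff.1 hi, map_zero, map_zero, coeff_zero]

theorem form_dco_zero (w : ℂ[X]) : dco 0 w = 0 := by
  ext i
  rw [form_dco_coeff, coeff_zero]
  rfl

variable {K : Type} [Field K] [Algebra ℂ K]

theorem der_aeval {D : Derivation ℤ K K} {D0 : Derivation ℤ ℂ ℂ}
    (h : ∀ c, D (algebraMap ℂ K c) = algebraMap ℂ K (D0 c)) (l : K) (w : ℂ[X]) :
    D (aeval l w) = aeval l (dco D0 w) + aeval l (derivative w) * D l := by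
  obtain ⟨H, h1, h2⟩ := der_eval D (w.map (algebraMap ℂ K))
  have h3 : H = (dco D0 w).map (algebraMap ℂ K) := by
    ext i
    rw [h1, coeff_map, coeff_map, h, form_dco_coeff]
  have h4 := h2 l
  rwa [h3, derivative_map, eval_map_algebraMap, eval_map_algebraMap, eval_map_algebraMap] at h4

theorem form_aeval_ne {l : K} (hl : Transcendental ℂ l) {p : ℂ[X]} (hp : p ≠ 0) :
    aeval l p ≠ 0 := fun h => hl ⟨p, hp, h⟩

theorem form_sub_ne {l : K} (hl : Transcendental ℂ l) (c : ℂ) : l - algebraMap ℂ K c ≠ 0 := by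
  have := form_aeval_ne hl (X_sub_C_ne_zero c)
  rwa [map_sub, aeval_X, aeval_C] at this

theorem form_ord_pos [FF K] {l : K} (hl : Transcendental ℂ l) {P : Pl K} {c : ℂ}
    (h : Red P l c) : 0 < P.ord (l - algebraMap ℂ K c) :=
  (P.mem_nonunits_iff.1 h).resolve_left (form_sub_ne hl c)

theorem form_ord_unit [FF K] {P : Pl K} {x : K} {a : ℂ} (h : Red P x a) (ha : a ≠ 0) :
    P.ord x = 0 := by
  have h1 := P.mem_iff.1 h.mem
  have h2 := P.mem_iff.1 (h.inv ha).mem
  rw [P.ord_inv] at h2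
  omega

/-- The order of a polynomial in `l` at a finite place is a multiple of the ramification. -/
theorem form_ord_aeval [FF K] {l : K} (hl : Transcendental ℂ l) {P : Pl K} {c : ℂ}
    (h : Red P l c) {p : ℂ[X]} (hp : p ≠ 0) :
    ∃ m : ℕ, P.ord (aeval l p) = m * P.ord (l - algebraMap ℂ K c) := by
  obtain ⟨q, h1, h2⟩ := exists_eq_pow_rootMultiplicity_mul_and_not_dvd p hp c
  have h3 : q.eval c ≠ 0 := fun e => h2 (dvd_iff_isRoot.2 e)
  have h4 : q ≠ 0 := by
    rintro rfl
    exact h3 eval_zero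
  refine ⟨p.rootMultiplicity c, ?_⟩
  conv_lhs => rw [h1]
  rw [map_mul, map_pow, map_sub, aeval_X, aeval_C,
    P.ord_mul (pow_ne_zero _ (form_sub_ne hl c)) (form_aeval_ne hl h4), P.ord_pow,
    form_ord_unit (h.eval q) h3, add_zero]

/-- A rational function of `l` which has order `> -e` at the places where `l - c` has order
`e > 0`, and positive order at the poles of `l`, is zero. The order at a finite place is a
multiple of `e`. Use `sum_ord`. -/
theorem rat_false [FF K] {l : K} (hl : Transcendental ℂ l) {M W : ℂ[X]} (hM : M ≠ 0) (hW : W ≠ 0)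
    (h1 : ∀ (P : Pl K) (c : ℂ), Red P l c →
      -P.ord (l - algebraMap ℂ K c) < P.ord (aeval l M / aeval l W))
    (h2 : ∀ P : Pl K, l ∉ P.O → 0 < P.ord (aeval l M / aeval l W)) : False := by
  have hM' := form_aeval_ne hl hM
  have hW' := form_aeval_ne hl hW
  have h3 : ∀ P : Pl K, 0 ≤ P.ord (aeval l M / aeval l W) := by
    intro P
    by_cases hP : l ∈ P.O
    · obtain ⟨c, hc⟩ := exists_red hP
      have h4 := h1 P c hc
      have h5 := form_ord_pos hl hc
      obtain ⟨a, ha⟩ := form_ord_aeval hl hc hM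
      obtain ⟨b, hb⟩ := form_ord_aeval hl hc hW
      rw [P.ord_div hM' hW', ha, hb] at h4 ⊢
      have h6 : (b : ℤ) < a + 1 := by
        by_contra h6
        have h7 := mul_le_mul_of_nonneg_right (not_lt.1 h6) h5.le
        linarith
      have h7 := mul_le_mul_of_nonneg_right (Int.lt_add_one_iff.1 h6) h5.le
      linarith
    · exact (h2 P hP).le
  obtain ⟨P, hP⟩ := MP_a2beea_nt.RR.exists_pole hl
  have h4 := h2 P hP
  have h5 := sum_ord (div_ne_zero hM' hW')
  have h6 := Finset.single_le_sum (f := fun Q : Pl K => Q.ord (aeval l M / aeval l W))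
    (s := (dv (aeval l M / aeval l W)).support) (fun Q _ => h3 Q) (mem_support_dv.2 h4.ne')
  rw [h5] at h6
  exact absurd h4 (not_lt.2 h6)

/-- The logarithmic derivative of a function with a zero or a pole has a simple pole. -/
theorem form_dlog [FF K] (P : Pl K) {π : K} (hπ : P.ord π = 1) {D : Derivation ℤ K K}
    (hD : ∀ x ∈ P.O, D x ∈ P.O) (h1 : D π = 1) {φ : K} (hm : P.ord φ ≠ 0) :
    P.ord (D φ / φ) = -1 := by
  have : CharZero K := charZero_of_injective_algebraMap (algebraMap ℂ K).injective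
  have h0 : π ≠ 0 := by
    rintro rfl
    simp at hπ
  have hφ : φ ≠ 0 := by
    rintro rfl
    simp at hm
  obtain ⟨n, hn⟩ : ∃ n, P.ord φ = n := ⟨_, rfl⟩
  obtain ⟨u, hu⟩ : ∃ u, u = φ / π ^ n := ⟨_, rfl⟩
  have hz : π ^ n ≠ 0 := zpow_ne_zero n h0
  have hu0 : u ≠ 0 := hu ▸ div_ne_zero hφ hz
  have h2 : P.ord u = 0 := by
    rw [hu, P.ord_div hφ hz, hn]
    simp [hπ]
  have h3 : u⁻¹ * D u ∈ P.O :=
    mul_mem (P.mem_iff.2 (by simp [h2])) (hD u (P.mem_iff.2 h2.ge))
  have e : D φ / φ = (n : K) * π⁻¹ + u⁻¹ * D u := by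
    have e1 : φ = u * π ^ n := by rw [hu, div_mul_cancel₀ _ hz]
    rw [e1, D.leibniz, D.leibniz_zpow, zpow_sub_one₀ h0, h1]
    simp only [smul_eq_mul, zsmul_eq_mul]
    field_simp
  have hn0 : (n : K) ≠ 0 := Int.cast_ne_zero.2 (hn ▸ hm)
  have h4 : P.ord ((n : K) * π⁻¹) = -1 := by
    have h5 : P.ord (n : K) = 0 := by
      rw [← map_intCast (algebraMap ℂ K) n, P.ord_algebraMap]
    rw [P.ord_mul hn0 (inv_ne_zero h0), h5, P.ord_inv, hπ, zero_add]
  have h5 := P.ord_add_of_lt (x := (n : K) * π⁻¹) (y := u⁻¹ * D u)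
    (mul_ne_zero hn0 (inv_ne_zero h0)) (by
      rw [h4]
      exact P.mem_pw_zero.2 h3)
  rw [e, h5.2, h4]

theorem form_cramer {n : ℕ} (N : Matrix (Fin n) (Fin n) ℂ[X]) (hN : N.det ≠ 0)
    {v : Fin n → ℂ[X]} (hv : ∃ j, v j ≠ 0) : ∃ k, (N.updateRow k v).det ≠ 0 := by
  by_contra h
  have h1 : N.transpose.cramer v = 0 := by
    funext k
    rw [Matrix.cramer_transpose_apply]
    by_contra h2
    exact h ⟨k, h2⟩
  have h2 := Matrix.mulVec_cramer N.transpose v
  rw [h1, Matrix.mulVec_zero, Matrix.det_transpose] at h2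
  obtain ⟨j, hj⟩ := hv
  have h3 := congrFun h2 j
  rw [Pi.smul_apply, smul_eq_mul, Pi.zero_apply] at h3
  exact mul_ne_zero hN hj h3.symm

/-- The main lemma. Extend `D0 i` to `D i` with `D i l = 0` and let `∂` kill `ℂ` with `∂ l = 1`.
The matrix `N = (dco (D0 i) (w j))` over `ℂ[X]` has nonzero determinant, so by Cramer's rule
there is `k` such that replacing row `k` by the derivatives of the `w j` gives a nonzero
determinant `M`. At a place `P` with uniformiser `π` put `E k = (∂ π)⁻¹ • ∂` and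
`E i = D i - D i π • E k`. Then `M(l) = ∂ π * jac E`, and `∂ π` has order `1 - e` if `l - c` has
order `e > 0`, and order `1 + e` if `l` has order `-e < 0`. -/
theorem form_false [FF K] {n : ℕ} (S : Set ℂ) {l : K} (hl : Transcendental ℂ l)
    (w : Fin n → ℂ[X]) {W : ℂ[X]} (hW : W ≠ 0) (D0 : Fin n → Derivation ℤ ℂ ℂ)
    (hD0 : ∀ i, ∀ a ∈ cl S, D0 i a = 0) (hdet : jac D0 (fun j => (w j).eval 0) ≠ 0)
    (hnc : ∃ j, derivative (w j) ≠ 0)
    (hb : ∀ (P : Pl K) (π : K) (k : Fin n) (E : Fin n → Derivation ℤ K K), P.ord π = 1 →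
      (∀ i, Adm S P (E i)) → (∀ i, i ≠ k → E i π = 0) →
      jac E (fun j => aeval l (w j)) / aeval l W ∈ P.pw (min 0 (P.ord l))) : False := by
  choose D hD hDl using fun i => exists_der_ext hl (D0 i) 0
  obtain ⟨δ, hδ, hδl⟩ := exists_der_ext hl 0 1
  have hδ0 : ∀ c, δ (algebraMap ℂ K c) = 0 := fun c => by
    rw [hδ]
    exact map_zero _
  obtain ⟨N, hN⟩ : ∃ N : Matrix (Fin n) (Fin n) ℂ[X],
      N = Matrix.of fun i j => dco (D0 i) (w j) := ⟨_, rfl⟩
  have hNd : N.det ≠ 0 := by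
    intro h
    apply hdet
    have h1 := (evalRingHom (0 : ℂ)).map_det N
    rw [h, map_zero] at h1
    refine Eq.trans ?_ h1.symm
    rw [jac]
    congr 1
    ext i j
    rw [hN]
    simp only [Matrix.of_apply, RingHom.mapMatrix_apply, Matrix.map_apply, coe_evalRingHom]
    rw [← coeff_zero_eq_eval_zero, ← coeff_zero_eq_eval_zero, form_dco_coeff]
  obtain ⟨k, hk⟩ := form_cramer N hNd hnc
  obtain ⟨M, hM⟩ : ∃ M, M = (N.updateRow k fun j => derivative (w j)).det := ⟨_, rfl⟩
  rw [← hM] at hk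
  have hf : aeval l M / aeval l W ≠ 0 := div_ne_zero (form_aeval_ne hl hk) (form_aeval_ne hl hW)
  have key : ∀ (P : Pl K) (φ : K), δ φ = 1 → P.ord φ ≠ 0 →
      min 0 (P.ord l) + 1 - P.ord φ ≤ P.ord (aeval l M / aeval l W) := by
    intro P φ hφ hm
    obtain ⟨π, h0, hπ⟩ := P.exists_unif
    have ht : Transcendental ℂ π := fun h => by
      have := P.mem_iff.1 (P.mem_of_isAlgebraic h.inv)
      rw [P.ord_inv] at this
      omega
    have ha : δ π ≠ 0 := fun h => by
      have := der_eq_zero hδ0 ht h l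
      rw [hδl] at this
      exact one_ne_zero this
    obtain ⟨Ek, hEk⟩ : ∃ Ek : Derivation ℤ K K, ∀ x, Ek x = (δ π)⁻¹ * δ x :=
      ⟨(δ π)⁻¹ • δ, fun x => rfl⟩
    have hEπ : Ek π = 1 := by rw [hEk, inv_mul_cancel₀ ha]
    have hEc : ∀ c, Ek (algebraMap ℂ K c) = 0 := fun c => by rw [hEk, hδ0, mul_zero]
    have hEO : ∀ x ∈ P.O, Ek x ∈ P.O := fun x hx =>
      der_mem P hπ (fun c => by rw [hEc]; exact zero_mem _) (by rw [hEπ]; exact one_mem _) hx
    obtain ⟨E, hE1, hE2⟩ : ∃ E : Fin n → Derivation ℤ K K, E k = Ek ∧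
        ∀ i, i ≠ k → ∀ x, E i x = D i x - D i π * Ek x := by
      refine ⟨fun i => if i = k then Ek else D i - D i π • Ek, if_pos rfl, fun i hi x => ?_⟩
      simp only [if_neg hi]
      rfl
    have hE0 : ∀ i, i ≠ k → E i π = 0 := fun i hi => by
      rw [hE2 i hi, hEπ, mul_one, sub_self]
    have hadm : ∀ i, Adm S P (E i) := by
      intro i
      by_cases hi : i = k
      · rw [hi, hE1]
        exact ⟨fun c _ => hEc c, hEO⟩
      · have h1 : ∀ c, E i (algebraMap ℂ K c) = algebraMap ℂ K (D0 i c) := fun c => by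
          rw [hE2 i hi, hEc, mul_zero, sub_zero, hD]
        refine ⟨fun c hc => by rw [h1, hD0 i c hc, map_zero], fun x hx => ?_⟩
        refine der_mem P hπ (fun c => ?_) (by rw [hE0 i hi]; exact zero_mem _) hx
        rw [h1]
        exact (Red.const P _).mem
    have hEw : ∀ j, Ek (aeval l (w j)) = (δ π)⁻¹ * aeval l (derivative (w j)) := fun j => by
      rw [hEk, der_aeval hδ, form_dco_zero, map_zero, zero_add, hδl, mul_one]
    obtain ⟨B, hB⟩ : ∃ B : Matrix (Fin n) (Fin n) K,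
        B = (aeval l : ℂ[X] →ₐ[ℂ] K).toRingHom.mapMatrix
          (N.updateRow k fun j => derivative (w j)) := ⟨_, rfl⟩
    have hBd : B.det = aeval l M := by
      rw [hB, ← RingHom.map_det, hM]
      rfl
    have hBk : ∀ j, B k j = aeval l (derivative (w j)) := fun j => by
      rw [hB]
      simp [Matrix.updateRow_self]
    have hBi : ∀ i, i ≠ k → ∀ j, B i j = aeval l (dco (D0 i) (w j)) := fun i hi j => by
      rw [hB]
      simp [Matrix.updateRow_ne hi, hN]
    have hjac : jac E (fun j => aeval l (w j)) = (δ π)⁻¹ * aeval l M := by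
      have h1 : (B.updateRow k ((δ π)⁻¹ • B k)).det = (δ π)⁻¹ * aeval l M := by
        rw [Matrix.det_updateRow_smul, Matrix.updateRow_eq_self, hBd]
      rw [← h1, jac]
      refine Matrix.det_eq_of_forall_row_eq_smul_add_const
        (fun i => if i = k then 0 else -D i π) k (if_pos rfl) fun i j => ?_
      rw [Matrix.of_apply, Matrix.updateRow_self]
      by_cases hi : i = k
      · rw [if_pos hi, zero_mul, add_zero, hi, Matrix.updateRow_self, hE1, hEw, Pi.smul_apply,
          smul_eq_mul, hBk]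
      · rw [if_neg hi, Matrix.updateRow_ne hi, hE2 i hi, hEw, Pi.smul_apply, smul_eq_mul, hBk,
          hBi i hi, der_aeval (hD i), hDl, mul_zero, add_zero]
        ring
    have h1 := hb P π k E hπ hadm hE0
    rw [hjac, mul_div_assoc, P.mul_mem_pw_iff (inv_ne_zero ha), P.ord_inv] at h1
    have h2 := P.le_of_mem_pw h1 hf
    have h3 := form_dlog P hπ hEO hEπ hm
    have hφ0 : φ ≠ 0 := by
      rintro rfl
      simp at hm
    rw [hEk, hφ, mul_one, P.ord_div (inv_ne_zero ha) hφ0, P.ord_inv] at h3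
    omega
  refine rat_false hl hk hW (fun P c hc => ?_) fun P hP => ?_
  · have h1 := form_ord_pos hl hc
    have h2 := key P (l - algebraMap ℂ K c) (by rw [map_sub, hδl, hδ0, sub_zero]) h1.ne'
    have h3 := P.mem_iff.1 hc.mem
    rw [min_eq_left h3] at h2
    omega
  · have h1 := P.notMem_iff.1 hP
    have h2 := key P l hδl h1.ne
    rw [min_eq_right h1.le] at h2
    omega

end Pool.Agent.P.MP_a2ccc3_ag
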