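import Pool.Agent.P.MP_a2ccc3_ag.Core

/-! The algebra of the Shioda-Inose coordinates. -/

open Polynomial

noncomputable section

namespace Pool.Agent.P.MP_a2ccc3_ag

variable {K : Type} [Field K] [CharZero K] {A B A' B' σ X Y t t' : K} {p q : P4 K}

theorem jalg_delta (h : IsLift A B A' B' σ X Y t t' p) :
    σ ^ 6 * B - B' = p.x' ^ 3 + A' * p.x' - (σ ^ 2 * p.x) ^ 3 - σ ^ 4 * A * (σ ^ 2 * p.x) := by
  have h1 := h.hy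
  have h2 := h.hy'
  rw [h.hs] at h2
  linear_combination h2 - σ ^ 6 * h1

theorem jalg_core (u v a a' : K) :
    (18 * (2 * (u ^ 2 + u * v + v ^ 2) + a + a') * (v + u) + 6 * (a - a') * (v - u)) ^ 2 =
      (12 * (u ^ 2 + u * v + v ^ 2) + 4 * (a + a')) ^ 3 -
        48 * (a * a') * (12 * (u ^ 2 + u * v + v ^ 2) + 4 * (a + a')) - 64 * (a ^ 3 + a' ^ 3) -
        432 * (v ^ 3 + a' * v - u ^ 3 - a * u) ^ 2 := by
  ring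

theorem jalg_jeq6 (ht : σ ^ 6 * dsc A B = t) (ht' : σ ^ 6 * t' = dsc A' B') :
    σ ^ 6 * (X ^ 3 - 48 * (A * A') * X + 864 * (B * B') - 16 * (t + t')) =
      (σ ^ 2 * X) ^ 3 - 48 * (σ ^ 4 * A * A') * (σ ^ 2 * X) -
        64 * ((σ ^ 4 * A) ^ 3 + A' ^ 3) - 432 * (σ ^ 6 * B - B') ^ 2 := by
  unfold dsc at ht ht'
  linear_combination 16 * σ ^ 6 * ht - 16 * ht'

theorem jalg_back {Xs Ys a a' δ M d e : K} (hM : M ≠ 0)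
    (hMx : M = (Xs + 2 * (a + a')) ^ 2 + 12 * (a - a') ^ 2)
    (hd : M * d = 12 * (Xs + 2 * (a + a')) * δ + 2 * (a - a') * Ys)
    (he : 3 * M * e = (Xs + 2 * (a + a')) * Ys - 72 * (a - a') * δ)
    (hJ : Ys ^ 2 = Xs ^ 3 - 48 * (a * a') * Xs - 64 * (a ^ 3 + a' ^ 3) - 432 * δ ^ 2) :
    12 * δ = (Xs + 2 * (a + a')) * d - 6 * (a - a') * e ∧
      Ys = 6 * (a - a') * d + 3 * (Xs + 2 * (a + a')) * e ∧
      Xs = 3 * (d ^ 2 + 3 * e ^ 2) + 4 * (a + a') := by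
  have h1 : 12 * δ = (Xs + 2 * (a + a')) * d - 6 * (a - a') * e := by
    apply mul_left_cancel₀ hM
    linear_combination (-(Xs + 2 * (a + a'))) * hd + 2 * (a - a') * he + 12 * δ * hMx
  have h2 : Ys = 6 * (a - a') * d + 3 * (Xs + 2 * (a + a')) * e := by
    apply mul_left_cancel₀ hM
    linear_combination (-6 * (a - a')) * hd - (Xs + 2 * (a + a')) * he + Ys * hMx
  refine ⟨h1, h2, ?_⟩
  apply mul_left_cancel₀ hM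
  have h3 : Ys ^ 2 + 432 * δ ^ 2 = 3 * M * (d ^ 2 + 3 * e ^ 2) := by
    have h4 : 432 * δ ^ 2 = 3 * (12 * δ) ^ 2 := by ring
    rw [h4, h1, h2, hMx]
    ring
  linear_combination h3 - hJ + (Xs - 4 * (a + a')) * hMx

theorem jalg_omX {ω U U2 n a a' : K} (hω : ω ^ 2 + ω + 1 = 0)
    (ha : a = 3 * ω ^ 2 * n * (U + U2) + 3 * ω * n ^ 2 + ω * a') :
    ω * (12 * ((ω ^ 2 * U) ^ 2 + ω ^ 2 * U * (ω * U + n) + (ω * U + n) ^ 2) +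
        4 * (ω ^ 4 * a + a')) =
      12 * (U2 ^ 2 + U2 * (ω * U2 + n) + (ω * U2 + n) ^ 2) + 4 * (a + a') := by
  subst ha
  grind

theorem jalg_omY {ω U U2 n a a' : K} (hω : ω ^ 2 + ω + 1 = 0)
    (ha : a = 3 * ω ^ 2 * n * (U + U2) + 3 * ω * n ^ 2 + ω * a') :
    -(18 * (2 * ((ω ^ 2 * U) ^ 2 + ω ^ 2 * U * (ω * U + n) + (ω * U + n) ^ 2) +
        ω ^ 4 * a + a') * ((ω * U + n) + ω ^ 2 * U) +
        6 * (ω ^ 4 * a - a') * ((ω * U + n) - ω ^ 2 * U)) =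
      18 * (2 * (U2 ^ 2 + U2 * (ω * U2 + n) + (ω * U2 + n) ^ 2) + a + a') * ((ω * U2 + n) + U2) +
        6 * (a - a') * ((ω * U2 + n) - U2) := by
  subst ha
  grind

theorem IsLift.jeq (h : IsLift A B A' B' σ X Y t t' p) : JEq (A * A') (B * B') X Y t t' := by
  unfold JEq
  have h6 : σ ^ 6 ≠ 0 := pow_ne_zero _ h.ne
  apply mul_left_cancel₀ h6
  rw [jalg_jeq6 h.ht h.ht', jalg_delta h, h.hX]
  have h1 : σ ^ 6 * Y ^ 2 = (σ ^ 3 * Y) ^ 2 := by ring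
  rw [h1, h.hY]
  exact jalg_core _ _ _ _

theorem IsLift.mul (h : IsLift A B A' B' σ X Y t t' p) : t * t' = dsc A B * dsc A' B' := by
  rw [← h.ht, ← h.ht']
  ring

/-- The linear system for `x, x'`. With `u = σ² x`, `d = x' - u`, `e = x' + u`,
`μ = (σ² X + 2 (σ⁴ A + A')) / 6`, `ν = σ⁴ A - A'` one has `μ d - ν e = 2 (σ⁶ B - B')` and
`ν d + 3 μ e = σ³ Y / 6`, with determinant `3 μ² + ν² = Mx / 12`. -/
theorem IsLift.lin (h : IsLift A B A' B' σ X Y t t' p) :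
    6 * Mx A A' σ X * p.x' = lE A B A' B' σ X Y + 3 * lD A B A' B' σ X Y ∧
      6 * Mx A A' σ X * (σ ^ 2 * p.x) = lE A B A' B' σ X Y - 3 * lD A B A' B' σ X Y := by
  have h1 : ∀ z : K, z * σ ^ 3 * Y = z * (σ ^ 3 * Y) := fun z => by ring
  unfold Mx lE lD
  rw [h1, h1, jalg_delta h, h.hX, h.hY]
  constructor <;> ring

theorem exists_lift [IsAlgClosed K] (hσ : σ ≠ 0) (ht : σ ^ 6 * dsc A B = t)
    (ht' : σ ^ 6 * t' = dsc A' B') (hJ : JEq (A * A') (B * B') X Y t t') (hM : Mx A A' σ X ≠ 0) :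
    ∃ p, IsLift A B A' B' σ X Y t t' p := by
  unfold JEq at hJ
  have hJ' : (σ ^ 3 * Y) ^ 2 = (σ ^ 2 * X) ^ 3 - 48 * (σ ^ 4 * A * A') * (σ ^ 2 * X) -
      64 * ((σ ^ 4 * A) ^ 3 + A' ^ 3) - 432 * (σ ^ 6 * B - B') ^ 2 := by
    rw [← jalg_jeq6 ht ht', ← hJ]
    ring
  obtain ⟨d, hd⟩ : ∃ d : K, Mx A A' σ X * d = lD A B A' B' σ X Y :=
    ⟨lD A B A' B' σ X Y / Mx A A' σ X, by field_simp⟩
  obtain ⟨e, he⟩ : ∃ e : K, 3 * Mx A A' σ X * e = lE A B A' B' σ X Y :=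
    ⟨lE A B A' B' σ X Y / (3 * Mx A A' σ X), by field_simp⟩
  obtain ⟨h1, h2, h3⟩ := jalg_back (Xs := σ ^ 2 * X) (Ys := σ ^ 3 * Y) (a := σ ^ 4 * A) (a' := A')
    (δ := σ ^ 6 * B - B') (d := d) (e := e) hM rfl (by rw [hd]; unfold lD; ring)
    (by rw [he]; unfold lE; ring) hJ'
  obtain ⟨x, hx⟩ : ∃ x : K, σ ^ 2 * x = (e - d) / 2 :=
    ⟨(e - d) / 2 / σ ^ 2, by field_simp⟩
  obtain ⟨y, hy⟩ := IsAlgClosed.exists_pow_nat_eq (x ^ 3 + A * x + B) (n := 2) (by norm_num)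
  refine ⟨⟨x, y, (e + d) / 2, σ ^ 3 * y⟩, hσ, ht, ht', hy, ?_, rfl, ?_, ?_⟩
  · show (σ ^ 3 * y) ^ 2 = ((e + d) / 2) ^ 3 + A' * ((e + d) / 2) + B'
    have h4 : (σ ^ 3 * y) ^ 2 = (σ ^ 2 * x) ^ 3 + σ ^ 4 * A * (σ ^ 2 * x) + σ ^ 6 * B := by
      linear_combination σ ^ 6 * hy
    rw [h4, hx]
    linear_combination (1 / 12 : K) * h1 + (d / 12) * h3
  · show σ ^ 2 * X = 12 * ((σ ^ 2 * x) ^ 2 + σ ^ 2 * x * ((e + d) / 2) + ((e + d) / 2) ^ 2) +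
      4 * (σ ^ 4 * A + A')
    rw [hx]
    linear_combination h3
  · show σ ^ 3 * Y = 18 * (2 * ((σ ^ 2 * x) ^ 2 + σ ^ 2 * x * ((e + d) / 2) + ((e + d) / 2) ^ 2) +
      σ ^ 4 * A + A') * ((e + d) / 2 + σ ^ 2 * x) +
      6 * (σ ^ 4 * A - A') * ((e + d) / 2 - σ ^ 2 * x)
    rw [hx]
    linear_combination h2 + 3 * e * h3

theorem IsLift.unique (h : IsLift A B A' B' σ X Y t t' p) (h' : IsLift A B A' B' σ X Y t t' q)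
    (hM : Mx A A' σ X ≠ 0) : q = p ∨ q = p.n1.n2 := by
  obtain ⟨h1, h2⟩ := h.lin
  obtain ⟨h3, h4⟩ := h'.lin
  have h6 : 6 * Mx A A' σ X ≠ 0 := mul_ne_zero (by norm_num) hM
  have hx' : q.x' = p.x' := mul_left_cancel₀ h6 (h3.trans h1.symm)
  have hx : q.x = p.x :=
    mul_left_cancel₀ (pow_ne_zero 2 h.ne) (mul_left_cancel₀ h6 (h4.trans h2.symm))
  have hy : q.y ^ 2 = p.y ^ 2 := by rw [h'.hy, h.hy, hx]
  rcases sq_eq_sq_iff_eq_or_eq_neg.mp hy with h5 | h5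
  · left
    exact P4.ext hx h5 hx' (by rw [h'.hs, h.hs, h5])
  · right
    refine P4.ext hx h5 hx' ?_
    show q.y' = -p.y'
    rw [h'.hs, h.hs, h5]
    ring

theorem exists_z [IsAlgClosed K] (h : p.y ^ 2 = p.x ^ 3 + A * p.x + B)
    (h' : p.y' ^ 2 = p.x' ^ 3 + A' * p.x' + B') (hy : p.y ≠ 0) (hy' : p.y' ≠ 0) :
    ∃ σ X Y t t', IsLift A B A' B' σ X Y t t' p := by
  obtain ⟨σ, hσ⟩ := IsAlgClosed.exists_pow_nat_eq (p.y' / p.y) (n := 3) (by norm_num)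
  have h0 : σ ≠ 0 := by
    rintro rfl
    exact div_ne_zero hy' hy (by rw [← hσ]; norm_num)
  refine ⟨σ, (12 * ((σ ^ 2 * p.x) ^ 2 + σ ^ 2 * p.x * p.x' + p.x' ^ 2) +
      4 * (σ ^ 4 * A + A')) / σ ^ 2,
    (18 * (2 * ((σ ^ 2 * p.x) ^ 2 + σ ^ 2 * p.x * p.x' + p.x' ^ 2) +
      σ ^ 4 * A + A') * (p.x' + σ ^ 2 * p.x) + 6 * (σ ^ 4 * A - A') * (p.x' - σ ^ 2 * p.x)) / σ ^ 3,
    σ ^ 6 * dsc A B, dsc A' B' / σ ^ 6, h0, rfl, ?_, h, h', ?_, ?_, ?_⟩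
  · exact mul_div_cancel₀ _ (pow_ne_zero _ h0)
  · rw [hσ, div_mul_cancel₀ _ hy]
  · exact mul_div_cancel₀ _ (pow_ne_zero _ h0)
  · exact mul_div_cancel₀ _ (pow_ne_zero _ h0)

theorem IsLift.n12 (h : IsLift A B A' B' σ X Y t t' p) : IsLift A B A' B' σ X Y t t' p.n1.n2 := by
  refine ⟨h.ne, h.ht, h.ht', ?_, ?_, ?_, h.hX, h.hY⟩
  · show (-p.y) ^ 2 = p.x ^ 3 + A * p.x + B
    rw [← h.hy]; ring
  · show (-p.y') ^ 2 = p.x' ^ 3 + A' * p.x' + B'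
    rw [← h.hy']; ring
  · show -p.y' = σ ^ 3 * -p.y
    rw [h.hs]; ring

theorem IsLift.swap (h : IsLift A B A' B' σ X Y t t' p) : IsLift A' B' A B σ⁻¹ X Y t' t p.sw := by
  have h0 := h.ne
  have hi : σ⁻¹ * σ = 1 := inv_mul_cancel₀ h0
  refine ⟨inv_ne_zero h0, ?_, ?_, h.hy', h.hy, ?_, ?_, ?_⟩
  · rw [← h.ht']; field_simp
  · rw [← h.ht]; field_simp
  · show p.y = σ⁻¹ ^ 3 * p.y'
    rw [h.hs]; field_simp
  · show σ⁻¹ ^ 2 * X = 12 * ((σ⁻¹ ^ 2 * p.x') ^ 2 + σ⁻¹ ^ 2 * p.x' * p.x + p.x ^ 2) +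
      4 * (σ⁻¹ ^ 4 * A' + A)
    have h1 := h.hX
    field_simp
    linear_combination h1
  · show σ⁻¹ ^ 3 * Y = 18 * (2 * ((σ⁻¹ ^ 2 * p.x') ^ 2 + σ⁻¹ ^ 2 * p.x' * p.x + p.x ^ 2) +
      σ⁻¹ ^ 4 * A' + A) * (p.x + σ⁻¹ ^ 2 * p.x') + 6 * (σ⁻¹ ^ 4 * A' - A) * (p.x - σ⁻¹ ^ 2 * p.x')
    have h1 := h.hY
    field_simp
    linear_combination h1

theorem IsLift.neg (h : IsLift A B A' B' σ X Y t t' p) :
    IsLift A B A' B' (-σ) X (-Y) t t' p.n2 := by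
  refine ⟨neg_ne_zero.mpr h.ne, ?_, ?_, h.hy, ?_, ?_, ?_, ?_⟩
  · linear_combination h.ht
  · linear_combination h.ht'
  · show (-p.y') ^ 2 = p.x' ^ 3 + A' * p.x' + B'
    rw [← h.hy']; ring
  · show -p.y' = (-σ) ^ 3 * p.y
    rw [h.hs]; ring
  · show (-σ) ^ 2 * X = 12 * (((-σ) ^ 2 * p.x) ^ 2 + (-σ) ^ 2 * p.x * p.x' + p.x' ^ 2) +
      4 * ((-σ) ^ 4 * A + A')
    linear_combination h.hX
  · show (-σ) ^ 3 * -Y = 18 * (2 * (((-σ) ^ 2 * p.x) ^ 2 + (-σ) ^ 2 * p.x * p.x' + p.x' ^ 2) +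
      (-σ) ^ 4 * A + A') * (p.x' + (-σ) ^ 2 * p.x) +
      6 * ((-σ) ^ 4 * A - A') * (p.x' - (-σ) ^ 2 * p.x)
    linear_combination h.hY

/-- The second point on the line `x' = ρ x + n` with `ρ = ω σ²`. -/
theorem IsLift.omega {ω ρ n x2 y2 : K} (hω : ω ^ 2 + ω + 1 = 0)
    (h : IsLift A B A' B' (ω * σ) X Y t t' p) (hρ : ρ = ω * σ ^ 2) (hn : p.x' = ρ * p.x + n)
    (hn0 : n ≠ 0) (hx : 3 * ρ ^ 2 * n * (p.x + x2) = -(3 * ρ * n ^ 2 + A' * ρ - σ ^ 6 * A))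
    (hy : y2 ^ 2 = x2 ^ 3 + A * x2 + B) :
    IsLift A B A' B' σ X (-Y) t t' ⟨x2, y2, ρ * x2 + n, σ ^ 3 * y2⟩ := by
  have hσ : σ ≠ 0 := right_ne_zero_of_mul h.ne
  have h3 : ω ^ 3 = 1 := by linear_combination (ω - 1) * hω
  have h6 : (ω * σ) ^ 6 = σ ^ 6 := by
    have : (ω * σ) ^ 6 = (ω ^ 3) ^ 2 * σ ^ 6 := by ring
    rw [this, h3]; ring
  have h33 : (ω * σ) ^ 3 = σ ^ 3 := by rw [mul_pow, h3, one_mul]
  have hr3 : ρ ^ 3 = σ ^ 6 := by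
    have : ρ ^ 3 = ω ^ 3 * σ ^ 6 := by rw [hρ]; ring
    rw [this, h3, one_mul]
  have ha : σ ^ 4 * A = 3 * ω ^ 2 * n * (σ ^ 2 * p.x + σ ^ 2 * x2) + 3 * ω * n ^ 2 + ω * A' := by
    apply mul_left_cancel₀ (pow_ne_zero 2 hσ)
    rw [hρ] at hx
    linear_combination -hx
  have hv : p.x' = ω * (σ ^ 2 * p.x) + n := by rw [hn, hρ]; ring
  have hv2 : ρ * x2 + n = ω * (σ ^ 2 * x2) + n := by rw [hρ]; ring
  have hu : (ω * σ) ^ 2 * p.x = ω ^ 2 * (σ ^ 2 * p.x) := by ring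
  have ha4 : (ω * σ) ^ 4 * A = ω ^ 4 * (σ ^ 4 * A) := by ring
  refine ⟨hσ, by rw [← h6]; exact h.ht, by rw [← h6]; exact h.ht', hy, ?_, rfl, ?_, ?_⟩
  · show (σ ^ 3 * y2) ^ 2 = (ρ * x2 + n) ^ 3 + A' * (ρ * x2 + n) + B'
    have h1 := h.hy
    have h2 := h.hy'
    rw [h.hs, h33, hn] at h2
    linear_combination σ ^ 6 * hy + h2 - σ ^ 6 * h1 - (x2 - p.x) * hx -
      (x2 ^ 3 - p.x ^ 3) * hr3
  · show σ ^ 2 * X = 12 * ((σ ^ 2 * x2) ^ 2 + σ ^ 2 * x2 * (ρ * x2 + n) + (ρ * x2 + n) ^ 2) +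
      4 * (σ ^ 4 * A + A')
    have h1 := h.hX
    rw [hu, ha4, hv] at h1
    rw [hv2, ← jalg_omX hω ha, ← h1]
    linear_combination (-(σ ^ 2 * X)) * h3
  · show σ ^ 3 * -Y = 18 * (2 * ((σ ^ 2 * x2) ^ 2 + σ ^ 2 * x2 * (ρ * x2 + n) + (ρ * x2 + n) ^ 2) +
      σ ^ 4 * A + A') * ((ρ * x2 + n) + σ ^ 2 * x2) +
      6 * (σ ^ 4 * A - A') * ((ρ * x2 + n) - σ ^ 2 * x2)
    have h1 := h.hY
    rw [hu, ha4, hv, h33] at h1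
    rw [hv2, ← jalg_omY hω ha, ← h1]
    ring

end Pool.Agent.P.MP_a2ccc3_ag
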