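import Pool.Agent.P.MP_a2ccc3_ag.Der

/-! The canonical form in the Shioda-Inose coordinates. -/

open Polynomial

noncomputable section

namespace Pool.Agent.P.MP_a2ccc3_ag

variable {K : Type} [Field K] [Algebra ℂ K]

omit [Algebra ℂ K] in
theorem jacx_nat (E : Derivation ℤ K K) (n : ℕ) [n.AtLeastTwo] :
    E (OfNat.ofNat n : K) = 0 := E.map_natCast n

omit [Algebra ℂ K] in
theorem jacx_mul (E : Derivation ℤ K K) (a b : K) : E (a * b) = a * E b + b * E a := by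
  rw [E.leibniz, smul_eq_mul, smul_eq_mul]

omit [Algebra ℂ K] in
theorem jacx_pow (E : Derivation ℤ K K) (a : K) (n : ℕ) :
    E (a ^ (n + 1)) = ((n : K) + 1) * a ^ n * E a := by
  rw [E.leibniz_pow, smul_eq_mul, nsmul_eq_mul]
  push_cast
  ring

omit [Algebra ℂ K] in
theorem jacx_wei (E : Derivation ℤ K K) {x y A B : K} (h : y ^ 2 = x ^ 3 + A * x + B) :
    2 * y * E y = (3 * x ^ 2 + A) * E x + x * E A + E B := by
  have h1 := congrArg E h
  rw [map_add, map_add, jacx_mul, jacx_pow E y 1, jacx_pow E x 2] at h1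
  push_cast at h1
  linear_combination h1

omit [Algebra ℂ K] in
theorem jacx_dsc (E : Derivation ℤ K K) (A B : K) :
    E (dsc A B) = 12 * A ^ 2 * E A + 54 * B * E B := by
  rw [dsc, map_add, jacx_mul, jacx_mul, jacx_pow E A 2, jacx_pow E B 1, jacx_nat E 4,
    jacx_nat E 27]
  push_cast
  ring

omit [Algebra ℂ K] in
theorem jacx_X (E : Derivation ℤ K K) {σ x x' A A' Z : K}
    (h : σ ^ 2 * Z = 12 * ((σ ^ 2 * x) ^ 2 + σ ^ 2 * x * x' + x' ^ 2) + 4 * (σ ^ 4 * A + A')) :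
    σ ^ 2 * E Z = (24 * (2 * σ ^ 2 * x + x') * σ * x + 16 * σ ^ 3 * A - 2 * σ * Z) * E σ
      + 12 * (2 * σ ^ 2 * x + x') * σ ^ 2 * E x + 12 * (σ ^ 2 * x + 2 * x') * E x'
      + 4 * σ ^ 4 * E A + 4 * E A' := by
  have h1 := congrArg E h
  simp only [map_add, jacx_mul, jacx_pow E _ 1, jacx_pow E σ 3, jacx_nat E 12, jacx_nat E 4] at h1
  push_cast at h1
  linear_combination h1

omit [Algebra ℂ K] in
theorem jacx_det6 (s s' a1 a2 a3 a4 b1 b2 b3 b4 c1 c2 c3 c4 d1 d2 d3 d4 : K) :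
    (!![1, s', a1, b1, c1, d1; 1, s, a2, b2, c2, d2; 0, 0, a3, b3, 0, 0; 0, 0, a4, b4, 0, 0;
      0, 0, 0, 0, c3, d3; 0, 0, 0, 0, c4, d4] : Matrix (Fin 6) (Fin 6) K).det
      = (s - s') * (a3 * b4 - a4 * b3) * (c3 * d4 - c4 * d3) := by
  simp [Matrix.det_succ_column_zero, Fin.sum_univ_succ, Fin.succAbove, Matrix.submatrix]
  ring

/-- Modulo `ds, dt` one has `dc / c = 6 dσ / σ`, `3 dσ / σ = dy' / y' - dy / y` and
`dσ dZ / σ = -(W / 6) dx dx' / (y y')`. The last identity comes from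
`σ³ W = 12 ((3 x'² + A') (2 u + x') + (3 u² + σ⁴ A) (u + 2 x'))`, `u = σ² x`. -/
theorem jac_rel {S : Set ℂ} {A B δ δ' : ℂ[X]} (hA : PC S A) (hB : PC S B) (hδ : PC S δ)
    {s t c σ Z W : K} {p : P4 K} (h : FLift A B δ δ' s t c σ Z W p) (hy : p.y ≠ 0)
    (hd : dsc (aeval s A) (aeval s B) ≠ 0) :
    ∃ a1 a2 a3 a4 b1 b2 b3 b4 : K, (a3 * b4 - a4 * b3) * (p.y * p.y') = -(c * W) ∧
      ∀ E : Derivation ℤ K K, Kills S E →
        E c = a1 * E s + a2 * E t + a3 * E p.x + a4 * E p.x' ∧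
        E Z = b1 * E s + b2 * E t + b3 * E p.x + b4 * E p.x' := by
  have : CharZero K := charZero_of_injective_algebraMap (algebraMap ℂ K).injective
  obtain ⟨hσ, ht, -, h1, h2, hs, hX, hY⟩ := h
  obtain ⟨x, y, x', y'⟩ := p
  simp only at hy h1 h2 hs hX hY ⊢
  have hdd : c * (aeval s δ * aeval t δ) ≠ 0 := by
    rw [← ht]
    exact mul_ne_zero (pow_ne_zero _ hσ) hd
  have hd1 : aeval s δ ≠ 0 := fun h0 => hdd (by rw [h0, zero_mul, mul_zero])
  have hd2 : aeval t δ ≠ 0 := fun h0 => hdd (by rw [h0, mul_zero, mul_zero])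
  have hEA := fun (E : Derivation ℤ K K) (hE : Kills S E) => hE.aeval hA
  have hEB := fun (E : Derivation ℤ K K) (hE : Kills S E) => hE.aeval hB
  have hEδ := fun (E : Derivation ℤ K K) (hE : Kills S E) => hE.aeval hδ
  have hEA1 := fun E hE => hEA E hE s
  have hEA2 := fun E hE => hEA E hE t
  have hEB1 := fun E hE => hEB E hE s
  have hEB2 := fun E hE => hEB E hE t
  have hEδ1 := fun E hE => hEδ E hE s
  have hEδ2 := fun E hE => hEδ E hE t
  clear hEA hEB hEδ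
  generalize aeval s A = α at *
  generalize aeval t A = α' at *
  generalize aeval s B = β at *
  generalize aeval t B = β' at *
  generalize aeval s δ = d at *
  generalize aeval t δ = d' at *
  generalize aeval s (derivative A) = α1 at *
  generalize aeval t (derivative A) = α2 at *
  generalize aeval s (derivative B) = β1 at *
  generalize aeval t (derivative B) = β2 at *
  generalize aeval s (derivative δ) = ε1 at *
  generalize aeval t (derivative δ) = ε2 at *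
  obtain ⟨g1, hg1⟩ : ∃ g, g = -(σ * (x * α1 + β1)) / (6 * y ^ 2) := ⟨_, rfl⟩
  obtain ⟨g2, hg2⟩ : ∃ g, g = (x' * α2 + β2) / (6 * σ ^ 5 * y ^ 2) := ⟨_, rfl⟩
  obtain ⟨g3, hg3⟩ : ∃ g, g = -(σ * (3 * x ^ 2 + α)) / (6 * y ^ 2) := ⟨_, rfl⟩
  obtain ⟨g4, hg4⟩ : ∃ g, g = (3 * x' ^ 2 + α') / (6 * σ ^ 5 * y ^ 2) := ⟨_, rfl⟩
  obtain ⟨k, hk⟩ : ∃ k, k = (24 * (2 * σ ^ 2 * x + x') * σ * x + 16 * σ ^ 3 * α - 2 * σ * Z)
    / σ ^ 2 := ⟨_, rfl⟩
  have hEσ : ∀ E : Derivation ℤ K K, Kills S E →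
      E σ = g1 * E s + g2 * E t + g3 * E x + g4 * E x' := by
    intro E hE
    have e1 := jacx_wei E h1
    have e2 := jacx_wei E h2
    have e3 := congrArg E hs
    rw [jacx_mul, jacx_pow E σ 2] at e3
    push_cast at e3
    rw [hEA1 E hE, hEB1 E hE] at e1
    rw [hEA2 E hE, hEB2 E hE, e3, hs] at e2
    rw [hg1, hg2, hg3, hg4]
    field_simp
    linear_combination e2 - σ ^ 6 * e1
  refine ⟨6 * c / σ * g1 + σ ^ 6 * (12 * α ^ 2 * α1 + 54 * β * β1) / (d * d') - c * ε1 / d,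
    6 * c / σ * g2 - c * ε2 / d', 6 * c / σ * g3, 6 * c / σ * g4,
    k * g1 + 4 * σ ^ 2 * α1, k * g2 + 4 * α2 / σ ^ 2, k * g3 + 12 * (2 * σ ^ 2 * x + x'),
    k * g4 + 12 * (σ ^ 2 * x + 2 * x') / σ ^ 2, ?_, ?_⟩
  · have : 6 * c / σ * g3 * (k * g4 + 12 * (σ ^ 2 * x + 2 * x') / σ ^ 2)
        - 6 * c / σ * g4 * (k * g3 + 12 * (2 * σ ^ 2 * x + x'))
        = 72 * c / σ * (g3 * (σ ^ 2 * x + 2 * x') / σ ^ 2 - g4 * (2 * σ ^ 2 * x + x')) := by
      ring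
    rw [this, hg3, hg4, hs]
    field_simp
    linear_combination (6 * c) * hY
  · intro E hE
    have e0 := hEσ E hE
    constructor
    · have e1 := congrArg E ht
      rw [jacx_mul, jacx_mul, jacx_mul, jacx_pow E σ 5, jacx_dsc, hEA1 E hE, hEB1 E hE,
        hEδ1 E hE, hEδ2 E hE] at e1
      push_cast at e1
      have e2 : E c = 6 * c / σ * E σ + σ ^ 6 * (12 * α ^ 2 * α1 + 54 * β * β1) / (d * d') * E s
          - c * ε1 / d * E s - c * ε2 / d' * E t := by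
        field_simp
        linear_combination (-σ) * e1 + 6 * E σ * ht
      rw [e2, e0]
      ring
    · have e1 := jacx_X E hX
      rw [hEA1 E hE, hEA2 E hE] at e1
      have e2 : E Z = k * E σ + 12 * (2 * σ ^ 2 * x + x') * E x
          + 12 * (σ ^ 2 * x + 2 * x') / σ ^ 2 * E x' + 4 * σ ^ 2 * α1 * E s
          + 4 * α2 / σ ^ 2 * E t := by
        rw [hk]
        field_simp
        linear_combination e1
      rw [e2, e0]
      ring

theorem jac6 {S : Set ℂ} {A1 B1 δ1 δ1' A2 B2 δ2 δ2' : ℂ[X]} (hA1 : PC S A1) (hB1 : PC S B1)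
    (hδ1 : PC S δ1) (hA2 : PC S A2) (hB2 : PC S B2) (hδ2 : PC S δ2) {p p' : P5 K}
    {c1 σ1 Z1 W1 c2 σ2 Z2 W2 : K} (h1 : FLift A1 B1 δ1 δ1' p.s p'.s c1 σ1 Z1 W1 (p.f1 p'))
    (h2 : FLift A2 B2 δ2 δ2' p.s p'.s c2 σ2 Z2 W2 (p.f2 p')) (hy1 : p.y1 ≠ 0) (hy2 : p.y2 ≠ 0)
    (hd1 : dsc (aeval p.s A1) (aeval p.s B1) ≠ 0) (hd2 : dsc (aeval p.s A2) (aeval p.s B2) ≠ 0)
    (E : Fin 6 → Derivation ℤ K K) (hE : ∀ i, Kills S (E i)) :
    jac E ![p.s + p'.s, p.s * p'.s, c1, Z1, c2, Z2] * (p.y1 * p'.y1 * p.y2 * p'.y2) =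
      (p.s - p'.s) * c1 * c2 * (W1 * W2) * jac E ![p.s, p'.s, p.x1, p'.x1, p.x2, p'.x2] := by
  obtain ⟨a1, a2, a3, a4, b1, b2, b3, b4, hab, hE1⟩ := jac_rel hA1 hB1 hδ1 h1 hy1 hd1
  obtain ⟨u1, u2, u3, u4, v1, v2, v3, v4, huv, hE2⟩ := jac_rel hA2 hB2 hδ2 h2 hy2 hd2
  simp only [P5.f1, P5.f2] at hab huv hE1 hE2
  have hM : (Matrix.of fun i j => E i (![p.s + p'.s, p.s * p'.s, c1, Z1, c2, Z2] j))
      = (Matrix.of fun i j => E i (![p.s, p'.s, p.x1, p'.x1, p.x2, p'.x2] j))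
        * (!![1, p'.s, a1, b1, u1, v1; 1, p.s, a2, b2, u2, v2; 0, 0, a3, b3, 0, 0;
          0, 0, a4, b4, 0, 0; 0, 0, 0, 0, u3, v3; 0, 0, 0, 0, u4, v4] : Matrix (Fin 6) (Fin 6) K) := by
    ext i j
    obtain ⟨e1, e2⟩ := hE1 (E i) (hE i)
    obtain ⟨e3, e4⟩ := hE2 (E i) (hE i)
    rw [Matrix.mul_apply, Fin.sum_univ_six]
    fin_cases j
    · simp
    · simp
      ring
    · simp
      linear_combination e1
    · simp
      linear_combination e2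
    · simp
      linear_combination e3
    · simp
      linear_combination e4
  rw [jac, jac, hM, Matrix.det_mul, jacx_det6]
  generalize (Matrix.of fun i j => E i (![p.s, p'.s, p.x1, p'.x1, p.x2, p'.x2] j)).det = J
  linear_combination (J * (p.s - p'.s) * ((u3 * v4 - u4 * v3) * (p.y2 * p'.y2))) * hab
    - (J * (p.s - p'.s) * (c1 * W1)) * huv

end Pool.Agent.P.MP_a2ccc3_ag
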