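import Pool.Agent.P.MP_a2ccc3_ag.Red

/-! Values at places of function fields, and the field `Om`. -/

open Polynomial

noncomputable section

namespace Pool.Agent.P.MP_a2ccc3_ag

section

variable {K : Type} [Field K] [Algebra ℂ K] {P : Pl K} {x y : K} {a b : ℂ}

theorem redF_res_bij [FF K] (P : Pl K) :
    Function.Bijective (algebraMap ℂ (IsLocalRing.ResidueField P.O)) :=
  IsAlgClosed.algebraMap_bijective_of_isIntegral

theorem place_deg [FF K] (P : Pl K) : P.deg = 1 := by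
  have h := (LinearEquiv.ofBijective (Algebra.linearMap ℂ (IsLocalRing.ResidueField P.O))
    (redF_res_bij P)).finrank_eq
  rw [Module.finrank_self] at h
  exact h.symm

theorem exists_red [FF K] (hx : x ∈ P.O) : ∃ c, Red P x c := by
  obtain ⟨c, hc⟩ := (redF_res_bij P).2 (IsLocalRing.residue P.O ⟨x, hx⟩)
  refine ⟨c, ?_⟩
  have h1 : IsLocalRing.residue P.O (⟨x, hx⟩ - algebraMap ℂ P.O c) = 0 := by
    rw [map_sub, ← hc, sub_eq_zero]
    rfl
  rw [IsLocalRing.residue_eq_zero_iff, ← ValuationSubring.coe_mem_nonunits_iff] at h1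
  exact h1

theorem red_iff_ord [FF K] : Red P x a ↔ x = algebraMap ℂ K a ∨ 0 < P.ord (x - algebraMap ℂ K a) := by
  rw [Red, P.mem_nonunits_iff, sub_eq_zero]

/-- Principal divisors have degree zero. -/
theorem sum_ord [FF K] {f : K} (hf : f ≠ 0) : ∑ P ∈ (dv f).support, P.ord f = 0 := by
  have h := MP_a2beea_nt.RR.degD_divF (k := ℂ) hf
  rw [MP_a2beea_nt.RR.degD_apply, Finsupp.sum] at h
  rw [← h]
  refine Finset.sum_congr rfl fun P _ => ?_
  rw [place_deg P, MP_a2beea_nt.RR.divF_apply]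
  simp

theorem mem_support_dv [FF K] {f : K} : P ∈ (dv f).support ↔ P.ord f ≠ 0 := by
  rw [Finsupp.mem_support_iff, MP_a2beea_nt.RR.divF_apply]

/-- A nonconstant function takes every value. -/
theorem exists_place_red {l : K} (hl : Transcendental ℂ l) (c : ℂ) : ∃ P : Pl K, Red P l c := by
  have h1 : Transcendental ℂ (l - algebraMap ℂ K c)⁻¹ := by
    intro h
    have h2 := (IsAlgebraic.inv_iff.1 h).add (isAlgebraic_algebraMap c)
    rw [sub_add_cancel] at h2
    exact hl h2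
  obtain ⟨P, hP⟩ := MP_a2beea_nt.RR.exists_pole h1
  exact ⟨P, P.O.mem_nonunits_iff_or.2 (Or.inr hP)⟩

theorem finite_red [FF K] {l : K} (hl : Transcendental ℂ l) (c : ℂ) :
    {P : Pl K | Red P l c}.Finite := by
  refine (MP_a2beea_nt.RR.finite_poles (k := ℂ) (l - algebraMap ℂ K c)⁻¹).subset fun P hP => ?_
  refine (P.O.mem_nonunits_iff_or.1 hP).resolve_left fun h => hl ?_
  rw [sub_eq_zero.1 h]
  exact isAlgebraic_algebraMap c

end

instance : CharZero Om := charZero_of_injective_algebraMap (algebraMap ℂ Om).injective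

theorem th_trans : Transcendental ℂ th :=
  (transcendental_algebraMap_iff (algebraMap (RatFunc ℂ) Om).injective).2 RatFunc.transcendental_X

/-- A rational parametrisation of the conic `η² = W² + r₁ l + r₂ l²` which joins `(0, -W)` to
`(0, W)`. With `μ = -r₁ / (2 W)`, `b = 1 - θ`, `a = μ b + θ`, `d = a² - r₂ b²` take
`l = 2 W θ b / d`, `η = -W + 2 W θ a / d`. -/
theorem exists_conic_param {W r1 r2 : ℂ} (hW : W ≠ 0) (hr : r1 ^ 2 ≠ 4 * W ^ 2 * r2) :
    ∃ l η : Om, η ^ 2 = algebraMap ℂ Om (W ^ 2) + algebraMap ℂ Om r1 * l +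
        algebraMap ℂ Om r2 * l ^ 2 ∧
      (∀ P : Pl Om, Red P th 0 → Red P l 0 ∧ Red P η (-W)) ∧
      (∀ P : Pl Om, Red P th 1 → Red P l 0 ∧ Red P η W) := by
  obtain ⟨μ, rfl⟩ : ∃ μ : ℂ, r1 = -2 * W * μ := ⟨-r1 / (2 * W), by field_simp⟩
  have hd0 : μ ^ 2 - r2 ≠ 0 := fun h => hr (by linear_combination 4 * W ^ 2 * h)
  have key : ∀ (P : Pl Om) (t : ℂ), Red P th t →
      Red P (algebraMap ℂ Om μ * (1 - th) + th) (μ * (1 - t) + t) ∧
      Red P ((algebraMap ℂ Om μ * (1 - th) + th) ^ 2 - algebraMap ℂ Om r2 * (1 - th) ^ 2)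
        ((μ * (1 - t) + t) ^ 2 - r2 * (1 - t) ^ 2) := by
    intro P t h
    have hb := (Red.one P).sub h
    have ha := ((Red.const P μ).mul hb).add h
    exact ⟨ha, (ha.pow 2).sub ((Red.const P r2).mul (hb.pow 2))⟩
  have hd : (algebraMap ℂ Om μ * (1 - th) + th) ^ 2 - algebraMap ℂ Om r2 * (1 - th) ^ 2 ≠ 0 := by
    obtain ⟨P, hP⟩ := exists_place_red th_trans 1
    exact (key P 1 hP).2.ne_zero (by simp)
  refine ⟨algebraMap ℂ Om (2 * W) * th * (1 - th) /
      ((algebraMap ℂ Om μ * (1 - th) + th) ^ 2 - algebraMap ℂ Om r2 * (1 - th) ^ 2),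
    algebraMap ℂ Om (-W) + algebraMap ℂ Om (2 * W) * th * (algebraMap ℂ Om μ * (1 - th) + th) /
      ((algebraMap ℂ Om μ * (1 - th) + th) ^ 2 - algebraMap ℂ Om r2 * (1 - th) ^ 2),
    ?_, fun P h => ?_, fun P h => ?_⟩
  · simp only [map_mul, map_neg, map_pow, map_ofNat]
    generalize algebraMap ℂ Om μ = m at hd ⊢
    generalize algebraMap ℂ Om r2 = ρ at hd ⊢
    generalize algebraMap ℂ Om W = w
    generalize th = t at hd ⊢
    obtain ⟨d, hdd⟩ : ∃ d, d = (m * (1 - t) + t) ^ 2 - ρ * (1 - t) ^ 2 := ⟨_, rfl⟩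
    rw [← hdd] at hd ⊢
    field_simp
    rw [hdd]
    ring
  · obtain ⟨ha, hD⟩ := key P 0 h
    have hne : (μ * (1 - 0) + 0) ^ 2 - r2 * (1 - 0) ^ 2 ≠ 0 := by simpa using hd0
    exact ⟨((((Red.const P (2 * W)).mul h).mul ((Red.one P).sub h)).div hD hne).of_eq rfl
        (by simp),
      ((Red.const P (-W)).add ((((Red.const P (2 * W)).mul h).mul ha).div hD hne)).of_eq rfl
        (by simp)⟩
  · obtain ⟨ha, hD⟩ := key P 1 h
    have hne : (μ * (1 - 1) + 1) ^ 2 - r2 * (1 - 1) ^ 2 ≠ 0 := by simp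
    exact ⟨((((Red.const P (2 * W)).mul h).mul ((Red.one P).sub h)).div hD hne).of_eq rfl
        (by simp),
      ((Red.const P (-W)).add ((((Red.const P (2 * W)).mul h).mul ha).div hD hne)).of_eq rfl
        (by simp; ring)⟩

theorem redF_mem_adjoin {K : Type} [Field K] [Algebra ℂ K] (f : RatFunc ℂ →ₐ[ℂ] K)
    (r : RatFunc ℂ) : f r ∈ IntermediateField.adjoin ℂ {f RatFunc.X} := by
  have h1 : r ∈ IntermediateField.adjoin ℂ {(RatFunc.X : RatFunc ℂ)} := by
    rw [RatFunc.adjoin_X]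
    trivial
  have h2 : f r ∈ (IntermediateField.adjoin ℂ {(RatFunc.X : RatFunc ℂ)}).map f := ⟨r, h1, rfl⟩
  rwa [IntermediateField.adjoin_map, Set.image_singleton] at h2

theorem redF_ff {K : Type} [Field K] [Algebra ℂ K] [Algebra (RatFunc ℂ) K]
    [IsScalarTower ℂ (RatFunc ℂ) K] [FiniteDimensional (RatFunc ℂ) K] : FF K := by
  have hm := redF_mem_adjoin (IsScalarTower.toAlgHom ℂ (RatFunc ℂ) K)
  obtain ⟨u, hu⟩ : ∃ u, u = IsScalarTower.toAlgHom ℂ (RatFunc ℂ) K RatFunc.X := ⟨_, rfl⟩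
  rw [← hu] at hm
  have ht : Transcendental ℂ u := by
    rw [hu]
    exact (transcendental_algebraMap_iff (algebraMap (RatFunc ℂ) K).injective).2
      RatFunc.transcendental_X
  let _ : Algebra (RatFunc ℂ) (IntermediateField.adjoin ℂ {u}) :=
    ((algebraMap (RatFunc ℂ) K).codRestrict (IntermediateField.adjoin ℂ {u}) hm).toAlgebra
  have : IsScalarTower (RatFunc ℂ) (IntermediateField.adjoin ℂ {u}) K :=
    IsScalarTower.of_algebraMap_eq fun _ => rfl
  have hfin : FiniteDimensional (IntermediateField.adjoin ℂ {u}) K :=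
    Module.Finite.of_restrictScalars_finite (RatFunc ℂ) _ K
  have : CharZero (IntermediateField.adjoin ℂ {u}) :=
    charZero_of_injective_algebraMap (algebraMap ℂ _).injective
  exact ⟨_, u, ht, rfl, hfin, inferInstance⟩

theorem redF_alg (K : IntermediateField ℂ Om) (hK : th ∈ K) (x : Om) : IsAlgebraic K x := by
  have hm : ∀ r, algebraMap (RatFunc ℂ) Om r ∈ K := fun r =>
    IntermediateField.adjoin_simple_le_iff.2 hK
      (redF_mem_adjoin (IsScalarTower.toAlgHom ℂ (RatFunc ℂ) Om) r)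
  let _ : Algebra (RatFunc ℂ) K := ((algebraMap (RatFunc ℂ) Om).codRestrict K hm).toAlgebra
  have : IsScalarTower (RatFunc ℂ) K Om := IsScalarTower.of_algebraMap_eq fun _ => rfl
  exact (Algebra.IsAlgebraic.isAlgebraic (R := RatFunc ℂ) x).tower_top K

theorem redF_red_iff (K : IntermediateField ℂ Om) (P : Pl K) (P' : Pl Om)
    (h : ∀ y : K, (y : Om) ∈ P'.O ↔ y ∈ P.O) (x : K) (c : ℂ) :
    Red P' (x : Om) c ↔ Red P x c := by
  have h1 : (x : Om) - algebraMap ℂ Om c = ((x - algebraMap ℂ K c : K) : Om) := rfl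
  have h2 : ∀ y : K, ((y : Om))⁻¹ = ((y⁻¹ : K) : Om) := fun _ => rfl
  rw [Red, Red, ValuationSubring.mem_nonunits_iff_or, ValuationSubring.mem_nonunits_iff_or, h1,
    h2, h, ZeroMemClass.coe_eq_zero]

/-- Finitely many elements of `Om` lie in a function field. -/
theorem exists_ff {ι : Type} [Finite ι] (x : ι → Om) :
    ∃ K : IntermediateField ℂ Om, FF K ∧ th ∈ K ∧ ∀ i, x i ∈ K := by
  have hfin : FiniteDimensional (RatFunc ℂ) (IntermediateField.adjoin (RatFunc ℂ) (Set.range x)) :=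
    IntermediateField.finiteDimensional_adjoin fun y _ => Algebra.IsIntegral.isIntegral y
  refine ⟨(IntermediateField.adjoin (RatFunc ℂ) (Set.range x)).restrictScalars ℂ, ?_,
    (IntermediateField.adjoin (RatFunc ℂ) (Set.range x)).algebraMap_mem _,
    fun i => IntermediateField.subset_adjoin (RatFunc ℂ) (Set.range x) ⟨i, rfl⟩⟩
  exact redF_ff (K := IntermediateField.adjoin (RatFunc ℂ) (Set.range x))

/-- Places extend from a subfield over which `Om` is algebraic. -/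
theorem exists_place_above (K : IntermediateField ℂ Om) (hK : th ∈ K) (P : Pl K) :
    ∃ P' : Pl Om, ∀ (x : K) (c : ℂ), Red P' (x : Om) c ↔ Red P x c := by
  obtain ⟨A, h, hl⟩ := IsLocalRing.exists_factor_valuationRing
    ((algebraMap K Om).comp P.O.subtype)
  have key : ∀ y : K, (y : Om) ∈ A ↔ y ∈ P.O := by
    intro y
    refine ⟨fun hy => ?_, fun hy => h ⟨y, hy⟩⟩
    by_contra hn
    have hi : y⁻¹ ∈ P.O := (P.O.mem_or_inv_mem y).resolve_left hn
    have hy0 : y ≠ 0 := by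
      rintro rfl
      exact hn (zero_mem _)
    have hu : IsUnit ((((algebraMap K Om).comp P.O.subtype).codRestrict A.toSubring h)
        ⟨y⁻¹, hi⟩) := by
      refine IsUnit.of_mul_eq_one ⟨(y : Om), hy⟩ (Subtype.ext ?_)
      show ((y⁻¹ * y : K) : Om) = 1
      rw [inv_mul_cancel₀ hy0]
      rfl
    obtain ⟨z, hz⟩ := (hl.map_nonunit _ hu).exists_right_inv
    have h1 : y⁻¹ * (z : K) = 1 := congrArg Subtype.val hz
    have h2 : (z : K) = y := by
      rw [inv_mul_eq_one₀ hy0] at h1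
      exact h1.symm
    exact hn (h2 ▸ z.2)
  refine ⟨⟨A, fun hA => P.ne_top ?_, fun c => (key (algebraMap ℂ K c)).2 (P.const_mem c)⟩,
    fun x c => redF_red_iff K P _ key x c⟩
  ext y
  refine ⟨fun _ => trivial, fun _ => (key y).1 ?_⟩
  rw [hA]
  trivial

/-- Places restrict to a subfield over which `Om` is algebraic. -/
theorem exists_place_below (K : IntermediateField ℂ Om) (hK : th ∈ K) (P' : Pl Om) :
    ∃ P : Pl K, ∀ (x : K) (c : ℂ), Red P' (x : Om) c ↔ Red P x c := by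
  refine ⟨⟨P'.O.comap (algebraMap K Om), fun hA => P'.ne_top ?_, fun c => P'.const_mem c⟩,
    fun x c => redF_red_iff K _ P' (fun _ => Iff.rfl) x c⟩
  ext y
  refine ⟨fun _ => trivial, fun _ => ?_⟩
  refine P'.mem_of_isIntegral K.toSubalgebra (fun a ha => ?_) (redF_alg K hK y).isIntegral
  have h1 : (⟨a, ha⟩ : K) ∈ P'.O.comap (algebraMap K Om) := by
    rw [hA]
    trivial
  exact h1

theorem redF_avoid {S : Set ℂ} (hS : S.Countable) : ∃ c, c ∉ S := by
  by_contra h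
  push Not at h
  exact not_countable_complex (hS.mono fun c _ => h c)

theorem redF_sep {K : Type} [Field K] [Algebra ℂ K] [FF K] (P0 : Pl K) (Z : Set (Pl K))
    (hZ : Z.Finite) (h0 : P0 ∉ Z) : ∃ g ∈ P0.pw 1, ∀ Q ∈ Z, g ∉ Q.pw 1 := by
  have : Finite Z := hZ
  obtain ⟨g, hg⟩ := Submodule.exists_forall_notMem_of_forall_ne_top
    (fun Q : Z => (Q.1.pw 1).comap (P0.pw 1).subtype) fun Q hQ => by
      have h1 : P0.O.nonunits ≤ Q.1.O.nonunits := by
        intro y hy
        have h2 : (⟨y, P0.mem_pw_one.2 hy⟩ : P0.pw 1) ∈ (Q.1.pw 1).comap (P0.pw 1).subtype := by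
          rw [hQ]
          trivial
        exact Q.1.mem_pw_one.1 h2
      have h3 : Q.1 = P0 :=
        MP_a2beea_nt.RR.Place.eq_of_le (ValuationSubring.nonunits_le_nonunits.1 h1)
      exact h0 (h3 ▸ Q.2)
  exact ⟨g, g.2, fun Q hQ => hg ⟨Q, hQ⟩⟩

theorem redF_move {K : Type} [Field K] [Algebra ℂ K] [FF K] (P0 : Pl K) (T : Set (Pl K))
    (hT : T.Countable) : ∃ g : K, g ≠ 0 ∧ g ∈ P0.pw 1 ∧ ∀ P ∈ T, P ≠ P0 → g ∉ P.pw 1 := by
  obtain ⟨z, hz0, hz⟩ := P0.exists_unif
  have hZ : {Q : Pl K | Q ≠ P0 ∧ z ∈ Q.pw 1}.Finite := by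
    refine (MP_a2beea_nt.RR.finite_ord (k := ℂ) z).subset fun Q hQ => ?_
    have h1 := Q.le_of_mem_pw hQ.2 hz0
    show Q.ord z ≠ 0
    omega
  obtain ⟨g, hg0, hg⟩ := redF_sep P0 _ hZ (fun h => h.1 rfl)
  have hs : ∀ V : Submodule ℂ K, z ∉ V → {ν : ℂ | g + ν • z ∈ V}.Subsingleton := by
    intro V hV ν hν ν' hν'
    by_contra hne
    have h1 : (ν - ν') • z ∈ V := by
      have h2 := V.sub_mem hν hν'
      rwa [add_sub_add_left_eq_sub, ← sub_smul] at h2
    exact hV ((V.smul_mem_iff (sub_ne_zero.2 hne)).1 h1)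
  have hc : ({ν : ℂ | g + ν • z ∈ (⊥ : Submodule ℂ K)} ∪
      ⋃ P ∈ T, {ν : ℂ | z ∉ P.pw 1 ∧ g + ν • z ∈ P.pw 1}).Countable := by
    refine (hs ⊥ (by simpa using hz0)).countable.union (hT.biUnion fun P _ => ?_)
    refine Set.Subsingleton.countable fun ν hν ν' hν' => ?_
    exact hs _ hν.1 hν.2 hν'.2
  obtain ⟨ν, hν⟩ := redF_avoid hc
  refine ⟨g + ν • z, fun h => hν (Or.inl ((Submodule.mem_bot ℂ).2 h)),
    add_mem hg0 (Submodule.smul_mem _ _ (P0.mem_pw_of_le hz.ge)), fun P hP hne h => ?_⟩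
  by_cases hzP : z ∈ P.pw 1
  · refine hg P ⟨hne, hzP⟩ ?_
    have h2 := (P.pw 1).sub_mem h (Submodule.smul_mem _ ν hzP)
    rwa [add_sub_cancel_right] at h2
  · exact hν (Or.inr (Set.mem_biUnion hP ⟨hzP, h⟩))

/-- A function which vanishes at `P0` and has its other zeros and poles outside a countable set.
Take `g₁, g₂` vanishing at `P0` with no other common zero in the sense that
`g = g₁ - ν g₂` has no zero in the bad set for `ν` outside a countable set, then
`f = g / (g - c)` for `c` outside a countable set. -/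
theorem exists_moving {K : Type} [Field K] [Algebra ℂ K] [FF K] (P0 : Pl K) (T : Set (Pl K))
    (hT : T.Countable) : ∃ f : K, f ≠ 0 ∧ 0 < P0.ord f ∧ ∀ P ∈ T, P ≠ P0 → P.ord f = 0 := by
  obtain ⟨g, hg0, hg1, hg⟩ := redF_move P0 T hT
  have hc : ({0} ∪ ⋃ P ∈ T, {c : ℂ | Red P g c}).Countable := by
    refine (Set.countable_singleton 0).union (hT.biUnion fun P _ => ?_)
    exact Set.Subsingleton.countable fun c hc c' hc' => Red.unique hc hc'
  obtain ⟨c, hc⟩ := redF_avoid hc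
  have hc0 : c ≠ 0 := fun h => hc (Or.inl h)
  have hr0 : Red P0 g 0 := by
    rw [Red, map_zero, sub_zero]
    exact P0.mem_pw_one.1 hg1
  obtain ⟨hne, hord⟩ := P0.ord_eq_zero_of_notMem (sub_mem hr0.mem (P0.const_mem c))
    (fun h => hc0 (Red.unique h hr0))
  refine ⟨g / (g - algebraMap ℂ K c), div_ne_zero hg0 hne, ?_, fun P hP hPne => ?_⟩
  · have h1 := P0.le_of_mem_pw hg1 hg0
    rw [P0.ord_div hg0 hne, hord]
    omega
  · rw [P.ord_div hg0 hne, sub_eq_zero]
    by_cases hm : g ∈ P.O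
    · rw [(P.ord_eq_zero_of_notMem hm fun h => hg P hP hPne (P.mem_pw_one.2 h)).2,
        (P.ord_eq_zero_of_notMem (sub_mem hm (P.const_mem c))
          fun h => hc (Or.inr (Set.mem_biUnion hP h))).2]
    · have h1 := P.notMem_iff.1 hm
      have h2 : -algebraMap ℂ K c ∈ P.pw (P.ord g + 1) :=
        P.pw_mono (by omega) (P.mem_pw_zero.2 (neg_mem (P.const_mem c)))
      rw [sub_eq_add_neg, (P.ord_add_of_lt hg0 h2).2]

end Pool.Agent.P.MP_a2ccc3_ag
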