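import Pool.Agent.P.MP_a2ccc3_ag.JAlg
import Pool.Agent.P.MP_a2ccc3_ag.RedF
import Pool.Agent.P.MP_a2ccc3_ag.Ind

/-! Lifts in families, and general lifts. -/

open Polynomial

noncomputable section

namespace Pool.Agent.P.MP_a2ccc3_ag

section

variable {K : Type} [Field K] [Algebra ℂ K] {P : Pl K} {A B A' B' σ X Y t : K}
  {A0 B0 A0' B0' σ0 X0 Y0 t0 : ℂ}

theorem lift_red_dsc (hA : Red P A A0) (hB : Red P B B0) : Red P (dsc A B) (dsc A0 B0) :=
  ((Red.ofNat P 4).mul (hA.pow 3)).add ((Red.ofNat P 27).mul (hB.pow 2))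

theorem lift_red_Mx (hA : Red P A A0) (hA' : Red P A' A0') (hσ : Red P σ σ0) (hX : Red P X X0) :
    Red P (Mx A A' σ X) (Mx A0 A0' σ0 X0) := by
  unfold Mx
  repeat' first
    | with_reducible assumption
    | with_reducible apply Red.add
    | with_reducible apply Red.sub
    | with_reducible apply Red.mul
    | with_reducible apply Red.pow
    | exact Red.ofNat _ _

theorem lift_red_lD (hA : Red P A A0) (hB : Red P B B0) (hA' : Red P A' A0') (hB' : Red P B' B0')
    (hσ : Red P σ σ0) (hX : Red P X X0) (hY : Red P Y Y0) :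
    Red P (lD A B A' B' σ X Y) (lD A0 B0 A0' B0' σ0 X0 Y0) := by
  unfold lD
  repeat' first
    | with_reducible assumption
    | with_reducible apply Red.add
    | with_reducible apply Red.sub
    | with_reducible apply Red.mul
    | with_reducible apply Red.pow
    | exact Red.ofNat _ _

theorem lift_red_lE (hA : Red P A A0) (hB : Red P B B0) (hA' : Red P A' A0') (hB' : Red P B' B0')
    (hσ : Red P σ σ0) (hX : Red P X X0) (hY : Red P Y Y0) :
    Red P (lE A B A' B' σ X Y) (lE A0 B0 A0' B0' σ0 X0 Y0) := by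
  unfold lE
  repeat' first
    | with_reducible assumption
    | with_reducible apply Red.add
    | with_reducible apply Red.sub
    | with_reducible apply Red.mul
    | with_reducible apply Red.pow
    | exact Red.ofNat _ _

theorem lift_red_sigma (hA : Red P A A0) (hB : Red P B B0) (ht : Red P t t0)
    (hd : dsc A0 B0 ≠ 0) (h : σ ^ 6 * dsc A B = t) :
    ∃ σ0, Red P σ σ0 ∧ σ0 ^ 6 * dsc A0 B0 = t0 := by
  have h1 := lift_red_dsc hA hB
  have h2 : Red P (σ ^ 6) (t0 / dsc A0 B0) :=
    (ht.div h1 hd).of_eq (by rw [← h, mul_div_cancel_right₀ _ (h1.ne_zero hd)]) rfl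
  obtain ⟨σ0, h3, h4⟩ := Red.of_pow (by norm_num) h2
  exact ⟨σ0, h3, by rw [h4, div_mul_cancel₀ _ hd]⟩

end

/-- Reduction of a lift. `σ` has a value because `σ ^ 6 = t / dsc A B`, then `x, x'` by
`IsLift.lin`, then `y` as a square root. -/
theorem IsLift.red {K : Type} [Field K] [Algebra ℂ K] {P : Pl K} {A B A' B' σ X Y t t' : K}
    {p : P4 K} (h : IsLift A B A' B' σ X Y t t' p) {A0 B0 A0' B0' X0 Y0 t0 t0' : ℂ}
    (hA : Red P A A0) (hB : Red P B B0) (hA' : Red P A' A0') (hB' : Red P B' B0')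
    (hX : Red P X X0) (hY : Red P Y Y0) (ht : Red P t t0) (ht' : Red P t' t0')
    (hd : dsc A0 B0 ≠ 0) (h0 : t0 ≠ 0)
    (hM : ∀ σ0 : ℂ, σ0 ^ 6 * dsc A0 B0 = t0 → Mx A0 A0' σ0 X0 ≠ 0) :
    ∃ σ0 p0, Red P σ σ0 ∧ RedQ P p p0 ∧ IsLift A0 B0 A0' B0' σ0 X0 Y0 t0 t0' p0 := by
  have : CharZero K := charZero_of_injective_algebraMap (algebraMap ℂ K).injective
  obtain ⟨σ0, hσ, hσ6⟩ := lift_red_sigma hA hB ht hd h.ht
  have hσ0 : σ0 ≠ 0 := by
    rintro rfl
    exact h0 (by rw [← hσ6]; ring)
  have hM0 := hM σ0 hσ6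
  have hMx := lift_red_Mx hA hA' hσ hX
  have hD := lift_red_lD hA hB hA' hB' hσ hX hY
  have hE := lift_red_lE hA hB hA' hB' hσ hX hY
  have h6 := (Red.ofNat P 6).mul hMx
  have h60 : (6 : ℂ) * Mx A0 A0' σ0 X0 ≠ 0 := mul_ne_zero (by norm_num) hM0
  have h61 : (6 : ℂ) * Mx A0 A0' σ0 X0 * σ0 ^ 2 ≠ 0 := mul_ne_zero h60 (pow_ne_zero 2 hσ0)
  have h7 := h6.mul (hσ.pow 2)
  obtain ⟨x0', hx'⟩ : ∃ c, Red P p.x' c :=
    ⟨_, ((hE.add ((Red.ofNat P 3).mul hD)).div h6 h60).of_eq
      (by rw [← h.lin.1, mul_div_cancel_left₀ _ (h6.ne_zero h60)]) rfl⟩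
  obtain ⟨x0, hx⟩ : ∃ c, Red P p.x c :=
    ⟨_, ((hE.sub ((Red.ofNat P 3).mul hD)).div h7 h61).of_eq
      (by rw [← h.lin.2, ← mul_assoc, mul_div_cancel_left₀ _ (h7.ne_zero h61)]) rfl⟩
  have hc : Red P (p.x ^ 3 + A * p.x + B) (x0 ^ 3 + A0 * x0 + B0) :=
    ((hx.pow 3).add (hA.mul hx)).add hB
  obtain ⟨y0, hy, hy2⟩ := Red.of_pow (x := p.y) (n := 2) (by norm_num) (hc.of_eq h.hy.symm rfl)
  have hy' : Red P p.y' (σ0 ^ 3 * y0) := ((hσ.pow 3).mul hy).of_eq h.hs.symm rfl
  refine ⟨σ0, ⟨x0, y0, x0', σ0 ^ 3 * y0⟩, hσ, ⟨hx, hy, hx', hy'⟩, hσ0, hσ6,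
    ((hσ.pow 6).mul ht').eq_of_eq (lift_red_dsc hA' hB') h.ht', hy2,
    (hy'.pow 2).eq_of_eq (((hx'.pow 3).add (hA'.mul hx')).add hB') h.hy', rfl, ?_, ?_⟩
  · refine Red.eq_of_eq (P := P) ((hσ.pow 2).mul hX) ?_ h.hX
    dsimp only
    repeat' first
      | with_reducible assumption
      | with_reducible apply Red.add
      | with_reducible apply Red.sub
      | with_reducible apply Red.mul
      | with_reducible apply Red.pow
      | exact Red.ofNat _ _
  · refine Red.eq_of_eq (P := P) ((hσ.pow 3).mul hY) ?_ h.hY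
    dsimp only
    repeat' first
      | with_reducible assumption
      | with_reducible apply Red.add
      | with_reducible apply Red.sub
      | with_reducible apply Red.mul
      | with_reducible apply Red.pow
      | exact Red.ofNat _ _

/-- Existence of a lift along a family which is good at one place. -/
theorem exists_lift_om {P : Pl Om} {A B A' B' X Y t t' : Om} {A0 B0 A0' X0 t0 : ℂ}
    (hJ : JEq (A * A') (B * B') X Y t t') (hm : t * t' = dsc A B * dsc A' B')
    (hA : Red P A A0) (hB : Red P B B0) (hA' : Red P A' A0') (hX : Red P X X0) (ht : Red P t t0)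
    (hd : dsc A0 B0 ≠ 0) (h0 : t0 ≠ 0)
    (hM : ∀ σ0 : ℂ, σ0 ^ 6 * dsc A0 B0 = t0 → Mx A0 A0' σ0 X0 ≠ 0) :
    ∃ σ p, IsLift A B A' B' σ X Y t t' p := by
  have hd1 : dsc A B ≠ 0 := (lift_red_dsc hA hB).ne_zero hd
  obtain ⟨σ, hσ⟩ := IsAlgClosed.exists_pow_nat_eq (t / dsc A B) (n := 6) (by norm_num)
  have h1 : σ ^ 6 * dsc A B = t := by rw [hσ, div_mul_cancel₀ _ hd1]
  have hσ0 : σ ≠ 0 := by
    rintro rfl
    exact ht.ne_zero h0 (by rw [← h1]; ring)
  have h2 : σ ^ 6 * t' = dsc A' B' := by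
    refine mul_left_cancel₀ hd1 ?_
    rw [← hm, ← h1]; ring
  obtain ⟨σ0, hσr, hσ6⟩ := lift_red_sigma hA hB ht hd h1
  obtain ⟨p, hp⟩ := exists_lift hσ0 h1 h2 hJ ((lift_red_Mx hA hA' hσr hX).ne_zero (hM σ0 hσ6))
  exact ⟨σ, p, hp⟩

variable {S : Set ℂ} {A B A' B' σ X Y t t' : ℂ} {p : P4 ℂ}

theorem lift_dsc_mem (hA : A ∈ cl S) (hB : B ∈ cl S) : dsc A B ∈ cl S :=
  add_mem (mul_mem (ofNat_mem _ _) (pow_mem hA 3)) (mul_mem (ofNat_mem _ _) (pow_mem hB 2))

theorem lift_mem_of_mul {a x : ℂ} (ha : a ∈ cl S) (h0 : a ≠ 0) (h : a * x ∈ cl S) :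
    x ∈ cl S := by
  have h1 := div_mem h ha
  rwa [mul_div_cancel_left₀ _ h0] at h1

theorem lift_sigma_mem (hA : A ∈ cl S) (hB : B ∈ cl S) (hd : dsc A B ≠ 0) (ht : t ∈ cl S)
    (hσ : σ ^ 6 * dsc A B = t) : σ ∈ cl S :=
  mem_cl_of_pow (n := 6) (by norm_num)
    (lift_mem_of_mul (lift_dsc_mem hA hB) hd (by rwa [mul_comm, hσ]))

theorem lift_exchange {a b c d : ℂ} (h : Ind S [a, b])
    (hm : ∀ T : Set ℂ, cl S ≤ cl T → c ∈ cl T → d ∈ cl T → a ∈ cl T ∧ b ∈ cl T) :
    Ind S [c, d] := by
  obtain ⟨h1, h2⟩ := hm (S ∪ {y | y ∈ [c, d]}) (cl_mono Set.subset_union_left)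
    (mem_cl (Or.inr (by simp))) (mem_cl (Or.inr (by simp)))
  refine h.exchange le_rfl fun x hx => ?_
  rcases List.mem_pair.1 hx with rfl | rfl
  · exact h1
  · exact h2

/-- If `t, X` are independent then the determinant does not vanish: `σ` lies in
`cl (insert t S)` and `Mx` is a quadratic polynomial in `X` with leading coefficient `σ ^ 4`. -/
theorem mx_ne_zero (hA : A ∈ cl S) (hB : B ∈ cl S) (hA' : A' ∈ cl S) (hd : dsc A B ≠ 0)
    (h : Ind S [t, X]) (hσ : σ ^ 6 * dsc A B = t) : Mx A A' σ X ≠ 0 := by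
  intro hM
  have hA1 := cl_le_insert S t hA
  have hA2 := cl_le_insert S t hA'
  have hσ1 := lift_sigma_mem hA1 (cl_le_insert S t hB) hd (mem_cl_insert S t) hσ
  have hσ0 : σ ≠ 0 := by
    rintro rfl
    refine h.1 ?_
    rw [← hσ, zero_pow (by norm_num), zero_mul]
    exact zero_mem _
  refine h.2.1 (mem_cl_of_quad (u := σ ^ 4) (v := 4 * σ ^ 2 * (σ ^ 4 * A + A'))
    (w := 4 * (σ ^ 4 * A + A') ^ 2 + 12 * (σ ^ 4 * A - A') ^ 2) (pow_mem hσ1 4) ?_ ?_
    (pow_ne_zero 4 hσ0) ?_)
  · repeat' first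
      | with_reducible assumption
      | with_reducible apply add_mem
      | with_reducible apply sub_mem
      | with_reducible apply mul_mem
      | with_reducible apply div_mem
      | with_reducible apply pow_mem
      | with_reducible apply neg_mem
      | exact ofNat_mem _ _
  · repeat' first
      | with_reducible assumption
      | with_reducible apply add_mem
      | with_reducible apply sub_mem
      | with_reducible apply mul_mem
      | with_reducible apply div_mem
      | with_reducible apply pow_mem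
      | with_reducible apply neg_mem
      | exact ofNat_mem _ _
  · rw [← hM, Mx]; ring

theorem JEq.ne_zero {a b : ℂ} (ha : a ∈ cl S) (hb : b ∈ cl S) (hJ : JEq a b X Y t t')
    (hm : t * t' ∈ cl S) (h : Ind S [t, X]) : Y ≠ 0 := by
  rintro rfl
  have ha1 := cl_le_insert S t ha
  have hb1 := cl_le_insert S t hb
  have ht := mem_cl_insert S t
  have ht0 : t ≠ 0 := fun h0 => h.1 (h0 ▸ zero_mem _)
  have ht' : t' ∈ cl (insert t S) := lift_mem_of_mul ht ht0 (cl_le_insert S t hm)
  refine h.2.1 (mem_cl_of_cubic (u := -(48 * a)) (v := 864 * b - 16 * (t + t')) ?_ ?_ ?_)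
  · repeat' first
      | with_reducible assumption
      | with_reducible apply add_mem
      | with_reducible apply sub_mem
      | with_reducible apply mul_mem
      | with_reducible apply div_mem
      | with_reducible apply pow_mem
      | with_reducible apply neg_mem
      | exact ofNat_mem _ _
  · repeat' first
      | with_reducible assumption
      | with_reducible apply add_mem
      | with_reducible apply sub_mem
      | with_reducible apply mul_mem
      | with_reducible apply div_mem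
      | with_reducible apply pow_mem
      | with_reducible apply neg_mem
      | exact ofNat_mem _ _
  · unfold JEq at hJ
    linear_combination -hJ

theorem ind_swap_t (hm : t * t' ∈ cl S) (h0 : t * t' ≠ 0) (h : Ind S [t, X]) : Ind S [t', X] :=
  lift_exchange h fun _ hT h1 h2 =>
    ⟨lift_mem_of_mul h1 (right_ne_zero_of_mul h0) (by rw [mul_comm]; exact hT hm), h2⟩

theorem IsLift.X_mem (hA : A ∈ cl S) (hA' : A' ∈ cl S) (h : IsLift A B A' B' σ X Y t t' p)
    (hσ : σ ∈ cl S) (hx : p.x ∈ cl S) (hx' : p.x' ∈ cl S) : X ∈ cl S := by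
  refine lift_mem_of_mul (pow_mem hσ 2) (pow_ne_zero 2 h.ne) ?_
  rw [h.hX]
  repeat' first
    | with_reducible assumption
    | with_reducible apply add_mem
    | with_reducible apply sub_mem
    | with_reducible apply mul_mem
    | with_reducible apply div_mem
    | with_reducible apply pow_mem
    | with_reducible apply neg_mem
    | exact ofNat_mem _ _

theorem IsLift.mem_of_xx (hA : A ∈ cl S) (hB : B ∈ cl S) (hA' : A' ∈ cl S) (hB' : B' ∈ cl S)
    (h : IsLift A B A' B' σ X Y t t' p) (hy : p.y ≠ 0) (hx : p.x ∈ cl S) (hx' : p.x' ∈ cl S) :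
    σ ∈ cl S ∧ t ∈ cl S ∧ X ∈ cl S := by
  have h1 : p.y ∈ cl S := mem_cl_of_pow (n := 2) (by norm_num)
    (h.hy ▸ add_mem (add_mem (pow_mem hx 3) (mul_mem hA hx)) hB)
  have h2 : p.y' ∈ cl S := mem_cl_of_pow (n := 2) (by norm_num)
    (h.hy' ▸ add_mem (add_mem (pow_mem hx' 3) (mul_mem hA' hx')) hB')
  have h3 : σ ∈ cl S := mem_cl_of_pow (n := 3) (by norm_num)
    (lift_mem_of_mul h1 hy (by rwa [mul_comm, ← h.hs]))
  exact ⟨h3, h.ht ▸ mul_mem (pow_mem h3 6) (lift_dsc_mem hA hB), h.X_mem hA hA' h3 hx hx'⟩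

theorem IsLift.mem_of_tX (hA : A ∈ cl S) (hB : B ∈ cl S) (hA' : A' ∈ cl S) (hB' : B' ∈ cl S)
    (hd : dsc A B ≠ 0) (h : IsLift A B A' B' σ X Y t t' p) (hM : Mx A A' σ X ≠ 0)
    (ht : t ∈ cl S) (hX : X ∈ cl S) : p.x ∈ cl S ∧ p.x' ∈ cl S := by
  have hσ := lift_sigma_mem hA hB hd ht h.ht
  have ht' : t' ∈ cl S := lift_mem_of_mul (pow_mem hσ 6) (pow_ne_zero 6 h.ne)
    (h.ht' ▸ lift_dsc_mem hA' hB')
  have hY : Y ∈ cl S := by
    refine mem_cl_of_pow (n := 2) (by norm_num) ?_
    have h1 := h.jeq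
    unfold JEq at h1
    rw [h1]
    repeat' first
      | with_reducible assumption
      | with_reducible apply add_mem
      | with_reducible apply sub_mem
      | with_reducible apply mul_mem
      | with_reducible apply div_mem
      | with_reducible apply pow_mem
      | with_reducible apply neg_mem
      | exact ofNat_mem _ _
  have hMx : Mx A A' σ X ∈ cl S := by
    unfold Mx
    repeat' first
      | with_reducible assumption
      | with_reducible apply add_mem
      | with_reducible apply sub_mem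
      | with_reducible apply mul_mem
      | with_reducible apply div_mem
      | with_reducible apply pow_mem
      | with_reducible apply neg_mem
      | exact ofNat_mem _ _
  have hD : lD A B A' B' σ X Y ∈ cl S := by
    unfold lD
    repeat' first
      | with_reducible assumption
      | with_reducible apply add_mem
      | with_reducible apply sub_mem
      | with_reducible apply mul_mem
      | with_reducible apply div_mem
      | with_reducible apply pow_mem
      | with_reducible apply neg_mem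
      | exact ofNat_mem _ _
  have hE : lE A B A' B' σ X Y ∈ cl S := by
    unfold lE
    repeat' first
      | with_reducible assumption
      | with_reducible apply add_mem
      | with_reducible apply sub_mem
      | with_reducible apply mul_mem
      | with_reducible apply div_mem
      | with_reducible apply pow_mem
      | with_reducible apply neg_mem
      | exact ofNat_mem _ _
  have h6 : 6 * Mx A A' σ X ∈ cl S := mul_mem (ofNat_mem _ _) hMx
  have h60 : 6 * Mx A A' σ X ≠ 0 := mul_ne_zero (by norm_num) hM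
  exact ⟨lift_mem_of_mul (pow_mem hσ 2) (pow_ne_zero 2 h.ne) (lift_mem_of_mul h6 h60
      (h.lin.2 ▸ sub_mem hE (mul_mem (ofNat_mem _ _) hD))),
    lift_mem_of_mul h6 h60 (h.lin.1 ▸ add_mem hE (mul_mem (ofNat_mem _ _) hD))⟩

theorem IsLift.ind_xx (hA : A ∈ cl S) (hB : B ∈ cl S) (hA' : A' ∈ cl S) (hB' : B' ∈ cl S)
    (h : IsLift A B A' B' σ X Y t t' p) (hi : Ind S [t, X]) : Ind S [p.x, p.x'] := by
  have hy : p.y ≠ 0 := by
    intro hy
    have hx : p.x ∈ cl S := mem_cl_of_cubic hA hB (by rw [← h.hy, hy]; ring)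
    have hx' : p.x' ∈ cl S := mem_cl_of_cubic hA' hB' (by rw [← h.hy', h.hs, hy]; ring)
    have hd : dsc A B ≠ 0 := by
      intro hd
      refine hi.1 ?_
      rw [← h.ht, hd, mul_zero]
      exact zero_mem _
    have hl := cl_le_insert S t
    exact hi.2.1 (h.X_mem (hl hA) (hl hA')
      (lift_sigma_mem (hl hA) (hl hB) hd (mem_cl_insert S t) h.ht) (hl hx) (hl hx'))
  exact lift_exchange hi fun _ hT h1 h2 =>
    (h.mem_of_xx (hT hA) (hT hB) (hT hA') (hT hB') hy h1 h2).2

theorem IsLift.ind_sigma (hA : A ∈ cl S) (hB : B ∈ cl S) (hA' : A' ∈ cl S) (hB' : B' ∈ cl S)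
    (h : IsLift A B A' B' σ X Y t t' p) (hi : Ind S [p.x, p.x']) : Ind S [σ, p.x] := by
  refine lift_exchange hi fun T hT h1 h2 => ⟨h2, ?_⟩
  have hA1 := hT hA
  have hB1 := hT hB
  have hB2 := hT hB'
  refine mem_cl_of_cubic (v := B' - σ ^ 6 * (p.x ^ 3 + A * p.x + B)) (hT hA') ?_ ?_
  · repeat' first
      | with_reducible assumption
      | with_reducible apply add_mem
      | with_reducible apply sub_mem
      | with_reducible apply mul_mem
      | with_reducible apply div_mem
      | with_reducible apply pow_mem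
      | with_reducible apply neg_mem
      | exact ofNat_mem _ _
  · have h3 := h.hy'
    rw [h.hs] at h3
    linear_combination -h3 + σ ^ 6 * h.hy

/-- The determinant does not vanish at a general pair of points. -/
theorem IsLift.mx_ne_zero_of_xx (hA : A ∈ cl S) (hB : B ∈ cl S) (hA' : A' ∈ cl S)
    (hB' : B' ∈ cl S) (hd : dsc A B ≠ 0) (h : IsLift A B A' B' σ X Y t t' p)
    (hi : Ind S [p.x, p.x']) : Mx A A' σ X ≠ 0 := by
  intro hM
  obtain ⟨hσ, hx, -⟩ := h.ind_sigma hA hB hA' hB' hi
  have hl := cl_le_insert S σ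
  have hA1 := hl hA
  have hB1 := hl hB
  have hA2 := hl hA'
  have hB2 := hl hB'
  have hσ1 := mem_cl_insert S σ
  obtain ⟨q, hq⟩ : ∃ q, q = (σ ^ 2 * p.x) ^ 2 + σ ^ 2 * p.x * p.x' + p.x' ^ 2 := ⟨_, rfl⟩
  have h1 : (q + A') ^ 2 + (q + A') * (q + σ ^ 4 * A) + (q + σ ^ 4 * A) ^ 2 = 0 := by
    unfold Mx at hM
    rw [h.hX, ← hq] at hM
    linear_combination (1 / 48 : ℂ) * hM
  have h2 : (q + A') * p.x' - (q + σ ^ 4 * A) * (σ ^ 2 * p.x) = σ ^ 6 * B - B' := by
    have h3 := h.hy'
    rw [h.hs] at h3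
    rw [hq]
    linear_combination -h3 + σ ^ 6 * h.hy
  have hqm : q ∈ cl (insert σ S) := by
    refine mem_cl_of_quad (u := 3) (v := 3 * (A' + σ ^ 4 * A))
      (w := A' ^ 2 + A' * (σ ^ 4 * A) + (σ ^ 4 * A) ^ 2) (ofNat_mem _ _) ?_ ?_ (by norm_num) ?_
    · repeat' first
        | with_reducible assumption
        | with_reducible apply add_mem
        | with_reducible apply sub_mem
        | with_reducible apply mul_mem
        | with_reducible apply div_mem
        | with_reducible apply pow_mem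
        | with_reducible apply neg_mem
        | exact ofNat_mem _ _
    · repeat' first
        | with_reducible assumption
        | with_reducible apply add_mem
        | with_reducible apply sub_mem
        | with_reducible apply mul_mem
        | with_reducible apply div_mem
        | with_reducible apply pow_mem
        | with_reducible apply neg_mem
        | exact ofNat_mem _ _
    · linear_combination h1
  by_cases hα : q + A' = 0
  · have hβ : q + σ ^ 4 * A = 0 := by
      rw [hα] at h1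
      exact pow_eq_zero_iff (n := 2) (by norm_num) |>.1 (by linear_combination h1)
    rw [hα, hβ] at h2
    by_cases hA0 : A = 0
    · have hB0 : B ≠ 0 := by
        rintro rfl
        exact hd (by rw [hA0, dsc]; ring)
      refine hσ (mem_cl_of_pow (n := 6) (by norm_num) (lift_mem_of_mul hB hB0 ?_))
      rwa [show B * σ ^ 6 = B' by linear_combination -h2]
    · refine hσ (mem_cl_of_pow (n := 4) (by norm_num) (lift_mem_of_mul hA hA0 ?_))
      rwa [show A * σ ^ 4 = A' by linear_combination hβ - hα]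
  · have h3 : ((q + A') + 2 * (q + σ ^ 4 * A)) * (σ ^ 6 * B - B') * σ ^ 2 * p.x =
        (q + A') ^ 2 * q - (σ ^ 6 * B - B') ^ 2 := by
      rw [← h2]
      linear_combination (-(q + A') ^ 2) * hq - (σ ^ 2 * p.x) ^ 2 * h1
    have h4 : ((q + A') + 2 * (q + σ ^ 4 * A)) * (σ ^ 6 * B - B') * σ ^ 2 = 0 := by
      by_contra h4
      refine hx (lift_mem_of_mul ?_ h4 ?_)
      · repeat' first
          | with_reducible assumption
          | with_reducible apply add_mem
          | with_reducible apply sub_mem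
          | with_reducible apply mul_mem
          | with_reducible apply div_mem
          | with_reducible apply pow_mem
          | with_reducible apply neg_mem
          | exact ofNat_mem _ _
      · rw [h3]
        repeat' first
          | with_reducible assumption
          | with_reducible apply add_mem
          | with_reducible apply sub_mem
          | with_reducible apply mul_mem
          | with_reducible apply div_mem
          | with_reducible apply pow_mem
          | with_reducible apply neg_mem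
          | exact ofNat_mem _ _
    have h5 : (q + A') + 2 * (q + σ ^ 4 * A) ≠ 0 := by
      intro h5
      refine hα (pow_eq_zero_iff (n := 2) (by norm_num) |>.1 ?_)
      linear_combination (4 / 3 : ℂ) * h1 - (1 / 3 : ℂ) * ((q + A') + 2 * (q + σ ^ 4 * A)) * h5
    have h6 : σ ^ 6 * B - B' = 0 :=
      (mul_eq_zero.1 ((mul_eq_zero.1 h4).resolve_right (pow_ne_zero 2 h.ne))).resolve_left h5
    have h7 : q = 0 := by
      rw [h4, h6] at h3
      exact (mul_eq_zero.1 (by linear_combination -h3 : (q + A') ^ 2 * q = 0)).resolve_left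
        (pow_ne_zero 2 hα)
    rw [h7, zero_add] at hα
    rw [h7, zero_add, zero_add] at h1
    have hA0 : A ≠ 0 := by
      rintro rfl
      exact hα (pow_eq_zero_iff (n := 2) (by norm_num) |>.1 (by linear_combination h1))
    refine hσ (mem_cl_of_pow (n := 4) (by norm_num) (lift_mem_of_mul hA hA0 ?_))
    exact mem_cl_of_quad (u := 1) (one_mem _) hA' (pow_mem hA' 2) one_ne_zero
      (by linear_combination h1)

/-- `x'` is a root of a cubic over `cl (S, σ, x)`, so `σ, x` are independent by `Ind.exchange`.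
Let `k = cl (insert σ S) = cl (insert t S)` and suppose `X ∈ k`. With `u = σ² x`, `a = σ⁴ A`,
`q = u² + u x' + x'² ∈ k`, `μ = 2 q + a + A'`, `ν = a - A'` one has
`(μ - ν) x' - (μ + ν) u = 2 (σ⁶ B - B')`. If `μ = ν ≠ 0` then `u ∈ k`. If `μ = ν = 0` then
`σ⁴ A = A'`, `σ⁶ B = B'`, so `σ ∈ cl S`. Otherwise `x' = κ u + n` over `k`, and `q ∈ k`, `u ∉ k`
force `1 + κ + κ² = 0`, `n = 0`, `q = 0`, `κ = a / A'`, so again `σ ∈ cl S`. -/
theorem IsLift.ind_tX (hA : A ∈ cl S) (hB : B ∈ cl S) (hA' : A' ∈ cl S) (hB' : B' ∈ cl S)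
    (hd : dsc A B ≠ 0) (hd' : dsc A' B' ≠ 0) (h : IsLift A B A' B' σ X Y t t' p)
    (hi : Ind S [p.x, p.x']) : Ind S [t, X] := by
  have _ := hd'
  exact lift_exchange hi fun _ hT h1 h2 => h.mem_of_tX (hT hA) (hT hB) (hT hA') (hT hB') hd
    (h.mx_ne_zero_of_xx hA hB hA' hB' hd hi) h1 h2

end Pool.Agent.P.MP_a2ccc3_ag
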