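import Pool.Agent.P.MP_a2ccc3_ag.RedF
import Pool.Agent.P.MP_a2ccc3_ag.Ind

/-! From principal divisors to families, and from general points to all points. -/

open Polynomial

noncomputable section

namespace Pool.Agent.P.MP_a2ccc3_ag

variable {N : Type} [AddCommGroup N] [Module ℚ N] {D : Dat} {Φ Φ' : P5 ℂ → N}
  {Λ Λ' : P5 ℂ → P5 ℂ → N}

section

variable {K L : Type} [Field K] [Algebra ℂ K] [Field L] [Algebra ℂ L] {P : Pl K}

/-- The image of a point under a homomorphism of fields. -/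
def mlMap (φ : K →ₐ[ℂ] L) (p : P5 K) : P5 L := ⟨φ p.s, φ p.x1, φ p.y1, φ p.x2, φ p.y2⟩

theorem ml_ev (φ : K →ₐ[ℂ] L) (Q : Quart) (s x : K) : Q.ev (φ s) (φ x) = φ (Q.ev s x) := by
  simp only [Quart.ev, map_add, map_mul, map_pow, aeval_algHom_apply]

theorem ml_eq (φ : K →ₐ[ℂ] L) {p : P5 K} : EqU D (mlMap φ p) ↔ EqU D p := by
  have hφ : Function.Injective φ := φ.toRingHom.injective
  simp only [EqU, EqF, mlMap, ml_ev, ← map_pow, hφ.eq_iff]

theorem ml_red_const (P : Pl K) (p : P5 ℂ) : RedP P (mlMap (Algebra.ofId ℂ K) p) p :=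
  ⟨Red.const _ _, Red.const _ _, Red.const _ _, Red.const _ _, Red.const _ _⟩

theorem ml_eq_i1 {p : P5 K} (h : EqU D p) : EqU D p.i1 := ⟨(neg_sq _).trans h.1, h.2⟩

theorem ml_eq_i2 {p : P5 K} (h : EqU D p) : EqU D p.i2 := ⟨h.1, (neg_sq _).trans h.2⟩

theorem ml_red_i1 {p : P5 K} {c : P5 ℂ} (h : RedP P p c) : RedP P p.i1 c.i1 :=
  ⟨h.1, h.2.1, h.2.2.1.neg, h.2.2.2⟩

theorem ml_red_i2 {p : P5 K} {c : P5 ℂ} (h : RedP P p c) : RedP P p.i2 c.i2 :=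
  ⟨h.1, h.2.1, h.2.2.1, h.2.2.2.1, h.2.2.2.2.neg⟩

omit [Algebra ℂ K] in
theorem ml_i11 (p : P5 K) : p.i1.i1 = p := by simp [P5.i1]

omit [Algebra ℂ K] in
theorem ml_i22 (p : P5 K) : p.i2.i2 = p := by simp [P5.i2]

omit [Algebra ℂ K] in
theorem ml_i21 (p : P5 K) : p.i2.i1 = p.i1.i2 := rfl

theorem ml_unique {p : P5 K} {c c' : P5 ℂ} (h : RedP P p c) (h' : RedP P p c') : c = c' :=
  P5.ext (h.1.unique h'.1) (h.2.1.unique h'.2.1) (h.2.2.1.unique h'.2.2.1)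
    (h.2.2.2.1.unique h'.2.2.2.1) (h.2.2.2.2.unique h'.2.2.2.2)

/-- The value is determined by the values of the base coordinates up to signs. -/
theorem ml_signs {r : P5 K} {p : P5 ℂ} (hr : EqU D r) (hp : EqU D p) (hs : Red P r.s p.s)
    (h1 : Red P r.x1 p.x1) (h2 : Red P r.x2 p.x2) :
    RedP P r p ∨ RedP P r p.i1 ∨ RedP P r p.i2 ∨ RedP P r p.i1.i2 := by
  rcases Red.of_sq ((hs.ev h1 D.Q1).of_eq hr.1.symm hp.1.symm) with a | a <;>
    rcases Red.of_sq ((hs.ev h2 D.Q2).of_eq hr.2.symm hp.2.symm) with b | b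
  · exact Or.inl ⟨hs, h1, a, h2, b⟩
  · exact Or.inr (Or.inr (Or.inl ⟨hs, h1, a, h2, b⟩))
  · exact Or.inr (Or.inl ⟨hs, h1, a, h2, b⟩)
  · exact Or.inr (Or.inr (Or.inr ⟨hs, h1, a, h2, b⟩))

theorem ml_ord_zero [FF K] {x : K} {a : ℂ} (h : Red P x a) (ha : a ≠ 0) : P.ord x = 0 :=
  (P.ord_eq_zero_of_notMem h.mem fun h0 => ha (h.unique (redAux_zero.2 h0))).2

/-- The zeros and poles of `(t - a) / (t - b)`. -/
theorem ml_supp [FF K] {t : K} (ht : t ≠ 0) {a b : ℂ}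
    (h : P.ord ((t - algebraMap ℂ K a) / (t - algebraMap ℂ K b)) ≠ 0) :
    Red P t a ∨ Red P t b := by
  by_contra hn
  rw [not_or] at hn
  by_cases hO : t ∈ P.O
  · obtain ⟨c, hc⟩ := exists_red hO
    have ha : c - a ≠ 0 := fun e => hn.1 (hc.of_eq rfl (sub_eq_zero.1 e))
    have hb : c - b ≠ 0 := fun e => hn.2 (hc.of_eq rfl (sub_eq_zero.1 e))
    exact h (ml_ord_zero ((hc.sub (Red.const P a)).div (hc.sub (Red.const P b)) hb)
      (div_ne_zero ha hb))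
  · have hi := redAux_inv hO
    have h1 := ((Red.one P).sub ((Red.const P a).mul hi)).div
      ((Red.one P).sub ((Red.const P b).mul hi)) (by simp)
    have e : (1 - algebraMap ℂ K a * t⁻¹) / (1 - algebraMap ℂ K b * t⁻¹) =
        (t - algebraMap ℂ K a) / (t - algebraMap ℂ K b) := by
      rw [← mul_div_mul_left _ _ ht]
      congr 1 <;> field_simp
    exact h (e ▸ ml_ord_zero h1 (by simp))

theorem ml_pos [FF K] {t : K} (ht : Transcendental ℂ t) {a b : ℂ} (hab : a ≠ b)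
    (h : Red P t a) : 0 < P.ord ((t - algebraMap ℂ K a) / (t - algebraMap ℂ K b)) := by
  have hc : ∀ c : ℂ, t - algebraMap ℂ K c ≠ 0 := fun c e =>
    ht (sub_eq_zero.1 e ▸ isAlgebraic_algebraMap c)
  rw [P.ord_div (hc a) (hc b), ml_ord_zero (h.sub (Red.const P b)) (sub_ne_zero.2 hab), sub_zero]
  exact (red_iff_ord.1 h).resolve_left (sub_ne_zero.1 (hc a))

end

theorem ml_ff {ι : Type} [Finite ι] (x : ι → P5 Om) :
    ∃ K : IntermediateField ℂ Om, FF K ∧ th ∈ K ∧ ∀ i, ∃ y : P5 K, mlMap K.val y = x i := by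
  obtain ⟨K, h1, h2, h3⟩ := exists_ff (ι := ι × Fin 5) fun i =>
    ![(x i.1).s, (x i.1).x1, (x i.1).y1, (x i.1).x2, (x i.1).y2] i.2
  exact ⟨K, h1, h2, fun i => ⟨⟨⟨_, h3 (i, 0)⟩, ⟨_, h3 (i, 1)⟩, ⟨_, h3 (i, 2)⟩, ⟨_, h3 (i, 3)⟩,
    ⟨_, h3 (i, 4)⟩⟩, rfl⟩⟩

theorem ml_redP {K : IntermediateField ℂ Om} {P : Pl K} {P' : Pl Om}
    (h : ∀ (x : K) (c : ℂ), Red P' (x : Om) c ↔ Red P x c) {y : P5 K} {c : P5 ℂ}
    (hr : RedP P' (mlMap K.val y) c) : RedP P y c :=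
  ⟨(h _ _).1 hr.1, (h _ _).1 hr.2.1, (h _ _).1 hr.2.2.1, (h _ _).1 hr.2.2.2.1,
    (h _ _).1 hr.2.2.2.2⟩

theorem ml_trans {K : IntermediateField ℂ Om} (h : th ∈ K) : Transcendental ℂ (⟨th, h⟩ : K) :=
  fun ha => th_trans (IntermediateField.isAlgebraic_iff.1 ha)

/-- A point of the fibre product over a line of the base. -/
theorem ml_line (D : Dat) (a b c u v w : ℂ) : ∃ r : P5 Om, EqU D r ∧
    r.s = algebraMap ℂ Om a + th * algebraMap ℂ Om u ∧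
    r.x1 = algebraMap ℂ Om b + th * algebraMap ℂ Om v ∧
    r.x2 = algebraMap ℂ Om c + th * algebraMap ℂ Om w := by
  obtain ⟨y1, h1⟩ := IsAlgClosed.exists_pow_nat_eq (D.Q1.ev
    (algebraMap ℂ Om a + th * algebraMap ℂ Om u) (algebraMap ℂ Om b + th * algebraMap ℂ Om v))
    two_pos
  obtain ⟨y2, h2⟩ := IsAlgClosed.exists_pow_nat_eq (D.Q2.ev
    (algebraMap ℂ Om a + th * algebraMap ℂ Om u) (algebraMap ℂ Om c + th * algebraMap ℂ Om w))
    two_pos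
  exact ⟨⟨_, _, y1, _, y2⟩, ⟨h1, h2⟩, rfl, rfl, rfl⟩

theorem ml_red_line {K : Type} [Field K] [Algebra ℂ K] {P : Pl K} {t x : K} {τ a u : ℂ}
    (h : Red P t τ) (hx : x = algebraMap ℂ K a + t * algebraMap ℂ K u) : Red P x (a + τ * u) :=
  ((Red.const P a).add (h.mul (Red.const P u))).of_eq hx.symm rfl

theorem CInv1.const (D : Dat) (n : N) : CInv1 D fun _ => n := by
  intro K _ _ _ p f c hf _ _
  rw [← Finset.sum_smul, ← Int.cast_sum, sum_ord hf, Int.cast_zero, zero_smul]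

theorem CInv1.add (h : CInv1 D Φ) (h' : CInv1 D Φ') : CInv1 D fun p => Φ p + Φ' p := by
  intro K _ _ _ p f c hf hp hc
  simp only [smul_add, Finset.sum_add_distrib, h K p f c hf hp hc, h' K p f c hf hp hc, add_zero]

theorem CInv1.sub (h : CInv1 D Φ) (h' : CInv1 D Φ') : CInv1 D fun p => Φ p - Φ' p := by
  intro K _ _ _ p f c hf hp hc
  simp only [smul_sub, Finset.sum_sub_distrib, h K p f c hf hp hc, h' K p f c hf hp hc, sub_zero]

theorem CInv1.smul (h : CInv1 D Φ) (q : ℚ) : CInv1 D fun p => q • Φ p := by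
  intro K _ _ _ p f c hf hp hc
  simp only [smul_comm _ q, ← Finset.smul_sum, h K p f c hf hp hc, smul_zero]

theorem CInv1.i1 (h : CInv1 D Φ) : CInv1 D fun p => Φ p.i1 :=
  fun K _ _ _ p f c hf hp hc => h K p.i1 f (fun P => (c P).i1) hf (ml_eq_i1 hp)
    fun P hP => ⟨ml_red_i1 (hc P hP).1, (hc P hP).2⟩

theorem CInv1.i2 (h : CInv1 D Φ) : CInv1 D fun p => Φ p.i2 :=
  fun K _ _ _ p f c hf hp hc => h K p.i2 f (fun P => (c P).i2) hf (ml_eq_i2 hp)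
    fun P hP => ⟨ml_red_i2 (hc P hP).1, (hc P hP).2⟩

theorem CInv1.dd (h : CInv1 D Φ) : CInv1 D (dd Φ) :=
  ((h.sub h.i1).sub h.i2).add h.i2.i1

theorem CInv2.add (h : CInv2 D Λ) (h' : CInv2 D Λ') : CInv2 D fun p p' => Λ p p' + Λ' p p' := by
  intro K _ _ _ p p' f c c' hf hp hp' hc
  simp only [smul_add, Finset.sum_add_distrib, h K p p' f c c' hf hp hp' hc,
    h' K p p' f c c' hf hp hp' hc, add_zero]

theorem CInv2.sub (h : CInv2 D Λ) (h' : CInv2 D Λ') : CInv2 D fun p p' => Λ p p' - Λ' p p' := by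
  intro K _ _ _ p p' f c c' hf hp hp' hc
  simp only [smul_sub, Finset.sum_sub_distrib, h K p p' f c c' hf hp hp' hc,
    h' K p p' f c c' hf hp hp' hc, sub_zero]

theorem CInv2.swap (h : CInv2 D Λ) : CInv2 D fun p p' => Λ p' p :=
  fun K _ _ _ p p' f c c' hf hp hp' hc => h K p' p f c' c hf hp' hp
    fun P hP => ⟨(hc P hP).2.2.1, (hc P hP).2.2.2, (hc P hP).1, (hc P hP).2.1⟩

theorem CInv2.i1 (h : CInv2 D Λ) : CInv2 D fun p p' => Λ p.i1 p' :=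
  fun K _ _ _ p p' f c c' hf hp hp' hc => h K p.i1 p' f (fun P => (c P).i1) c' hf (ml_eq_i1 hp) hp'
    fun P hP => ⟨ml_red_i1 (hc P hP).1, (hc P hP).2⟩

theorem CInv2.i2 (h : CInv2 D Λ) : CInv2 D fun p p' => Λ p.i2 p' :=
  fun K _ _ _ p p' f c c' hf hp hp' hc => h K p.i2 p' f (fun P => (c P).i2) c' hf (ml_eq_i2 hp) hp'
    fun P hP => ⟨ml_red_i2 (hc P hP).1, (hc P hP).2⟩

theorem CInv2.dd (h : CInv2 D Λ) : CInv2 D fun p p' => dd (fun r => Λ r p') p :=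
  ((h.sub h.i1).sub h.i2).add h.i2.i1

theorem CInv2.left (h : CInv2 D Λ) {p' : P5 ℂ} (hp : OnU D p') : CInv1 D fun p => Λ p p' :=
  fun K _ _ _ p f c hf hq hc => h K p (mlMap (Algebra.ofId ℂ K) p') f c (fun _ => p') hf hq
    ((ml_eq _).2 hp.1) fun P hP => ⟨(hc P hP).1, (hc P hP).2, ml_red_const P p', hp.2⟩

theorem CInv2.right (h : CInv2 D Λ) {p : P5 ℂ} (hp : OnU D p) : CInv1 D fun p' => Λ p p' :=
  h.swap.left hp

/-- Descend to a function field `K` (`exists_ff`), take `f = (θ - θ₀) / (θ - θ₁)`, extend each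
zero and pole to a place of `Om` (`exists_place_above`), sum over the family and use `sum_ord`.
If `θ₀ = θ₁` use uniqueness of values at one place. -/
theorem CInv2.linv (h : CInv2 D Λ) : LInv2 D Λ := by
  classical
  intro J _ p θ0 θ1 n0 n1 hp h0 h1
  by_cases hθ : θ0 = θ1
  · subst hθ
    obtain ⟨P, hP⟩ := exists_place_red th_trans θ0
    obtain ⟨c, hc, rfl⟩ := h0 P hP
    obtain ⟨d, hd, rfl⟩ := h1 P hP
    refine Finset.sum_congr rfl fun j _ => ?_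
    show Λ (c j).1 (c j).2 = Λ (d j).1 (d j).2
    rw [ml_unique (hc j).1.1 (hd j).1.1, ml_unique (hc j).1.2 (hd j).1.2]
  obtain ⟨K, hK, hth, hy⟩ := ml_ff (ι := J ⊕ J) (Sum.elim (fun j => (p j).1) fun j => (p j).2)
  choose y hy using hy
  have hy1 : ∀ j, mlMap K.val (y (Sum.inl j)) = (p j).1 := fun j => hy (Sum.inl j)
  have hy2 : ∀ j, mlMap K.val (y (Sum.inr j)) = (p j).2 := fun j => hy (Sum.inr j)
  have ht := ml_trans hth
  have ht0 : (⟨th, hth⟩ : K) ≠ 0 := fun e => ht (e ▸ isAlgebraic_zero)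
  obtain ⟨f, hf⟩ : ∃ f : K, f = (⟨th, hth⟩ - algebraMap ℂ K θ0) / (⟨th, hth⟩ - algebraMap ℂ K θ1) :=
    ⟨_, rfl⟩
  have hpos : ∀ P : Pl K, Red P ⟨th, hth⟩ θ0 → 0 < P.ord f := fun P hP => hf ▸ ml_pos ht hθ hP
  obtain ⟨P0, hP0⟩ := exists_place_red ht θ0
  have hf0 : f ≠ 0 := fun e => by simpa [e] using hpos P0 hP0
  have key : ∀ P : Pl K, ∃ c : J → P5 ℂ × P5 ℂ, P.ord f ≠ 0 →
      (∀ j, RedP P (y (Sum.inl j)) (c j).1 ∧ GdU D (c j).1 ∧ RedP P (y (Sum.inr j)) (c j).2 ∧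
        GdU D (c j).2) ∧
      ∑ j, Λ (c j).1 (c j).2 = if Red P ⟨th, hth⟩ θ0 then n0 else n1 := by
    intro P
    obtain ⟨P', hP'⟩ := exists_place_above K hth P
    by_cases hr : Red P ⟨th, hth⟩ θ0
    · obtain ⟨c, hc, hs⟩ := h0 P' ((hP' ⟨th, hth⟩ θ0).2 hr)
      exact ⟨c, fun _ => ⟨fun j => ⟨ml_redP hP' (hy1 j ▸ (hc j).1.1), (hc j).2.1,
        ml_redP hP' (hy2 j ▸ (hc j).1.2), (hc j).2.2⟩, by rw [if_pos hr]; exact hs⟩⟩
    by_cases hr1 : Red P ⟨th, hth⟩ θ1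
    · obtain ⟨c, hc, hs⟩ := h1 P' ((hP' ⟨th, hth⟩ θ1).2 hr1)
      exact ⟨c, fun _ => ⟨fun j => ⟨ml_redP hP' (hy1 j ▸ (hc j).1.1), (hc j).2.1,
        ml_redP hP' (hy2 j ▸ (hc j).1.2), (hc j).2.2⟩, by rw [if_neg hr]; exact hs⟩⟩
    · exact ⟨fun _ => (⟨0, 0, 0, 0, 0⟩, ⟨0, 0, 0, 0, 0⟩),
        fun hP => ((ml_supp ht0 (hf ▸ hP)).elim hr hr1).elim⟩
  choose c hc using key
  have e1 : ∑ P ∈ (dv f).support, (P.ord f : ℚ) • (if Red P ⟨th, hth⟩ θ0 then n0 else n1) = 0 := by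
    have e2 : ∀ j, ∑ P ∈ (dv f).support, (P.ord f : ℚ) • Λ (c P j).1 (c P j).2 = 0 := fun j =>
      h K (y (Sum.inl j)) (y (Sum.inr j)) f (fun P => (c P j).1) (fun P => (c P j).2) hf0
        ((ml_eq K.val).1 (hy1 j ▸ (hp j).1)) ((ml_eq K.val).1 (hy2 j ▸ (hp j).2))
        fun P hP => (hc P hP).1 j
    rw [← Finset.sum_eq_zero fun j (_ : j ∈ Finset.univ) => e2 j, Finset.sum_comm]
    refine Finset.sum_congr rfl fun P hP => ?_
    rw [← Finset.smul_sum, (hc P (mem_support_dv.1 hP)).2]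
  have e3 : ∑ P ∈ (dv f).support, (P.ord f : ℚ) • n1 = 0 := by
    rw [← Finset.sum_smul, ← Int.cast_sum, sum_ord hf0, Int.cast_zero, zero_smul]
  have e4 : (∑ P ∈ (dv f).support, if Red P ⟨th, hth⟩ θ0 then (P.ord f : ℚ) else 0) •
      (n0 - n1) = 0 := by
    rw [← sub_zero (0 : N)]
    nth_rewrite 1 [← e1, ← e3]
    rw [Finset.sum_smul, ← Finset.sum_sub_distrib]
    refine Finset.sum_congr rfl fun P _ => ?_
    split_ifs <;> simp [smul_sub]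
  have e5 : 0 < ∑ P ∈ (dv f).support, if Red P ⟨th, hth⟩ θ0 then (P.ord f : ℚ) else 0 := by
    refine Finset.sum_pos' (fun P _ => ?_) ⟨P0, mem_support_dv.2 (hpos P0 hP0).ne', ?_⟩
    · split_ifs with hP
      · exact_mod_cast (hpos P hP).le
      · exact le_rfl
    · rw [if_pos hP0]
      exact_mod_cast hpos P0 hP0
  exact sub_eq_zero.1 ((smul_eq_zero.1 e4).resolve_left e5.ne')

theorem CInv1.linv (h : CInv1 D Φ) : LInv1 D Φ := by
  have h2 : CInv2 D fun p _ => Φ p := fun K _ _ _ p _ f c _ hf hp _ hc =>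
    h K p f c hf hp fun P hP => ⟨(hc P hP).1, (hc P hP).2.1⟩
  exact LInv.comp h2.linv (fun p => (p, p)) (fun c => (c, c)) (fun _ hx => ⟨hx, hx⟩)
    (fun _ _ _ hx => ⟨hx, hx⟩) fun _ hx => ⟨hx, hx⟩

/-- The sum over the four signs is constant: join the base points by a line and take square
roots. -/
theorem LInv1.sum4 (h : LInv1 D Φ) {p q : P5 ℂ} (hp : OnU D p) (hq : OnU D q) :
    Φ p + Φ p.i1 + Φ p.i2 + Φ p.i1.i2 = Φ q + Φ q.i1 + Φ q.i2 + Φ q.i1.i2 := by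
  obtain ⟨r, hr, hs, h1, h2⟩ := ml_line D p.s p.x1 p.x2 (q.s - p.s) (q.x1 - p.x1) (q.x2 - p.x2)
  have key : ∀ (P : Pl Om) (c : P5 ℂ), OnU D c → Red P r.s c.s → Red P r.x1 c.x1 →
      Red P r.x2 c.x2 → ∃ d : Fin 4 → P5 ℂ,
        (∀ j, RedP P (![r, r.i1, r.i2, r.i1.i2] j) (d j) ∧ GdU D (d j)) ∧
        ∑ j, Φ (d j) = Φ c + Φ c.i1 + Φ c.i2 + Φ c.i1.i2 := by
    intro P c hc a1 a2 a3
    have aux : ∀ d : P5 ℂ, RedP P r d → GdU D d → ∀ j : Fin 4,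
        RedP P (![r, r.i1, r.i2, r.i1.i2] j) (![d, d.i1, d.i2, d.i1.i2] j) ∧
          GdU D (![d, d.i1, d.i2, d.i1.i2] j) := by
      intro d b1 b2 j
      fin_cases j
      exacts [⟨b1, b2⟩, ⟨ml_red_i1 b1, b2⟩, ⟨ml_red_i2 b1, b2⟩, ⟨ml_red_i2 (ml_red_i1 b1), b2⟩]
    rcases ml_signs hr hc.1 a1 a2 a3 with b | b | b | b <;>
    · refine ⟨_, aux _ b hc.2, ?_⟩
      simp only [Fin.sum_univ_four, Matrix.cons_val_zero, Matrix.cons_val_one, Matrix.cons_val,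
        ml_i21, ml_i11, ml_i22]
      try abel
  refine h (Fin 4) ![r, r.i1, r.i2, r.i1.i2] 0 1 _ _ (fun j => ?_) (fun P hP => ?_) fun P hP => ?_
  · fin_cases j
    exacts [hr, ml_eq_i1 hr, ml_eq_i2 hr, ml_eq_i2 (ml_eq_i1 hr)]
  · exact key P p hp ((ml_red_line hP hs).of_eq rfl (by ring))
      ((ml_red_line hP h1).of_eq rfl (by ring)) ((ml_red_line hP h2).of_eq rfl (by ring))
  · exact key P q hq ((ml_red_line hP hs).of_eq rfl (by ring))
      ((ml_red_line hP h1).of_eq rfl (by ring)) ((ml_red_line hP h2).of_eq rfl (by ring))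

theorem ml_chain {S : Set ℂ} {a b c u v w τ : ℂ} (h : Ind (S ∪ {a, b, c}) [u, v, w, τ]) :
    Ind S [a + τ * u, b + τ * v, c + τ * w] := by
  have h1 : Ind (S ∪ {a, b, c}) [τ, u, v, w] :=
    h.perm (List.perm_append_singleton τ [u, v, w])
  have h0 : τ ≠ 0 := fun e => h1.1 (e ▸ zero_mem _)
  have key : ∀ (x y : ℂ) (l : List ℂ), x ∈ ({a, b, c} : Set ℂ) → x + τ * y ∈ l →
      y ∈ cl (insert τ (S ∪ {a, b, c}) ∪ {z | z ∈ l}) := by
    intro x y l hx hl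
    have e : y = (x + τ * y - x) / τ := by field_simp; ring
    rw [e]
    exact div_mem (sub_mem (mem_cl (Or.inr hl)) (mem_cl (Or.inl (Or.inr (Or.inr hx)))))
      (mem_cl (Or.inl (Or.inl rfl)))
  refine (h1.2.exchange (l' := [a + τ * u, b + τ * v, c + τ * w]) le_rfl fun x hx => ?_).anti
    fun x hx => mem_cl (Or.inr (Or.inl hx))
  simp only [List.mem_cons, List.not_mem_nil, or_false] at hx
  rcases hx with rfl | rfl | rfl
  exacts [key a _ _ (by simp) (by simp), key b _ _ (by simp) (by simp),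
    key c _ _ (by simp) (by simp)]

/-- From general points to all points. Let `S₁` be `S` with the coordinates of `p`, take
`v₁, v₂, v₃` independent over `S₁`, the line `p + θ v`, square roots `y₁, y₂` in `Om` with signs
chosen to match `p` at a place over `0`, a function field `K` containing them, and `f` from
`exists_moving` for the countable set of places where `θ` has a pole or a value in
`cl (S₁ ∪ {v₁, v₂, v₃})`. At the other places the point `p + τ v` is general. -/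
theorem CInv1.eq_zero (h : CInv1 D Φ) {S : Set ℂ} (hS : S.Countable) (hD : D.Over S)
    (hG : D.G ≠ 0) (h0 : ∀ p, EqU D p → Chain S p → Φ p = 0) {p : P5 ℂ} (hp : OnU D p) :
    Φ p = 0 := by
  classical
  have hS1 : (S ∪ {p.s, p.x1, p.x2}).Countable := hS.union (Set.toFinite _).countable
  obtain ⟨l, hl3, hl⟩ := exists_ind hS1 3
  obtain ⟨u, v, w, rfl⟩ := List.length_eq_three.1 hl3
  obtain ⟨P0', hP0'⟩ := exists_place_red th_trans 0
  obtain ⟨r, hr, hs, h1, h2, hrp⟩ : ∃ r : P5 Om, EqU D r ∧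
      r.s = algebraMap ℂ Om p.s + th * algebraMap ℂ Om u ∧
      r.x1 = algebraMap ℂ Om p.x1 + th * algebraMap ℂ Om v ∧
      r.x2 = algebraMap ℂ Om p.x2 + th * algebraMap ℂ Om w ∧ RedP P0' r p := by
    obtain ⟨r, hr, hs, h1, h2⟩ := ml_line D p.s p.x1 p.x2 u v w
    rcases ml_signs hr hp.1 ((ml_red_line hP0' hs).of_eq rfl (by ring))
      ((ml_red_line hP0' h1).of_eq rfl (by ring)) ((ml_red_line hP0' h2).of_eq rfl (by ring))
      with b | b | b | b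
    · exact ⟨r, hr, hs, h1, h2, b⟩
    · exact ⟨r.i1, ml_eq_i1 hr, hs, h1, h2, ml_i11 p ▸ ml_red_i1 b⟩
    · exact ⟨r.i2, ml_eq_i2 hr, hs, h1, h2, ml_i22 p ▸ ml_red_i2 b⟩
    · refine ⟨r.i2.i1, ml_eq_i1 (ml_eq_i2 hr), hs, h1, h2, ?_⟩
      have b' := ml_red_i1 (ml_red_i2 b)
      rwa [ml_i22, ml_i11] at b'
  obtain ⟨K, hK, hth, hy⟩ := ml_ff (ι := Unit) fun _ => r
  obtain ⟨y, rfl⟩ := hy ()
  have ht := ml_trans hth
  have hyE : EqU D y := (ml_eq K.val).1 hr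
  have hs' : y.s = algebraMap ℂ K p.s + ⟨th, hth⟩ * algebraMap ℂ K u := Subtype.ext hs
  have h1' : y.x1 = algebraMap ℂ K p.x1 + ⟨th, hth⟩ * algebraMap ℂ K v := Subtype.ext h1
  have h2' : y.x2 = algebraMap ℂ K p.x2 + ⟨th, hth⟩ * algebraMap ℂ K w := Subtype.ext h2
  obtain ⟨P0, hP0⟩ := exists_place_below K hth P0'
  have hc : (cl (S ∪ {p.s, p.x1, p.x2} ∪ {x | x ∈ [u, v, w]}) : Set ℂ).Countable :=
    cl_countable (hS1.union (List.finite_toSet _).countable)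
  obtain ⟨f, hf0, hfp, hfT⟩ := exists_moving P0 ({P : Pl K | (⟨th, hth⟩ : K) ∉ P.O} ∪
      ⋃ τ ∈ (cl (S ∪ {p.s, p.x1, p.x2} ∪ {x | x ∈ [u, v, w]}) : Set ℂ),
        {P : Pl K | Red P ⟨th, hth⟩ τ})
    ((MP_a2beea_nt.RR.finite_poles (k := ℂ) _).countable.union
      (hc.biUnion fun τ _ => (finite_red ht τ).countable))
  have key : ∀ P : Pl K, ∃ c : P5 ℂ, (P.ord f ≠ 0 → RedP P y c ∧ GdU D c) ∧
      (P = P0 → c = p) ∧ (P ≠ P0 → P.ord f ≠ 0 → Φ c = 0) := by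
    intro P
    by_cases hP : P = P0
    · subst hP
      exact ⟨p, fun _ => ⟨ml_redP hP0 hrp, hp.2⟩, fun _ => rfl, fun e => (e rfl).elim⟩
    by_cases ho : P.ord f = 0
    · exact ⟨p, fun e => (e ho).elim, fun _ => rfl, fun _ e => (e ho).elim⟩
    have hT := fun e => ho (hfT P e hP)
    obtain ⟨τ, hτ⟩ := exists_red (P := P) (x := ⟨th, hth⟩) (by_contra fun e => hT (Or.inl e))
    have hτ' : τ ∉ cl (S ∪ {p.s, p.x1, p.x2} ∪ {x | x ∈ [u, v, w]}) := fun e =>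
      hT (Or.inr (Set.mem_biUnion e hτ))
    have a1 := ml_red_line hτ hs'
    have a2 := ml_red_line hτ h1'
    have a3 := ml_red_line hτ h2'
    obtain ⟨η1, b1, c1⟩ := Red.of_pow two_ne_zero ((a1.ev a2 D.Q1).of_eq hyE.1.symm rfl)
    obtain ⟨η2, b2, c2⟩ := Red.of_pow two_ne_zero ((a1.ev a3 D.Q2).of_eq hyE.2.symm rfl)
    have hch : Chain S ⟨p.s + τ * u, p.x1 + τ * v, η1, p.x2 + τ * w, η2⟩ :=
      ml_chain ((ind_append (l := [u, v, w]) (l' := [τ])).2 ⟨hl, hτ', trivial⟩)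
    exact ⟨⟨p.s + τ * u, p.x1 + τ * v, η1, p.x2 + τ * w, η2⟩,
      fun _ => ⟨⟨a1, a2, b1, a3, b2⟩, hch.gdU hD hG⟩, fun e => (hP e).elim,
      fun _ _ => h0 _ ⟨c1, c2⟩ hch⟩
  choose c hc1 hc2 hc3 using key
  have e := h K y f c hf0 hyE hc1
  rw [Finset.sum_eq_single_of_mem P0 (mem_support_dv.2 hfp.ne')
    (fun P hP hne => by rw [hc3 P hne (mem_support_dv.1 hP), smul_zero]), hc2 P0 rfl] at e
  exact (smul_eq_zero.1 e).resolve_left (by exact_mod_cast hfp.ne')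

end Pool.Agent.P.MP_a2ccc3_ag
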