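import Pool.Agent.P.MP_a2ccc3_ag.Der

/-! The canonical forms have no poles. -/

open Polynomial

noncomputable section

namespace Pool.Agent.P.MP_a2ccc3_ag

variable {K : Type} [Field K] [Algebra ℂ K] [FF K]

omit [FF K] in
theorem rg_charZero : CharZero K := charZero_of_injective_algebraMap (algebraMap ℂ K).injective

theorem rg_nat_ord (P : Pl K) (n : ℕ) : P.ord (n : K) = 0 := by
  have := P.ord_algebraMap (n : ℂ)
  rwa [map_natCast] at this

theorem rg_nat_mem (P : Pl K) (n : ℕ) : (n : K) ∈ P.O := by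
  rw [P.mem_iff, rg_nat_ord]

omit [Algebra ℂ K] [FF K] in
theorem rg_der_nat (E : Derivation ℤ K K) (n : ℕ) (z : K) : E ((n : K) * z) = n * E z := by
  rw [← nsmul_eq_mul, map_nsmul, nsmul_eq_mul]

omit [Algebra ℂ K] [FF K] in
/-- The derivative of the Weierstrass equation. -/
theorem rg_der_eq {x y A B : K} (h : y ^ 2 = x ^ 3 + A * x + B) (E : Derivation ℤ K K) :
    2 * y * E y = (3 * x ^ 2 + A) * E x + x * E A + E B := by
  have := congrArg E h
  simp only [map_add, Derivation.leibniz, Derivation.leibniz_pow, smul_eq_mul, nsmul_eq_mul]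
    at this
  push_cast at this
  linear_combination this

omit [Algebra ℂ K] [FF K] in
theorem rg_der_h (x A : K) (E : Derivation ℤ K K) :
    E (3 * x ^ 2 + A) = 6 * x * E x + E A := by
  have h3 := rg_der_nat E 3 (x ^ 2)
  push_cast at h3
  rw [map_add, h3, Derivation.leibniz_pow]
  simp only [smul_eq_mul, nsmul_eq_mul]
  push_cast
  ring

theorem rg_nat_mul (P : Pl K) (n : ℕ) {z : K} {m : ℤ} (hz : z ∈ P.pw m) : (n : K) * z ∈ P.pw m :=
  P.mul_mem_pw_of_mem (rg_nat_mem P n) hz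

/-- `dx / y` is a multiple of a logarithmic form modulo `dA, dB`. The candidates are
`(g, φ) = (x / y, x), (2 y / h, y), (h / (6 x y), h)` with `h = 3 x² + A`. If `6 ord x ≤ M` use
that the product of the last two `g` is `1 / (3 x)`. Otherwise use the first if `4 ord y ≤ M`,
the second if `3 ord h ≤ M`, and the remaining case contradicts the hypothesis. If `x = 0` or
`h = 0` take `g = 0`. -/
theorem reg_one (P : Pl K) {x y A B : K} (h : y ^ 2 = x ^ 3 + A * x + B) (hy : y ≠ 0) {M : ℤ}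
    (hM : (A ≠ 0 ∧ 3 * P.ord A ≤ M) ∨ (B ≠ 0 ∧ 2 * P.ord B ≤ M)) :
    ∃ g φ u v : K, (g = 0 ∨ -M ≤ 12 * P.ord g) ∧
      ∀ E : Derivation ℤ K K, E x / y = g * (E φ / φ) + u * E A + v * E B := by
  have : CharZero K := rg_charZero
  by_cases hx : x = 0
  · exact ⟨0, 1, 0, 0, Or.inl rfl, fun E => by simp [hx]⟩
  by_cases hh : 3 * x ^ 2 + A = 0
  · refine ⟨0, 1, -1 / (6 * x * y), 0, Or.inl rfl, fun E => ?_⟩
    have h1 := rg_der_h x A E
    rw [hh, map_zero] at h1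
    field_simp
    linear_combination -h1
  have o2 : P.ord (2 : K) = 0 := by exact_mod_cast rg_nat_ord P 2
  have o6 : P.ord (6 : K) = 0 := by exact_mod_cast rg_nat_ord P 6
  by_cases c1 : -M ≤ 12 * (P.ord x - P.ord y)
  · refine ⟨x / y, x, 0, 0, Or.inr (by rwa [P.ord_div hx hy]), fun E => ?_⟩
    field_simp
    ring
  by_cases c2 : -M ≤ 12 * (P.ord y - P.ord (3 * x ^ 2 + A))
  · refine ⟨2 * y / (3 * x ^ 2 + A), y, -x / ((3 * x ^ 2 + A) * y), -1 / ((3 * x ^ 2 + A) * y),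
      Or.inr ?_, fun E => ?_⟩
    · rw [P.ord_div (mul_ne_zero two_ne_zero hy) hh, P.ord_mul two_ne_zero hy, o2]
      omega
    · have h1 := rg_der_eq h E
      field_simp
      linear_combination -h1
  by_cases c3 : -M ≤ 12 * (P.ord (3 * x ^ 2 + A) - P.ord x - P.ord y)
  · have h6 : (6 : K) ≠ 0 := by norm_num
    refine ⟨(3 * x ^ 2 + A) / (6 * x * y), 3 * x ^ 2 + A, -1 / (6 * x * y), 0,
      Or.inr ?_, fun E => ?_⟩
    · rw [P.ord_div hh (mul_ne_zero (mul_ne_zero h6 hx) hy), P.ord_mul (mul_ne_zero h6 hx) hy,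
        P.ord_mul h6 hx, o6]
      omega
    · rw [rg_der_h]
      field_simp
      ring
  exfalso
  have mx : x ∈ P.pw (P.ord x) := P.mem_pw_of_le le_rfl
  have mh : 3 * x ^ 2 + A ∈ P.pw (P.ord (3 * x ^ 2 + A)) := P.mem_pw_of_le le_rfl
  rcases hM with ⟨h0, h1⟩ | ⟨h0, h1⟩
  · have e : A = (3 * x ^ 2 + A) - ((3 : ℕ) : K) * x ^ 2 := by push_cast; ring
    have m : A ∈ P.pw (min (P.ord (3 * x ^ 2 + A)) (2 * P.ord x)) := by
      have := Submodule.sub_mem _ (P.pw_mono (min_le_left _ (2 * P.ord x)) mh)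
        (rg_nat_mul P 3 (P.mem_pw_of_le (x := x ^ 2) (by
          rw [P.ord_pow]; exact min_le_right _ _)))
      rwa [← e] at this
    have := P.le_of_mem_pw m h0
    omega
  · have e : B = y ^ 2 + ((2 : ℕ) : K) * x ^ 3 - (3 * x ^ 2 + A) * x := by
      push_cast; linear_combination -h
    have m : B ∈ P.pw (min (min (2 * P.ord y) (3 * P.ord x))
        (P.ord (3 * x ^ 2 + A) + P.ord x)) := by
      have := Submodule.sub_mem _ (Submodule.add_mem (P.pw (min (min (2 * P.ord y) (3 * P.ord x))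
        (P.ord (3 * x ^ 2 + A) + P.ord x)))
        (P.mem_pw_of_le (x := y ^ 2) (by rw [P.ord_pow]; push_cast; omega))
        (rg_nat_mul P 2 (P.mem_pw_of_le (x := x ^ 3) (by rw [P.ord_pow]; push_cast; omega))))
        (P.pw_mono (min_le_right _ _) (P.mul_mem_pw mh mx))
      rwa [← e] at this
    have := P.le_of_mem_pw m h0
    omega

/-- At a place of good reduction `dx / y` is regular modulo `dA, dB`. If `x` has a pole use
`(x / y) dx / x`. Otherwise `y` or `3 x² + A` is a unit. -/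
theorem reg_good (P : Pl K) {x y A B : K} (h : y ^ 2 = x ^ 3 + A * x + B) (hy : y ≠ 0)
    (hA : A ∈ P.O) (hB : B ∈ P.O) (hd : dsc A B ∉ P.O.nonunits) :
    ∃ u v : K, ∀ E : Derivation ℤ K K, (∀ z ∈ P.O, E z ∈ P.O) →
      E x / y - u * E A - v * E B ∈ P.O := by
  have : CharZero K := rg_charZero
  by_cases hx : x ∈ P.O
  · have hy2 : y ^ 2 ∈ P.O := by
      rw [h]; exact add_mem (add_mem (pow_mem hx 3) (mul_mem hA hx)) hB
    have hyO : y ∈ P.O := by
      rw [P.mem_iff, P.ord_pow] at hy2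
      rw [P.mem_iff]; push_cast at hy2; omega
    by_cases hyu : y ∈ P.O.nonunits
    · have h3 : (3 : K) ∈ P.O := by exact_mod_cast rg_nat_mem P 3
      have h4 : (4 : K) ∈ P.O := by exact_mod_cast rg_nat_mem P 4
      have h27 : (27 : K) ∈ P.O := by exact_mod_cast rg_nat_mem P 27
      have h2 : (2 : K) ∈ P.O := by exact_mod_cast rg_nat_mem P 2
      have hhO : 3 * x ^ 2 + A ∈ P.O := add_mem (mul_mem h3 (pow_mem hx 2)) hA
      have hh : 3 * x ^ 2 + A ∉ P.O.nonunits := by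
        intro hh
        apply hd
        have e : dsc A B = ((3 * x ^ 2 + 4 * A) * (3 * x ^ 2 + A)) * (3 * x ^ 2 + A) -
            (27 * (x ^ 3 + A * x - B) * y) * y := by
          unfold dsc; linear_combination 27 * (x ^ 3 + A * x - B) * h
        rw [e, ← P.mem_pw_one]
        rw [← P.mem_pw_one] at hh hyu
        exact Submodule.sub_mem _
          (P.mul_mem_pw_of_mem (mul_mem (add_mem (mul_mem h3 (pow_mem hx 2)) (mul_mem h4 hA)) hhO)
            hh)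
          (P.mul_mem_pw_of_mem (mul_mem (mul_mem h27
            (sub_mem (add_mem (pow_mem hx 3) (mul_mem hA hx)) hB)) hyO) hyu)
      have hh0 := (P.ord_eq_zero_of_notMem hhO hh).1
      refine ⟨-x / ((3 * x ^ 2 + A) * y), -1 / ((3 * x ^ 2 + A) * y), fun E hE => ?_⟩
      have e : E x / y - -x / ((3 * x ^ 2 + A) * y) * E A - -1 / ((3 * x ^ 2 + A) * y) * E B =
          2 * E y * (3 * x ^ 2 + A)⁻¹ := by
        have h1 := rg_der_eq h E
        generalize 3 * x ^ 2 + A = H at h1 hh0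
        field_simp
        linear_combination -h1
      rw [e]
      exact mul_mem (mul_mem h2 (hE y hyO)) (P.inv_mem_of_notMem_nonunits hh)
    · refine ⟨0, 0, fun E hE => ?_⟩
      simp only [zero_mul, sub_zero, div_eq_mul_inv]
      exact mul_mem (hE x hx) (P.inv_mem_of_notMem_nonunits hyu)
  · have hx0 : x ≠ 0 := by rintro rfl; exact hx (zero_mem _)
    have ho : P.ord x < 0 := P.notMem_iff.1 hx
    have mx : x ∈ P.pw (P.ord x) := P.mem_pw_of_le le_rfl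
    have h1 := P.ord_add_of_lt (x := x ^ 3) (y := A * x + B) (pow_ne_zero 3 hx0) (by
      rw [P.ord_pow]
      exact Submodule.add_mem _ (P.pw_mono (by push_cast; omega) (P.mul_mem_pw_of_mem hA mx))
        (P.pw_mono (by push_cast; omega) (P.mem_pw_zero.2 hB)))
    have h2 : 2 * P.ord y = 3 * P.ord x := by
      have := h1.2
      rw [← add_assoc, ← h, P.ord_pow, P.ord_pow] at this
      exact_mod_cast this
    obtain ⟨π, -, hπ⟩ := P.exists_unif
    refine ⟨0, 0, fun E hE => ?_⟩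
    have e : E x / y - 0 * E A - 0 * E B = x / y * (E x / x) := by
      field_simp
      ring
    have m : x / y ∈ P.pw 1 := P.mem_pw_of_le (by rw [P.ord_div hx0 hy]; omega)
    rw [e, ← P.mem_pw_zero]
    simpa using P.mul_mem_pw m (dlog_mem P hπ hE x).1

/-- The order of a polynomial in `s` at a zero of `s - c`. -/
theorem rg_ord_root (P : Pl K) {s : K} {c : ℂ} (hc : Red P s c) (ht : s - algebraMap ℂ K c ≠ 0)
    {p : ℂ[X]} (hp : p ≠ 0) : aeval s p ≠ 0 ∧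
      P.ord (aeval s p) = p.rootMultiplicity c * P.ord (s - algebraMap ℂ K c) := by
  obtain ⟨q, hq, hq'⟩ := exists_eq_pow_rootMultiplicity_mul_and_not_dvd p hp c
  have hq0 : q.eval c ≠ 0 := fun h0 => hq' (dvd_iff_isRoot.2 h0)
  have hr := hc.eval q
  have h1 : aeval s q ≠ 0 := hr.ne_zero hq0
  have h2 : P.ord (aeval s q) = 0 := by
    have a1 := P.mem_iff.1 hr.mem
    have a2 := P.mem_iff.1 (hr.inv hq0).mem
    rw [P.ord_inv] at a2
    omega
  have e : aeval s p = (s - algebraMap ℂ K c) ^ p.rootMultiplicity c * aeval s q := by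
    conv_lhs => rw [hq]
    simp
  rw [e]
  refine ⟨mul_ne_zero (pow_ne_zero _ ht) h1, ?_⟩
  rw [P.ord_mul (pow_ne_zero _ ht) h1, h2, P.ord_pow, add_zero]

theorem rg_ne {A B : ℂ[X]} (hd : dsc A B ≠ 0) (hA : A = 0) : B ≠ 0 := by
  rintro rfl
  apply hd
  simp [dsc, hA]

/-- The common order of vanishing of `A³` and `B²` at a finite point. -/
theorem rg_exists_mult {A B : ℂ[X]} (hd : dsc A B ≠ 0) (c : ℂ) :
    ∃ m : ℕ, (X - C c) ^ m ∣ A ^ 3 ∧ (X - C c) ^ m ∣ B ^ 2 ∧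
      ((A ≠ 0 ∧ 3 * A.rootMultiplicity c ≤ m) ∨ (B ≠ 0 ∧ 2 * B.rootMultiplicity c ≤ m)) := by
  have hA : (X - C c) ^ (3 * A.rootMultiplicity c) ∣ A ^ 3 := by
    rw [mul_comm, pow_mul]; exact pow_dvd_pow_of_dvd (pow_rootMultiplicity_dvd A c) 3
  have hB : (X - C c) ^ (2 * B.rootMultiplicity c) ∣ B ^ 2 := by
    rw [mul_comm, pow_mul]; exact pow_dvd_pow_of_dvd (pow_rootMultiplicity_dvd B c) 2
  by_cases hA0 : A = 0
  · exact ⟨_, by simp [hA0], hB, Or.inr ⟨rg_ne hd hA0, le_rfl⟩⟩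
  by_cases hB0 : B = 0
  · exact ⟨_, hA, by simp [hB0], Or.inl ⟨hA0, le_rfl⟩⟩
  rcases le_total (3 * A.rootMultiplicity c) (2 * B.rootMultiplicity c) with h | h
  · exact ⟨_, hA, (pow_dvd_pow _ h).trans hB, Or.inl ⟨hA0, le_rfl⟩⟩
  · exact ⟨_, (pow_dvd_pow _ h).trans hA, hB, Or.inr ⟨hB0, le_rfl⟩⟩

theorem rg_fin (P : Pl K) {s : K} {c : ℂ} (hc : Red P s c) (ht : s - algebraMap ℂ K c ≠ 0)
    {A B : ℂ[X]} (hd : dsc A B ≠ 0) :
    ∃ m : ℕ, (X - C c) ^ m ∣ A ^ 3 ∧ (X - C c) ^ m ∣ B ^ 2 ∧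
      ((aeval s A ≠ 0 ∧ 3 * P.ord (aeval s A) ≤ m * P.ord (s - algebraMap ℂ K c)) ∨
        (aeval s B ≠ 0 ∧ 2 * P.ord (aeval s B) ≤ m * P.ord (s - algebraMap ℂ K c))) := by
  obtain ⟨m, h1, h2, h3⟩ := rg_exists_mult hd c
  have he : 0 < P.ord (s - algebraMap ℂ K c) := (P.mem_nonunits_iff.1 hc).resolve_left ht
  refine ⟨m, h1, h2, h3.imp ?_ ?_⟩
  · rintro ⟨h0, h⟩
    obtain ⟨a1, a2⟩ := rg_ord_root P hc ht h0
    refine ⟨a1, ?_⟩
    have h' : (3 : ℤ) * A.rootMultiplicity c ≤ m := by exact_mod_cast h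
    rw [a2, ← mul_assoc]
    exact mul_le_mul_of_nonneg_right h' he.le
  · rintro ⟨h0, h⟩
    obtain ⟨a1, a2⟩ := rg_ord_root P hc ht h0
    refine ⟨a1, ?_⟩
    have h' : (2 : ℤ) * B.rootMultiplicity c ≤ m := by exact_mod_cast h
    rw [a2, ← mul_assoc]
    exact mul_le_mul_of_nonneg_right h' he.le

theorem rg_inf (P : Pl K) {s : K} (hs : s ∉ P.O) {A B : ℂ[X]} (hd : dsc A B ≠ 0) :
    (aeval s A ≠ 0 ∧ 3 * P.ord (aeval s A) ≤
        (max (3 * A.natDegree) (2 * B.natDegree) : ℕ) * P.ord s) ∨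
      (aeval s B ≠ 0 ∧ 2 * P.ord (aeval s B) ≤
        (max (3 * A.natDegree) (2 * B.natDegree) : ℕ) * P.ord s) := by
  have h1 := (MP_a2beea_nt.RR.poleD_of_notMem hs).1
  have hA : A ≠ 0 → 2 * B.natDegree ≤ 3 * A.natDegree → aeval s A ≠ 0 ∧ 3 * P.ord (aeval s A) ≤
      (max (3 * A.natDegree) (2 * B.natDegree) : ℕ) * P.ord s := fun h0 h => by
    obtain ⟨a1, a2⟩ := MP_a2beea_nt.RR.ord_aeval hs h0
    refine ⟨a1, le_of_eq ?_⟩
    rw [a2, h1, max_eq_left h]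
    push_cast
    ring
  have hB : B ≠ 0 → 3 * A.natDegree ≤ 2 * B.natDegree → aeval s B ≠ 0 ∧ 2 * P.ord (aeval s B) ≤
      (max (3 * A.natDegree) (2 * B.natDegree) : ℕ) * P.ord s := fun h0 h => by
    obtain ⟨a1, a2⟩ := MP_a2beea_nt.RR.ord_aeval hs h0
    refine ⟨a1, le_of_eq ?_⟩
    rw [a2, h1, max_eq_right h]
    push_cast
    ring
  by_cases hA0 : A = 0
  · exact Or.inr (hB (rg_ne hd hA0) (by simp [hA0]))
  by_cases hB0 : B = 0
  · exact Or.inl (hA hA0 (by simp [hB0]))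
  rcases le_total (2 * B.natDegree) (3 * A.natDegree) with h | h
  · exact Or.inl (hA hA0 h)
  · exact Or.inr (hB hB0 h)

/-- `reg_one` in a fibration. -/
theorem rg_one {S : Set ℂ} {A B : ℂ[X]} (hA : PC S A) (hB : PC S B) (P : Pl K) {s x y : K}
    (h : y ^ 2 = cub A B s x) (hy : y ≠ 0) {M : ℤ}
    (hM : (aeval s A ≠ 0 ∧ 3 * P.ord (aeval s A) ≤ M) ∨
      (aeval s B ≠ 0 ∧ 2 * P.ord (aeval s B) ≤ M)) :
    ∃ g φ w : K, (g = 0 ∨ -M ≤ 12 * P.ord g) ∧
      ∀ E : Derivation ℤ K K, Kills S E → E x / y = g * (E φ / φ) + w * E s := by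
  obtain ⟨g, φ, u, v, h1, h2⟩ := reg_one P h hy hM
  refine ⟨g, φ, u * aeval s (derivative A) + v * aeval s (derivative B), h1, fun E hE => ?_⟩
  rw [h2 E, hE.aeval hA, hE.aeval hB]
  ring

/-- `reg_good` in a fibration. -/
theorem rg_good {S : Set ℂ} {A B : ℂ[X]} (hA : PC S A) (hB : PC S B) (P : Pl K) {s x y : K}
    (h : y ^ 2 = cub A B s x) (hy : y ≠ 0) {c : ℂ} (hc : Red P s c)
    (hd : (dsc A B).eval c ≠ 0) :
    ∃ w : K, ∀ E : Derivation ℤ K K, Adm S P E → E x / y - w * E s ∈ P.O := by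
  have hd' : dsc (aeval s A) (aeval s B) ∉ P.O.nonunits := by
    intro h0
    have e : dsc (aeval s A) (aeval s B) = aeval s (dsc A B) := by
      simp [dsc, map_ofNat]
    have h1 : Red P (aeval s (dsc A B)) 0 := by
      rw [e] at h0
      simpa [Red] using h0
    exact hd ((hc.eval _).unique h1)
  obtain ⟨u, v, h2⟩ := reg_good P h hy (hc.eval A).mem (hc.eval B).mem hd'
  refine ⟨u * aeval s (derivative A) + v * aeval s (derivative B), fun E hE => ?_⟩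
  have := h2 E hE.2
  rw [hE.1.aeval hA, hE.1.aeval hB] at this
  convert this using 1
  ring

/-- A determinant with one row of bounded pole order. -/
theorem rg_det_mem (P : Pl K) {n : ℕ} (N : Matrix (Fin n) (Fin n) K) (k : Fin n) {m : ℤ}
    (hk : ∀ j, N k j ∈ P.pw m) (h : ∀ i, i ≠ k → ∀ j, N i j ∈ P.O) : N.det ∈ P.pw m := by
  rw [← Matrix.det_transpose, Matrix.det_apply]
  refine Submodule.sum_mem _ fun σ _ => ?_
  rw [Units.smul_def]
  refine zsmul_mem ?_ _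
  rw [← Finset.prod_erase_mul _ _ (Finset.mem_univ k)]
  exact P.mul_mem_pw_of_mem (prod_mem fun i hi => h i (Finset.ne_of_mem_erase hi) _) (hk _)

theorem rg_bound2_log {S : Set ℂ} {A B : ℂ[X]} (hA : PC S A) (hB : PC S B) (P : Pl K) {π : K}
    (hπ : P.ord π = 1) (k : Fin 2)
    (E : Fin 2 → Derivation ℤ K K) (hE : ∀ i, Adm S P (E i)) (hk : ∀ i, i ≠ k → E i π = 0)
    {s x y : K} (h : y ^ 2 = cub A B s x) (hy : y ≠ 0) {t : K} (ht : t ≠ 0)
    (hts : ∀ i, E i t = E i s) {M n : ℤ}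
    (hM : (aeval s A ≠ 0 ∧ 3 * P.ord (aeval s A) ≤ M) ∨
      (aeval s B ≠ 0 ∧ 2 * P.ord (aeval s B) ≤ M)) (hn : 12 * n + M < 12 * P.ord t) :
    jac E ![s, x] / y ∈ P.pw n := by
  obtain ⟨g, φ, w, h1, h2⟩ := rg_one hA hB P h hy hM
  have e : jac E ![s, x] / y = t * g * (Matrix.of fun i j => E i (![t, φ] j) / ![t, φ] j).det := by
    have a0 := h2 (E 0) (hE 0).1
    have a1 := h2 (E 1) (hE 1).1
    have e1 : jac E ![s, x] / y = E 0 s * (E 1 x / y) - (E 0 x / y) * E 1 s := by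
      simp only [jac, Matrix.det_fin_two, Matrix.of_apply, Matrix.cons_val_zero,
        Matrix.cons_val_one]
      ring
    rw [e1, a0, a1]
    simp only [Matrix.det_fin_two, Matrix.of_apply, Matrix.cons_val_zero, Matrix.cons_val_one, hts]
    field_simp
    ring
  have m1 : t * g ∈ P.pw (n + 1) := by
    by_cases hg : g = 0
    · simp [hg]
    · have := h1.resolve_left hg
      refine P.mem_pw_of_le ?_
      rw [P.ord_mul ht hg]
      omega
  have m2 := rg_det_mem P (Matrix.of fun i j => E i (![t, φ] j) / ![t, φ] j) k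
    (fun j => (dlog_mem P hπ (hE k).2 _).1) (fun i hi j => (dlog_mem P hπ (hE i).2 _).2 (hk i hi))
  rw [e]
  simpa using P.mul_mem_pw m1 m2

/-- The two-form `ds dx / y`. Three cases: `s` has a pole, the value of `s` is a root of the
discriminant (then it lies in `cl S`), or the reduction is good. -/
theorem bound2 {S : Set ℂ} {A B : ℂ[X]} (hA : PC S A) (hB : PC S B) (hd : dsc A B ≠ 0)
    (hm : Min1 A B) (P : Pl K) {π : K} (hπ : P.ord π = 1) (k : Fin 2)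
    (E : Fin 2 → Derivation ℤ K K) (hE : ∀ i, Adm S P (E i)) (hk : ∀ i, i ≠ k → E i π = 0)
    {s x y : K} (h : y ^ 2 = cub A B s x) (hy : y ≠ 0) :
    jac E ![s, x] / y ∈ P.pw (min 0 (P.ord s)) := by
  by_cases hs : s ∈ P.O
  · rw [min_eq_left (P.mem_iff.1 hs)]
    obtain ⟨c, hc⟩ := exists_red hs
    by_cases hdc : (dsc A B).eval c = 0
    · have hcl : c ∈ cl S := mem_cl_of_root (hA.dsc hB) hd hdc
      have hts : ∀ i, E i (s - algebraMap ℂ K c) = E i s := fun i => by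
        rw [map_sub, (hE i).1 c hcl, sub_zero]
      by_cases ht : s - algebraMap ℂ K c = 0
      · have h0 : ∀ i, E i s = 0 := fun i => by rw [← hts, ht, map_zero]
        simp [jac, Matrix.det_fin_two, h0]
      · obtain ⟨m, h1, h2, h3⟩ := rg_fin P hc ht hd
        have hlt : (m : ℤ) < 12 := by exact_mod_cast hm.1 c m h1 h2
        have he : 0 < P.ord (s - algebraMap ℂ K c) := (P.mem_nonunits_iff.1 hc).resolve_left ht
        exact rg_bound2_log hA hB P hπ k E hE hk h hy ht hts h3 (by nlinarith)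
    · obtain ⟨w, hw⟩ := rg_good hA hB P h hy hc hdc
      have e : jac E ![s, x] / y = E 0 s * (E 1 x / y - w * E 1 s) -
          (E 0 x / y - w * E 0 s) * E 1 s := by
        simp only [jac, Matrix.det_fin_two, Matrix.of_apply, Matrix.cons_val_zero,
          Matrix.cons_val_one]
        ring
      rw [e, P.mem_pw_zero]
      exact sub_mem (mul_mem ((hE 0).2 s hs) (hw _ (hE 1))) (mul_mem (hw _ (hE 0)) ((hE 1).2 s hs))
  · have hs0 : s ≠ 0 := by rintro rfl; exact hs (zero_mem _)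
    have ho : P.ord s < 0 := P.notMem_iff.1 hs
    rw [min_eq_right ho.le]
    have hpos : (0 : ℤ) < (max (3 * A.natDegree) (2 * B.natDegree) : ℕ) := by exact_mod_cast hm.2
    exact rg_bound2_log hA hB P hπ k E hE hk h hy hs0 (fun _ => rfl) (rg_inf P hs hd)
      (by nlinarith)

theorem rg_half_log {S : Set ℂ} {A1 B1 A2 B2 : ℂ[X]}
    (hA1 : PC S A1) (hB1 : PC S B1) (hA2 : PC S A2) (hB2 : PC S B2) (P : Pl K) {π : K}
    (hπ : P.ord π = 1) {p : P5 K}
    (h : EqF (wei A1 B1) (wei A2 B2) p) (hy1 : p.y1 ≠ 0) (hy2 : p.y2 ≠ 0) {t : K} (ht : t ≠ 0)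
    (hts : ∀ E : Derivation ℤ K K, Kills S E → E t = E p.s) {M1 M2 : ℤ}
    (hM1 : (aeval p.s A1 ≠ 0 ∧ 3 * P.ord (aeval p.s A1) ≤ M1) ∨
      (aeval p.s B1 ≠ 0 ∧ 2 * P.ord (aeval p.s B1) ≤ M1))
    (hM2 : (aeval p.s A2 ≠ 0 ∧ 3 * P.ord (aeval p.s A2) ≤ M2) ∨
      (aeval p.s B2 ≠ 0 ∧ 2 * P.ord (aeval p.s B2) ≤ M2)) (hn : M1 + M2 < 12 * P.ord t) :
    ∃ (T : Matrix (Fin 3) (Fin 3) K) (ε : ℤ), (ε = 0 ∨ ε = 1) ∧ T.det ∈ P.pw ε ∧
      ∀ E : Derivation ℤ K K, Adm S P E → ∃ ψ : Fin 3 → K,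
        ![E p.s, E p.x1 / p.y1, E p.x2 / p.y2] = Matrix.vecMul ψ T ∧
        (∀ j, ψ j ∈ P.pw (-ε)) ∧ (E π = 0 → ∀ j, ψ j ∈ P.O) := by
  obtain ⟨g1, φ1, w1, a1, b1⟩ := rg_one hA1 hB1 P (h.1.trans (wei_ev ..)) hy1 hM1
  obtain ⟨g2, φ2, w2, a2, b2⟩ := rg_one hA2 hB2 P (h.2.trans (wei_ev ..)) hy2 hM2
  refine ⟨!![t, w1 * t, w2 * t; 0, g1, 0; 0, 0, g2], 1, Or.inr rfl, ?_, fun E hE => ?_⟩
  · have e : (!![t, w1 * t, w2 * t; 0, g1, 0; 0, 0, g2] : Matrix (Fin 3) (Fin 3) K).det =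
        t * g1 * g2 := by
      simp [Matrix.det_fin_three]
    rw [e]
    by_cases hg1 : g1 = 0
    · simp [hg1]
    by_cases hg2 : g2 = 0
    · simp [hg2]
    have c1 := a1.resolve_left hg1
    have c2 := a2.resolve_left hg2
    refine P.mem_pw_of_le ?_
    rw [P.ord_mul (mul_ne_zero ht hg1) hg2, P.ord_mul ht hg1]
    omega
  · refine ⟨fun j => E (![t, φ1, φ2] j) / ![t, φ1, φ2] j, ?_, fun j => (dlog_mem P hπ hE.2 _).1,
      fun h0 j => (dlog_mem P hπ hE.2 _).2 h0⟩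
    rw [b1 E hE.1, b2 E hE.1, ← hts E hE.1]
    ext j
    fin_cases j <;> simp [Matrix.vecMul, dotProduct, Fin.sum_univ_three] <;> field_simp <;> ring

/-- One half of the six-form: the columns `ds, dx₁ / y₁, dx₂ / y₂` are combinations, with a
matrix `T` which does not depend on the derivation, of columns with at most simple poles, and
the determinant of `T` vanishes if poles occur. -/
theorem half_block {S : Set ℂ} {n1 n2 : ℕ} {A1 B1 A2 B2 : ℂ[X]} (hc : CY n1 n2 A1 B1 A2 B2)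
    (hA1 : PC S A1) (hB1 : PC S B1) (hA2 : PC S A2) (hB2 : PC S B2) (hd1 : dsc A1 B1 ≠ 0)
    (hd2 : dsc A2 B2 ≠ 0) (P : Pl K) {π : K} (hπ : P.ord π = 1) {p : P5 K}
    (h : EqF (wei A1 B1) (wei A2 B2) p) (hy1 : p.y1 ≠ 0) (hy2 : p.y2 ≠ 0) :
    ∃ (T : Matrix (Fin 3) (Fin 3) K) (ε : ℤ), (ε = 0 ∨ ε = 1) ∧ T.det ∈ P.pw ε ∧
      ∀ E : Derivation ℤ K K, Adm S P E → ∃ ψ : Fin 3 → K,
        ![E p.s, E p.x1 / p.y1, E p.x2 / p.y2] = Matrix.vecMul ψ T ∧
        (∀ j, ψ j ∈ P.pw (-ε)) ∧ (E π = 0 → ∀ j, ψ j ∈ P.O) := by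
  by_cases hs : p.s ∈ P.O
  · obtain ⟨c, hr⟩ := exists_red hs
    by_cases hdc : (dsc A1 B1).eval c = 0 ∨ (dsc A2 B2).eval c = 0
    · have hcl : c ∈ cl S := hdc.elim (mem_cl_of_root (hA1.dsc hB1) hd1)
        (mem_cl_of_root (hA2.dsc hB2) hd2)
      have hts : ∀ E : Derivation ℤ K K, Kills S E → E (p.s - algebraMap ℂ K c) = E p.s :=
        fun E hE => by rw [map_sub, hE c hcl, sub_zero]
      by_cases ht : p.s - algebraMap ℂ K c = 0
      · refine ⟨!![0, 0, 0; 0, p.x1 / p.y1, 0; 0, 0, p.x2 / p.y2], 1, Or.inr rfl, ?_,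
          fun E hE => ?_⟩
        · simp [Matrix.det_fin_three]
        · have h0 : E p.s = 0 := by rw [← hts E hE.1, ht, map_zero]
          have hx : ∀ x y : K, E x / y = E x / x * (x / y) := fun x y => by
            by_cases hx : x = 0
            · simp [hx]
            · field_simp
          refine ⟨fun j => E (![1, p.x1, p.x2] j) / ![1, p.x1, p.x2] j, ?_,
            fun j => (dlog_mem P hπ hE.2 _).1, fun h0 j => (dlog_mem P hπ hE.2 _).2 h0⟩
          rw [h0, hx p.x1, hx p.x2]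
          ext j
          fin_cases j <;> simp [Matrix.vecMul, dotProduct, Fin.sum_univ_three]
      · obtain ⟨m1, a1, b1, c1⟩ := rg_fin P hr ht hd1
        obtain ⟨m2, a2, b2, c2⟩ := rg_fin P hr ht hd2
        have hlt : (m1 : ℤ) + m2 < 12 := by exact_mod_cast hc.fin c m1 m2 a1 b1 a2 b2
        have he : 0 < P.ord (p.s - algebraMap ℂ K c) := (P.mem_nonunits_iff.1 hr).resolve_left ht
        exact rg_half_log hA1 hB1 hA2 hB2 P hπ h hy1 hy2 ht hts c1 c2 (by nlinarith)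
    · push Not at hdc
      obtain ⟨w1, b1⟩ := rg_good hA1 hB1 P (h.1.trans (wei_ev ..)) hy1 hr hdc.1
      obtain ⟨w2, b2⟩ := rg_good hA2 hB2 P (h.2.trans (wei_ev ..)) hy2 hr hdc.2
      refine ⟨!![1, w1, w2; 0, 1, 0; 0, 0, 1], 0, Or.inl rfl, ?_, fun E hE => ?_⟩
      · have e : (!![1, w1, w2; 0, 1, 0; 0, 0, 1] : Matrix (Fin 3) (Fin 3) K).det = 1 := by
          simp [Matrix.det_fin_three]
        rw [e, P.mem_pw_zero]
        exact one_mem _
      · have hm : ∀ j, ![E p.s, E p.x1 / p.y1 - w1 * E p.s, E p.x2 / p.y2 - w2 * E p.s] j ∈ P.O :=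
          fun j => by
            fin_cases j
            · exact hE.2 _ hs
            · exact b1 E hE
            · exact b2 E hE
        refine ⟨![E p.s, E p.x1 / p.y1 - w1 * E p.s, E p.x2 / p.y2 - w2 * E p.s], ?_,
          fun j => by rw [neg_zero, P.mem_pw_zero]; exact hm j, fun _ => hm⟩
        ext j
        fin_cases j <;> simp [Matrix.vecMul, dotProduct, Fin.sum_univ_three] <;> ring
  · have hs0 : p.s ≠ 0 := fun h0 => hs (h0 ▸ zero_mem _)
    have ho : P.ord p.s < 0 := P.notMem_iff.1 hs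
    have hpos : (12 : ℤ) < (max (3 * A1.natDegree) (2 * B1.natDegree) : ℕ) +
        (max (3 * A2.natDegree) (2 * B2.natDegree) : ℕ) := by exact_mod_cast hc.inf
    exact rg_half_log hA1 hB1 hA2 hB2 P hπ h hy1 hy2 hs0 (fun _ _ => rfl) (rg_inf P hs hd1)
      (rg_inf P hs hd2) (by nlinarith)

omit [Algebra ℂ K] [FF K] in
/-- The determinant of a matrix whose interleaved halves factor through `T` and `T'`. -/
theorem rg_det_six (T T' : Matrix (Fin 3) (Fin 3) K) (a a' ψ ψ' : Fin 6 → Fin 3 → K)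
    (h : ∀ i, a i = Matrix.vecMul (ψ i) T) (h' : ∀ i, a' i = Matrix.vecMul (ψ' i) T') :
    (Matrix.of fun i => ![a i 0, a' i 0, a i 1, a' i 1, a i 2, a' i 2]).det =
      (Matrix.of fun i => ![ψ i 0, ψ' i 0, ψ i 1, ψ' i 1, ψ i 2, ψ' i 2]).det *
        (T.det * T'.det) := by
  have e : (Matrix.of fun i => ![a i 0, a' i 0, a i 1, a' i 1, a i 2, a' i 2]) =
      (Matrix.of fun i => ![ψ i 0, ψ' i 0, ψ i 1, ψ' i 1, ψ i 2, ψ' i 2]) *
        (Matrix.blockDiagonal ![T, T']).submatrix (finProdFinEquiv (m := 3) (n := 2)).symm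
          (finProdFinEquiv (m := 3) (n := 2)).symm := by
    ext i j
    rw [Matrix.mul_apply, Fin.sum_univ_six, Matrix.of_apply, h, h']
    fin_cases j <;>
      simp [Matrix.vecMul, dotProduct, Fin.sum_univ_three, Matrix.blockDiagonal_apply,
        finProdFinEquiv, Fin.divNat, Fin.modNat]
  rw [e, Matrix.det_mul, Matrix.det_submatrix_equiv_self, Matrix.det_blockDiagonal,
    Fin.prod_univ_two]
  rfl

/-- The six-form on the square of the threefold is regular. -/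
theorem bound6 {S : Set ℂ} {n1 n2 : ℕ} {A1 B1 A2 B2 : ℂ[X]} (hc : CY n1 n2 A1 B1 A2 B2)
    (hA1 : PC S A1) (hB1 : PC S B1) (hA2 : PC S A2) (hB2 : PC S B2) (hd1 : dsc A1 B1 ≠ 0)
    (hd2 : dsc A2 B2 ≠ 0) (P : Pl K) {π : K} (hπ : P.ord π = 1) (k : Fin 6)
    (E : Fin 6 → Derivation ℤ K K) (hE : ∀ i, Adm S P (E i)) (hk : ∀ i, i ≠ k → E i π = 0)
    {p p' : P5 K} (h : EqF (wei A1 B1) (wei A2 B2) p) (h' : EqF (wei A1 B1) (wei A2 B2) p')
    (hy1 : p.y1 ≠ 0) (hy2 : p.y2 ≠ 0) (hy1' : p'.y1 ≠ 0) (hy2' : p'.y2 ≠ 0) :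
    jac E ![p.s, p'.s, p.x1, p'.x1, p.x2, p'.x2] / (p.y1 * p'.y1 * p.y2 * p'.y2) ∈ P.O := by
  obtain ⟨T, ε, a1, a2, a3⟩ := half_block hc hA1 hB1 hA2 hB2 hd1 hd2 P hπ h hy1 hy2
  obtain ⟨T', ε', b1, b2, b3⟩ := half_block hc hA1 hB1 hA2 hB2 hd1 hd2 P hπ h' hy1' hy2'
  choose ψ c1 c2 c3 using fun i => a3 (E i) (hE i)
  choose ψ' d1 d2 d3 using fun i => b3 (E i) (hE i)
  have e1 := rg_det_six T T' _ _ ψ ψ' c1 d1
  have e2 := Matrix.det_mul_row ![1, 1, p.y1⁻¹, p'.y1⁻¹, p.y2⁻¹, p'.y2⁻¹]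
    (Matrix.of fun i j => E i (![p.s, p'.s, p.x1, p'.x1, p.x2, p'.x2] j))
  have e3 : jac E ![p.s, p'.s, p.x1, p'.x1, p.x2, p'.x2] / (p.y1 * p'.y1 * p.y2 * p'.y2) =
      (Matrix.of fun i => ![ψ i 0, ψ' i 0, ψ i 1, ψ' i 1, ψ i 2, ψ' i 2]).det *
        (T.det * T'.det) := by
    rw [← e1]
    have e4 : jac E ![p.s, p'.s, p.x1, p'.x1, p.x2, p'.x2] / (p.y1 * p'.y1 * p.y2 * p'.y2) =
        (∏ j, ![1, 1, p.y1⁻¹, p'.y1⁻¹, p.y2⁻¹, p'.y2⁻¹] j) *
          jac E ![p.s, p'.s, p.x1, p'.x1, p.x2, p'.x2] := by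
      rw [Fin.prod_univ_six]
      simp only [Matrix.cons_val]
      field_simp
    rw [e4, jac, ← e2]
    congr 1
    ext i j
    fin_cases j <;> simp [div_eq_inv_mul]
  have m1 : (Matrix.of fun i => ![ψ i 0, ψ' i 0, ψ i 1, ψ' i 1, ψ i 2, ψ' i 2]).det ∈
      P.pw (-(ε + ε')) := by
    refine rg_det_mem P _ k (fun j => ?_) (fun i hi j => ?_)
    · have u : ∀ j, ψ k j ∈ P.pw (-(ε + ε')) := fun j => P.pw_mono (by omega) (c2 k j)
      have u' : ∀ j, ψ' k j ∈ P.pw (-(ε + ε')) := fun j => P.pw_mono (by omega) (d2 k j)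
      fin_cases j
      exacts [u 0, u' 0, u 1, u' 1, u 2, u' 2]
    · have u := c3 i (hk i hi)
      have u' := d3 i (hk i hi)
      fin_cases j
      exacts [u 0, u' 0, u 1, u' 1, u 2, u' 2]
  rw [e3, ← P.mem_pw_zero]
  simpa using P.mul_mem_pw m1 (P.mul_mem_pw a2 b2)

end Pool.Agent.P.MP_a2ccc3_ag
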