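import Pool.Agent.P.MP_a2ccc3_ag.Form
import Pool.Agent.P.MP_a2ccc3_ag.Reg
import Pool.Agent.P.MP_a2ccc3_ag.Jac
import Pool.Agent.P.MP_a2ccc3_ag.FLift

/-! No polynomial sections through general points. -/

open Polynomial

noncomputable section

namespace Pool.Agent.P.MP_a2ccc3_ag

theorem noLine_cub {R T : Type} [CommRing R] [CommRing T] [Algebra ℂ R] [Algebra ℂ T]
    (f : R →ₐ[ℂ] T) (A B : ℂ[X]) (s x : R) : f (cub A B s x) = cub A B (f s) (f x) := by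
  simp only [cub, map_add, map_mul, map_pow, aeval_algHom_apply]

theorem noLine_ff (x : List Om) : ∃ (K : Type) (_ : Field K) (_ : Algebra ℂ K) (_ : FF K)
    (f : K →ₐ[ℂ] Om), ∀ a ∈ x, ∃ b, f b = a := by
  obtain ⟨K, hK, -, h⟩ := exists_ff (fun i : Fin x.length => x[i])
  refine ⟨K, inferInstance, inferInstance, hK, K.val, fun a ha => ?_⟩
  obtain ⟨i, hi, rfl⟩ := List.getElem_of_mem ha
  exact ⟨⟨_, h ⟨i, hi⟩⟩, rfl⟩

theorem noLine_trans {K : Type} [Field K] [Algebra ℂ K] (f : K →ₐ[ℂ] Om) {l : K}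
    (h : f l = th) : Transcendental ℂ l := fun h1 => th_trans (h ▸ h1.algHom f)

theorem noLine_desc {K L : Type} [Field K] [Field L] [Algebra ℂ K] [Algebra ℂ L]
    (f : K →ₐ[ℂ] L) {A B δ δ' : ℂ[X]} {s t c σ Z W x y x' y' : K}
    (h : FLift A B δ δ' (f s) (f t) (f c) (f σ) (f Z) (f W) ⟨f x, f y, f x', f y'⟩) :
    FLift A B δ δ' s t c σ Z W ⟨x, y, x', y'⟩ := by
  obtain ⟨h0, h1, h2, h3, h4, h5, h6, h7⟩ := h
  have hi : Function.Injective f := f.toRingHom.injective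
  refine ⟨fun e => h0 (by rw [e, map_zero]), hi ?_, hi ?_, hi ?_, hi ?_, hi ?_, hi ?_, hi ?_⟩ <;>
    simp only [dsc, map_add, map_sub, map_mul, map_pow, map_div₀, map_ofNat,
      ← aeval_algHom_apply] <;> assumption

section

variable {K : Type} [Field K] [Algebra ℂ K] [FF K]

theorem noLine_pw (P : Pl K) (l : K) {u : ℂ[X]} {j : ℕ} (hu : u.natDegree ≤ j) :
    aeval l u ∈ P.pw (j * min 0 (P.ord l)) := by
  have h := MP_a2beea_nt.RR.aeval_mem_pw l P (p := u) (j := j) (Or.inr (by exact_mod_cast hu))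
  rw [MP_a2beea_nt.RR.poleD_apply] at h
  convert h using 2
  have h1 : min 0 (P.ord l) = -max 0 (-P.ord l) := by omega
  rw [h1]
  ring

theorem noLine_sub (P : Pl K) {l s t : K} {u v : ℂ[X]} (hu : u.natDegree ≤ 1)
    (hv : v.natDegree ≤ 1) (h1 : s + t = aeval l u) (h2 : s * t = aeval l v) :
    s - t ∈ P.pw (min 0 (P.ord l)) := by
  have hd : (u ^ 2 - C 4 * v).natDegree ≤ 2 :=
    (natDegree_sub_le _ _).trans (max_le (natDegree_pow_le.trans (by omega))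
      ((natDegree_C_mul_le _ _).trans (by omega)))
  have h3 := noLine_pw P l hd
  have h4 : aeval l (u ^ 2 - C 4 * v) = (s - t) ^ 2 := by
    rw [map_sub, map_pow, map_mul, aeval_C, ← h1, ← h2, map_ofNat]
    ring
  rw [h4] at h3
  by_cases h0 : s - t = 0
  · rw [h0]
    exact zero_mem _
  · have h5 := P.le_of_mem_pw h3 (pow_ne_zero _ h0)
    rw [P.ord_pow] at h5
    refine P.mem_pw_of_le ?_
    push_cast at h5
    omega

theorem noLine_core {S : Set ℂ} {n1 n2 : ℕ} {A1 B1 δ1 δ1' A2 B2 δ2 δ2' : ℂ[X]}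
    (hc : CY n1 n2 A1 B1 A2 B2) (h : WD S A1 B1 δ1 δ1' A2 B2 δ2 δ2') {c1 c2 : ℂ}
    {u v z1 z2 w : ℂ[X]} (hu : u.natDegree ≤ 1) (hv : v.natDegree ≤ 1) {l σ1 Y1 σ2 Y2 : K}
    {q q' : P5 K}
    (h1 : FLift A1 B1 δ1 δ1' q.s q'.s (algebraMap ℂ K c1) σ1 (aeval l z1) Y1 (q.f1 q'))
    (h2 : FLift A2 B2 δ2 δ2' q.s q'.s (algebraMap ℂ K c2) σ2 (aeval l z2) Y2 (q.f2 q'))
    (hs : q.s + q'.s = aeval l u) (ht : q.s * q'.s = aeval l v) (hY : Y1 * Y2 = aeval l w)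
    (hw : aeval l w ≠ 0) (hy1 : q.y1 ≠ 0) (hy2 : q.y2 ≠ 0)
    (hd1 : dsc (aeval q.s A1) (aeval q.s B1) ≠ 0) (hd2 : dsc (aeval q.s A2) (aeval q.s B2) ≠ 0)
    (P : Pl K) (π : K) (k : Fin 6) (E : Fin 6 → Derivation ℤ K K) (hπ : P.ord π = 1)
    (hE : ∀ i, Adm S P (E i)) (hk : ∀ i, i ≠ k → E i π = 0) :
    jac E (fun j => aeval l (![u, v, C c1, z1, C c2, z2] j)) / aeval l w ∈
      P.pw (min 0 (P.ord l)) := by
  have hy1' : q'.y1 ≠ 0 := by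
    have e : q'.y1 = σ1 ^ 3 * q.y1 := h1.hs
    rw [e]
    exact mul_ne_zero (pow_ne_zero _ h1.ne) hy1
  have hy2' : q'.y2 ≠ 0 := by
    have e : q'.y2 = σ2 ^ 3 * q.y2 := h2.hs
    rw [e]
    exact mul_ne_zero (pow_ne_zero _ h2.ne) hy2
  have e1 : EqF (wei A1 B1) (wei A2 B2) q := by
    rw [EqF, wei_ev, wei_ev]
    exact ⟨h1.hy, h2.hy⟩
  have e2 : EqF (wei A1 B1) (wei A2 B2) q' := by
    rw [EqF, wei_ev, wei_ev]
    exact ⟨h1.hy', h2.hy'⟩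
  have hb := bound6 hc h.hA1 h.hB1 h.hA2 h.hB2 h.ne1 h.ne2 P hπ k E hE hk e1 e2 hy1 hy2 hy1' hy2'
  have hj := jac6 h.hA1 h.hB1 h.hδ1 h.hA2 h.hB2 h.hδ2 h1 h2 hy1 hy2 hd1 hd2 E fun i => (hE i).1
  have e3 : (fun j => aeval l (![u, v, C c1, z1, C c2, z2] j)) =
      ![q.s + q'.s, q.s * q'.s, algebraMap ℂ K c1, aeval l z1, algebraMap ℂ K c2, aeval l z2] := by
    funext j
    fin_cases j <;> simp [hs, ht]
  rw [e3]
  rw [hY] at hj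
  have e4 : jac E ![q.s + q'.s, q.s * q'.s, algebraMap ℂ K c1, aeval l z1, algebraMap ℂ K c2,
      aeval l z2] / aeval l w = (algebraMap ℂ K c1 * algebraMap ℂ K c2 *
        (jac E ![q.s, q'.s, q.x1, q'.x1, q.x2, q'.x2] / (q.y1 * q'.y1 * q.y2 * q'.y2))) *
        (q.s - q'.s) := by
    field_simp
    linear_combination hj
  rw [e4]
  exact P.mul_mem_pw_of_mem (mul_mem (mul_mem (P.const_mem c1) (P.const_mem c2)) hb)
    (noLine_sub P hu hv hs ht)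

end

/-- The determinant over the complex numbers is not zero. -/
theorem noLine_det {S : Set ℂ} {A1 B1 δ1 δ1' A2 B2 δ2 δ2' : ℂ[X]}
    (h : WD S A1 B1 δ1 δ1' A2 B2 δ2 δ2') {p p' : P5 ℂ}
    {c1 σ1 Z1 W1 c2 σ2 Z2 W2 : ℂ} (h1 : FLift A1 B1 δ1 δ1' p.s p'.s c1 σ1 Z1 W1 (p.f1 p'))
    (h2 : FLift A2 B2 δ2 δ2' p.s p'.s c2 σ2 Z2 W2 (p.f2 p')) (hg : Gen6 S p p') :
    ∃ D : Fin 6 → Derivation ℤ ℂ ℂ, (∀ i, ∀ a ∈ cl S, D i a = 0) ∧
      jac D ![p.s + p'.s, p.s * p'.s, c1, Z1, c2, Z2] ≠ 0 := by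
  have hz := genZ_of_gen6 h h1 h2 hg
  have i1 : Ind S [p.s, p'.s, c1, Z1] := hz.sublist (by simp)
  have i2 : Ind S [p.s, p'.s, c2, Z2] := hz.sublist (by simp)
  have g1 := goodZ_of_ind h.hA1 h.hB1 h.hδ1 h.e1 h.ne1 i1
  have g2 := goodZ_of_ind h.hA2 h.hB2 h.hδ2 h.e2 h.ne2 i2
  have hW1 : W1 ≠ 0 := by
    rintro rfl
    exact jc_ne_zero h.hA1 h.hB1 h.hδ1 h.hδ1' i1 (by rw [← h1.jc]; simp)
  have hW2 : W2 ≠ 0 := by
    rintro rfl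
    exact jc_ne_zero h.hA2 h.hB2 h.hδ2 h.hδ2' i2 (by rw [← h2.jc]; simp)
  have hy1 : p.y1 ≠ 0 := by
    intro e
    have e1 : p.y1 ^ 2 = cub A1 B1 p.s p.x1 := h1.hy
    refine cub_ne_zero h.hA1 h.hB1 (Ind.sublist (l' := [p.s, p.x1]) hg (by simp)) ?_
    rw [← e1, e]
    simp
  have hy2 : p.y2 ≠ 0 := by
    intro e
    have e1 : p.y2 ^ 2 = cub A2 B2 p.s p.x2 := h2.hy
    refine cub_ne_zero h.hA2 h.hB2 (Ind.sublist (l' := [p.s, p.x2]) hg (by simp)) ?_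
    rw [← e1, e]
    simp
  obtain ⟨D, hD, hj⟩ := Ind.exists_jac (S := S) (w := ![p.s, p'.s, p.x1, p'.x1, p.x2, p'.x2])
    (by simpa [Gen6] using hg)
  refine ⟨D, hD, fun e => ?_⟩
  have h6 := jac6 h.hA1 h.hB1 h.hδ1 h.hA2 h.hB2 h.hδ2 h1 h2 hy1 hy2 g1.hs g2.hs D hD
  rw [e, hj, zero_mul, mul_one] at h6
  have hst : p.s - p'.s ≠ 0 := by
    have hn := i1.nodup
    simp only [List.nodup_cons, List.mem_cons, not_or] at hn
    exact sub_ne_zero.2 hn.1.1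
  exact mul_ne_zero (mul_ne_zero (mul_ne_zero hst (left_ne_zero_of_mul g1.hc))
    (left_ne_zero_of_mul g2.hc)) (mul_ne_zero hW1 hW2) h6.symm

/-- Lifts over `Om` with nonzero ordinates. -/
theorem noLine_om {S : Set ℂ} {A1 B1 δ1 δ1' A2 B2 δ2 δ2' : ℂ[X]}
    (h : WD S A1 B1 δ1 δ1' A2 B2 δ2 δ2') {s0 t0 c1 Z1 c2 Z2 : ℂ}
    (hz : Ind S [s0, t0, c1, Z1, c2, Z2]) {P : Pl Om} {s t X1 X2 W : Om} (hs : Red P s s0)
    (ht : Red P t t0) (hX1 : Red P X1 Z1) (hX2 : Red P X2 Z2)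
    (hW : W ^ 2 = jc A1 B1 δ1 δ1' (algebraMap ℂ Om c1) s t X1 *
      jc A2 B2 δ2 δ2' (algebraMap ℂ Om c2) s t X2) :
    ∃ (σ1 Y1 σ2 Y2 : Om) (a b : P4 Om),
      FLift A1 B1 δ1 δ1' s t (algebraMap ℂ Om c1) σ1 X1 Y1 a ∧
      FLift A2 B2 δ2 δ2' s t (algebraMap ℂ Om c2) σ2 X2 Y2 b ∧ Y1 * Y2 = W ∧ W ≠ 0 ∧
      a.y ≠ 0 ∧ b.y ≠ 0 ∧ aeval s (dsc A1 B1) ≠ 0 ∧ aeval s (dsc A2 B2) ≠ 0 := by
  have i1 : Ind S [s0, t0, c1, Z1] := hz.sublist (by simp)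
  have i2 : Ind S [s0, t0, c2, Z2] := hz.sublist (by simp)
  have g1 := goodZ_of_ind h.hA1 h.hB1 h.hδ1 h.e1 h.ne1 i1
  have g2 := goodZ_of_ind h.hA2 h.hB2 h.hδ2 h.e2 h.ne2 i2
  have r1 := Red.jc A1 B1 δ1 δ1' (left_ne_zero_of_mul g1.hc) hs ht hX1
  have r2 := Red.jc A2 B2 δ2 δ2' (left_ne_zero_of_mul g2.hc) hs ht hX2
  have n1 := r1.ne_zero (jc_ne_zero h.hA1 h.hB1 h.hδ1 h.hδ1' i1)
  have n2 := r2.ne_zero (jc_ne_zero h.hA2 h.hB2 h.hδ2 h.hδ2' i2)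
  obtain ⟨Y1, hY1⟩ := IsAlgClosed.exists_pow_nat_eq
    (jc A1 B1 δ1 δ1' (algebraMap ℂ Om c1) s t X1) (n := 2) (by norm_num)
  have hY0 : Y1 ≠ 0 := by
    rintro rfl
    exact n1 (by rw [← hY1]; simp)
  have hY2 : (W / Y1) ^ 2 = jc A2 B2 δ2 δ2' (algebraMap ℂ Om c2) s t X2 := by
    rw [div_pow, hW, hY1, mul_div_cancel_left₀ _ n1]
  obtain ⟨σ1, a, ha⟩ := exists_flift_om h.e1 g1 hs ht hX1 hY1
  obtain ⟨σ2, b, hb⟩ := exists_flift_om h.e2 g2 hs ht hX2 hY2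
  obtain ⟨V1, hV1, -⟩ := Red.of_pow (by norm_num) (hY1 ▸ r1)
  obtain ⟨V2, hV2, -⟩ := Red.of_pow (by norm_num) (hY2 ▸ r2)
  obtain ⟨τ1, a0, ra, fa⟩ := ha.red g1 hs ht hX1 hV1
  obtain ⟨τ2, b0, rb, fb⟩ := hb.red g2 hs ht hX2 hV2
  have hg : Gen6 S ⟨s0, a0.x, a0.y, b0.x, b0.y⟩ ⟨t0, a0.x', a0.y', b0.x', b0.y'⟩ :=
    gen6_of_genZ h fa fb hz
  refine ⟨σ1, Y1, σ2, W / Y1, a, b, ha, hb, mul_div_cancel₀ _ hY0, ?_, ra.2.1.ne_zero ?_,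
    rb.2.1.ne_zero ?_, (hs.aeval _).ne_zero ?_, (hs.aeval _).ne_zero ?_⟩
  · rintro rfl
    exact mul_ne_zero n1 n2 (by rw [← hW]; simp)
  · intro e
    have e1 : a0.y ^ 2 = cub A1 B1 s0 a0.x := fa.hy
    refine cub_ne_zero h.hA1 h.hB1 (Ind.sublist (l' := [s0, a0.x]) hg (by simp)) ?_
    rw [← e1, e]
    simp
  · intro e
    have e1 : b0.y ^ 2 = cub A2 B2 s0 b0.x := fb.hy
    refine cub_ne_zero h.hA2 h.hB2 (Ind.sublist (l' := [s0, b0.x]) hg (by simp)) ?_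
    rw [← e1, e]
    simp
  · rw [aeval_dsc]
    exact g1.hs
  · rw [aeval_dsc]
    exact g2.hs

/-- Take `l = th`, `s, t` with the given sum and product, `Y₁` a square root, `Y₂ = w(l) / Y₁`,
lifts from `exists_flift_om` at a place over `0`. Descend to a function field with `exists_ff`
and apply `form_false` to the columns `u, v, C c₁, z₁, C c₂, z₂`. The derivations come from
`Ind.exists_jac` for `Gen6`, and `jac6` over `ℂ` shows that the first determinant is not zero.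
The bound is `jac6`, `bound6` and `2 ord (s - t) = ord (u² - 4 v)(l) ≥ 2 min 0 (ord l)`. -/
theorem no_line {S : Set ℂ} {n1 n2 : ℕ} {A1 B1 δ1 δ1' A2 B2 δ2 δ2' : ℂ[X]}
    (hc : CY n1 n2 A1 B1 A2 B2) (h : WD S A1 B1 δ1 δ1' A2 B2 δ2 δ2') {p p' : P5 ℂ}
    {c1 σ1 Z1 W1 c2 σ2 Z2 W2 : ℂ} (h1 : FLift A1 B1 δ1 δ1' p.s p'.s c1 σ1 Z1 W1 (p.f1 p'))
    (h2 : FLift A2 B2 δ2 δ2' p.s p'.s c2 σ2 Z2 W2 (p.f2 p')) (hg : Gen6 S p p')
    {u v z1 z2 w : ℂ[X]} (hu : u.natDegree ≤ 1) (hv : v.natDegree ≤ 1)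
    (hu0 : u.eval 0 = p.s + p'.s) (hv0 : v.eval 0 = p.s * p'.s) (hz1 : z1.eval 0 = Z1)
    (hz2 : z2.eval 0 = Z2)
    (hnc : derivative u ≠ 0 ∨ derivative v ≠ 0 ∨ derivative z1 ≠ 0 ∨ derivative z2 ≠ 0)
    (hw : ∀ l s t : Om, s + t = aeval l u → s * t = aeval l v →
      aeval l w ^ 2 = jc A1 B1 δ1 δ1' (algebraMap ℂ Om c1) s t (aeval l z1) *
        jc A2 B2 δ2 δ2' (algebraMap ℂ Om c2) s t (aeval l z2)) : False := by
  obtain ⟨D, hD, hdet⟩ := noLine_det h h1 h2 hg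
  obtain ⟨P, hP⟩ := exists_place_red th_trans 0
  obtain ⟨s, t, hs, ht, rs, rt⟩ : ∃ s t : Om, s + t = aeval th u ∧ s * t = aeval th v ∧
      Red P s p.s ∧ Red P t p'.s := by
    obtain ⟨s, t, hs, ht⟩ := exists_sum_prod (aeval th u) (aeval th v)
    rcases red_pair (a := p.s) (b := p'.s) ((hP.eval u).of_eq hs.symm hu0)
      ((hP.eval v).of_eq ht.symm hv0) with h3 | h3
    · exact ⟨s, t, hs, ht, h3⟩
    · exact ⟨t, s, (add_comm _ _).trans hs, (mul_comm _ _).trans ht, h3.2, h3.1⟩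
  obtain ⟨τ1, Y1, τ2, Y2, ⟨x1, y1, x1', y1'⟩, ⟨x2, y2, x2', y2'⟩, f1, f2, hY, hw0, hy1, hy2,
      hd1, hd2⟩ := noLine_om h (genZ_of_gen6 h h1 h2 hg) rs rt ((hP.eval z1).of_eq rfl hz1)
    ((hP.eval z2).of_eq rfl hz2) (hw th s t hs ht)
  obtain ⟨K, _, _, _, f, hf⟩ :=
    noLine_ff [th, s, t, τ1, Y1, τ2, Y2, x1, y1, x1', y1', x2, y2, x2', y2']
  simp only [List.forall_mem_cons] at hf
  obtain ⟨⟨l, hl⟩, ⟨s, rfl⟩, ⟨t, rfl⟩, ⟨τ1, rfl⟩, ⟨Y1, rfl⟩, ⟨τ2, rfl⟩, ⟨Y2, rfl⟩, ⟨x1, rfl⟩,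
    ⟨y1, rfl⟩, ⟨x1', rfl⟩, ⟨y1', rfl⟩, ⟨x2, rfl⟩, ⟨y2, rfl⟩, ⟨x2', rfl⟩, ⟨y2', rfl⟩, -⟩ := hf
  have hi : Function.Injective f := f.toRingHom.injective
  rw [← hl, aeval_algHom_apply] at hs ht hY hw0
  rw [← hl, aeval_algHom_apply, ← f.commutes] at f1 f2
  rw [aeval_algHom_apply, aeval_dsc] at hd1 hd2
  rw [← map_add] at hs
  rw [← map_mul] at ht hY
  have hw1 : aeval l w ≠ 0 := fun e => hw0 (by rw [e, map_zero])
  refine form_false S (noLine_trans f hl) ![u, v, C c1, z1, C c2, z2] (W := w)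
    (fun e => hw1 (by rw [e, map_zero])) D hD ?_ ?_
    (noLine_core (q := ⟨s, x1, y1, x2, y2⟩) (q' := ⟨t, x1', y1', x2', y2'⟩) hc h hu hv
      (noLine_desc f f1) (noLine_desc f f2) (hi hs) (hi ht) (hi hY) hw1
      (fun e => hy1 (by rw [show y1 = 0 from e, map_zero]))
      (fun e => hy2 (by rw [show y2 = 0 from e, map_zero]))
      (fun e => hd1 (by rw [e, map_zero])) (fun e => hd2 (by rw [e, map_zero])))
  · convert hdet using 2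
    funext j
    fin_cases j <;> simp [hu0, hv0, hz1, hz2]
  · rcases hnc with e | e | e | e
    exacts [⟨0, e⟩, ⟨1, e⟩, ⟨3, e⟩, ⟨5, e⟩]

/-- The same for one fibration, with `bound2`. -/
theorem no_sec {S : Set ℂ} {A B : ℂ[X]} (hA : PC S A) (hB : PC S B) (hd : dsc A B ≠ 0)
    (hm : Min1 A B) {u z w : ℂ[X]} (hu : u.natDegree ≤ 1) (hi : Ind S [u.eval 0, z.eval 0])
    (hnc : derivative u ≠ 0 ∨ derivative z ≠ 0) (hw : w ^ 2 = cub A B u z) : False := by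
  obtain ⟨K, _, _, _, f, hf⟩ := noLine_ff [th]
  obtain ⟨l, hl⟩ := hf th (by simp)
  have hl' := noLine_trans f hl
  have hw0 : w ≠ 0 := by
    rintro rfl
    have e := congrArg (aeval (0 : ℂ)) hw
    rw [noLine_cub, coe_aeval_eq_eval] at e
    exact cub_ne_zero hA hB hi (by rw [← e]; simp)
  obtain ⟨D, hD, hj⟩ := Ind.exists_jac (S := S) (w := ![u.eval 0, z.eval 0]) (by simpa using hi)
  refine form_false S hl' ![u, z] hw0 D hD ?_ ?_ fun P π k E hπ hE hk => ?_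
  · have e : (fun j => (![u, z] j).eval 0) = ![u.eval 0, z.eval 0] := by
      funext j
      fin_cases j <;> simp
    rw [e, hj]
    exact one_ne_zero
  · rcases hnc with e | e
    exacts [⟨0, e⟩, ⟨1, e⟩]
  · have e : (fun j => aeval l (![u, z] j)) = ![aeval l u, aeval l z] := by
      funext j
      fin_cases j <;> simp
    have e1 := congrArg (aeval l) hw
    rw [noLine_cub, map_pow] at e1
    rw [e]
    refine P.pw_mono ?_ (bound2 hA hB hd hm P hπ k E hE hk e1 fun e2 => hl' ⟨w, hw0, e2⟩)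
    have h1 := noLine_pw P l hu
    rcases P.mem_pw.1 h1 with h2 | h2
    · rw [h2, P.ord_zero]
      omega
    · push_cast at h2
      omega

end Pool.Agent.P.MP_a2ccc3_ag
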