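import Pool.Agent.P.MP_a2ccc3_ag.Lift

/-! Odd invariant functions on a product of two elliptic curves. -/

open Polynomial

noncomputable section

namespace Pool.Agent.P.MP_a2ccc3_ag

variable {N : Type} [AddCommGroup N] [Module ℚ N]

/-- The hypotheses on a function on `E × E'`. -/
structure PH (S : Set ℂ) (A B A' B' : ℂ) (ψ : P4 ℂ → N) : Prop where
  hA : A ∈ cl S
  hB : B ∈ cl S
  hA' : A' ∈ cl S
  hB' : B' ∈ cl S
  hd : dsc A B ≠ 0
  hd' : dsc A' B' ≠ 0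
  inv : LInvQ A B A' B' S ψ
  n1 : ∀ p, ψ p.n1 = -ψ p
  n2 : ∀ p, ψ p.n2 = -ψ p

variable {S : Set ℂ} {A B A' B' σ σ' X Y t t' : ℂ} {ψ : P4 ℂ → N} {p q : P4 ℂ}

theorem pair_half {n : N} (h : n = -n) : n = 0 := by
  have h2 : (2 : ℚ) • n = 0 := by
    rw [two_smul]
    exact add_eq_zero_iff_eq_neg.2 h
  have h3 : n = (2⁻¹ : ℚ) • (2 : ℚ) • n := by
    rw [smul_smul, inv_mul_cancel₀ two_ne_zero, one_smul]
  rw [h3, h2, smul_zero]

omit [Module ℚ N] in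
theorem pair_n12 (h : PH S A B A' B' ψ) (p : P4 ℂ) : ψ p.n1.n2 = ψ p := by
  rw [h.n2, h.n1, neg_neg]

theorem pair_t_ne (hi : Ind S [t, X]) : t ≠ 0 := fun h0 => hi.1 (h0 ▸ zero_mem _)

omit [Module ℚ N] in
theorem pair_uniq (h : PH S A B A' B' ψ) (hp : IsLift A B A' B' σ X Y t t' p)
    (hq : IsLift A B A' B' σ X Y t t' q) (hi : Ind S [t, X]) : ψ q = ψ p := by
  rcases hp.unique hq (mx_ne_zero h.hA h.hB h.hA' h.hd hi hp.ht) with h1 | h1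
  · rw [h1]
  · rw [h1, pair_n12 h]

omit [Module ℚ N] in
/-- Reduction of a lift over `Om` for the constant curves and constant `X`. -/
theorem pair_red (h : PH S A B A' B' ψ) {P : Pl Om} {s y u u' : Om} {z : P4 Om}
    (hz : IsLift (algebraMap ℂ Om A) (algebraMap ℂ Om B) (algebraMap ℂ Om A')
      (algebraMap ℂ Om B') s (algebraMap ℂ Om X) y u u' z)
    (hy : Red P y Y) (hu : Red P u t) (hu' : Red P u' t') (hi : Ind S [t, X]) :
    ∃ σ0 c, Red P s σ0 ∧ RedQ P z c ∧ Ind S [c.x, c.x'] ∧ IsLift A B A' B' σ0 X Y t t' c := by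
  obtain ⟨σ0, c, h1, h2, h3⟩ := hz.red (Red.const P A) (Red.const P B) (Red.const P A')
    (Red.const P B') (Red.const P X) hy hu hu' h.hd (pair_t_ne hi)
    fun _ h0 => mx_ne_zero h.hA h.hB h.hA' h.hd hi h0
  exact ⟨σ0, c, h1, h2, h3.ind_xx h.hA h.hB h.hA' h.hB' hi, h3⟩

theorem pair_red_rhs (P : Pl Om) (A B A' B' X : ℂ) :
    Red P (algebraMap ℂ Om X ^ 3 - 48 * (algebraMap ℂ Om A * algebraMap ℂ Om A') *
      algebraMap ℂ Om X + 864 * (algebraMap ℂ Om B * algebraMap ℂ Om B'))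
      (X ^ 3 - 48 * (A * A') * X + 864 * (B * B')) :=
  (((Red.const P X).pow 3).sub (((Red.ofNat P 48).mul ((Red.const P A).mul
    (Red.const P A'))).mul (Red.const P X))).add
    ((Red.ofNat P 864).mul ((Red.const P B).mul (Red.const P B')))

theorem pair_dsc (A B : ℂ) :
    dsc (algebraMap ℂ Om A) (algebraMap ℂ Om B) = algebraMap ℂ Om (dsc A B) := by
  simp only [dsc, map_add, map_mul, map_pow, map_ofNat]

theorem pair_th_ne : th ≠ 0 := by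
  obtain ⟨P, hP⟩ := exists_place_red th_trans 1
  exact hP.ne_zero one_ne_zero

omit [Module ℚ N] in
/-- Reduction of a point on a moving line. -/
theorem pair_line (h : PH S A B A' B' ψ) {P : Pl Om} {x y r s m : Om} {ρ τ n : ℂ}
    (hy : y ^ 2 = x ^ 3 + algebraMap ℂ Om A * x + algebraMap ℂ Om B) (hx : Red P x p.x)
    (hr : Red P r ρ) (hs : Red P s τ) (hm : Red P m n)
    (hp : p.y ^ 2 = p.x ^ 3 + A * p.x + B) (hpx : p.x' = ρ * p.x + n) (hpy : p.y' = τ * p.y)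
    (hi : Ind S [p.x, p.x']) :
    ∃ c, RedQ P ⟨x, y, r * x + m, s * y⟩ c ∧ Ind S [c.x, c.x'] ∧ ψ c = ψ p := by
  have h1 : Red P (y ^ 2) (p.y ^ 2) :=
    (((hx.pow 3).add ((Red.const P A).mul hx)).add (Red.const P B)).of_eq hy.symm hp.symm
  have h2 : Red P (r * x + m) p.x' := ((hr.mul hx).add hm).of_eq rfl hpx.symm
  rcases h1.of_sq with h3 | h3
  · exact ⟨p, ⟨hx, h3, h2, (hs.mul h3).of_eq rfl hpy.symm⟩, hi, rfl⟩
  · refine ⟨p.n1.n2, ⟨hx, h3, h2, (hs.mul h3).of_eq rfl ?_⟩, hi, pair_n12 h p⟩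
    show τ * -p.y = -p.y'
    rw [hpy, mul_neg]

/-- Family `θ σ` with `X` fixed and both square roots `Y`. At `θ = 1` the sum is `ψ p + ψ q`, at
`θ = -1` it is `ψ p.n2 + ψ q.n2` (`IsLift.neg`, `IsLift.unique`). Use `LInv.two`. -/
theorem PH.o1 (h : PH S A B A' B' ψ) (hp : IsLift A B A' B' σ X Y t t' p)
    (hq : IsLift A B A' B' σ X (-Y) t t' q) (hi : Ind S [t, X]) : ψ p + ψ q = 0 := by
  have hth := pair_th_ne
  obtain ⟨y, hy⟩ := IsAlgClosed.exists_pow_nat_eq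
    (algebraMap ℂ Om X ^ 3 - 48 * (algebraMap ℂ Om A * algebraMap ℂ Om A') *
      algebraMap ℂ Om X + 864 * (algebraMap ℂ Om B * algebraMap ℂ Om B') -
      16 * (algebraMap ℂ Om t * th ^ 6 + algebraMap ℂ Om t' / th ^ 6)) (n := 2) (by norm_num)
  have hs0 : algebraMap ℂ Om σ * th ≠ 0 :=
    mul_ne_zero ((_root_.map_ne_zero _).2 hp.ne) hth
  have hs1 : (algebraMap ℂ Om σ * th) ^ 6 * dsc (algebraMap ℂ Om A) (algebraMap ℂ Om B) =
      algebraMap ℂ Om t * th ^ 6 := by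
    rw [pair_dsc, ← hp.ht, map_mul, map_pow]
    ring
  have hs2 : (algebraMap ℂ Om σ * th) ^ 6 * (algebraMap ℂ Om t' / th ^ 6) =
      dsc (algebraMap ℂ Om A') (algebraMap ℂ Om B') := by
    rw [pair_dsc, ← hp.ht', map_mul, map_pow]
    field_simp
  have hM : Mx (algebraMap ℂ Om A) (algebraMap ℂ Om A') (algebraMap ℂ Om σ * th)
      (algebraMap ℂ Om X) ≠ 0 := by
    obtain ⟨P, hP⟩ := exists_place_red th_trans 1
    refine (lift_red_Mx (Red.const P A) (Red.const P A') ((Red.const P σ).mul hP)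
      (Red.const P X)).ne_zero ?_
    rw [mul_one]
    exact mx_ne_zero h.hA h.hB h.hA' h.hd hi hp.ht
  obtain ⟨z, hz⟩ := exists_lift (Y := y) hs0 hs1 hs2 hy hM
  obtain ⟨w, hw⟩ := exists_lift (Y := -y) hs0 hs1 hs2 (by
    unfold JEq
    rw [neg_sq]
    exact hy) hM
  have key : ∀ (ε : ℂ) (p1 q1 : P4 ℂ), ε ^ 6 = 1 → IsLift A B A' B' (σ * ε) X Y t t' p1 →
      IsLift A B A' B' (σ * ε) X (-Y) t t' q1 → ∀ P : Pl Om, Red P th ε →
      ∃ c d, RedQ P z c ∧ Ind S [c.x, c.x'] ∧ RedQ P w d ∧ Ind S [d.x, d.x'] ∧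
        ψ c + ψ d = ψ p1 + ψ q1 := by
    intro ε p1 q1 hε h1 h2 P hP
    have h6 : Red P (th ^ 6) 1 := (hP.pow 6).of_eq rfl hε
    have hu : Red P (algebraMap ℂ Om t * th ^ 6) t :=
      ((Red.const P t).mul h6).of_eq rfl (mul_one t)
    have hu' : Red P (algebraMap ℂ Om t' / th ^ 6) t' :=
      ((Red.const P t').div h6 one_ne_zero).of_eq rfl (div_one t')
    have hσ : Red P (algebraMap ℂ Om σ * th) (σ * ε) := (Red.const P σ).mul hP
    have hy2 : Red P (y ^ 2) (Y ^ 2) :=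
      ((pair_red_rhs P A B A' B' X).sub ((Red.ofNat P 16).mul (hu.add hu'))).of_eq hy.symm
        hp.jeq.symm
    rcases hy2.of_sq with h3 | h3
    · obtain ⟨σ0, c, h4, h5, h6, h7⟩ := pair_red h hz h3 hu hu' hi
      obtain ⟨σ1, d, h8, h9, h10, h11⟩ := pair_red h hw h3.neg hu hu' hi
      rw [h4.unique hσ] at h7
      rw [h8.unique hσ] at h11
      exact ⟨c, d, h5, h6, h9, h10, by rw [pair_uniq h h1 h7 hi, pair_uniq h h2 h11 hi]⟩
    · obtain ⟨σ0, c, h4, h5, h6, h7⟩ := pair_red h hz h3 hu hu' hi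
      obtain ⟨σ1, d, h8, h9, h10, h11⟩ := pair_red h hw (h3.neg.of_eq rfl (neg_neg Y)) hu hu' hi
      rw [h4.unique hσ] at h7
      rw [h8.unique hσ] at h11
      exact ⟨c, d, h5, h6, h9, h10, by
        rw [pair_uniq h h2 h7 hi, pair_uniq h h1 h11 hi, add_comm]⟩
  have h1 := LInv.two h.inv z w 1 (-1) _ _ ⟨hz.hy, hz.hy'⟩ ⟨hw.hy, hw.hy'⟩
    (key 1 p q (by norm_num) (by rwa [mul_one]) (by rwa [mul_one]))
    (key (-1) q.n2 p.n2 (by norm_num) (by simpa using hq.neg) (by simpa using hp.neg))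
  refine pair_half ?_
  rw [h.n2, h.n2] at h1
  rw [neg_add, add_comm (-ψ p)]
  exact h1

/-- The two points on a line through a point at infinity. Family `ρ θ ^ 2`, `τ θ ^ 3`, the two
roots `x` of `3 ρ² n x² + (3 ρ n² + A' ρ - τ² A) x + (n³ + A' n + B' - τ² B)`, `y` a square root.
At `θ = 1` and `θ = -1` the sums are opposite. Use `red_pair`. -/
theorem PH.o4 (h : PH S A B A' B' ψ) {ρ τ n : ℂ} (hρ : ρ ^ 3 = τ ^ 2) (hρ0 : ρ ≠ 0) (hn : n ≠ 0)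
    (hp : EqQ A B A' B' p) (hq : q.y ^ 2 = q.x ^ 3 + A * q.x + B) (hpx : p.x' = ρ * p.x + n)
    (hpy : p.y' = τ * p.y) (hqx : q.x' = ρ * q.x + n) (hqy : q.y' = τ * q.y)
    (hx : 3 * ρ ^ 2 * n * (p.x + q.x) = -(3 * ρ * n ^ 2 + A' * ρ - τ ^ 2 * A))
    (hi : Ind S [p.x, p.x']) (hi' : Ind S [q.x, q.x']) : ψ p + ψ q = 0 := by
  have hth := pair_th_ne
  have hp1 : p.y ^ 2 = p.x ^ 3 + A * p.x + B := hp.1
  have hp2 : p.y' ^ 2 = p.x' ^ 3 + A' * p.x' + B' := hp.2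
  have hd0 : 3 * ρ ^ 2 * n ≠ 0 := mul_ne_zero (mul_ne_zero three_ne_zero (pow_ne_zero 2 hρ0)) hn
  have hprod : 3 * ρ ^ 2 * n * (p.x * q.x) = n ^ 3 + A' * n + B' - τ ^ 2 * B := by
    rw [hpx, hpy] at hp2
    linear_combination p.x * hx + hp2 - τ ^ 2 * hp1 + p.x ^ 3 * hρ
  obtain ⟨r, hr⟩ : ∃ r, r = algebraMap ℂ Om ρ * th ^ 2 := ⟨_, rfl⟩
  obtain ⟨s, hs⟩ : ∃ s, s = algebraMap ℂ Om τ * th ^ 3 := ⟨_, rfl⟩
  obtain ⟨m, hm⟩ : ∃ m, m = algebraMap ℂ Om n := ⟨_, rfl⟩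
  have hrs : r ^ 3 = s ^ 2 := by
    have h1 := congrArg (algebraMap ℂ Om) hρ
    rw [map_pow, map_pow] at h1
    rw [hr, hs]
    linear_combination th ^ 6 * h1
  have hd : 3 * r ^ 2 * m ≠ 0 := by
    rw [hr, hm]
    exact mul_ne_zero (mul_ne_zero three_ne_zero (pow_ne_zero 2 (mul_ne_zero
      ((_root_.map_ne_zero _).2 hρ0) (pow_ne_zero 2 hth)))) ((_root_.map_ne_zero _).2 hn)
  obtain ⟨x1, x2, hsum, hmul⟩ := exists_sum_prod
    (-(3 * r * m ^ 2 + algebraMap ℂ Om A' * r - s ^ 2 * algebraMap ℂ Om A) / (3 * r ^ 2 * m))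
    ((m ^ 3 + algebraMap ℂ Om A' * m + algebraMap ℂ Om B' - s ^ 2 * algebraMap ℂ Om B) /
      (3 * r ^ 2 * m))
  have hsum' := (eq_div_iff hd).1 hsum
  have hmul' := (eq_div_iff hd).1 hmul
  obtain ⟨y1, hy1⟩ := IsAlgClosed.exists_pow_nat_eq
    (x1 ^ 3 + algebraMap ℂ Om A * x1 + algebraMap ℂ Om B) (n := 2) (by norm_num)
  obtain ⟨y2, hy2⟩ := IsAlgClosed.exists_pow_nat_eq
    (x2 ^ 3 + algebraMap ℂ Om A * x2 + algebraMap ℂ Om B) (n := 2) (by norm_num)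
  have he1 : EqQ A B A' B' (⟨x1, y1, r * x1 + m, s * y1⟩ : P4 Om) := by
    refine ⟨hy1, ?_⟩
    show (s * y1) ^ 2 = (r * x1 + m) ^ 3 + algebraMap ℂ Om A' * (r * x1 + m) + algebraMap ℂ Om B'
    linear_combination s ^ 2 * hy1 - x1 * hsum' + hmul' - x1 ^ 3 * hrs
  have he2 : EqQ A B A' B' (⟨x2, y2, r * x2 + m, s * y2⟩ : P4 Om) := by
    refine ⟨hy2, ?_⟩
    show (s * y2) ^ 2 = (r * x2 + m) ^ 3 + algebraMap ℂ Om A' * (r * x2 + m) + algebraMap ℂ Om B'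
    linear_combination s ^ 2 * hy2 - x2 * hsum' + hmul' - x2 ^ 3 * hrs
  have key : ∀ (ε : ℂ) (p1 q1 : P4 ℂ), ε ^ 2 = 1 → p1.x = p.x → p1.y = p.y → p1.x' = p.x' →
      p1.y' = τ * ε ^ 3 * p.y → q1.x = q.x → q1.y = q.y → q1.x' = q.x' →
      q1.y' = τ * ε ^ 3 * q.y → ∀ P : Pl Om, Red P th ε →
      ∃ c d, RedQ P ⟨x1, y1, r * x1 + m, s * y1⟩ c ∧ Ind S [c.x, c.x'] ∧
        RedQ P ⟨x2, y2, r * x2 + m, s * y2⟩ d ∧ Ind S [d.x, d.x'] ∧
        ψ c + ψ d = ψ p1 + ψ q1 := by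
    intro ε p1 q1 hε a1 a2 a3 a4 b1 b2 b3 b4 P hP
    have hrr : Red P r ρ :=
      ((Red.const P ρ).mul (hP.pow 2)).of_eq hr.symm (by rw [hε, mul_one])
    have hss : Red P s (τ * ε ^ 3) := ((Red.const P τ).mul (hP.pow 3)).of_eq hs.symm rfl
    have hs2 : Red P (s ^ 2) (τ ^ 2) :=
      (hss.pow 2).of_eq rfl (by linear_combination τ ^ 2 * (ε ^ 4 + ε ^ 2 + 1) * hε)
    have hmm : Red P m n := (Red.const P n).of_eq hm.symm rfl
    have hdd : Red P (3 * r ^ 2 * m) (3 * ρ ^ 2 * n) :=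
      ((Red.ofNat P 3).mul (hrr.pow 2)).mul hmm
    have h1 : Red P (x1 + x2) (p.x + q.x) :=
      ((((((Red.ofNat P 3).mul hrr).mul (hmm.pow 2)).add ((Red.const P A').mul hrr)).sub
        (hs2.mul (Red.const P A))).neg.div hdd hd0).of_eq hsum.symm
        (by rw [← hx, mul_div_cancel_left₀ _ hd0])
    have h2 : Red P (x1 * x2) (p.x * q.x) :=
      (((((hmm.pow 3).add ((Red.const P A').mul hmm)).add (Red.const P B')).sub
        (hs2.mul (Red.const P B))).div hdd hd0).of_eq hmul.symm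
        (by rw [← hprod, mul_div_cancel_left₀ _ hd0])
    have c1 : p1.y ^ 2 = p1.x ^ 3 + A * p1.x + B := by rw [a1, a2, hp1]
    have c2 : p1.x' = ρ * p1.x + n := by rw [a1, a3, hpx]
    have c3 : p1.y' = τ * ε ^ 3 * p1.y := by rw [a2, a4]
    have c4 : Ind S [p1.x, p1.x'] := by rw [a1, a3]; exact hi
    have d1 : q1.y ^ 2 = q1.x ^ 3 + A * q1.x + B := by rw [b1, b2, hq]
    have d2 : q1.x' = ρ * q1.x + n := by rw [b1, b3, hqx]
    have d3 : q1.y' = τ * ε ^ 3 * q1.y := by rw [b2, b4]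
    have d4 : Ind S [q1.x, q1.x'] := by rw [b1, b3]; exact hi'
    rw [← a1, ← b1] at h1 h2
    rcases red_pair h1 h2 with ⟨h3, h4⟩ | ⟨h3, h4⟩
    · obtain ⟨c, e1, e2, e3⟩ := pair_line h hy1 h3 hrr hss hmm c1 c2 c3 c4
      obtain ⟨d, f1, f2, f3⟩ := pair_line h hy2 h4 hrr hss hmm d1 d2 d3 d4
      exact ⟨c, d, e1, e2, f1, f2, by rw [e3, f3]⟩
    · obtain ⟨c, e1, e2, e3⟩ := pair_line h hy1 h3 hrr hss hmm d1 d2 d3 d4
      obtain ⟨d, f1, f2, f3⟩ := pair_line h hy2 h4 hrr hss hmm c1 c2 c3 c4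
      exact ⟨c, d, e1, e2, f1, f2, by rw [e3, f3, add_comm]⟩
  have h1 := LInv.two h.inv _ _ 1 (-1) _ _ he1 he2
    (key 1 p q (by norm_num) rfl rfl rfl (by rw [hpy]; ring) rfl rfl rfl (by rw [hqy]; ring))
    (key (-1) p.n2 q.n2 (by norm_num) rfl rfl rfl (by show -p.y' = _; rw [hpy]; ring) rfl rfl rfl
      (by show -q.y' = _; rw [hqy]; ring))
  refine pair_half ?_
  rw [h.n2, h.n2] at h1
  rw [neg_add]
  exact h1

theorem pair_neg (h : PH S A B A' B' ψ) (hp : IsLift A B A' B' σ X Y t t' p)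
    (hq : IsLift A B A' B' (-σ) X Y t t' q) (hi : Ind S [t, X]) : ψ q = ψ p := by
  have h1 := h.o1 hp (by simpa using hq.neg) hi
  rw [h.n2, ← sub_eq_add_neg, sub_eq_zero] at h1
  exact h1.symm

theorem pair_om (h : PH S A B A' B' ψ) {ω : ℂ} (hω : ω ^ 2 + ω + 1 = 0)
    (hp : IsLift A B A' B' σ X Y t t' p) (hq : IsLift A B A' B' (ω * σ) X Y t t' q)
    (hi : Ind S [t, X]) : ψ q = ψ p := by
  have h3 : ω ^ 3 = 1 := by linear_combination (ω - 1) * hω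
  have hω0 : ω ≠ 0 := left_ne_zero_of_mul hq.ne
  obtain ⟨ρ, hρ⟩ : ∃ ρ, ρ = ω * σ ^ 2 := ⟨_, rfl⟩
  obtain ⟨n, hn⟩ : ∃ n, q.x' = ρ * q.x + n := ⟨q.x' - ρ * q.x, by ring⟩
  have hρ0 : ρ ≠ 0 := by
    rw [hρ]
    exact mul_ne_zero hω0 (pow_ne_zero 2 hp.ne)
  have hn0 : n ≠ 0 := by
    rintro rfl
    have hl := cl_le_insert S t
    have hσ := lift_sigma_mem (hl h.hA) (hl h.hB) h.hd (mem_cl_insert S t) hq.ht
    refine hi.2.1 (lift_mem_of_mul (pow_mem hσ 2) (pow_ne_zero 2 hq.ne) ?_)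
    have h1 : (ω * σ) ^ 2 * X = 4 * ((ω * σ) ^ 4 * A + A') := by
      rw [hq.hX, hn, hρ]
      linear_combination 12 * ω ^ 2 * σ ^ 4 * q.x ^ 2 * hω
    rw [h1]
    exact mul_mem (ofNat_mem _ _) (add_mem (mul_mem (pow_mem hσ 4) (hl h.hA)) (hl h.hA'))
  have hd0 : 3 * ρ ^ 2 * n ≠ 0 := mul_ne_zero (mul_ne_zero three_ne_zero (pow_ne_zero 2 hρ0)) hn0
  obtain ⟨x2, hx2⟩ : ∃ x2, 3 * ρ ^ 2 * n * (q.x + x2) = -(3 * ρ * n ^ 2 + A' * ρ - σ ^ 6 * A) :=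
    ⟨-(3 * ρ * n ^ 2 + A' * ρ - σ ^ 6 * A) / (3 * ρ ^ 2 * n) - q.x, by
      rw [add_sub_cancel, mul_div_cancel₀ _ hd0]⟩
  obtain ⟨y2, hy2⟩ := IsAlgClosed.exists_pow_nat_eq (x2 ^ 3 + A * x2 + B) (n := 2) (by norm_num)
  have hr := IsLift.omega hω hq hρ hn hn0 hx2 hy2
  have h1 := h.o1 hp hr hi
  have h2 := h.o4 (p := q) (q := ⟨x2, y2, ρ * x2 + n, σ ^ 3 * y2⟩) (ρ := ρ) (τ := σ ^ 3) (n := n)
    (by rw [hρ]; linear_combination σ ^ 6 * h3) hρ0 hn0 ⟨hq.hy, hq.hy'⟩ hy2 hn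
    (by rw [hq.hs, mul_pow, h3, one_mul]) rfl rfl (by linear_combination hx2)
    (hq.ind_xx h.hA h.hB h.hA' h.hB' hi) (hr.ind_xx h.hA h.hB h.hA' h.hB' hi)
  exact add_right_cancel (h2.trans h1.symm)

/-- The value does not depend on the lift. `σ' / σ` is a sixth root of unity. For `-1` use `o1`
and `IsLift.neg`. For `ω` use `IsLift.omega`, `o4`, `o1`. There `n ≠ 0`, since otherwise
`u² + u x' + x'² = 0` and `X ∈ cl (insert t S)`. -/
theorem PH.same (h : PH S A B A' B' ψ) (hp : IsLift A B A' B' σ X Y t t' p)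
    (hq : IsLift A B A' B' σ' X Y t t' q) (hi : Ind S [t, X]) : ψ q = ψ p := by
  obtain ⟨ζ, rfl⟩ : ∃ ζ, σ' = ζ * σ := ⟨σ' / σ, (div_mul_cancel₀ _ hp.ne).symm⟩
  have h6 : (ζ - 1) * (ζ + 1) * (ζ ^ 2 + ζ + 1) * ((-ζ) ^ 2 + -ζ + 1) = 0 := by
    refine mul_left_cancel₀ (pair_t_ne hi) ?_
    linear_combination hq.ht - ζ ^ 6 * hp.ht
  rcases mul_eq_zero.1 h6 with h1 | h1
  · rcases mul_eq_zero.1 h1 with h1 | h1
    · rcases mul_eq_zero.1 h1 with h1 | h1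
      · rw [sub_eq_zero.1 h1, one_mul] at hq
        exact pair_uniq h hp hq hi
      · rw [eq_neg_of_add_eq_zero_left h1, neg_one_mul] at hq
        exact pair_neg h hp hq hi
    · exact pair_om h h1 hp hq hi
  · have h2 : (-σ) ^ 6 * dsc A B = t := by linear_combination hp.ht
    obtain ⟨r, hr⟩ := exists_lift (neg_ne_zero.2 hp.ne) h2 (by linear_combination hp.ht') hp.jeq
      (mx_ne_zero h.hA h.hB h.hA' h.hd hi h2)
    rw [pair_om h h1 hr (by rwa [neg_mul_neg]) hi, pair_neg h hp hr hi]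

theorem PH.opp (h : PH S A B A' B' ψ) (hp : IsLift A B A' B' σ X Y t t' p)
    (hq : IsLift A B A' B' σ' X (-Y) t t' q) (hi : Ind S [t, X]) : ψ q = -ψ p := by
  rw [h.same hp.neg hq hi, h.n2]

/-- Family `θ Y` with `X` fixed, `t, t'` given by their sum (from `JEq`) and product. -/
theorem PH.jodd (h : PH S A B A' B' ψ) (hp : IsLift A B A' B' σ X Y t t' p)
    (hq : IsLift A B A' B' σ' X Y t' t q) (hi : Ind S [t, X]) : ψ q = -ψ p := by
  have hm : t * t' ∈ cl S := by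
    rw [hp.mul]
    exact mul_mem (lift_dsc_mem h.hA h.hB) (lift_dsc_mem h.hA' h.hB')
  have hi' : Ind S [t', X] := ind_swap_t hm (by rw [hp.mul]; exact mul_ne_zero h.hd h.hd') hi
  obtain ⟨u, u', hsum, hmul⟩ := exists_sum_prod
    ((algebraMap ℂ Om X ^ 3 - 48 * (algebraMap ℂ Om A * algebraMap ℂ Om A') *
      algebraMap ℂ Om X + 864 * (algebraMap ℂ Om B * algebraMap ℂ Om B') -
      (algebraMap ℂ Om Y * th) ^ 2) / 16)
    (dsc (algebraMap ℂ Om A) (algebraMap ℂ Om B) * dsc (algebraMap ℂ Om A') (algebraMap ℂ Om B'))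
  have hJ : JEq (algebraMap ℂ Om A * algebraMap ℂ Om A') (algebraMap ℂ Om B * algebraMap ℂ Om B')
      (algebraMap ℂ Om X) (algebraMap ℂ Om Y * th) u u' := by
    unfold JEq
    linear_combination 16 * hsum
  have hJ' : JEq (algebraMap ℂ Om A * algebraMap ℂ Om A') (algebraMap ℂ Om B * algebraMap ℂ Om B')
      (algebraMap ℂ Om X) (algebraMap ℂ Om Y * th) u' u := by
    unfold JEq
    linear_combination 16 * hsum
  have hred : ∀ (ε : ℂ) (P : Pl Om), ε ^ 2 = 1 → Red P th ε →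
      (Red P u t ∧ Red P u' t') ∨ (Red P u t' ∧ Red P u' t) := by
    intro ε P hε hP
    have h1 := hp.jeq
    unfold JEq at h1
    refine red_pair ?_ ?_
    · refine (((pair_red_rhs P A B A' B' X).sub (((Red.const P Y).mul hP).pow 2)).div
        (Red.ofNat P 16) (by norm_num)).of_eq hsum.symm ?_
      linear_combination (-1 / 16 : ℂ) * h1 - (1 / 16 : ℂ) * Y ^ 2 * hε
    · exact ((lift_red_dsc (Red.const P A) (Red.const P B)).mul
        (lift_red_dsc (Red.const P A') (Red.const P B'))).of_eq hmul.symm hp.mul.symm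
  have hex : ∀ (v v' : Om) (P : Pl Om) (t0 : ℂ), JEq (algebraMap ℂ Om A * algebraMap ℂ Om A')
      (algebraMap ℂ Om B * algebraMap ℂ Om B') (algebraMap ℂ Om X) (algebraMap ℂ Om Y * th) v v' →
      v * v' = u * u' → Red P v t0 → Ind S [t0, X] →
      ∃ s z, IsLift (algebraMap ℂ Om A) (algebraMap ℂ Om B) (algebraMap ℂ Om A')
        (algebraMap ℂ Om B') s (algebraMap ℂ Om X) (algebraMap ℂ Om Y * th) v v' z :=
    fun v v' P t0 h1 h2 h3 h4 => exists_lift_om h1 (h2.trans hmul) (Red.const P A) (Red.const P B)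
      (Red.const P A') (Red.const P X) h3 h.hd (pair_t_ne h4)
      fun _ h0 => mx_ne_zero h.hA h.hB h.hA' h.hd h4 h0
  obtain ⟨⟨s, z, hz⟩, s', w, hw⟩ : (∃ s z, IsLift (algebraMap ℂ Om A) (algebraMap ℂ Om B)
      (algebraMap ℂ Om A') (algebraMap ℂ Om B') s (algebraMap ℂ Om X) (algebraMap ℂ Om Y * th)
      u u' z) ∧ ∃ s z, IsLift (algebraMap ℂ Om A) (algebraMap ℂ Om B) (algebraMap ℂ Om A')
      (algebraMap ℂ Om B') s (algebraMap ℂ Om X) (algebraMap ℂ Om Y * th) u' u z := by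
    obtain ⟨P, hP⟩ := exists_place_red th_trans 1
    rcases hred 1 P (by norm_num) hP with ⟨h1, h2⟩ | ⟨h1, h2⟩
    · exact ⟨hex u u' P t hJ rfl h1 hi, hex u' u P t' hJ' (mul_comm _ _) h2 hi'⟩
    · exact ⟨hex u u' P t' hJ rfl h1 hi', hex u' u P t hJ' (mul_comm _ _) h2 hi⟩
  have key : ∀ (ε s1 s2 : ℂ) (p1 q1 : P4 ℂ), ε ^ 2 = 1 →
      IsLift A B A' B' s1 X (Y * ε) t t' p1 → IsLift A B A' B' s2 X (Y * ε) t' t q1 →
      ∀ P : Pl Om, Red P th ε →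
      ∃ c d, RedQ P z c ∧ Ind S [c.x, c.x'] ∧ RedQ P w d ∧ Ind S [d.x, d.x'] ∧
        ψ c + ψ d = ψ p1 + ψ q1 := by
    intro ε s1 s2 p1 q1 hε h1 h2 P hP
    have hY := (Red.const P Y).mul hP
    rcases hred ε P hε hP with ⟨h3, h4⟩ | ⟨h3, h4⟩
    · obtain ⟨σ0, c, -, h5, h6, h7⟩ := pair_red h hz hY h3 h4 hi
      obtain ⟨σ1, d, -, h9, h10, h11⟩ := pair_red h hw hY h4 h3 hi'
      exact ⟨c, d, h5, h6, h9, h10, by rw [h.same h1 h7 hi, h.same h2 h11 hi']⟩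
    · obtain ⟨σ0, c, -, h5, h6, h7⟩ := pair_red h hz hY h3 h4 hi'
      obtain ⟨σ1, d, -, h9, h10, h11⟩ := pair_red h hw hY h4 h3 hi
      exact ⟨c, d, h5, h6, h9, h10, by rw [h.same h2 h7 hi', h.same h1 h11 hi, add_comm]⟩
  have h1 := LInv.two h.inv z w 1 (-1) _ _ ⟨hz.hy, hz.hy'⟩ ⟨hw.hy, hw.hy'⟩
    (key 1 σ σ' p q (by norm_num) (by rwa [mul_one]) (by rwa [mul_one]))
    (key (-1) (-σ) (-σ') p.n2 q.n2 (by norm_num) (by simpa using hp.neg) (by simpa using hq.neg))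
  rw [h.n2, h.n2, ← neg_add] at h1
  exact eq_neg_of_add_eq_zero_right (pair_half h1)

end Pool.Agent.P.MP_a2ccc3_ag
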