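import Pool.Agent.P.MP_a2ccc3_ag.Core

/-! Values of functions at places. -/

open Polynomial

noncomputable section

namespace Pool.Agent.P.MP_a2ccc3_ag

theorem exists_split {K : Type} [Field K] [IsAlgClosed K] (f : K[X]) {n : ℕ}
    (hf : f.natDegree ≤ n) (hn : f.coeff n ≠ 0) :
    ∃ r : Fin n → K, f = C (f.coeff n) * ∏ j, (X - C (r j)) := by
  have hd : f.natDegree = n := le_antisymm hf (le_natDegree_of_ne_zero hn)
  have h1 := (IsAlgClosed.splits f).eq_prod_roots
  have h2 : f.roots.card = n := by rw [IsAlgClosed.card_roots_eq_natDegree, hd]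
  obtain ⟨l, hl⟩ := Quotient.exists_rep f.roots
  have h3 : f.roots = (l : Multiset K) := hl.symm
  rw [h3, Multiset.coe_card] at h2
  rw [h3, leadingCoeff, hd, Multiset.map_coe, Multiset.prod_coe] at h1
  subst h2
  refine ⟨fun j => l[j.1], ?_⟩
  rw [Fin.prod_univ_fun_getElem l fun r => X - C r]
  exact h1

theorem exists_sum_prod {K : Type} [Field K] [IsAlgClosed K] (u v : K) :
    ∃ s t, s + t = u ∧ s * t = v := by
  have hd : (C 1 * X ^ 2 + C (-u) * X + C v : K[X]).degree ≠ 0 := by
    rw [degree_quadratic one_ne_zero]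
    decide
  obtain ⟨s, hs⟩ := IsAlgClosed.exists_root _ hd
  simp only [IsRoot.def, eval_add, eval_mul, eval_C, eval_pow, eval_X] at hs
  exact ⟨s, u - s, by ring, by linear_combination -hs⟩

section

variable {K : Type} [Field K] [Algebra ℂ K] {P : Pl K} {x y : K} {a b : ℂ}

theorem redAux_mul {x y : K} (hx : x ∈ P.O) (hy : y ∈ P.O.nonunits) : x * y ∈ P.O.nonunits := by
  rw [ValuationSubring.mem_nonunits_iff] at hy ⊢
  rw [map_mul]
  exact mul_lt_one_of_nonneg_of_lt_one_right ((P.O.valuation_le_one_iff _).2 hx) zero_le hy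

theorem redAux_one : (1 : K) ∉ P.O.nonunits := by
  rw [ValuationSubring.mem_nonunits_iff, map_one]
  exact lt_irrefl _

theorem redAux_prime {x y : K} (h : x * y ∈ P.O.nonunits) :
    x ∈ P.O.nonunits ∨ y ∈ P.O.nonunits := by
  simp only [ValuationSubring.mem_nonunits_iff] at h ⊢
  by_contra hc
  push Not at hc
  rw [map_mul] at h
  exact absurd h (not_lt.2 (one_le_mul hc.1 hc.2))

theorem redAux_prod {ι : Type} (s : Finset ι) {f : ι → K} (h : ∏ i ∈ s, f i ∈ P.O.nonunits) :
    ∃ i ∈ s, f i ∈ P.O.nonunits := by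
  classical
  induction s using Finset.induction_on with
  | empty => exact absurd (by simpa using h) redAux_one
  | insert i s hi ih =>
    rw [Finset.prod_insert hi] at h
    rcases redAux_prime h with h | h
    · exact ⟨i, Finset.mem_insert_self _ _, h⟩
    · obtain ⟨j, hj, h1⟩ := ih h
      exact ⟨j, Finset.mem_insert_of_mem hj, h1⟩

theorem redAux_const {c : ℂ} (h : algebraMap ℂ K c ∈ P.O.nonunits) : c = 0 := by
  by_contra hc
  have h1 := redAux_mul (P.const_mem c⁻¹) h
  rw [← map_mul, inv_mul_cancel₀ hc, map_one] at h1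
  exact redAux_one h1

theorem redAux_zero : Red P x 0 ↔ x ∈ P.O.nonunits := by
  rw [Red, map_zero, sub_zero]

theorem redAux_inv (h : x ∉ P.O) : Red P x⁻¹ 0 :=
  redAux_zero.2 (P.O.inv_mem_nonunits_iff.2 (Or.inr h))

theorem Red.const (P : Pl K) (c : ℂ) : Red P (algebraMap ℂ K c) c := by
  rw [Red, sub_self]
  exact P.O.nonunits.zero_mem

theorem Red.zero (P : Pl K) : Red P 0 0 := by simpa using Red.const P 0

theorem Red.one (P : Pl K) : Red P 1 1 := by simpa using Red.const P 1

theorem Red.natCast (P : Pl K) (n : ℕ) : Red P (n : K) (n : ℂ) := by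
  simpa using Red.const P (n : ℂ)

theorem Red.ofNat (P : Pl K) (n : ℕ) [n.AtLeastTwo] :
    Red P (OfNat.ofNat n : K) (OfNat.ofNat n : ℂ) := Red.natCast P n

theorem Red.mem (h : Red P x a) : x ∈ P.O := by
  have h1 := add_mem (P.O.nonunits_subset h) (P.const_mem a)
  rwa [sub_add_cancel] at h1

theorem Red.add (h : Red P x a) (h' : Red P y b) : Red P (x + y) (a + b) := by
  have h1 := P.O.nonunits.add_mem h h'
  rw [Red, map_add]
  convert h1 using 1
  ring

theorem Red.neg (h : Red P x a) : Red P (-x) (-a) := by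
  have h1 := P.O.nonunits.neg_mem h
  rw [Red, map_neg]
  convert h1 using 1
  ring

theorem Red.sub (h : Red P x a) (h' : Red P y b) : Red P (x - y) (a - b) := by
  rw [sub_eq_add_neg, sub_eq_add_neg]
  exact h.add h'.neg

theorem Red.mul (h : Red P x a) (h' : Red P y b) : Red P (x * y) (a * b) := by
  have h1 := P.O.nonunits.add_mem (redAux_mul h.mem h') (redAux_mul (P.const_mem b) h)
  rw [Red, map_mul]
  convert h1 using 1
  ring

theorem Red.pow (h : Red P x a) (n : ℕ) : Red P (x ^ n) (a ^ n) := by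
  induction n with
  | zero => simpa using Red.one P
  | succ n ih => rw [pow_succ, pow_succ]; exact ih.mul h

theorem Red.unique (h : Red P x a) (h' : Red P x b) : a = b := by
  have h1 : Red P (x - x) (a - b) := h.sub h'
  rw [Red, sub_self, zero_sub, ← map_neg] at h1
  have h2 := redAux_const h1
  linear_combination -h2

theorem Red.ne_zero (h : Red P x a) (ha : a ≠ 0) : x ≠ 0 := by
  rintro rfl
  exact ha (h.unique (Red.zero P))

theorem Red.inv (h : Red P x a) (ha : a ≠ 0) : Red P x⁻¹ a⁻¹ := by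
  have hx := h.ne_zero ha
  have h1 : x⁻¹ ∈ P.O := by
    by_contra h2
    exact ha (h.unique (redAux_zero.2 (P.O.mem_nonunits_iff_or.2 (Or.inr h2))))
  have h2 := P.O.nonunits.neg_mem (redAux_mul (mul_mem h1 (P.const_mem a⁻¹)) h)
  have h3 : algebraMap ℂ K a ≠ 0 := by simpa using ha
  rw [Red]
  convert h2 using 1
  rw [map_inv₀]
  field_simp
  ring

theorem Red.div (h : Red P x a) (h' : Red P y b) (hb : b ≠ 0) : Red P (x / y) (a / b) := by
  rw [div_eq_mul_inv, div_eq_mul_inv]
  exact h.mul (h'.inv hb)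

/-- Equations between functions pass to the values. -/
theorem Red.eq_of_eq (h : Red P x a) (h' : Red P y b) (hxy : x = y) : a = b :=
  h.unique (hxy ▸ h')

theorem Red.of_eq (h : Red P x a) (hxy : x = y) (hab : a = b) : Red P y b := hxy ▸ hab ▸ h

theorem Red.sum {ι : Type} (s : Finset ι) {f : ι → K} {g : ι → ℂ}
    (h : ∀ i ∈ s, Red P (f i) (g i)) : Red P (∑ i ∈ s, f i) (∑ i ∈ s, g i) := by
  classical
  induction s using Finset.induction_on with
  | empty => simpa using Red.zero P
  | insert i s hi ih =>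
    rw [Finset.sum_insert hi, Finset.sum_insert hi]
    exact (h i (Finset.mem_insert_self _ _)).add (ih fun j hj => h j (Finset.mem_insert_of_mem hj))

theorem Red.prod {ι : Type} (s : Finset ι) {f : ι → K} {g : ι → ℂ}
    (h : ∀ i ∈ s, Red P (f i) (g i)) : Red P (∏ i ∈ s, f i) (∏ i ∈ s, g i) := by
  classical
  induction s using Finset.induction_on with
  | empty => simpa using Red.one P
  | insert i s hi ih =>
    rw [Finset.prod_insert hi, Finset.prod_insert hi]
    exact (h i (Finset.mem_insert_self _ _)).mul (ih fun j hj => h j (Finset.mem_insert_of_mem hj))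

theorem Red.mv {σ : Type} {u : σ → K} {c : σ → ℂ} (h : ∀ i, Red P (u i) (c i))
    (G : MvPolynomial σ ℂ) : Red P (MvPolynomial.aeval u G) (MvPolynomial.aeval c G) := by
  induction G using MvPolynomial.induction_on with
  | C r => simpa using Red.const P r
  | add p q hp hq => rw [map_add, map_add]; exact hp.add hq
  | mul_X p i hp =>
    rw [map_mul, map_mul, MvPolynomial.aeval_X, MvPolynomial.aeval_X]
    exact hp.mul (h i)

theorem Red.aeval (h : Red P x a) (p : ℂ[X]) : Red P (aeval x p) (aeval a p) := by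
  induction p using Polynomial.induction_on with
  | C r => simpa using Red.const P r
  | add p q hp hq => rw [map_add, map_add]; exact hp.add hq
  | monomial n r hp =>
    rw [pow_succ, ← mul_assoc, map_mul, map_mul (Polynomial.aeval a), aeval_X, aeval_X]
    exact hp.mul h

theorem Red.eval (h : Red P x a) (p : ℂ[X]) : Red P (Polynomial.aeval x p) (p.eval a) := by
  have h1 := h.aeval p
  rwa [coe_aeval_eq_eval] at h1

theorem Red.ev (h : Red P x a) (h' : Red P y b) (Q : Quart) : Red P (Q.ev x y) (Q.ev a b) :=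
  (((((h.aeval Q.a).mul (h'.pow 4)).add ((h.aeval Q.b).mul (h'.pow 3))).add
    ((h.aeval Q.c).mul (h'.pow 2))).add ((h.aeval Q.d).mul h')).add (h.aeval Q.e)

theorem EqF.red {Q1 Q2 : Quart} {p : P5 K} {c : P5 ℂ} (h : EqF Q1 Q2 p) (hr : RedP P p c) :
    EqF Q1 Q2 c :=
  ⟨(hr.2.2.1.pow 2).eq_of_eq (hr.1.ev hr.2.1 Q1) h.1,
    (hr.2.2.2.2.pow 2).eq_of_eq (hr.1.ev hr.2.2.2.1 Q2) h.2⟩

theorem EqS.red {Q : Quart} {p : P3 K} {c : P3 ℂ} (h : EqS Q p) (hr : RedS P p c) : EqS Q c :=
  (hr.2.2.pow 2).eq_of_eq (hr.1.ev hr.2.1 Q) h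

/-- If the square of `x` takes the value `a ^ 2` then `x` takes the value `a` or `-a`. -/
theorem Red.of_sq (h : Red P (x ^ 2) (a ^ 2)) : Red P x a ∨ Red P x (-a) := by
  refine redAux_prime ?_
  rw [Red, map_pow] at h
  rw [map_neg]
  convert h using 1
  ring

/-- If a nonzero constant polynomial vanishes on `x` at the place then `x` has a value. -/
theorem redAux_root {n : ℕ} {f : ℂ[X]} (hf : f.natDegree ≤ n) (hn : f.coeff n ≠ 0)
    (h : Red P (Polynomial.aeval x f) 0) : ∃ c, Red P x c := by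
  obtain ⟨ρ, hρ⟩ := exists_split f hf hn
  rw [redAux_zero, hρ, map_mul, aeval_C, map_prod] at h
  rcases redAux_prime h with h | h
  · exact absurd (redAux_const h) hn
  · obtain ⟨j, -, hj⟩ := redAux_prod _ h
    rw [map_sub, aeval_X, aeval_C] at hj
    exact ⟨ρ j, hj⟩

/-- Roots of unity trick: an element with a power in the valuation ring has a value. -/
theorem Red.of_pow {n : ℕ} (hn : n ≠ 0) (h : Red P (x ^ n) a) : ∃ c, Red P x c ∧ c ^ n = a := by
  have h1 : (X ^ n - C a : ℂ[X]).coeff n ≠ 0 := by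
    rw [coeff_sub, coeff_X_pow_self, coeff_C_of_ne_zero hn, sub_zero]
    exact one_ne_zero
  obtain ⟨c, hc⟩ := redAux_root (P := P) (x := x) (natDegree_X_pow_sub_C (n := n)).le h1 (by
    rw [redAux_zero, map_sub, map_pow, aeval_X, aeval_C]
    exact h)
  exact ⟨c, hc, (hc.pow n).unique h⟩

/-- A root of a polynomial whose reduction has the same degree has a value. -/
theorem redAux_root2 {n : ℕ} {g : K[X]} {f : ℂ[X]} (hg : g.natDegree ≤ n) (hf : f.natDegree ≤ n)
    (hn : f.coeff n ≠ 0) (h : ∀ i, Red P (g.coeff i) (f.coeff i)) (hx : g.eval x = 0) :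
    ∃ c, Red P x c := by
  rw [eval_eq_sum_range' (Nat.lt_succ_of_le hg)] at hx
  have h1 : x ∈ P.O := by
    by_contra h2
    have h3 : x ≠ 0 := fun h4 => h2 (h4 ▸ P.O.zero_mem)
    have h4 := Red.sum (Finset.range (n + 1)) fun i _ => (h i).mul ((redAux_inv h2).pow (n - i))
    have h5 : ∑ i ∈ Finset.range (n + 1), g.coeff i * x⁻¹ ^ (n - i) = 0 := by
      rw [← zero_mul (x⁻¹ ^ n), ← hx, Finset.sum_mul]
      refine Finset.sum_congr rfl fun i hi => ?_
      obtain ⟨k, rfl⟩ := Nat.exists_eq_add_of_le (Nat.lt_succ_iff.1 (Finset.mem_range.1 hi))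
      rw [Nat.add_sub_cancel_left, pow_add, mul_assoc, ← mul_assoc (x ^ i), ← mul_pow,
        mul_inv_cancel₀ h3, one_pow, one_mul]
    have h6 : ∑ i ∈ Finset.range (n + 1), f.coeff i * (0 : ℂ) ^ (n - i) = f.coeff n := by
      rw [Finset.sum_range_succ, Nat.sub_self, pow_zero, mul_one, Finset.sum_eq_zero, zero_add]
      intro i hi
      rw [zero_pow (Nat.sub_ne_zero_of_lt (Finset.mem_range.1 hi)), mul_zero]
    rw [h5, h6] at h4
    exact hn (h4.unique (Red.zero P))
  refine redAux_root hf hn (redAux_zero.2 ?_)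
  rw [aeval_eq_sum_range' (Nat.lt_succ_of_le hf), ← sub_zero (∑ i ∈ _, _), ← hx,
    ← Finset.sum_sub_distrib]
  refine sum_mem fun i _ => ?_
  have h2 := P.O.nonunits.neg_mem (redAux_mul (pow_mem h1 i) (h i))
  rw [Algebra.smul_def]
  convert h2 using 1
  ring

theorem redAux_pmul {g g' : K[X]} {f f' : ℂ[X]} (h : ∀ i, Red P (g.coeff i) (f.coeff i))
    (h' : ∀ i, Red P (g'.coeff i) (f'.coeff i)) (i : ℕ) :
    Red P ((g * g').coeff i) ((f * f').coeff i) := by
  rw [coeff_mul, coeff_mul]
  exact Red.sum _ fun p _ => (h p.1).mul (h' p.2)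

theorem redAux_pC (h : Red P x a) (i : ℕ) : Red P ((C x).coeff i) ((C a).coeff i) := by
  rw [coeff_C, coeff_C]
  split_ifs
  · exact h
  · exact Red.zero P

theorem redAux_pX (h : Red P x a) (i : ℕ) : Red P ((X - C x).coeff i) ((X - C a).coeff i) := by
  rw [coeff_sub, coeff_sub]
  refine Red.sub ?_ (redAux_pC h i)
  rw [coeff_X, coeff_X]
  split_ifs
  · exact Red.one P
  · exact Red.zero P

theorem redAux_pprod {ι : Type} (s : Finset ι) {r : ι → K} {ρ : ι → ℂ}
    (h : ∀ j, Red P (r j) (ρ j)) (i : ℕ) :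
    Red P ((∏ j ∈ s, (X - C (r j))).coeff i) ((∏ j ∈ s, (X - C (ρ j))).coeff i) := by
  classical
  induction s using Finset.induction_on generalizing i with
  | empty =>
    rw [Finset.prod_empty, Finset.prod_empty, ← C_1, ← C_1]
    exact redAux_pC (Red.one P) i
  | insert j s hj ih =>
    rw [Finset.prod_insert hj, Finset.prod_insert hj]
    exact redAux_pmul (redAux_pX (h j)) ih i

/-- The roots of a split polynomial take values, and these are the roots of the reduction. -/
theorem red_roots {n : ℕ} (l : K) (r : Fin n → K) (f : ℂ[X]) (hf : f.natDegree ≤ n)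
    (hn : f.coeff n ≠ 0)
    (h : ∀ i, Red P ((C l * ∏ j, (X - C (r j))).coeff i) (f.coeff i)) :
    ∃ ρ : Fin n → ℂ, (∀ j, Red P (r j) (ρ j)) ∧ f = C (f.coeff n) * ∏ j, (X - C (ρ j)) := by
  have hm : (∏ j, (X - C (r j))).Monic := monic_prod_of_monic _ _ fun j _ => monic_X_sub_C _
  have hd : (∏ j, (X - C (r j))).natDegree = n := by
    rw [natDegree_prod_of_monic _ _ fun j _ => monic_X_sub_C _]
    simp
  have hl : Red P l (f.coeff n) := by
    have h1 := h n
    have h2 := hm.coeff_natDegree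
    rw [hd] at h2
    rwa [coeff_C_mul, h2, mul_one] at h1
  have h1 : ∀ j, ∃ c, Red P (r j) c := fun j =>
    redAux_root2 ((natDegree_C_mul_le _ _).trans hd.le) hf hn h (by
      rw [eval_mul, eval_prod, Finset.prod_eq_zero (Finset.mem_univ j) (by simp), mul_zero])
  choose ρ hρ using h1
  refine ⟨ρ, hρ, Polynomial.ext fun i => ?_⟩
  exact (h i).unique (redAux_pmul (redAux_pC hl) (redAux_pprod _ hρ) i)

/-- Two numbers given by their sum and product. -/
theorem red_pair {s t : K} (h1 : Red P (s + t) (a + b)) (h2 : Red P (s * t) (a * b)) :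
    (Red P s a ∧ Red P t b) ∨ (Red P s b ∧ Red P t a) := by
  have hs : s ∈ P.O := by
    by_contra h3
    have h4 : s ≠ 0 := fun h5 => h3 (h5 ▸ P.O.zero_mem)
    have h5 := redAux_inv h3
    have h6 := (h1.mul h5).sub ((h2.mul h5).mul h5)
    have h7 := (Red.one P).eq_of_eq h6 (by field_simp; ring)
    simp at h7
  have h3 : (s - algebraMap ℂ K a) * (s - algebraMap ℂ K b) ∈ P.O.nonunits := by
    have h4 := P.O.nonunits.sub_mem (redAux_mul hs h1) h2
    rw [map_add, map_mul] at h4
    convert h4 using 1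
    ring
  rcases redAux_prime h3 with h | h
  · exact Or.inl ⟨h, (h1.sub h).of_eq (by ring) (by ring)⟩
  · exact Or.inr ⟨h, (h1.sub h).of_eq (by ring) (by ring)⟩

end

end Pool.Agent.P.MP_a2ccc3_ag
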